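import Mathlib

open Metric Set Filter Topology Complex

namespace Pool.Agent.MP_ff3f8e_an.H65

namespace Rect

lemma log_neg_of_im_pos {z : ℂ} (h : 0 < z.im) : log (-z) = log z - Real.pi * I := by
  simp only [log, norm_neg, arg_neg_eq_arg_sub_pi_of_im_pos h]
  push_cast
  ring

lemma log_neg_of_im_neg {z : ℂ} (h : z.im < 0) : log (-z) = log z + Real.pi * I := by
  simp only [log, norm_neg, arg_neg_eq_arg_add_pi_of_im_neg h]
  push_cast
  ring

lemma horiz (a b c : ℝ) (w : ℂ) (hc : c ≠ w.im) :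
    ∫ x in a..b, ((x : ℂ) + c * I - w)⁻¹ = log (b + c * I - w) - log (a + c * I - w) := by
  have hs : ∀ x : ℝ, (x : ℂ) + c * I - w ∈ slitPlane := fun x => by
    right
    simpa [sub_eq_zero] using hc
  have hd : ∀ x : ℝ, HasDerivAt (fun x : ℝ => log ((x : ℂ) + c * I - w))
      ((x : ℂ) + c * I - w)⁻¹ x := fun x => by
    have h1 : HasDerivAt (fun z : ℂ => z + c * I - w) 1 (x : ℂ) :=
      ((hasDerivAt_id (x : ℂ)).add_const _).sub_const _
    have h2 := (h1.clog (hs x)).comp_ofReal
    simpa only [one_div] using h2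
  refine intervalIntegral.integral_eq_sub_of_hasDerivAt (fun x _ => hd x) ?_
  refine Continuous.intervalIntegrable ?_ _ _
  exact Continuous.inv₀ (by fun_prop) fun x => slitPlane_ne_zero (hs x)

lemma right (b c d : ℝ) (w : ℂ) (hb : w.re < b) :
    I * ∫ y in c..d, ((b : ℂ) + y * I - w)⁻¹ = log (b + d * I - w) - log (b + c * I - w) := by
  have hs : ∀ y : ℝ, (b : ℂ) + y * I - w ∈ slitPlane := fun y => by
    left
    simpa using hb
  have hd : ∀ y : ℝ, HasDerivAt (fun y : ℝ => log ((b : ℂ) + y * I - w))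
      (I * ((b : ℂ) + y * I - w)⁻¹) y := fun y => by
    have h1 : HasDerivAt (fun z : ℂ => (b : ℂ) + z * I - w) I (y : ℂ) := by
      simpa using (((hasDerivAt_id (y : ℂ)).mul_const I).const_add (b : ℂ)).sub_const w
    have h2 := (h1.clog (hs y)).comp_ofReal
    simpa only [div_eq_mul_inv] using h2
  rw [← intervalIntegral.integral_const_mul]
  refine intervalIntegral.integral_eq_sub_of_hasDerivAt (fun x _ => hd x) ?_
  refine Continuous.intervalIntegrable ?_ _ _
  exact continuous_const.mul (Continuous.inv₀ (by fun_prop) fun x => slitPlane_ne_zero (hs x))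

lemma left (a c d : ℝ) (w : ℂ) (ha : a < w.re) :
    I * ∫ y in c..d, ((a : ℂ) + y * I - w)⁻¹ =
      log (-(a + d * I - w)) - log (-(a + c * I - w)) := by
  have hs : ∀ y : ℝ, -((a : ℂ) + y * I - w) ∈ slitPlane := fun y => by
    left
    simpa using ha
  have hne : ∀ y : ℝ, (a : ℂ) + y * I - w ≠ 0 := fun y => neg_ne_zero.1 (slitPlane_ne_zero (hs y))
  have hd : ∀ y : ℝ, HasDerivAt (fun y : ℝ => log (-((a : ℂ) + y * I - w)))
      (I * ((a : ℂ) + y * I - w)⁻¹) y := fun y => by
    have h1 : HasDerivAt (fun z : ℂ => -((a : ℂ) + z * I - w)) (-I) (y : ℂ) := by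
      have h0 : HasDerivAt (fun z : ℂ => (a : ℂ) + z * I - w) I (y : ℂ) := by
        simpa using (((hasDerivAt_id (y : ℂ)).mul_const I).const_add (a : ℂ)).sub_const w
      exact h0.neg
    have h2 := (h1.clog (hs y)).comp_ofReal
    rw [neg_div_neg_eq] at h2
    simpa only [div_eq_mul_inv] using h2
  rw [← intervalIntegral.integral_const_mul]
  refine intervalIntegral.integral_eq_sub_of_hasDerivAt (fun x _ => hd x) ?_
  refine Continuous.intervalIntegrable ?_ _ _
  exact continuous_const.mul (Continuous.inv₀ (by fun_prop) hne)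

lemma wind (a b c d : ℝ) (w : ℂ) (ha : a < w.re) (hb : w.re < b) (hc : c < w.im) (hd : w.im < d) :
    (∫ x in a..b, ((x : ℂ) + c * I - w)⁻¹) - (∫ x in a..b, ((x : ℂ) + d * I - w)⁻¹)
      + I * (∫ y in c..d, ((b : ℂ) + y * I - w)⁻¹)
      - I * (∫ y in c..d, ((a : ℂ) + y * I - w)⁻¹) = 2 * Real.pi * I := by
  rw [horiz a b c w hc.ne, horiz a b d w hd.ne', right b c d w hb, left a c d w ha,
    log_neg_of_im_pos (by simpa using hd), log_neg_of_im_neg (by simpa using hc)]
  ring

lemma split {f : ℂ → ℂ} {w : ℂ} {p : ℝ → ℂ} {s t : ℝ} (hp : Continuous p) (hne : ∀ x, p x ≠ w)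
    (hg : ContinuousOn (fun x => dslope f w (p x)) (uIcc s t)) :
    ∫ x in s..t, f (p x) / (p x - w) =
      (∫ x in s..t, dslope f w (p x)) + f w * ∫ x in s..t, (p x - w)⁻¹ := by
  rw [← intervalIntegral.integral_const_mul, ← intervalIntegral.integral_add hg.intervalIntegrable]
  · refine intervalIntegral.integral_congr fun x _ => ?_
    have h := sub_ne_zero.2 (hne x)
    simp only [dslope_of_ne _ (hne x), slope_def_field]
    field_simp
    ring
  · refine Continuous.intervalIntegrable ?_ _ _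
    exact continuous_const.mul
      (Continuous.inv₀ (hp.sub continuous_const) fun x => sub_ne_zero.2 (hne x))

end Rect

theorem rect_cauchy (f : ℂ → ℂ) (a b c d : ℝ) (w : ℂ) (ha : a < w.re) (hb : w.re < b)
    (hc : c < w.im) (hd : w.im < d) (hf : DifferentiableOn ℂ f (Icc a b ×ℂ Icc c d)) :
    (∫ x in a..b, f (x + c * I) / (x + c * I - w)) - (∫ x in a..b, f (x + d * I) / (x + d * I - w))
      + I * (∫ y in c..d, f (b + y * I) / (b + y * I - w))
      - I * (∫ y in c..d, f (a + y * I) / (a + y * I - w)) = 2 * Real.pi * I * f w := by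
  have hab : a ≤ b := (ha.trans hb).le
  have hcd : c ≤ d := (hc.trans hd).le
  have hn : Icc a b ×ℂ Icc c d ∈ 𝓝 w := by
    refine mem_of_superset ((isOpen_Ioo.reProdIm isOpen_Ioo).mem_nhds
      (show w ∈ Ioo a b ×ℂ Ioo c d from ⟨⟨ha, hb⟩, ⟨hc, hd⟩⟩)) ?_
    exact fun z hz => ⟨Ioo_subset_Icc_self hz.1, Ioo_subset_Icc_self hz.2⟩
  have hg : DifferentiableOn ℂ (dslope f w) (Icc a b ×ℂ Icc c d) :=
    (differentiableOn_dslope hn).2 hf
  have h0 := integral_boundary_rect_eq_zero_of_differentiableOn (dslope f w) ⟨a, c⟩ ⟨b, d⟩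
    (by simpa only [uIcc_of_le hab, uIcc_of_le hcd] using hg)
  simp only [smul_eq_mul] at h0
  have hw := Rect.wind a b c d w ha hb hc hd
  have hh : ∀ e : ℝ, e ∈ Icc c d →
      ContinuousOn (fun x : ℝ => dslope f w ((x : ℂ) + e * I)) (uIcc a b) := fun e he => by
    refine hg.continuousOn.comp (f := fun x : ℝ => (x : ℂ) + e * I) (by fun_prop) fun x hx => ?_
    rw [uIcc_of_le hab] at hx
    exact ⟨by simpa using hx, by simpa using he⟩
  have hv : ∀ e : ℝ, e ∈ Icc a b →
      ContinuousOn (fun y : ℝ => dslope f w ((e : ℂ) + y * I)) (uIcc c d) := fun e he => by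
    refine hg.continuousOn.comp (f := fun y : ℝ => (e : ℂ) + y * I) (by fun_prop) fun y hy => ?_
    rw [uIcc_of_le hcd] at hy
    exact ⟨by simpa using he, by simpa using hy⟩
  rw [Rect.split (p := fun x : ℝ => (x : ℂ) + c * I) (by fun_prop)
      (fun x h => hc.ne (by simpa using congrArg im h)) (hh c ⟨le_rfl, hcd⟩),
    Rect.split (p := fun x : ℝ => (x : ℂ) + d * I) (by fun_prop)
      (fun x h => hd.ne' (by simpa using congrArg im h)) (hh d ⟨hcd, le_rfl⟩),
    Rect.split (p := fun y : ℝ => (b : ℂ) + y * I) (by fun_prop)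
      (fun x h => hb.ne' (by simpa using congrArg re h)) (hv b ⟨hab, le_rfl⟩),
    Rect.split (p := fun y : ℝ => (a : ℂ) + y * I) (by fun_prop)
      (fun x h => ha.ne (by simpa using congrArg re h)) (hv a ⟨le_rfl, hab⟩)]
  linear_combination h0 + f w * hw

end Pool.Agent.MP_ff3f8e_an.H65
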