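import Pool.Agent.MP_ff3f8e_an.H65.Defs

open Metric Set Filter Topology

namespace Pool.Agent.MP_ff3f8e_an.H65

noncomputable section

/-- The disc algebra as a type. -/
def DA : Type := discAlgebra

instance : NormedCommRing DA := inferInstanceAs (NormedCommRing discAlgebra)

instance : NormedAlgebra ℂ DA := inferInstanceAs (NormedAlgebra ℂ discAlgebra)

open Classical in
/-- Retraction of the plane onto the closed disc (junk value `0` outside). -/
def proj (z : ℂ) : closedBall (0 : ℂ) 1 :=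
  if h : z ∈ closedBall (0 : ℂ) 1 then ⟨z, h⟩ else ⟨0, by simp⟩

lemma proj_of_mem {z : ℂ} (h : z ∈ closedBall (0 : ℂ) 1) : proj z = ⟨z, h⟩ := by
  simp only [proj, dif_pos h]

lemma proj_coe (z : closedBall (0 : ℂ) 1) : proj z = z := by
  rw [proj_of_mem z.2]

/-- Evaluation at a point of the closed disc (junk: evaluation at `0` outside). -/
def ev (z : ℂ) : DA →ₐ[ℂ] ℂ where
  toFun f := f.1 (proj z)
  map_one' := rfl
  map_mul' _ _ := rfl
  map_zero' := rfl
  map_add' _ _ := rfl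
  commutes' _ := rfl

lemma ev_coe (f : DA) (z : closedBall (0 : ℂ) 1) : ev z f = f.1 z := by
  show f.1 (proj z) = _
  rw [proj_coe]

lemma ev_of_mem (f : DA) {z : ℂ} (h : z ∈ closedBall (0 : ℂ) 1) : ev z f = f.1 ⟨z, h⟩ :=
  ev_coe f ⟨z, h⟩

lemma norm_ev_le (z : ℂ) (f : DA) : ‖ev z f‖ ≤ ‖f‖ :=
  f.1.norm_coe_le_norm (proj z)

lemma ev_continuousOn (f : DA) : ContinuousOn (fun z => ev z f) (closedBall 0 1) := by
  rw [continuousOn_iff_continuous_domRestrict]
  have : (closedBall (0 : ℂ) 1).domRestrict (fun z => ev z f) = f.1 := by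
    funext z; exact ev_coe f z
  rw [this]; exact f.1.continuous

lemma ev_differentiableOn (f : DA) : DifferentiableOn ℂ (fun z => ev z f) (ball 0 1) := by
  obtain ⟨F, hF, hf⟩ := f.2
  refine hF.congr fun z hz => ?_
  have hz' : z ∈ closedBall (0 : ℂ) 1 := ball_subset_closedBall hz
  rw [ev_of_mem f hz', ← hf ⟨z, hz'⟩ (by simpa using hz)]

lemma ev_diffContOnCl (f : DA) : DiffContOnCl ℂ (fun z => ev z f) (ball 0 1) :=
  ⟨ev_differentiableOn f, by rw [closure_ball _ one_ne_zero]; exact ev_continuousOn f⟩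

lemma exists_ev_eq {F : ℂ → ℂ} (hc : ContinuousOn F (closedBall 0 1))
    (hd : DifferentiableOn ℂ F (ball 0 1)) :
    ∃ f : DA, ∀ z ∈ closedBall (0 : ℂ) 1, ev z f = F z := by
  refine ⟨⟨⟨(closedBall (0 : ℂ) 1).domRestrict F, hc.domRestrict⟩, F, hd, fun z _ => rfl⟩, ?_⟩
  intro z hz
  exact ev_of_mem _ hz

lemma norm_le_of_closedBall (f : DA) {c : ℝ} (h : ∀ z ∈ closedBall (0 : ℂ) 1, ‖ev z f‖ ≤ c) :
    ‖f‖ ≤ c := by
  have hc : 0 ≤ c := (norm_nonneg _).trans (h 0 (by simp))
  show ‖f.1‖ ≤ c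
  rw [ContinuousMap.norm_le _ hc]
  intro z
  rw [← ev_coe]; exact h z z.2

lemma norm_le_of_ball (f : DA) {c : ℝ} (h : ∀ z ∈ ball (0 : ℂ) 1, ‖ev z f‖ ≤ c) :
    ‖f‖ ≤ c := by
  refine norm_le_of_closedBall f fun z hz => ?_
  have hz' : z ∈ closure (ball (0 : ℂ) 1) := by rwa [closure_ball _ one_ne_zero]
  have hcont : ContinuousWithinAt (fun z => ‖ev z f‖) (ball 0 1) z :=
    ((ev_continuousOn f z hz).mono ball_subset_closedBall).norm
  exact hcont.closure_le hz' continuousWithinAt_const h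

lemma norm_le_of_sphere (f : DA) {c : ℝ} (h : ∀ z ∈ sphere (0 : ℂ) 1, ‖ev z f‖ ≤ c) :
    ‖f‖ ≤ c := by
  refine norm_le_of_closedBall f fun z hz => ?_
  refine Complex.norm_le_of_forall_mem_frontier_norm_le isBounded_ball (ev_diffContOnCl f) ?_ ?_
  · rwa [frontier_ball _ one_ne_zero]
  · rwa [closure_ball _ one_ne_zero]

lemma ext_ball {f g : DA} (h : ∀ z ∈ ball (0 : ℂ) 1, ev z f = ev z g) : f = g := by
  have : ‖f - g‖ ≤ 0 := norm_le_of_ball _ fun z hz => by simp [h z hz]
  exact sub_eq_zero.1 (norm_le_zero_iff.1 this)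

lemma ext_sphere {f g : DA} (h : ∀ z ∈ sphere (0 : ℂ) 1, ev z f = ev z g) : f = g := by
  have : ‖f - g‖ ≤ 0 := norm_le_of_sphere _ fun z hz => by simp [h z hz]
  exact sub_eq_zero.1 (norm_le_zero_iff.1 this)

lemma exists_norm_eq (f : DA) : ∃ z ∈ closedBall (0 : ℂ) 1, ‖ev z f‖ = ‖f‖ := by
  obtain ⟨z, hz, hmax⟩ := (isCompact_closedBall (0 : ℂ) 1).exists_isMaxOn ⟨0, by simp⟩
    (ev_continuousOn f).norm
  exact ⟨z, hz, le_antisymm (norm_ev_le z f) (norm_le_of_closedBall f fun w hw => hmax hw)⟩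

lemma isClosed_discAlgebra :
    IsClosed (discAlgebra : Set C(closedBall (0 : ℂ) 1, ℂ)) := by
  refine isClosed_of_closure_subset fun f hf => ?_
  obtain ⟨u, hu, hlim⟩ := mem_closure_iff_seq_limit.1 hf
  refine ⟨fun z => f (proj z), ?_, fun z _ => by simp [proj_coe]⟩
  have hd : ∀ n, DifferentiableOn ℂ (fun z => u n (proj z)) (ball 0 1) :=
    fun n => ev_differentiableOn ⟨u n, hu n⟩
  have hunif : TendstoUniformly (fun n z => u n (proj z)) (fun z => f (proj z)) atTop :=
    (ContinuousMap.tendsto_iff_tendstoUniformly.1 hlim).comp proj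
  exact hunif.tendstoUniformlyOn.tendstoLocallyUniformlyOn.differentiableOn
    (Eventually.of_forall hd) isOpen_ball

instance : CompleteSpace DA := isClosed_discAlgebra.completeSpace_coe

/-- Evaluation as a continuous linear functional. -/
def evL (z : ℂ) : DA →L[ℂ] ℂ :=
  (ev z).toLinearMap.mkContinuous 1 fun f => by simpa using norm_ev_le z f

@[simp] lemma evL_apply (z : ℂ) (f : DA) : evL z f = ev z f := rfl

lemma continuous_ev (z : ℂ) : Continuous (ev z) := (evL z).continuous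

lemma norm_one_DA : ‖(1 : DA)‖ = 1 := by
  show ‖(1 : C(closedBall (0 : ℂ) 1, ℂ))‖ = 1
  have : Nonempty (closedBall (0 : ℂ) 1) := ⟨⟨0, by simp⟩⟩
  exact norm_one

instance : NormOneClass DA := ⟨norm_one_DA⟩

instance : Nontrivial DA := NormOneClass.nontrivial

/-- The disc algebra has no zero divisors. -/
lemma eq_zero_or_eq_zero {f g : DA} (h : f * g = 0) : f = 0 ∨ g = 0 := by
  have hf := (ev_differentiableOn f).analyticOnNhd isOpen_ball
  have hg := (ev_differentiableOn g).analyticOnNhd isOpen_ball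
  have := AnalyticOnNhd.eq_zero_or_eq_zero_of_mul_eq_zero hf hg
    (fun z _ => by rw [← map_mul, h, map_zero]) (convex_ball (0 : ℂ) 1).isPreconnected
  rcases this with h1 | h1
  · exact Or.inl (ext_ball fun z hz => by simpa using h1 z hz)
  · exact Or.inr (ext_ball fun z hz => by simpa using h1 z hz)

/-- The coordinate function. -/
lemma exists_coord : ∃ f : DA, ∀ z ∈ closedBall (0 : ℂ) 1, ev z f = z :=
  exists_ev_eq continuousOn_id differentiableOn_id

def coord : DA := exists_coord.choose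

lemma ev_coord {z : ℂ} (hz : z ∈ closedBall (0 : ℂ) 1) : ev z coord = z :=
  exists_coord.choose_spec z hz

lemma norm_coord_le : ‖coord‖ ≤ 1 :=
  norm_le_of_closedBall _ fun z hz => by rw [ev_coord hz]; simpa using hz

/-- Division by `z - a` at an interior point. -/
lemma exists_div {a : ℂ} (ha : a ∈ ball (0 : ℂ) 1) (f : DA) :
    ∃ g : DA, f = algebraMap ℂ DA (ev a f) + (coord - algebraMap ℂ DA a) * g := by
  have hn : ball (0 : ℂ) 1 ∈ 𝓝 a := isOpen_ball.mem_nhds ha
  have hd : DifferentiableOn ℂ (dslope (fun z => ev z f) a) (ball 0 1) :=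
    (Complex.differentiableOn_dslope hn).2 (ev_differentiableOn f)
  have hc : ContinuousOn (dslope (fun z => ev z f) a) (closedBall 0 1) := by
    refine (continuousOn_dslope (mem_of_superset hn ball_subset_closedBall)).2 ⟨ev_continuousOn f, ?_⟩
    exact (ev_differentiableOn f).differentiableAt hn
  obtain ⟨g, hg⟩ := exists_ev_eq hc hd
  refine ⟨g, ext_ball fun z hz => ?_⟩
  have hz' := ball_subset_closedBall hz
  simp only [map_add, map_mul, map_sub, AlgHom.commutes, Algebra.algebraMap_self, RingHom.id_apply,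
    ev_coord hz', hg z hz']
  have := sub_smul_dslope (fun z => ev z f) a z
  rw [smul_eq_mul] at this
  rw [this]; ring

/-- Every character of the disc algebra is a point evaluation. -/
lemma exists_eq_ev (χ : DA →ₐ[ℂ] ℂ) : ∃ a ∈ closedBall (0 : ℂ) 1, ∀ f, χ f = ev a f := by
  have hχ : ∀ f, ‖χ f‖ ≤ ‖f‖ := fun f => AlgHom.norm_apply_le_self χ f
  set a := χ coord with ha
  have ha1 : a ∈ closedBall (0 : ℂ) 1 := by
    simpa using (hχ coord).trans norm_coord_le
  refine ⟨a, ha1, fun f => ?_⟩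
  -- dilations
  have key : ∀ ρ : ℝ, 0 ≤ ρ → ρ < 1 → ∃ fρ : DA, (∀ z ∈ closedBall (0 : ℂ) 1,
      ev z fρ = ev (ρ * z) f) ∧ χ fρ = ev a fρ := by
    intro ρ h0 h1
    have hmap : ∀ z ∈ closedBall (0 : ℂ) 1, (ρ : ℂ) * z ∈ ball (0 : ℂ) 1 := by
      intro z hz
      simp only [mem_closedBall, dist_zero_right, mem_ball, norm_mul, Complex.norm_real,
        Real.norm_eq_abs, abs_of_nonneg h0] at hz ⊢
      nlinarith [norm_nonneg z]
    set U : Set ℂ := {z | (ρ : ℂ) * z ∈ ball (0 : ℂ) 1} with hU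
    have hUo : IsOpen U := isOpen_ball.preimage (by fun_prop)
    have hsub : closedBall (0 : ℂ) 1 ⊆ U := hmap
    have hF : DifferentiableOn ℂ (fun z => ev (ρ * z) f) U :=
      (ev_differentiableOn f).comp (by fun_prop) fun z hz => hz
    have hG : DifferentiableOn ℂ (dslope (fun z => ev (ρ * z) f) a) U :=
      (Complex.differentiableOn_dslope (hUo.mem_nhds (hsub ha1))).2 hF
    obtain ⟨fρ, hfρ⟩ := exists_ev_eq (hF.continuousOn.mono hsub)
      (hF.mono (ball_subset_closedBall.trans hsub))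
    obtain ⟨g, hg⟩ := exists_ev_eq (hG.continuousOn.mono hsub)
      (hG.mono (ball_subset_closedBall.trans hsub))
    refine ⟨fρ, hfρ, ?_⟩
    have hdec : fρ = algebraMap ℂ DA (ev a fρ) + (coord - algebraMap ℂ DA a) * g := by
      refine ext_ball fun z hz => ?_
      have hz' := ball_subset_closedBall hz
      simp only [map_add, map_mul, map_sub, AlgHom.commutes, Algebra.algebraMap_self,
        RingHom.id_apply, ev_coord hz', hg z hz', hfρ z hz', hfρ a ha1]
      have := sub_smul_dslope (fun z => ev (ρ * z) f) a z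
      rw [smul_eq_mul] at this
      rw [this]; ring
    conv_lhs => rw [hdec]
    simp [← ha]
  refine eq_of_forall_dist_le fun ε hε => ?_
  have huc : UniformContinuousOn (fun z => ev z f) (closedBall 0 1) :=
    (isCompact_closedBall _ _).uniformContinuousOn_of_continuous (ev_continuousOn f)
  obtain ⟨δ, hδ, hδ'⟩ := Metric.uniformContinuousOn_iff.1 huc (ε / 2) (by positivity)
  obtain ⟨ρ, h0, h1, h2⟩ : ∃ ρ : ℝ, 0 ≤ ρ ∧ ρ < 1 ∧ 1 - ρ < δ :=
    ⟨max 0 (1 - δ / 2), le_max_left _ _, max_lt one_pos (by linarith),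
      by have := le_max_right 0 (1 - δ / 2); linarith⟩
  obtain ⟨fρ, hfρ, hχρ⟩ := key ρ h0 h1
  have hclose : ‖f - fρ‖ ≤ ε / 2 := by
    refine norm_le_of_closedBall _ fun z hz => ?_
    have hz1 : ‖z‖ ≤ 1 := by simpa using hz
    have hρz : (ρ : ℂ) * z ∈ closedBall (0 : ℂ) 1 := by
      simp only [mem_closedBall, dist_zero_right, norm_mul, Complex.norm_real,
        Real.norm_eq_abs, abs_of_nonneg h0]
      nlinarith [norm_nonneg z]
    rw [map_sub, hfρ z hz, ← dist_eq_norm]
    refine (hδ' z hz _ hρz ?_).le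
    rw [dist_eq_norm, show z - ρ * z = ((1 - ρ : ℝ) : ℂ) * z by push_cast; ring, norm_mul,
      Complex.norm_real, Real.norm_eq_abs, abs_of_nonneg (by linarith)]
    nlinarith [norm_nonneg z]
  have e1 : ‖χ (f - fρ)‖ ≤ ε / 2 := (hχ _).trans hclose
  have e2 : ‖ev a (f - fρ)‖ ≤ ε / 2 := (norm_ev_le _ _).trans hclose
  rw [dist_eq_norm, show χ f - ev a f = χ (f - fρ) - ev a (f - fρ) by
    rw [map_sub, map_sub, hχρ]; ring]
  linarith [norm_sub_le (χ (f - fρ)) (ev a (f - fρ))]

/-- A composition operator on the disc algebra. -/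
structure Comp where
  T : DA →L[ℂ] DA
  φ : ℂ → ℂ
  maps : MapsTo φ (closedBall 0 1) (closedBall 0 1)
  cont : ContinuousOn φ (closedBall 0 1)
  diff : DifferentiableOn ℂ φ (ball 0 1)
  ev_T : ∀ f, ∀ z ∈ closedBall (0 : ℂ) 1, ev z (T f) = ev (φ z) f

/-- A unital endomorphism is a composition operator. -/
lemma exists_comp (T : DA →ₗ[ℂ] DA) (hmul : ∀ f g, T (f * g) = T f * T g) (h1 : T 1 = 1) :
    ∃ C : Comp, ∀ f, C.T f = T f := by
  let χ : ℂ → (DA →ₐ[ℂ] ℂ) := fun z => (ev z).comp (AlgHom.ofLinearMap T h1 hmul)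
  have hχ : ∀ z f, χ z f = ev z (T f) := fun _ _ => rfl
  have key : ∀ z, ev z (T coord) ∈ closedBall (0 : ℂ) 1 ∧
      ∀ f, ev z (T f) = ev (ev z (T coord)) f := by
    intro z
    obtain ⟨a, ha, hf⟩ := exists_eq_ev (χ z)
    have : ev z (T coord) = a := by rw [← hχ, hf, ev_coord ha]
    rw [this]
    exact ⟨ha, fun f => by rw [← hχ, hf]⟩
  have hb : ∀ f, ‖T f‖ ≤ 1 * ‖f‖ := fun f => by
    rw [one_mul]
    exact norm_le_of_closedBall _ fun z _ => by rw [(key z).2]; exact norm_ev_le _ _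
  exact ⟨⟨T.mkContinuous 1 hb, fun z => ev z (T coord), fun z _ => (key z).1,
    ev_continuousOn _, ev_differentiableOn _, fun f z _ => (key z).2 f⟩, fun f => rfl⟩

namespace Comp

variable (C : Comp)

lemma maps_iter (n : ℕ) : MapsTo C.φ^[n] (closedBall 0 1) (closedBall 0 1) := C.maps.iterate n

lemma cont_iter (n : ℕ) : ContinuousOn C.φ^[n] (closedBall 0 1) := C.cont.iterate C.maps n

lemma ev_pow (n : ℕ) (f : DA) {z : ℂ} (hz : z ∈ closedBall (0 : ℂ) 1) :
    ev z ((C.T ^ n) f) = ev (C.φ^[n] z) f := by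
  induction n generalizing f with
  | zero => simp
  | succ n ih =>
    rw [pow_succ, mul_apply_eq_comp, ih, C.ev_T _ _ (C.maps_iter n hz),
      Function.iterate_succ_apply']

lemma diff_iter (n : ℕ) : DifferentiableOn ℂ C.φ^[n] (ball 0 1) := by
  refine (ev_differentiableOn ((C.T ^ n) coord)).congr fun z hz => ?_
  have hz' := ball_subset_closedBall hz
  rw [C.ev_pow n _ hz', ev_coord (C.maps_iter n hz')]

lemma norm_T_le (f : DA) : ‖C.T f‖ ≤ ‖f‖ :=
  norm_le_of_closedBall _ fun z hz => by rw [C.ev_T f z hz]; exact norm_ev_le _ _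

lemma opNorm_le : ‖C.T‖ ≤ 1 :=
  ContinuousLinearMap.opNorm_le_bound _ zero_le_one fun f => by rw [one_mul]; exact C.norm_T_le f

lemma T_mul (f g : DA) : C.T (f * g) = C.T f * C.T g :=
  ext_ball fun z hz => by
    have hz' := ball_subset_closedBall hz
    rw [map_mul (ev z), C.ev_T _ _ hz', C.ev_T _ _ hz', C.ev_T _ _ hz', map_mul]

lemma T_one : C.T 1 = 1 :=
  ext_ball fun z hz => by rw [C.ev_T _ _ (ball_subset_closedBall hz), map_one, map_one]

/-- A nonconstant symbol maps the open disc into itself. -/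
lemma maps_ball_or_const :
    MapsTo C.φ (ball 0 1) (ball 0 1) ∨ ∃ b, ∀ z ∈ closedBall (0 : ℂ) 1, C.φ z = b := by
  by_cases h : MapsTo C.φ (ball 0 1) (ball 0 1)
  · exact Or.inl h
  right
  simp only [MapsTo, not_forall] at h
  obtain ⟨z, hz, hφ⟩ := h
  have h1 : 1 ≤ ‖C.φ z‖ := by simpa using hφ
  have hmax : IsMaxOn (norm ∘ C.φ) (ball 0 1) z := fun w hw => by
    have := C.maps (ball_subset_closedBall hw)
    simp only [mem_closedBall, dist_zero_right] at this
    exact this.trans h1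
  have hd : DiffContOnCl ℂ C.φ (ball 0 1) :=
    ⟨C.diff, by rw [closure_ball _ one_ne_zero]; exact C.cont⟩
  have := Complex.eqOn_closure_of_isPreconnected_of_isMaxOn_norm
    (convex_ball (0 : ℂ) 1).isPreconnected isOpen_ball hd hz hmax
  rw [closure_ball _ one_ne_zero] at this
  exact ⟨C.φ z, fun w hw => this hw⟩

end Comp

/-- The set `S` is closed under multiplication. -/
def SG (S : Set ℂ) : Prop := ∀ l ∈ S, ∀ m ∈ S, l * m ∈ S

end

end Pool.Agent.MP_ff3f8e_an.H65
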