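import Pool.Agent.MP_ff3f8e_an.H65.StepsC

open Metric Set Filter Topology Complex ComplexConjugate

namespace Pool.Agent.MP_ff3f8e_an.H65

noncomputable section

lemma add_I_ne {x : ℂ} (hx : 0 < x.im) : x + I ≠ 0 := by
  simpa using sub_conj_ne hx (y := I) (by simp)

lemma one_le_norm_add_I {x : ℂ} (hx : 0 < x.im) : 1 ≤ ‖x + I‖ := by
  have := im_le_norm' (x + I)
  simp only [add_im, I_im] at this
  linarith

/-- Wolff's lemma for a self-map of the half-plane whose iterates escape uniformly. -/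
lemma wolff {ψ : ℂ → ℂ} (hd : DifferentiableOn ℂ ψ {ζ | 0 < ζ.im})
    (hm : ∀ ζ : ℂ, 0 < ζ.im → 0 < (ψ ζ).im)
    (hesc : ∀ ρ : ℝ, ∃ j : ℕ, ∀ ζ : ℂ, 0 < ζ.im → ρ < ‖ψ^[j] ζ‖) {ζ : ℂ} (hζ : 0 < ζ.im) :
    ζ.im ≤ (ψ ζ).im := by
  have hpos : ∀ (n : ℕ) (ζ : ℂ), 0 < ζ.im → 0 < (ψ^[n] ζ).im := by
    intro n ζ h
    induction n with
    | zero => exact h
    | succ n ih => rw [Function.iterate_succ_apply']; exact hm _ ih
  set x : ℕ → ℂ := fun n => ψ^[n] I with hx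
  have hx0 : ∀ n, 0 < (x n).im := fun n => hpos n I (by simp)
  have hinf : Tendsto (fun n => ‖x n + I‖) atTop atTop := by
    refine tendsto_atTop.2 fun ρ => ?_
    obtain ⟨j, hj⟩ := hesc (ρ + 1)
    filter_upwards [eventually_ge_atTop j] with n hn
    obtain ⟨k, rfl⟩ := Nat.exists_eq_add_of_le hn
    have h1 := hj (x k) (hx0 k)
    have h2 : ‖x (j + k)‖ ≤ ‖x (j + k) + I‖ + 1 := by
      simpa using norm_sub_le (x (j + k) + I) I
    simp only [hx, Function.iterate_add_apply] at h1 h2 ⊢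
    linarith
  have hinv : Tendsto (fun n => (x n + I)⁻¹) atTop (𝓝 0) := by
    rw [tendsto_zero_iff_norm_tendsto_zero]
    simp only [norm_inv]
    exact hinf.inv_tendsto_atTop
  set d : ℕ → ℝ := fun n => (x n).im / ‖x n + I‖ ^ 2 with hd'
  have hd0 : ∀ n, 0 < d n := fun n => by
    have := hx0 n
    have := norm_pos_iff.2 (add_I_ne (hx0 n))
    positivity
  have hdt : Tendsto d atTop (𝓝 0) := by
    refine squeeze_zero (fun n => (hd0 n).le) (fun n => ?_) hinf.inv_tendsto_atTop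
    have h1 := norm_pos_iff.2 (add_I_ne (hx0 n))
    have h2 := im_le_norm' (x n + I)
    simp only [add_im, I_im] at h2
    simp only [hd', Pi.inv_apply]
    rw [div_le_iff₀ (by positivity), sq, ← mul_assoc, inv_mul_cancel₀ h1.ne']
    linarith
  have hfreq : ∃ᶠ n in atTop, d (n + 1) ≤ d n := by
    by_contra h
    rw [not_frequently] at h
    obtain ⟨k, hk⟩ := eventually_atTop.1 h
    have : ∀ n, d k ≤ d (k + n) := by
      intro n
      induction n with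
      | zero => exact le_rfl
      | succ n ih => exact ih.trans (not_le.1 (hk (k + n) (by omega))).le
    have h2 := ge_of_tendsto' (hdt.comp (tendsto_add_atTop_nat k))
      (b := d k) fun n => by simpa [add_comm] using this n
    linarith [hd0 k]
  have hlim : ∀ v : ℂ, 0 < v.im → Tendsto (fun n => hh v (x n) * d n) atTop (𝓝 (1 / v.im)) := by
    intro v hv
    have h1 : Tendsto (fun n => ‖-1 + (v + I) * (x n + I)⁻¹‖ ^ 2 / v.im) atTop
        (𝓝 (‖-1 + (v + I) * 0‖ ^ 2 / v.im)) :=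
      (((hinv.const_mul _).const_add _).norm.pow 2).div_const _
    simp only [mul_zero, add_zero, norm_neg, norm_one, one_pow] at h1
    refine h1.congr fun n => ?_
    have h2 := add_I_ne (hx0 n)
    have h3 := norm_pos_iff.2 h2
    have h4 := hx0 n
    have e : -1 + (v + I) * (x n + I)⁻¹ = (v - x n) / (x n + I) := by field_simp; ring
    simp only [hd', hh]
    rw [e, norm_div]
    field_simp
  have hψ := hm ζ hζ
  have t1 := (hlim _ hψ).comp (tendsto_add_atTop_nat 1)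
  have t2 := hlim _ hζ
  have h5 : 1 / (ψ ζ).im ≤ 1 / ζ.im := by
    refine le_of_tendsto_of_tendsto_of_frequently t1 t2 (hfreq.mono fun n hn => ?_)
    have a1 := schwarz_pick hd hm hζ (hx0 n)
    have a2 : ψ (x n) = x (n + 1) := by simp only [hx]; rw [Function.iterate_succ_apply']
    rw [a2] at a1
    exact mul_le_mul a1 hn (hd0 _).le (hh_nonneg hζ (hx0 n))
  rwa [one_div_le_one_div hψ hζ] at h5

lemma wolff_strict {ψ : ℂ → ℂ} (hd : DifferentiableOn ℂ ψ {ζ | 0 < ζ.im})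
    (hm : ∀ ζ : ℂ, 0 < ζ.im → 0 < (ψ ζ).im)
    (hesc : ∀ ρ : ℝ, ∃ j : ℕ, ∀ ζ : ℂ, 0 < ζ.im → ρ < ‖ψ^[j] ζ‖) {ζ : ℂ} (hζ : 0 < ζ.im) :
    ζ.im < (ψ ζ).im := by
  refine lt_of_le_of_ne (wolff hd hm hesc hζ) fun heq => ?_
  have ha : AnalyticOnNhd ℂ (fun v => ψ v - v) {ζ | 0 < ζ.im} :=
    (hd.sub differentiableOn_id).analyticOnNhd isOpen_H
  rcases ha.is_constant_or_isOpen convex_H.isPreconnected with ⟨c, hc⟩ | hopen
  · have hc0 : c.im = 0 := by rw [← hc ζ hζ]; simp [heq]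
    have hit : ∀ (n : ℕ) (v : ℂ), 0 < v.im → ψ^[n] v = v + n * c := by
      intro n v hv
      induction n with
      | zero => simp
      | succ n ih =>
        have := hc (v + n * c) (by simpa [hc0] using hv)
        rw [Function.iterate_succ_apply', ih]
        push_cast
        linear_combination this
    obtain ⟨j, hj⟩ := hesc 1
    have h1 : 0 < (I - j * c).im := by simp [hc0]
    have := hj _ h1
    rw [hit j _ h1] at this
    simp at this
  · obtain ⟨ε, hε, hsub⟩ := Metric.isOpen_iff.1 (hopen _ subset_rfl isOpen_H) _ ⟨ζ, hζ, rfl⟩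
    obtain ⟨v, hv, hv'⟩ := hsub (show ψ ζ - ζ - (ε / 2 : ℝ) * I ∈ ball (ψ ζ - ζ) ε by
      rw [mem_ball, dist_eq_norm, sub_sub_cancel_left, norm_neg, norm_mul, norm_I, mul_one,
        Complex.norm_real, Real.norm_eq_abs, abs_of_pos (by positivity)]
      linarith)
    have h1 := wolff hd hm hesc hv
    have h2 := congrArg im hv'
    simp at h2
    linarith

/-- A composition operator with a boundary attracting point and a resolvent point in the disc. -/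
structure Bdry (C : Comp) where
  b : ℂ
  hb : ‖b‖ = 1
  fix : C.φ b = b
  maps : MapsTo C.φ (ball 0 1) (ball 0 1)
  conv : ∀ ε : ℝ, 0 < ε → ∃ j : ℕ, ∀ z ∈ closedBall (0 : ℂ) 1, ‖C.φ^[j] z - b‖ < ε
  R : DA →L[ℂ] DA
  ν : ℂ
  ν_ne : ν ≠ 0
  ν_lt : ‖ν‖ < 1
  TR : ∀ f, C.T (R f) - ν • R f = f
  RT : ∀ f, R (C.T f - ν • f) = f
  j0 : ℕ
  j0_spec : ∀ z ∈ closedBall (0 : ℂ) 1, ‖C.φ^[j0] z‖ = 1 → C.φ^[j0] z = b

namespace Bdry

variable {C : Comp} (B : Bdry C)

/-- The Cayley map onto the disc sending infinity to `b`. -/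
def cay (ζ : ℂ) : ℂ := B.b * bl I ζ

/-- The inverse Cayley map. -/
def icay (z : ℂ) : ℂ := am I (conj B.b * z)

/-- The symbol in the half-plane. -/
def ψ (ζ : ℂ) : ℂ := B.icay (C.φ (B.cay ζ))

lemma conj_mul : conj B.b * B.b = 1 := by
  rw [mul_comm, Complex.mul_conj, Complex.normSq_eq_norm_sq, B.hb]; simp

lemma norm_cay (ζ : ℂ) : ‖B.cay ζ‖ = ‖bl I ζ‖ := by rw [cay, norm_mul, B.hb, one_mul]

lemma cay_mem {ζ : ℂ} (h : 0 < ζ.im) : B.cay ζ ∈ ball (0 : ℂ) 1 := by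
  rw [mem_ball_zero_iff, norm_cay]; exact norm_bl_lt (by simp) h

lemma norm_conj_mul {z : ℂ} (h : z ∈ ball (0 : ℂ) 1) : ‖conj B.b * z‖ < 1 := by
  rw [norm_mul, Complex.norm_conj, B.hb, one_mul]; simpa using h

lemma icay_pos {z : ℂ} (h : z ∈ ball (0 : ℂ) 1) : 0 < (B.icay z).im :=
  am_im_pos (by simp) (B.norm_conj_mul h)

lemma cay_icay {z : ℂ} (h : z ∈ ball (0 : ℂ) 1) : B.cay (B.icay z) = z := by
  rw [cay, icay, bl_am (by simp) (B.norm_conj_mul h), ← mul_assoc, mul_comm B.b, B.conj_mul,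
    one_mul]

lemma icay_cay {ζ : ℂ} (h : 0 < ζ.im) : B.icay (B.cay ζ) = ζ := by
  rw [cay, icay, ← mul_assoc, B.conj_mul, one_mul, am_bl (by simp) h]

lemma cay_diff : DifferentiableOn ℂ B.cay {ζ | 0 < ζ.im} :=
  (differentiableOn_bl (by simp)).const_mul _

lemma icay_diff : DifferentiableOn ℂ B.icay (ball 0 1) :=
  (differentiableOn_am I).comp (by fun_prop) fun z hz => by simpa using B.norm_conj_mul hz

lemma ψ_pos {ζ : ℂ} (h : 0 < ζ.im) : 0 < (B.ψ ζ).im := B.icay_pos (B.maps (B.cay_mem h))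

lemma ψ_diff : DifferentiableOn ℂ B.ψ {ζ | 0 < ζ.im} :=
  B.icay_diff.comp (C.diff.comp B.cay_diff fun _ h => B.cay_mem h)
    fun _ h => B.maps (B.cay_mem h)

lemma iter_icay (n : ℕ) {z : ℂ} (h : z ∈ ball (0 : ℂ) 1) :
    B.ψ^[n] (B.icay z) = B.icay (C.φ^[n] z) := by
  induction n with
  | zero => rfl
  | succ n ih =>
    rw [Function.iterate_succ_apply', ih, ψ, B.cay_icay (B.maps.iterate n h),
      Function.iterate_succ_apply']

lemma iter_eq (n : ℕ) {ζ : ℂ} (h : 0 < ζ.im) : B.ψ^[n] ζ = B.icay (C.φ^[n] (B.cay ζ)) := by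
  rw [← B.iter_icay n (B.cay_mem h), B.icay_cay h]

lemma norm_cay_sub {ζ : ℂ} (h : 0 < ζ.im) : ‖B.cay ζ - B.b‖ * ‖ζ + I‖ = 2 := by
  have h0 := add_I_ne h
  have : (B.cay ζ - B.b) * (ζ + I) = B.b * (-2 * I) := by
    simp only [cay, bl, conj_I, sub_neg_eq_add]
    field_simp
    ring
  rw [← norm_mul, this, norm_mul, B.hb]
  simp

lemma far_of_close {z : ℂ} (h : z ∈ ball (0 : ℂ) 1) {ρ : ℝ} (hz : ‖z - B.b‖ < 2 / (|ρ| + 1)) :
    ρ < ‖B.icay z‖ := by
  have h1 := B.norm_cay_sub (B.icay_pos h)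
  rw [B.cay_icay h] at h1
  have h2 : ‖B.icay z + I‖ ≤ ‖B.icay z‖ + 1 := by simpa using norm_add_le (B.icay z) I
  have h3 := le_abs_self ρ
  have h4 := abs_nonneg ρ
  rw [lt_div_iff₀ (by positivity)] at hz
  by_contra hcon
  push Not at hcon
  nlinarith [norm_nonneg (z - B.b)]

lemma close_of_far {ζ : ℂ} (h : 0 < ζ.im) {ε : ℝ} (hε : 0 < ε) (hζ : 2 / ε + 1 < ‖ζ‖) :
    ‖B.cay ζ - B.b‖ < ε := by
  have h1 := B.norm_cay_sub h
  have h2 : ‖ζ‖ ≤ ‖ζ + I‖ + 1 := by simpa using norm_sub_le (ζ + I) I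
  have h3 : 2 / ε < ‖ζ + I‖ := by linarith
  rw [div_lt_iff₀ hε] at h3
  by_contra hcon
  push Not at hcon
  nlinarith [norm_nonneg (ζ + I)]

lemma escape (ρ : ℝ) : ∃ j : ℕ, ∀ ζ : ℂ, 0 < ζ.im → ρ < ‖B.ψ^[j] ζ‖ := by
  obtain ⟨j, hj⟩ := B.conv (2 / (|ρ| + 1)) (by positivity)
  refine ⟨j, fun ζ h => ?_⟩
  rw [B.iter_eq j h]
  exact B.far_of_close (B.maps.iterate j (B.cay_mem h))
    (hj _ (ball_subset_closedBall (B.cay_mem h)))

lemma height (ρ : ℝ) :
    ∃ c, 0 < c ∧ ∀ ζ : ℂ, 0 < ζ.im → ‖B.ψ^[B.j0] ζ‖ ≤ ρ → c ≤ (B.ψ^[B.j0] ζ).im := by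
  obtain ⟨θ, hθ0, hθ1, hθ⟩ : ∃ θ : ℝ, 0 ≤ θ ∧ θ < 1 ∧ ∀ z ∈ closedBall (0 : ℂ) 1,
      2 / (|ρ| + 1) ≤ ‖C.φ^[B.j0] z - B.b‖ → ‖C.φ^[B.j0] z‖ ≤ θ := by
    have hS : IsCompact (C.W B.j0 ∩ {w | 2 / (|ρ| + 1) ≤ ‖w - B.b‖}) :=
      (C.W_compact _).inter_right (isClosed_le continuous_const (by fun_prop))
    rcases (C.W B.j0 ∩ {w | 2 / (|ρ| + 1) ≤ ‖w - B.b‖}).eq_empty_or_nonempty with h | h
    · refine ⟨0, le_rfl, one_pos, fun z hz h1 => ?_⟩
      exact absurd h (Nonempty.ne_empty ⟨_, ⟨z, hz, rfl⟩, h1⟩)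
    · obtain ⟨_, ⟨⟨z0, hz0, rfl⟩, h0⟩, hmax⟩ := hS.exists_isMaxOn h continuous_norm.continuousOn
      refine ⟨_, norm_nonneg _, ?_, fun z hz h1 => hmax ⟨⟨z, hz, rfl⟩, h1⟩⟩
      refine lt_of_le_of_ne (by simpa using C.maps_iter B.j0 hz0) fun h1 => ?_
      have h2 : 0 < 2 / (|ρ| + 1) := by positivity
      rw [B.j0_spec z0 hz0 h1] at h0
      simp only [mem_ofPred_eq, sub_self, norm_zero] at h0
      linarith
  have hθ2 : 0 < 1 - θ ^ 2 := by nlinarith
  refine ⟨(1 - θ ^ 2) / 4, by positivity, fun ζ h hρ => ?_⟩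
  have hz := B.maps.iterate B.j0 (B.cay_mem h)
  have h1 := hθ _ (ball_subset_closedBall (B.cay_mem h)) (by
    by_contra hcon
    push Not at hcon
    have := B.far_of_close hz hcon
    rw [← B.iter_eq _ h] at this
    linarith)
  rw [B.iter_eq _ h]
  have hy := B.icay_pos hz
  rw [← B.cay_icay hz, norm_cay] at h1
  set y := B.icay (C.φ^[B.j0] (B.cay ζ))
  have a1 := one_sub_norm_bl_sq (y := I) (by simp) hy
  have a2 := hh_nonneg hy (ω := I) (by simp)
  have a3 := im_le_of_hh (p := I) (by simp) hy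
  rw [hh_comm, I_im] at a3
  have a4 : 1 - θ ^ 2 ≤ 4 / (hh y I + 4) := by
    rw [← a1]; gcongr
  rw [le_div_iff₀ (by positivity)] at a4
  nlinarith

/-- The half-plane model. -/
def hmodel : HModel DA where
  T := C.T
  R := B.R
  ν := B.ν
  ν_ne := B.ν_ne
  ν_lt := B.ν_lt
  TR := B.TR
  RT := B.RT
  E ζ := ev (B.cay ζ)
  E_diff f := (ev_differentiableOn f).comp B.cay_diff fun _ h => B.cay_mem h
  E_le ζ f := norm_ev_le _ f
  norm_le f c h := norm_le_of_ball f fun z hz => by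
    have := h _ (B.icay_pos hz)
    rwa [B.cay_icay hz] at this
  ψ := B.ψ
  ψ_diff := B.ψ_diff
  ψ_im ζ h := wolff_strict B.ψ_diff (fun _ h => B.ψ_pos h) B.escape h
  E_T f ζ h := by
    rw [C.ev_T _ _ (ball_subset_closedBall (B.cay_mem h)), ψ, B.cay_icay (B.maps (B.cay_mem h))]
  mob α β hβ := by
    have hden : ∀ z ∈ closedBall (0 : ℂ) 1, I - β + conj B.b * z * (I + β) ≠ 0 := by
      intro z hz h0
      have h1 : ‖I + β‖ ^ 2 < ‖I - β‖ ^ 2 := by
        simp only [normSq_eq, add_re, add_im, sub_re, sub_im, I_re, I_im]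
        nlinarith
      have h2 := lt_of_pow_lt_pow_left₀ 2 (norm_nonneg _) h1
      have h3 : ‖I - β‖ = ‖z‖ * ‖I + β‖ := by
        rw [eq_neg_of_add_eq_zero_left h0, norm_neg, norm_mul, norm_mul, Complex.norm_conj, B.hb,
          one_mul]
      have h4 : ‖z‖ ≤ 1 := by simpa using hz
      nlinarith [norm_nonneg (I + β)]
    obtain ⟨f, hf⟩ := exists_ev_eq
      (F := fun z => (I - α + conj B.b * z * (I + α)) / (I - β + conj B.b * z * (I + β)))
      (ContinuousOn.div (by fun_prop) (by fun_prop) hden)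
      (DifferentiableOn.div (by fun_prop) (by fun_prop)
        fun z hz => hden z (ball_subset_closedBall hz))
    refine ⟨f, fun ζ h => ?_⟩
    have hz := ball_subset_closedBall (B.cay_mem h)
    have h0 := add_I_ne h
    have h1 : ζ - β ≠ 0 := by
      intro h1
      have := congrArg im h1
      simp at this; linarith
    have e : ∀ γ : ℂ, I - γ + conj B.b * B.cay ζ * (I + γ) = 2 * I * (ζ - γ) / (ζ + I) := by
      intro γ
      rw [cay, ← mul_assoc, B.conj_mul, one_mul, bl, conj_I, sub_neg_eq_add]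
      field_simp
      ring
    show ev (B.cay ζ) f = _
    rw [hf _ hz, e, e]
    field_simp
  exp f := by
    obtain ⟨g, hg⟩ := exists_ev_eq (F := fun z => Complex.exp (ev z f))
      (ev_continuousOn f).cexp (ev_differentiableOn f).cexp
    exact ⟨g, fun ζ h => hg _ (ball_subset_closedBall (B.cay_mem h))⟩
  escape := B.escape
  j0 := B.j0
  j0_spec := B.height

end Bdry

end

end Pool.Agent.MP_ff3f8e_an.H65
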