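import Mathlib

namespace Pool.Agent.MP_ff3f8e_an.H65

/-- The disc algebra: continuous functions on the closed unit disc that are holomorphic in the
open unit disc, as a subalgebra of `C(closedBall 0 1, ℂ)` (so it carries the supremum norm). -/
def discAlgebra : Subalgebra ℂ C(Metric.closedBall (0 : ℂ) 1, ℂ) where
  carrier := {f | ∃ F : ℂ → ℂ, DifferentiableOn ℂ F (Metric.ball (0 : ℂ) 1) ∧
    ∀ z : Metric.closedBall (0 : ℂ) 1, ‖(z : ℂ)‖ < 1 → F z = f z}
  mul_mem' := by
    rintro f g ⟨F, hF, hf⟩ ⟨G, hG, hg⟩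
    exact ⟨fun z => F z * G z, hF.mul hG, fun z hz => by simp [hf z hz, hg z hz]⟩
  add_mem' := by
    rintro f g ⟨F, hF, hf⟩ ⟨G, hG, hg⟩
    exact ⟨fun z => F z + G z, hF.add hG, fun z hz => by simp [hf z hz, hg z hz]⟩
  algebraMap_mem' := fun c => ⟨fun _ => c, differentiableOn_const c, fun z _ => by simp⟩

/-- An endomorphism of a complex algebra: a complex-linear multiplicative self-map. -/
def IsEndomorphism {A : Type} [NormedRing A] [NormedAlgebra ℂ A] (T : A → A) : Prop :=
  IsLinearMap ℂ T ∧ ∀ f g, T (f * g) = T f * T g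

/-- The spectrum of an operator `T` on a normed algebra: the `l` such that `T - l` has no
bounded linear two-sided inverse. -/
def opSpectrum {A : Type} [NormedRing A] [NormedAlgebra ℂ A] (T : A → A) : Set ℂ :=
  {l | ¬ ∃ S : A →L[ℂ] A, (∀ f, S (T f - l • f) = f) ∧ (∀ f, T (S f) - l • S f = f)}

end Pool.Agent.MP_ff3f8e_an.H65
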