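import Pool.Agent.MP_ff3f8e_an.H65.Tools

open Metric Set Filter Topology Complex

namespace Pool.Agent.MP_ff3f8e_an.H65

namespace Eta

/-- Horizontal distance to the graph of `γ`. -/
def th (γ : ℝ → ℝ) (w : ℂ) : ℝ := w.re - γ w.im

lemma th_add_real (γ : ℝ → ℝ) (w : ℂ) (x : ℝ) : th γ (w + x) = th γ w + x := by
  simp [th]; ring

lemma th_sub_real (γ : ℝ → ℝ) (w : ℂ) (x : ℝ) : th γ (w - x) = th γ w - x := by
  simp [th]; ring

lemma th_lip {γ : ℝ → ℝ} {L : ℝ} (hL : 0 ≤ L) (lip : ∀ y y', |γ y - γ y'| ≤ L * |y - y'|)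
    (w w' : ℂ) : th γ w - (1 + L) * ‖w' - w‖ ≤ th γ w' := graph_lip hL lip w w'

lemma lt_th_iff {γ : ℝ → ℝ} {X : ℝ} {w : ℂ} : X < th γ w ↔ γ w.im + X < w.re := by
  unfold th; constructor <;> intro h <;> linarith

lemma set_eq (γ : ℝ → ℝ) (X : ℝ) : {w : ℂ | γ w.im + X < w.re} = {w | X < th γ w} := by
  ext w; simp [lt_th_iff]

lemma isOpen_th {γ : ℝ → ℝ} {L : ℝ} (lip : ∀ y y', |γ y - γ y'| ≤ L * |y - y'|) (X : ℝ) :
    IsOpen {w : ℂ | X < th γ w} := by
  rw [← set_eq]; exact isOpen_graph lip X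

lemma deriv_bound {γ : ℝ → ℝ} {L : ℝ} (hL : 0 ≤ L) (lip : ∀ y y', |γ y - γ y'| ≤ L * |y - y'|)
    {X0 C : ℝ} (hX0 : 0 < X0) (hC : 0 ≤ C) {e : ℂ → ℂ}
    (he : DifferentiableOn ℂ e {w | X0 < th γ w})
    (hb : ∀ w : ℂ, X0 < th γ w → ‖e w‖ ≤ C / th γ w) {w : ℂ} (hw : 2 * X0 < th γ w) :
    ‖deriv e w‖ ≤ 8 * C * (1 + L) / th γ w ^ 2 := by
  have ht : 0 < th γ w := by linarith
  have hK : 0 < 1 + L := by linarith
  set r := th γ w / (2 * (1 + L)) with hr
  have hr0 : 0 < r := by positivity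
  have hball : ∀ v ∈ ball w r, th γ w / 2 < th γ v := by
    intro v hv
    have h1 := th_lip hL lip w v
    have h2 : ‖v - w‖ < r := by simpa [dist_eq_norm] using hv
    have h3 : (1 + L) * ‖v - w‖ < (1 + L) * r := by gcongr
    have h4 : (1 + L) * r = th γ w / 2 := by rw [hr]; field_simp
    linarith
  have hbd : ∀ v ∈ ball w r, ‖e v‖ ≤ 2 * C / th γ w := by
    intro v hv
    have h1 := hball v hv
    refine (hb v (by linarith)).trans ?_
    rw [div_le_div_iff₀ (by linarith) ht]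
    nlinarith
  have hd : DifferentiableOn ℂ e (ball w r) := he.mono fun v hv => by
    have := hball v hv
    show X0 < th γ v
    linarith
  have hmaps : MapsTo e (ball w r) (closedBall (e w) (4 * C / th γ w)) := by
    intro v hv
    rw [mem_closedBall, dist_eq_norm]
    have h1 := hbd v hv
    have h2 := hbd w (mem_ball_self hr0)
    have h3 := norm_sub_le (e v) (e w)
    have h4 : 4 * C / th γ w = 2 * C / th γ w + 2 * C / th γ w := by ring
    linarith
  refine (Complex.norm_deriv_le_div_of_mapsTo_ball hd hmaps hr0).trans (le_of_eq ?_)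
  rw [hr]; field_simp; ring

lemma seg3 {γ : ℝ → ℝ} {L : ℝ} (hL : 0 ≤ L) (lip : ∀ y y', |γ y - γ y'| ≤ L * |y - y'|)
    {f : ℂ → ℂ} {s M : ℝ}
    (hf : ∀ w, s ≤ th γ w → DifferentiableAt ℂ f w ∧ ‖deriv f w‖ ≤ M) {w w' : ℂ}
    (hw : s ≤ th γ w) (hw' : s ≤ th γ w') : ‖f w - f w'‖ ≤ M * (2 * L + 3) * ‖w - w'‖ := by
  have key : ∀ a b : ℂ, (∀ v ∈ segment ℝ a b, s ≤ th γ v) → ‖f b - f a‖ ≤ M * ‖b - a‖ := by
    intro a b h
    exact (convex_segment a b).norm_image_sub_le_of_norm_deriv_le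
      (fun v hv => (hf v (h v hv)).1) (fun v hv => (hf v (h v hv)).2)
      (left_mem_segment ℝ a b) (right_mem_segment ℝ a b)
  set x : ℝ := (1 + L) * ‖w - w'‖ with hx
  have hx0 : 0 ≤ x := by positivity
  have hor : ∀ a : ℂ, s ≤ th γ a → ‖f (a + x) - f a‖ ≤ M * x := by
    intro a ha
    have := key a (a + x) (by
      intro v hv
      rw [segment_eq_image'] at hv
      obtain ⟨t, ht, rfl⟩ := hv
      have e1 : a + t • (a + x - a) = a + ((t * x : ℝ) : ℂ) := by
        simp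
      show s ≤ th γ (a + t • (a + x - a))
      rw [e1, th_add_real]
      have := mul_nonneg ht.1 hx0
      linarith)
    simpa [abs_of_nonneg hx0] using this
  have mid : ‖f (w' + x) - f (w + x)‖ ≤ M * ‖w - w'‖ := by
    have := key (w + x) (w' + x) (by
      intro v hv
      rw [segment_eq_image'] at hv
      obtain ⟨t, ht, rfl⟩ := hv
      show s ≤ th γ (w + x + t • (w' + x - (w + x)))
      have h1 := th_lip hL lip (w + x) (w + x + t • (w' + x - (w + x)))
      have e1 : w + x + t • (w' + x - (w + x)) - (w + x) = t • (w' - w) := by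
        simp
      rw [e1, th_add_real, norm_smul, Real.norm_eq_abs, abs_of_nonneg ht.1, norm_sub_rev w' w] at h1
      have h2 : (1 + L) * (t * ‖w - w'‖) ≤ x := by
        rw [hx]
        have : t * ‖w - w'‖ ≤ ‖w - w'‖ := mul_le_of_le_one_left (norm_nonneg _) ht.2
        gcongr
      linarith)
    have e2 : w' + x - (w + x) = w' - w := by ring
    rwa [e2, norm_sub_rev w' w] at this
  have h1 := hor w hw
  have h2 := hor w' hw'
  have e3 : f w - f w' = -(f (w + x) - f w) - (f (w' + x) - f (w + x)) + (f (w' + x) - f w') := by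
    ring
  calc ‖f w - f w'‖ ≤ ‖f (w + x) - f w‖ + ‖f (w' + x) - f (w + x)‖ + ‖f (w' + x) - f w'‖ := by
        rw [e3]
        refine (norm_add_le _ _).trans ?_
        gcongr
        refine (norm_sub_le _ _).trans ?_
        rw [norm_neg]
    _ ≤ M * x + M * ‖w - w'‖ + M * x := by gcongr
    _ = M * (2 * L + 3) * ‖w - w'‖ := by rw [hx]; ring

lemma exists_lim (θ : ℂ → ℝ) (e : ℂ → ℂ) (X D C κ : ℝ) (hX : 1 ≤ X) (hD : 0 ≤ D)
    (hκ : 4 * D / (X - 1 / 2) ≤ κ) (hκ1 : κ ≤ 1) (hV : IsOpen {w | X < θ w}) (w0 : ℂ)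
    (hw0 : X < θ w0) (hstep : ∀ w, X < θ w → θ w + 1 / 2 ≤ θ (w + 1 + e w))
    (hlip : ∀ s, X ≤ s → ∀ w w', s ≤ θ w → s ≤ θ w' → ‖e w - e w'‖ ≤ D / s ^ 2 * ‖w - w'‖)
    (hC : 0 ≤ C) (hb : ∀ w, X < θ w → ‖e w‖ ≤ C / θ w)
    (he : DifferentiableOn ℂ e {w | X < θ w}) :
    ∃ η : ℂ → ℂ, DifferentiableOn ℂ η {w | X < θ w} ∧
      (∀ w, X < θ w → η (w + 1 + e w) = η w + 1) ∧
      ∀ w w', X < θ w → X < θ w' → ‖η w - η w' - (w - w')‖ ≤ κ * ‖w - w'‖ := by
  set p : ℂ → ℂ := fun w => w + 1 + e w with hp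
  have hit : ∀ w, X < θ w → ∀ n : ℕ, X + n / 2 < θ (p^[n] w) := by
    intro w hw n
    induction n with
    | zero => simpa using hw
    | succ n ih =>
      rw [Function.iterate_succ_apply']
      have h0 : (0 : ℝ) ≤ n := Nat.cast_nonneg n
      have := hstep (p^[n] w) (by linarith)
      push_cast
      show X + (n + 1) / 2 < θ (p^[n] w + 1 + e (p^[n] w))
      linarith
  have hitV : ∀ w, X < θ w → ∀ n : ℕ, X < θ (p^[n] w) := by
    intro w hw n
    have h0 : (0 : ℝ) ≤ n := Nat.cast_nonneg n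
    have := hit w hw n
    linarith
  set u : ℕ → ℝ := fun n => 4 * D / (X + n / 2 - 1 / 2) with hu
  have hu0 : ∀ n, 0 ≤ u n := by
    intro n
    have h0 : (0 : ℝ) ≤ n := Nat.cast_nonneg n
    have : 0 < X + n / 2 - 1 / 2 := by linarith
    positivity
  have huκ : u 0 ≤ κ := by simpa [hu] using hκ
  have hus : ∀ n : ℕ, 2 * (D / (X + n / 2) ^ 2) ≤ u n - u (n + 1) := by
    intro n
    have h0 : (0 : ℝ) ≤ n := Nat.cast_nonneg n
    have a1 : 0 < X + n / 2 - 1 / 2 := by linarith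
    have a2 : 0 < X + n / 2 := by linarith
    have e1 : u n - u (n + 1) = 2 * D / ((X + n / 2 - 1 / 2) * (X + n / 2)) := by
      simp only [hu]; push_cast
      have e2 : X + (n + 1) / 2 - 1 / 2 = X + n / 2 := by ring
      rw [e2, div_sub_div _ _ a1.ne' a2.ne']
      congr 1; ring
    rw [e1, ← mul_div_assoc]
    gcongr
    nlinarith
  have hu_lim : Tendsto u atTop (𝓝 0) := by
    refine Tendsto.div_atTop tendsto_const_nhds ?_
    refine tendsto_atTop_add_const_right _ _ (tendsto_atTop_add_const_left _ _ ?_)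
    exact tendsto_natCast_atTop_atTop.atTop_div_const two_pos
  have hΔ : ∀ w w', X < θ w → X < θ w' → ∀ n : ℕ,
      ‖p^[n] w - p^[n] w' - (w - w')‖ ≤ (u 0 - u n) * ‖w - w'‖ ∧
      ‖p^[n + 1] w - p^[n + 1] w' - (p^[n] w - p^[n] w')‖ ≤ (u n - u (n + 1)) * ‖w - w'‖ := by
    intro w w' hw hw'
    have step : ∀ n : ℕ, ‖p^[n] w - p^[n] w' - (w - w')‖ ≤ (u 0 - u n) * ‖w - w'‖ →
        ‖p^[n + 1] w - p^[n + 1] w' - (p^[n] w - p^[n] w')‖ ≤ (u n - u (n + 1)) * ‖w - w'‖ := by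
      intro n h
      have h0 : (0 : ℝ) ≤ n := Nat.cast_nonneg n
      have e1 : p^[n + 1] w - p^[n + 1] w' - (p^[n] w - p^[n] w') =
          e (p^[n] w) - e (p^[n] w') := by
        simp only [Function.iterate_succ_apply', hp]; ring
      have h1 := hlip (X + n / 2) (by linarith) _ _ (hit w hw n).le (hit w' hw' n).le
      have h2 : ‖p^[n] w - p^[n] w'‖ ≤ 2 * ‖w - w'‖ := by
        have a1 : ‖p^[n] w - p^[n] w'‖ ≤ ‖p^[n] w - p^[n] w' - (w - w')‖ + ‖w - w'‖ := by
          simpa using norm_add_le (p^[n] w - p^[n] w' - (w - w')) (w - w')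
        have a2 : (u 0 - u n) * ‖w - w'‖ ≤ 1 * ‖w - w'‖ := by
          gcongr; linarith [hu0 n]
        linarith
      rw [e1]
      calc _ ≤ D / (X + n / 2) ^ 2 * (2 * ‖w - w'‖) := h1.trans (by gcongr)
        _ = 2 * (D / (X + n / 2) ^ 2) * ‖w - w'‖ := by ring
        _ ≤ _ := by gcongr; exact hus n
    intro n
    have main : ‖p^[n] w - p^[n] w' - (w - w')‖ ≤ (u 0 - u n) * ‖w - w'‖ := by
      induction n with
      | zero => simp
      | succ n ih =>
        have h1 := step n ih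
        have a1 := norm_add_le (p^[n + 1] w - p^[n + 1] w' - (p^[n] w - p^[n] w'))
          (p^[n] w - p^[n] w' - (w - w'))
        have e1 : p^[n + 1] w - p^[n + 1] w' - (p^[n] w - p^[n] w') +
            (p^[n] w - p^[n] w' - (w - w')) = p^[n + 1] w - p^[n + 1] w' - (w - w') := by ring
        rw [e1] at a1
        linarith
    exact ⟨main, step n main⟩
  have hΔ2 : ∀ w w', X < θ w → X < θ w' → ∀ n m : ℕ,
      ‖p^[n + m] w - p^[n + m] w' - (p^[n] w - p^[n] w')‖ ≤ (u n - u (n + m)) * ‖w - w'‖ := by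
    intro w w' hw hw' n m
    induction m with
    | zero => simp
    | succ m ih =>
      have h1 := (hΔ w w' hw hw' (n + m)).2
      have a1 := norm_add_le (p^[n + m + 1] w - p^[n + m + 1] w' - (p^[n + m] w - p^[n + m] w'))
        (p^[n + m] w - p^[n + m] w' - (p^[n] w - p^[n] w'))
      have e1 : p^[n + m + 1] w - p^[n + m + 1] w' - (p^[n + m] w - p^[n + m] w') +
          (p^[n + m] w - p^[n + m] w' - (p^[n] w - p^[n] w')) =
          p^[n + m + 1] w - p^[n + m + 1] w' - (p^[n] w - p^[n] w') := by ring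
      rw [e1] at a1
      rw [← add_assoc]
      linarith
  have hΔ3 : ∀ w w', X < θ w → X < θ w' → ∀ n m : ℕ, n ≤ m →
      ‖p^[m] w - p^[m] w' - (p^[n] w - p^[n] w')‖ ≤ u n * ‖w - w'‖ := by
    intro w w' hw hw' n m hnm
    obtain ⟨k, rfl⟩ := Nat.exists_eq_add_of_le hnm
    refine (hΔ2 w w' hw hw' n k).trans ?_
    gcongr; linarith [hu0 (n + k)]
  set F : ℕ → ℂ → ℂ := fun n w => p^[n] w - p^[n] w0 with hF
  set η : ℂ → ℂ := fun w => limUnder atTop fun n => F n w with hη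
  have hconv : ∀ w, X < θ w → Tendsto (fun n => F n w) atTop (𝓝 (η w)) := by
    intro w hw
    refine CauchySeq.tendsto_limUnder ?_
    refine cauchySeq_of_le_tendsto_0' (fun n => u n * ‖w - w0‖) (fun n m hnm => ?_) ?_
    · rw [dist_comm, dist_eq_norm]; exact hΔ3 w w0 hw hw0 n m hnm
    · simpa using hu_lim.mul_const ‖w - w0‖
  have hrate : ∀ w, X < θ w → ∀ n, ‖η w - F n w‖ ≤ u n * ‖w - w0‖ := by
    intro w hw n
    refine le_of_tendsto ((hconv w hw).sub_const (F n w)).norm ?_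
    filter_upwards [eventually_ge_atTop n] with m hm
    exact hΔ3 w w0 hw hw0 n m hm
  have hpd : DifferentiableOn ℂ p {w | X < θ w} := by
    simp only [hp]; fun_prop
  have hpn : ∀ n : ℕ, DifferentiableOn ℂ (p^[n]) {w | X < θ w} := by
    intro n
    induction n with
    | zero => exact differentiableOn_id
    | succ n ih =>
      rw [Function.iterate_succ']
      exact hpd.comp ih fun w hw => hitV w hw n
  refine ⟨η, ?_, fun w hw => ?_, fun w w' hw hw' => ?_⟩
  · refine TendstoLocallyUniformlyOn.differentiableOn (F := F) (φ := atTop) ?_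
      (Eventually.of_forall fun n => (hpn n).sub_const _) hV
    rw [Metric.tendstoLocallyUniformlyOn_iff]
    intro ε hε x hx
    refine ⟨{w | X < θ w} ∩ ball x 1, inter_mem_nhdsWithin _ (ball_mem_nhds x one_pos), ?_⟩
    have hl : Tendsto (fun n => u n * (‖x - w0‖ + 1)) atTop (𝓝 0) := by
      simpa using hu_lim.mul_const (‖x - w0‖ + 1)
    filter_upwards [hl.eventually (gt_mem_nhds hε)] with n hn y hy
    rw [dist_eq_norm]
    refine (hrate y hy.1 n).trans_lt (lt_of_le_of_lt ?_ hn)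
    have a1 : ‖y - x‖ < 1 := by simpa [dist_eq_norm] using hy.2
    have a2 : ‖y - w0‖ ≤ ‖y - x‖ + ‖x - w0‖ := by
      simpa using norm_add_le (y - x) (x - w0)
    have := hu0 n
    gcongr; linarith
  · have h1 : Tendsto (fun n => F n (p w)) atTop (𝓝 (η (p w))) := hconv _ (hitV w hw 1)
    have h2 : Tendsto (fun n => e (p^[n] w)) atTop (𝓝 0) := by
      have a1 : Tendsto (fun n : ℕ => C / (X + n / 2)) atTop (𝓝 0) := by
        refine Tendsto.div_atTop tendsto_const_nhds (tendsto_atTop_add_const_left _ _ ?_)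
        exact tendsto_natCast_atTop_atTop.atTop_div_const two_pos
      refine squeeze_zero_norm (fun n => (hb _ (hitV w hw n)).trans ?_) a1
      have h0 : (0 : ℝ) ≤ n := Nat.cast_nonneg n
      have := hit w hw n
      gcongr
    have h3 : Tendsto (fun n => F n (p w)) atTop (𝓝 (η w + 1)) := by
      have := ((hconv w hw).add_const 1).add h2
      rw [add_zero] at this
      refine this.congr fun n => ?_
      simp only [hF]
      rw [← Function.iterate_succ_apply, Function.iterate_succ_apply']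
      simp only [hp]; ring
    exact tendsto_nhds_unique h1 h3
  · refine le_of_tendsto (((hconv w hw).sub (hconv w' hw')).sub_const (w - w')).norm
      (Eventually.of_forall fun n => ?_)
    have e1 : F n w - F n w' - (w - w') = p^[n] w - p^[n] w' - (w - w') := by
      simp only [hF]; ring
    rw [e1]
    refine (hΔ w w' hw hw' n).1.trans ?_
    gcongr; linarith [hu0 n]

lemma exists_fixed (G : ℂ → ℂ) (b : ℂ) (r : ℝ) (hr : 0 ≤ r)
    (hm : MapsTo G (closedBall b r) (closedBall b r))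
    (hc : ∀ x ∈ closedBall b r, ∀ y ∈ closedBall b r, ‖G x - G y‖ ≤ 1 / 2 * ‖x - y‖) :
    ∃ x ∈ closedBall b r, G x = x := by
  have hK : ContractingWith (1 / 2) (hm.restrict G _ _) := by
    refine ⟨by norm_num, LipschitzWith.of_dist_le_mul fun x y => ?_⟩
    have := hc x x.2 y y.2
    simpa [Subtype.dist_eq, dist_eq_norm] using this
  obtain ⟨x, hx, hfix, -⟩ := ContractingWith.exists_fixedPoint' isClosed_closedBall.isComplete hm hK
    (mem_closedBall_self hr) (edist_ne_top _ _)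
  exact ⟨x, hx, hfix⟩

lemma exists_inv {γ : ℝ → ℝ} {L : ℝ} (hL : 0 ≤ L) (lip : ∀ y y', |γ y - γ y'| ≤ L * |y - y'|)
    (X : ℝ) (η : ℂ → ℂ) (hη : DifferentiableOn ℂ η {w | X < th γ w})
    (happ : ∀ w w', X < th γ w → X < th γ w' →
      ‖η w - η w' - (w - w')‖ ≤ 1 / (8 * (1 + L)) * ‖w - w'‖) :
    ∃ (ξ : ℂ → ℂ) (γ' : ℝ → ℝ), (∀ y y', |γ' y - γ' y'| ≤ (2 * L + 1) * |y - y'|) ∧
      (∀ w : ℂ, X < th γ w → γ' (η w).im ≤ (η w).re) ∧
      DifferentiableOn ℂ ξ {v | γ' v.im < v.re} ∧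
      (∀ v : ℂ, γ' v.im < v.re → X < th γ (ξ v) ∧ η (ξ v) = v) := by
  set κ : ℝ := 1 / (8 * (1 + L)) with hκ
  have hK : 0 < 1 + L := by linarith
  have hκ0 : 0 < κ := by positivity
  have hκK : (1 + L) * κ = 1 / 8 := by rw [hκ]; field_simp
  have hκ2 : κ ≤ 1 / 2 := by nlinarith
  have happ2 : ∀ w w', X < th γ w → X < th γ w' →
      ‖η w - η w' - (w - w')‖ ≤ 1 / 2 * ‖w - w'‖ := fun w w' hw hw' =>
    (happ w w' hw hw').trans (by gcongr)
  set V : Set ℂ := {w | X < th γ w} with hV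
  have hVo : IsOpen V := isOpen_th lip X
  set w0 : ℂ := ((γ 0 + X + 1 : ℝ) : ℂ) with hw0
  have hth0 : th γ w0 = X + 1 := by simp [th, hw0]; ring
  have hw0V : w0 ∈ V := by show X < th γ w0; linarith
  have hne : (η '' V).Nonempty := ⟨_, mem_image_of_mem η hw0V⟩
  have hP : η '' V ≠ univ := by
    rw [ne_univ_iff_exists_notMem]
    refine ⟨η w0 - ((2 : ℝ) : ℂ), ?_⟩
    rintro ⟨w, hw, hw2⟩
    have h1 := happ w w0 hw hw0V
    have e1 : η w - η w0 - (w - w0) = -(w - (w0 - ((2 : ℝ) : ℂ))) := by rw [hw2]; ring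
    rw [e1, norm_neg] at h1
    have h2 : ‖w - w0‖ ≤ ‖w - (w0 - ((2 : ℝ) : ℂ))‖ + 2 := by
      have := norm_sub_le (w - (w0 - ((2 : ℝ) : ℂ))) ((2 : ℝ) : ℂ)
      have e2 : w - (w0 - ((2 : ℝ) : ℂ)) - ((2 : ℝ) : ℂ) = w - w0 := by ring
      rw [e2] at this
      simpa using this
    have h3 := th_lip hL lip w (w0 - ((2 : ℝ) : ℂ))
    rw [th_sub_real, norm_sub_rev] at h3
    have h4 : ‖w - w0‖ ≤ 4 := by nlinarith [norm_nonneg (w - w0)]
    have h5 : (1 + L) * ‖w - (w0 - ((2 : ℝ) : ℂ))‖ ≤ (1 + L) * (κ * 4) := by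
      gcongr; exact h1.trans (by gcongr)
    have h6 : X < th γ w := hw
    nlinarith
  have hcone : ∀ q ∈ η '' V, ∀ v : ℂ, (2 * L + 1) * |v.im - q.im| + 0 ≤ v.re - q.re →
      v ∈ η '' V := by
    rintro _ ⟨w, hw, rfl⟩ v hv
    set c : ℂ := v - η w with hc
    have hc1 : (2 * L + 1) * |c.im| ≤ c.re := by simpa [hc] using hv
    have hc2 : ‖c‖ ≤ c.re + |c.im| := by
      have := Complex.norm_le_abs_re_add_abs_im c
      have h0 : 0 ≤ c.re := le_trans (by positivity) hc1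
      rwa [abs_of_nonneg h0] at this
    set r : ℝ := 2 * κ * ‖c‖ with hr
    have hr0 : 0 ≤ r := by positivity
    have hsub : closedBall (w + c) r ⊆ V := by
      intro y hy
      have a1 : ‖y - (w + c)‖ ≤ r := by simpa [dist_eq_norm] using hy
      have a2 := th_lip hL lip (w + c) y
      have a3 : th γ w + c.re - L * |c.im| ≤ th γ (w + c) := by
        have := (abs_le.1 (lip (w.im + c.im) w.im)).2
        simp only [add_sub_cancel_left] at this
        simp only [th, add_re, add_im]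
        linarith
      have a4 : (1 + L) * ‖y - (w + c)‖ ≤ (1 + L) * r := by gcongr
      have a5 : (1 + L) * r = ‖c‖ / 4 := by
        rw [hr]; linear_combination (2 * ‖c‖) * hκK
      have a6 : X < th γ w := hw
      show X < th γ y
      nlinarith [abs_nonneg c.im]
    obtain ⟨x, hx, hfix⟩ := exists_fixed (fun y => w + c - (η y - η w - (y - w))) (w + c) r hr0
      (by
        intro y hy
        have a1 : ‖y - (w + c)‖ ≤ r := by simpa [dist_eq_norm] using hy
        rw [mem_closedBall, dist_eq_norm]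
        have e1 : w + c - (η y - η w - (y - w)) - (w + c) = -(η y - η w - (y - w)) := by ring
        rw [e1, norm_neg]
        refine (happ y w (hsub hy) hw).trans ?_
        have a2 : ‖y - w‖ ≤ ‖y - (w + c)‖ + ‖c‖ := by
          have := norm_add_le (y - (w + c)) c
          have e2 : y - (w + c) + c = y - w := by ring
          rwa [e2] at this
        have a3 : κ * ‖y - w‖ ≤ κ * (r + ‖c‖) := by gcongr; linarith
        have a4 : κ * r ≤ 1 / 2 * r := by gcongr
        nlinarith)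
      (by
        intro y hy z hz
        have e1 : w + c - (η y - η w - (y - w)) - (w + c - (η z - η w - (z - w))) =
            -(η y - η z - (y - z)) := by ring
        rw [e1, norm_neg]
        exact happ2 y z (hsub hy) (hsub hz))
    refine ⟨x, hsub hx, ?_⟩
    simp only [hc] at hfix
    linear_combination -hfix
  obtain ⟨γ', hlip', hle, hmem⟩ := exists_graph (η '' V) hne hP (2 * L + 1) 0 (by positivity) hcone
  have hQ : ∀ v : ℂ, γ' v.im < v.re → ∃ w ∈ V, η w = v := fun v hv =>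
    hmem v (by simpa using hv)
  have hξ1 : ∀ v : ℂ, γ' v.im < v.re → Function.invFunOn η V v ∈ V := fun v hv =>
    Function.invFunOn_mem (hQ v hv)
  have hξ2 : ∀ v : ℂ, γ' v.im < v.re → η (Function.invFunOn η V v) = v := fun v hv =>
    Function.invFunOn_eq (hQ v hv)
  refine ⟨Function.invFunOn η V, γ', hlip', fun w hw => hle _ (mem_image_of_mem η hw), ?_,
    fun v hv => ⟨hξ1 v hv, hξ2 v hv⟩⟩
  set ξ := Function.invFunOn η V
  have hQo : IsOpen {v : ℂ | γ' v.im < v.re} := isOpen_graph' hlip'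
  have hξl : LipschitzOnWith 2 ξ {v : ℂ | γ' v.im < v.re} := by
    refine LipschitzOnWith.of_dist_le_mul fun v hv v' hv' => ?_
    have h1 := happ2 _ _ (hξ1 v hv) (hξ1 v' hv')
    rw [hξ2 v hv, hξ2 v' hv'] at h1
    have h2 := norm_sub_le (v - v') (v - v' - (ξ v - ξ v'))
    rw [sub_sub_cancel] at h2
    simp only [dist_eq_norm, NNReal.coe_ofNat]
    linarith
  intro v hv
  have hcont : ContinuousAt ξ v := hξl.continuousOn.continuousAt (hQo.mem_nhds hv)
  have hd : HasDerivAt η (deriv η (ξ v)) (ξ v) :=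
    (hη.differentiableAt (hVo.mem_nhds (hξ1 v hv))).hasDerivAt
  have hne0 : deriv η (ξ v) ≠ 0 := by
    have h1 : ‖deriv η (ξ v) - 1‖ ≤ 1 / 2 := by
      refine (hd.fun_sub (hasDerivAt_id' (ξ v))).le_of_lip' (by norm_num) ?_
      filter_upwards [hVo.mem_nhds (hξ1 v hv)] with y hy
      have := happ2 y (ξ v) hy (hξ1 v hv)
      have e1 : η y - y - (η (ξ v) - ξ v) = η y - η (ξ v) - (y - ξ v) := by ring
      rwa [e1]
    intro h0
    rw [h0] at h1
    norm_num at h1
  exact (HasDerivAt.of_local_left_inverse hcont hd hne0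
    (by filter_upwards [hQo.mem_nhds hv] with y hy using hξ2 y hy)).differentiableAt.differentiableWithinAt

end Eta

open Eta in
theorem exists_eta (γ : ℝ → ℝ) (L : ℝ) (hL : 0 ≤ L) (lip : ∀ y y', |γ y - γ y'| ≤ L * |y - y'|)
    (X0 C : ℝ) (hX0 : 0 < X0) (e : ℂ → ℂ)
    (he : DifferentiableOn ℂ e {w | γ w.im + X0 < w.re})
    (hb : ∀ w : ℂ, γ w.im + X0 < w.re → ‖e w‖ ≤ C / (w.re - γ w.im)) :
    ∃ (X : ℝ) (η ξ : ℂ → ℂ) (γ' : ℝ → ℝ) (L' : ℝ), X0 + 1 ≤ X ∧ 0 ≤ L' ∧
      (∀ y y', |γ' y - γ' y'| ≤ L' * |y - y'|) ∧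
      DifferentiableOn ℂ η {w | γ w.im + X < w.re} ∧
      (∀ w : ℂ, γ w.im + X < w.re → γ (w + 1 + e w).im + X < (w + 1 + e w).re ∧
        η (w + 1 + e w) = η w + 1) ∧
      (∀ w w' : ℂ, γ w.im + X < w.re → γ w'.im + X < w'.re →
        ‖η w - η w' - (w - w')‖ ≤ ‖w - w'‖ / 2) ∧
      (∀ w : ℂ, γ w.im + X < w.re → γ' (η w).im ≤ (η w).re) ∧
      DifferentiableOn ℂ ξ {v | γ' v.im < v.re} ∧
      (∀ v : ℂ, γ' v.im < v.re → γ (ξ v).im + X < (ξ v).re ∧ η (ξ v) = v) := by
  rw [set_eq] at he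
  have hb' : ∀ w : ℂ, X0 < th γ w → ‖e w‖ ≤ C / th γ w := fun w hw => hb w (lt_th_iff.1 hw)
  have hK : 0 < 1 + L := by linarith
  have hC : 0 ≤ C := by
    have h1 : th γ ((γ 0 + X0 + 1 : ℝ) : ℂ) = X0 + 1 := by simp [th]; ring
    have h2 := (norm_nonneg _).trans (hb' ((γ 0 + X0 + 1 : ℝ) : ℂ) (by linarith))
    rw [h1] at h2
    by_contra hcon
    push Not at hcon
    have : C / (X0 + 1) < 0 := div_neg_of_neg_of_pos hcon (by linarith)
    linarith
  set D : ℝ := 8 * C * (1 + L) * (2 * L + 3) with hD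
  have hD0 : 0 ≤ D := by positivity
  set X : ℝ := 2 * X0 + 2 + 2 * (1 + L) * C + 32 * (1 + L) * D with hX
  have p1 : 0 ≤ 2 * (1 + L) * C := by positivity
  have p2 : 0 ≤ 32 * (1 + L) * D := by positivity
  have hstep : ∀ w, X < th γ w → th γ w + 1 / 2 ≤ th γ (w + 1 + e w) := by
    intro w hw
    have h1 := th_lip hL lip (w + ((1 : ℝ) : ℂ)) (w + 1 + e w)
    rw [th_add_real] at h1
    have e1 : w + 1 + e w - (w + ((1 : ℝ) : ℂ)) = e w := by simp
    rw [e1] at h1
    have h2 := hb' w (by linarith)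
    have ht : 0 < th γ w := by linarith
    have h3 : (1 + L) * (C / th γ w) ≤ 1 / 2 := by
      rw [← mul_div_assoc, div_le_iff₀ ht]; linarith
    have h4 : (1 + L) * ‖e w‖ ≤ (1 + L) * (C / th γ w) := by gcongr
    linarith
  have hw0 : X < th γ ((γ 0 + X + 1 : ℝ) : ℂ) := by simp [th]; linarith
  obtain ⟨η, hη, hsh, happ⟩ := exists_lim (th γ) e X D C (1 / (8 * (1 + L))) (by linarith) hD0
    (by
      rw [div_le_div_iff₀ (by linarith) (by positivity)]
      nlinarith)
    (by rw [div_le_one (by positivity)]; linarith) (isOpen_th lip X) _ hw0 hstep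
    (by
      intro s hs w w' hw hw'
      have hs0 : 0 < s := by linarith
      have := seg3 hL lip (f := e) (s := s) (M := 8 * C * (1 + L) / s ^ 2) (fun v hv => ⟨?_, ?_⟩)
        hw hw'
      · refine this.trans (le_of_eq ?_)
        rw [hD]; ring
      · exact he.differentiableAt ((isOpen_th lip X0).mem_nhds (show X0 < th γ v by linarith))
      · refine (deriv_bound hL lip hX0 hC he hb' (by linarith)).trans ?_
        gcongr)
    hC (fun w hw => hb' w (by linarith))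
    (he.mono fun w hw => by
      have : X < th γ w := hw
      show X0 < th γ w
      linarith)
  obtain ⟨ξ, γ', h1, h2, h3, h4⟩ := exists_inv hL lip X η hη happ
  refine ⟨X, η, ξ, γ', 2 * L + 1, by linarith, by positivity, h1, by rwa [set_eq],
    fun w hw => ⟨lt_th_iff.1 ?_, hsh w (lt_th_iff.2 hw)⟩, fun w w' hw hw' => ?_,
    fun w hw => h2 w (lt_th_iff.2 hw), h3, fun v hv => ⟨lt_th_iff.1 (h4 v hv).1, (h4 v hv).2⟩⟩
  · have a1 := lt_th_iff.2 hw
    have a2 := hstep w a1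
    linarith
  · refine (happ w w' (lt_th_iff.2 hw) (lt_th_iff.2 hw')).trans ?_
    have : 1 / (8 * (1 + L)) ≤ 1 / 2 := by
      rw [div_le_div_iff₀ (by positivity) two_pos]; linarith
    calc 1 / (8 * (1 + L)) * ‖w - w'‖ ≤ 1 / 2 * ‖w - w'‖ := by gcongr
      _ = ‖w - w'‖ / 2 := by ring

end Pool.Agent.MP_ff3f8e_an.H65
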