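import Pool.Agent.MP_ff3f8e_an.H65.FlowA

open Metric Set Filter Topology Complex ComplexConjugate

namespace Pool.Agent.MP_ff3f8e_an.H65

noncomputable section

namespace Flow

/-- A self-map `u` of the half-plane with a primitive `H` of `1 / u`. -/
structure Data (u H : ℂ → ℂ) : Prop where
  hd : DifferentiableOn ℂ u {ζ | 0 < ζ.im}
  hm : ∀ ζ : ℂ, 0 < ζ.im → 0 < (u ζ).im
  hH : ∀ ζ : ℂ, 0 < ζ.im → HasDerivAt H (u ζ)⁻¹ ζ

/-- The normalised step. -/
def tt (u : ℂ → ℂ) (z : ℂ) : ℝ := ‖u z‖ / z.im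

/-- The rate of decay of the normalised step. -/
def eta (u : ℂ → ℂ) (z : ℂ) : ℝ := (u z).im / z.im - (deriv u z).re

/-- The image of the half-plane. -/
def Om (H : ℂ → ℂ) : Set ℂ := H '' {ζ | 0 < ζ.im}

/-- The inverse of `H`. -/
def ZZ (H : ℂ → ℂ) : ℂ → ℂ := Function.invFunOn H {ζ | 0 < ζ.im}

namespace Data

variable {u H : ℂ → ℂ} (D : Data u H)
include D

lemma ne {z : ℂ} (hz : 0 < z.im) : u z ≠ 0 := by
  intro h
  have := D.hm z hz
  simp [h] at this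

lemma tt_pos {z : ℂ} (hz : 0 < z.im) : 0 < tt u z :=
  div_pos (norm_pos_iff.2 (D.ne hz)) hz

lemma eta_nonneg {z : ℂ} (hz : 0 < z.im) : 0 ≤ eta u z := by
  have := (re_le_norm _).trans (schwarz_pick_deriv D.hd D.hm hz)
  unfold eta; linarith

lemma diffH : DifferentiableOn ℂ H {ζ | 0 < ζ.im} := fun z hz =>
  (D.hH z hz).differentiableAt.differentiableWithinAt

lemma injOn : InjOn H {ζ | 0 < ζ.im} := by
  intro z hz z' hz' hzz
  by_contra hne
  have h0 : z' - z ≠ 0 := sub_ne_zero.2 (Ne.symm hne)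
  have hmem : ∀ s : ℝ, s ∈ Icc (0 : ℝ) 1 → 0 < (z + s * (z' - z)).im := by
    intro s hs
    have := convex_H.add_smul_sub_mem hz hz' hs
    simpa using this
  have hder : ∀ s : ℝ, s ∈ Icc (0 : ℝ) 1 →
      HasDerivAt (fun s : ℝ => (H (z + s * (z' - z)) / (z' - z)).im)
        ((u (z + s * (z' - z)))⁻¹).im s := by
    intro s hs
    have h1 : HasDerivAt (fun w : ℂ => z + w * (z' - z)) (z' - z) (s : ℂ) := by
      simpa using ((hasDerivAt_id (s : ℂ)).mul_const (z' - z)).const_add z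
    have h2 := (((D.hH _ (hmem s hs)).comp (s : ℂ) h1).div_const (z' - z)).comp_ofReal
    rw [mul_div_cancel_right₀ _ h0] at h2
    exact (Complex.imCLM.hasFDerivAt.comp_hasDerivAt s h2)
  obtain ⟨s, hs, hs2⟩ := exists_hasDerivAt_eq_slope
    (fun s : ℝ => (H (z + s * (z' - z)) / (z' - z)).im)
    (fun s => ((u (z + s * (z' - z)))⁻¹).im) one_pos
    (fun s hs => (hder s hs).continuousAt.continuousWithinAt)
    (fun s hs => hder s (Ioo_subset_Icc_self hs))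
  have h3 := D.hm _ (hmem s (Ioo_subset_Icc_self hs))
  have h4 := D.ne (hmem s (Ioo_subset_Icc_self hs))
  simp only [ofReal_one, one_mul, add_sub_cancel, ofReal_zero, zero_mul, add_zero, hzz, sub_self,
    zero_div, inv_im] at hs2
  have h5 := Complex.normSq_pos.2 h4
  have : 0 < (u (z + s * (z' - z))).im / normSq (u (z + s * (z' - z))) := by positivity
  rw [neg_div] at hs2
  linarith

lemma approx {s : Set ℂ} (hs : Convex ℝ s) {z : ℂ} (hz : z ∈ s) (hsub : ∀ ζ ∈ s, 0 < ζ.im)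
    {σ : ℝ} (h0 : 0 ≤ σ) (h1 : σ ≤ 1) (hhh : ∀ ζ ∈ s, hh ζ z ≤ σ ^ 2) {ζ : ℂ} (hζ : ζ ∈ s) :
    ‖u z * (H ζ - H z) - (ζ - z)‖ ≤ 2 * σ * ‖ζ - z‖ := by
  have := Convex.norm_image_sub_le_of_norm_hasDerivWithin_le (f := fun w => u z * H w - w)
    (f' := fun w => u z / u w - 1) (C := 2 * σ) (s := s)
    (fun w hw => by
      have := ((D.hH w (hsub w hw)).const_mul (u z)).sub (hasDerivAt_id w)
      rw [← div_eq_mul_inv] at this
      exact this.hasDerivWithinAt)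
    (fun w hw => ratio_le_of_hh (D.hm w (hsub w hw)) (D.hm z (hsub z hz)) h0 h1
      ((schwarz_pick D.hd D.hm (hsub w hw) (hsub z hz)).trans (hhh w hw))) hs hz hζ
  rw [show u z * (H ζ - H z) - (ζ - z) = u z * H ζ - ζ - (u z * H z - z) by ring]
  exact this

lemma ball_sub {z : ℂ} (hz : 0 < z.im) : ball (H z) (1 / (20 * tt u z)) ⊆ Om H := by
  have hsub : ∀ ζ ∈ closedBall z (z.im / 5), 4 / 5 * z.im ≤ ζ.im := by
    intro ζ hζ
    rw [mem_closedBall, dist_eq_norm] at hζ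
    have := (abs_le.1 ((abs_im_le_norm (ζ - z)).trans hζ)).1
    simp only [sub_im] at this
    linarith
  have hsub' : ∀ ζ ∈ closedBall z (z.im / 5), 0 < ζ.im := fun ζ hζ =>
    lt_of_lt_of_le (by positivity) (hsub ζ hζ)
  have hu := norm_pos_iff.2 (D.ne hz)
  have hap : ∀ ζ ∈ closedBall z (z.im / 5), ‖ζ - z‖ / (2 * ‖u z‖) ≤ ‖H ζ - H z‖ := by
    intro ζ hζ
    have h1 := D.approx (convex_closedBall z (z.im / 5)) (mem_closedBall_self (by positivity))
      hsub' (σ := 1 / 4) (by norm_num) (by norm_num) (fun w hw => by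
        rw [hh_le_iff (hsub' w hw) hz]
        have h2 := hsub w hw
        rw [mem_closedBall, dist_eq_norm] at hw
        have h3 : ‖w - z‖ ^ 2 ≤ (z.im / 5) ^ 2 := by gcongr
        nlinarith) hζ
    have h2 := norm_sub_norm_le (ζ - z) (u z * (H ζ - H z))
    rw [norm_sub_rev (ζ - z), norm_mul] at h2
    rw [div_le_iff₀ (by positivity)]
    nlinarith
  have hdc : DiffContOnCl ℂ H (ball z (z.im / 5)) :=
    (D.diffH.mono (closure_ball_subset_closedBall.trans hsub')).diffContOnCl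
  have := hdc.ball_subset_image_closedBall (ε := z.im / 5 / (2 * ‖u z‖)) (by positivity)
    (fun ζ hζ => by
      have := hap ζ (sphere_subset_closedBall hζ)
      rwa [mem_sphere_iff_norm.1 hζ] at this)
    (((D.hH z hz).eventually_ne (inv_ne_zero (D.ne hz))).frequently.filter_mono nhdsWithin_le_nhds)
  have e : 1 / (20 * tt u z) = z.im / 5 / (2 * ‖u z‖) / 2 := by
    unfold tt; field_simp; norm_num
  rw [e]
  exact this.trans (image_mono hsub')

omit D in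
lemma Z_im {w : ℂ} (hw : w ∈ Om H) : 0 < (ZZ H w).im := Function.invFunOn_mem hw

omit D in
lemma H_Z {w : ℂ} (hw : w ∈ Om H) : H (ZZ H w) = w := Function.invFunOn_eq hw

lemma Z_H {z : ℂ} (hz : 0 < z.im) : ZZ H (H z) = z := D.injOn.leftInvOn_invFunOn hz

lemma ball_sub' {w : ℂ} (hw : w ∈ Om H) {r : ℝ} (hr : 0 < r) (ht : tt u (ZZ H w) ≤ 1 / (20 * r)) :
    ball w r ⊆ Om H := by
  have h1 := D.ball_sub (Z_im hw)
  rw [H_Z hw] at h1
  refine (ball_subset_ball ?_).trans h1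
  have h2 := D.tt_pos (Z_im hw)
  rw [le_div_iff₀ (by positivity)] at ht ⊢
  linarith

lemma hasDerivAt_Z {w : ℂ} (hw : w ∈ Om H) : HasDerivAt (ZZ H) (u (ZZ H w)) w := by
  have hz := Z_im hw
  have h1 : HasStrictDerivAt H (u (ZZ H w))⁻¹ (ZZ H w) := by
    have := (D.diffH.analyticAt (isOpen_H.mem_nhds hz)).contDiffAt.hasStrictDerivAt (n := 1)
      one_ne_zero
    rwa [(D.hH _ hz).deriv] at this
  have h2 := h1.to_local_left_inverse (inv_ne_zero (D.ne hz)) (g := ZZ H)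
    (by filter_upwards [isOpen_H.mem_nhds hz] with ζ hζ using D.Z_H hζ)
  rw [inv_inv, H_Z hw] at h2
  exact h2.hasDerivAt

lemma tt_le {w : ℂ} {d : ℝ} (hd : 0 < d) (h : ball w d ⊆ Om H) : tt u (ZZ H w) ≤ 2 / d := by
  have hw := h (mem_ball_self hd)
  have h1 := norm_deriv_le_of_ball (Z := ZZ H) hd
    (fun v hv => (D.hasDerivAt_Z (h hv)).differentiableAt.differentiableWithinAt)
    (fun v hv => Z_im (h hv))
  rw [(D.hasDerivAt_Z hw).deriv] at h1
  unfold tt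
  rw [div_le_iff₀ (Z_im hw)]
  calc _ ≤ _ := h1
    _ = _ := by ring

lemma hasDerivAt_log {w : ℂ} {x : ℝ} (hw : w + x ∈ Om H) :
    HasDerivAt (fun x : ℝ => (Complex.log (u (ZZ H (w + x)))).re - Real.log (ZZ H (w + x)).im)
      (-eta u (ZZ H (w + x))) x := by
  have hz := Z_im hw
  have h1 : HasDerivAt (fun v : ℂ => ZZ H (w + v)) (u (ZZ H (w + x))) (x : ℂ) :=
    (D.hasDerivAt_Z hw).comp_const_add w x
  have h2 : HasDerivAt u (deriv u (ZZ H (w + x))) (ZZ H (w + x)) :=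
    (D.hd.differentiableAt (isOpen_H.mem_nhds hz)).hasDerivAt
  have h3 := ((h2.comp (x : ℂ) h1).clog (Or.inr (D.hm _ hz).ne')).comp_ofReal
  simp only [Function.comp] at h3
  rw [mul_div_cancel_right₀ _ (D.ne hz)] at h3
  have h4 : HasDerivAt (fun x : ℝ => (Complex.log (u (ZZ H (w + x)))).re)
      (deriv u (ZZ H (w + x))).re x := Complex.reCLM.hasFDerivAt.comp_hasDerivAt x h3
  have h5 : HasDerivAt (fun x : ℝ => (ZZ H (w + x)).im) (u (ZZ H (w + x))).im x :=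
    Complex.imCLM.hasFDerivAt.comp_hasDerivAt x h1.comp_ofReal
  have h6 := h4.sub (h5.log hz.ne')
  refine h6.congr_deriv ?_
  unfold eta; ring

lemma log_tt {z : ℂ} (hz : 0 < z.im) :
    Real.log (tt u z) = (Complex.log (u z)).re - Real.log z.im := by
  rw [tt, Real.log_div (norm_pos_iff.2 (D.ne hz)).ne' hz.ne', Complex.log_re]

lemma decay {w : ℂ} {X η0 : ℝ} (hX : 0 ≤ X) (h : ∀ x ∈ Icc (0 : ℝ) X, w + x ∈ Om H)
    (hη : ∀ x ∈ Icc (0 : ℝ) X, η0 ≤ eta u (ZZ H (w + x))) :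
    Real.log (tt u (ZZ H (w + X))) ≤ Real.log (tt u (ZZ H w)) - η0 * X := by
  rcases hX.eq_or_lt with rfl | hX'
  · simp
  have h0 : w ∈ Om H := by simpa using h 0 ⟨le_rfl, hX⟩
  obtain ⟨s, hs, hs2⟩ := exists_hasDerivAt_eq_slope
    (fun x : ℝ => (Complex.log (u (ZZ H (w + x)))).re - Real.log (ZZ H (w + x)).im)
    (fun x => -eta u (ZZ H (w + x))) hX'
    (fun s hs => (D.hasDerivAt_log (h s hs)).continuousAt.continuousWithinAt)
    (fun s hs => D.hasDerivAt_log (h s (Ioo_subset_Icc_self hs)))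
  rw [D.log_tt (Z_im (h X ⟨hX, le_rfl⟩)), D.log_tt (Z_im h0)]
  simp only [ofReal_zero, add_zero, sub_zero] at hs2
  rw [eq_div_iff hX'.ne'] at hs2
  have := hη s (Ioo_subset_Icc_self hs)
  nlinarith

lemma tt_mono {w : ℂ} {X : ℝ} (hX : 0 ≤ X) (h : ∀ x ∈ Icc (0 : ℝ) X, w + x ∈ Om H) :
    tt u (ZZ H (w + X)) ≤ tt u (ZZ H w) := by
  have h0 : w ∈ Om H := by simpa using h 0 ⟨le_rfl, hX⟩
  have := D.decay (η0 := 0) hX h (fun x hx => D.eta_nonneg (Z_im (h x hx)))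
  rw [zero_mul, sub_zero] at this
  exact (Real.log_le_log_iff (D.tt_pos (Z_im (h X ⟨hX, le_rfl⟩))) (D.tt_pos (Z_im h0))).1 this

lemma add_mem {w : ℂ} (hw : w ∈ Om H) {x : ℝ} (hx : 0 ≤ x) : w + x ∈ Om H := by
  have ht := D.tt_pos (Z_im hw)
  set ρ := 1 / (20 * tt u (ZZ H w)) with hρ
  have hρ0 : 0 < ρ := by positivity
  have key : ∀ n : ℕ, ∀ x ∈ Icc (0 : ℝ) (n * (ρ / 2)), w + x ∈ Om H := by
    intro n
    induction n with
    | zero =>
      intro x hx
      have : x = 0 := by simpa using hx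
      simpa [this] using hw
    | succ n ih =>
      intro x hx
      by_cases h1 : x ≤ n * (ρ / 2)
      · exact ih x ⟨hx.1, h1⟩
      have h2 : (0 : ℝ) ≤ n * (ρ / 2) := by positivity
      have h3 := D.tt_mono h2 ih
      refine D.ball_sub' (ih _ ⟨h2, le_rfl⟩) hρ0 (h3.trans (le_of_eq ?_)) ?_
      · rw [hρ]; field_simp
      · rw [mem_ball, dist_eq_norm, add_sub_add_left_eq_sub, ← ofReal_sub, Complex.norm_real,
          Real.norm_eq_abs, abs_lt]
        have := hx.2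
        push_cast at this
        constructor <;> linarith
  obtain ⟨n, hn⟩ := exists_nat_ge (x / (ρ / 2))
  exact key n x ⟨hx, by rwa [div_le_iff₀ (by positivity)] at hn⟩

lemma ball_add {w : ℂ} {r : ℝ} (hw : ball w r ⊆ Om H) {x : ℝ} (hx : 0 ≤ x) :
    ball (w + x) r ⊆ Om H := by
  intro v hv
  have h1 : v - x ∈ ball w r := by
    rw [mem_ball, dist_eq_norm] at hv ⊢
    rwa [show v - x - w = v - (w + x) by ring]
  simpa using D.add_mem (hw h1) hx

lemma grow {η0 l0 : ℝ} (hl0 : 0 ≤ l0) (hl : Real.log 80 < η0 * l0)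
    (hη : ∀ z : ℂ, 0 < z.im → 1 / 40 ≤ tt u z → tt u z ≤ 2 → η0 ≤ eta u z)
    {w : ℂ} (hw : ball w 1 ⊆ Om H) : ball (w + l0) 2 ⊆ Om H := by
  have h0 := hw (mem_ball_self one_pos)
  have h1 : tt u (ZZ H w) ≤ 2 := by simpa using D.tt_le one_pos hw
  refine D.ball_sub' (D.add_mem h0 hl0) two_pos ?_
  by_contra hcon
  push Not at hcon
  have hcon' : 1 / 40 < tt u (ZZ H (w + l0)) := by linarith
  have h2 := D.decay (η0 := η0) hl0 (fun x hx => D.add_mem h0 hx.1) (fun x hx => by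
    have hx0 := D.add_mem h0 hx.1
    refine hη _ (Z_im hx0) ?_ ?_
    · have h3 := D.tt_mono (w := w + x) (X := l0 - x) (by linarith [hx.2])
        (fun y hy => D.add_mem hx0 hy.1)
      rw [show w + x + ((l0 - x : ℝ) : ℂ) = w + l0 by push_cast; ring] at h3
      linarith
    · exact (D.tt_mono hx.1 (fun y hy => D.add_mem h0 hy.1)).trans h1)
  have h3 : Real.log (tt u (ZZ H w)) ≤ Real.log 2 := Real.log_le_log (D.tt_pos (Z_im h0)) h1
  have h4 : Real.log (1 / 40) ≤ Real.log (tt u (ZZ H (w + l0))) :=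
    Real.log_le_log (by norm_num) hcon'.le
  have h5 : Real.log (1 / 40) = Real.log 2 - Real.log 80 := by
    rw [← Real.log_div (by norm_num) (by norm_num)]; norm_num
  linarith

lemma cone {l0 : ℝ} (hl0 : 0 ≤ l0)
    (hg : ∀ w : ℂ, ball w 1 ⊆ Om H → ball (w + l0) 2 ⊆ Om H)
    {w : ℂ} (hw : ball w 1 ⊆ Om H) (v : ℂ) (hv : l0 * |v.im - w.im| + l0 ≤ v.re - w.re) :
    ball v 1 ⊆ Om H := by
  have key : ∀ n : ℕ, ∀ y : ℝ, |y| ≤ n → ball (w + n * l0 + y * I) 1 ⊆ Om H := by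
    intro n
    induction n with
    | zero =>
      intro y hy
      have : y = 0 := by simpa using hy
      simpa [this] using hw
    | succ n ih =>
      intro y hy
      have hn : (0 : ℝ) < n + 1 := by positivity
      push_cast at hy
      have h1 := hg _ (ih (y * n / (n + 1)) (by
        rw [abs_div, abs_mul, abs_of_pos hn, Nat.abs_cast, div_le_iff₀ hn]
        nlinarith [Nat.cast_nonneg (α := ℝ) n]))
      refine (ball_subset_ball' ?_).trans h1
      have e : w + ((n + 1 : ℕ) : ℂ) * l0 + y * I - (w + n * l0 + ((y * n / (n + 1) : ℝ) : ℂ) * I + l0)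
          = ((y / (n + 1) : ℝ) : ℂ) * I := by
        have : (n : ℂ) + 1 ≠ 0 := by exact_mod_cast hn.ne'
        push_cast; field_simp; ring
      rw [dist_eq_norm, e, norm_mul, norm_I, mul_one, Complex.norm_real, Real.norm_eq_abs, abs_div,
        abs_of_pos hn]
      have : |y| / (n + 1) ≤ 1 := by rwa [div_le_one hn]
      linarith
  have h1 := key ⌈|v.im - w.im|⌉₊ (v.im - w.im) (Nat.le_ceil _)
  have h2 : (⌈|v.im - w.im|⌉₊ : ℝ) ≤ |v.im - w.im| + 1 := (Nat.ceil_lt_add_one (abs_nonneg _)).le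
  have h3 := D.ball_add h1 (x := v.re - w.re - ⌈|v.im - w.im|⌉₊ * l0) (by nlinarith)
  convert h3 using 2
  apply Complex.ext <;> simp

lemma step {z : ℂ} (hz : 0 < z.im) (ht : tt u z ≤ 1) :
    ‖H (z + u z) - H z - 1‖ ≤ 2 * tt u z := by
  have hu := D.hm z hz
  have hu0 := D.ne hz
  have hseg : ∀ ζ ∈ segment ℝ z (z + u z), z.im ≤ ζ.im ∧ ‖ζ - z‖ ≤ ‖u z‖ := by
    intro ζ hζ
    rw [segment_eq_image'] at hζ
    obtain ⟨θ, hθ, rfl⟩ := hζ
    simp only [add_sub_cancel_left, add_im, smul_im, smul_eq_mul, norm_smul, Real.norm_eq_abs,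
      abs_of_nonneg hθ.1]
    exact ⟨by nlinarith [hθ.1], mul_le_of_le_one_left (norm_nonneg _) hθ.2⟩
  have h1 := D.approx (convex_segment z (z + u z)) (left_mem_segment ℝ _ _)
    (fun ζ hζ => hz.trans_le (hseg ζ hζ).1) (D.tt_pos hz).le ht (fun ζ hζ => by
      obtain ⟨h2, h3⟩ := hseg ζ hζ
      rw [hh_le_iff (hz.trans_le h2) hz]
      calc ‖ζ - z‖ ^ 2 ≤ ‖u z‖ ^ 2 := by gcongr
        _ = tt u z ^ 2 * (z.im * z.im) := by unfold tt; field_simp
        _ ≤ _ := by gcongr) (right_mem_segment ℝ _ _)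
  rw [add_sub_cancel_left, show u z * (H (z + u z) - H z) - u z
    = (H (z + u z) - H z - 1) * u z by ring, norm_mul] at h1
  exact le_of_mul_le_mul_right h1 (norm_pos_iff.2 hu0)

lemma tt_small {z : ℂ} (hz : 0 < z.im) {s : ℝ} (hs : 0 < s)
    (h : hh z (z + u z) < s ^ 2 / (1 + s)) : tt u z ≤ s := by
  by_contra hcon
  push Not at hcon
  have hu := D.hm z hz
  have h1 : 0 < (z + u z).im := by rw [add_im]; linarith
  refine absurd h (not_lt.2 ?_)
  rw [le_hh_iff hz h1, sub_add_cancel_left, norm_neg, add_im]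
  have h2 : ‖u z‖ = tt u z * z.im := by unfold tt; field_simp
  have h3 := im_le_norm' (u z)
  set t := tt u z
  rw [div_mul_eq_mul_div, div_le_iff₀ (by positivity), h2]
  rw [h2] at h3
  have h4 : s ^ 2 * (1 + t) ≤ t ^ 2 * (1 + s) := by
    nlinarith [mul_pos hs (sub_pos.2 hcon), mul_pos (mul_pos hs (hs.trans hcon)) (sub_pos.2 hcon),
      mul_pos (hs.trans hcon) (sub_pos.2 hcon)]
  calc s ^ 2 * (z.im * (z.im + (u z).im)) ≤ s ^ 2 * (z.im * (z.im + t * z.im)) := by gcongr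
    _ = s ^ 2 * (1 + t) * z.im ^ 2 := by ring
    _ ≤ t ^ 2 * (1 + s) * z.im ^ 2 := by gcongr
    _ = _ := by ring

lemma ball_of_small {z : ℂ} (hz : 0 < z.im) {r : ℝ} (hr : 0 < r)
    (h : hh z (z + u z) < (1 / (20 * r)) ^ 2 / (1 + 1 / (20 * r))) : ball (H z) r ⊆ Om H := by
  refine D.ball_sub' ⟨z, hz, rfl⟩ hr ?_
  rw [D.Z_H hz]
  exact D.tt_small hz (by positivity) h

end Data

end Flow

open _root_.Pool.Agent.MP_ff3f8e_an.H65.Flow in
theorem exists_flow (ψ : ℂ → ℂ) (hd : DifferentiableOn ℂ ψ {ζ | 0 < ζ.im})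
    (him : ∀ ζ : ℂ, 0 < ζ.im → ζ.im < (ψ ζ).im)
    (hI : ∀ δ : ℝ, 0 < δ → ∃ N : ℕ, ∀ ζ : ℂ, 0 < ζ.im → hh (ψ^[N] ζ) (ψ (ψ^[N] ζ)) < δ) :
    ∃ (H Z : ℂ → ℂ) (γ : ℝ → ℝ) (L X0 C : ℝ), 0 ≤ L ∧ 0 < X0 ∧
      (∀ y y', |γ y - γ y'| ≤ L * |y - y'|) ∧
      DifferentiableOn ℂ H {ζ | 0 < ζ.im} ∧ InjOn H {ζ | 0 < ζ.im} ∧
      DifferentiableOn ℂ Z {w | γ w.im + X0 < w.re} ∧
      (∀ w : ℂ, γ w.im + X0 < w.re → 0 < (Z w).im ∧ H (Z w) = w ∧
        ‖H (ψ (Z w)) - w - 1‖ ≤ C / (w.re - γ w.im)) ∧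
      (∀ X : ℝ, ∃ δ : ℝ, 0 < δ ∧ ∀ ζ : ℂ, 0 < ζ.im → hh ζ (ψ ζ) < δ →
        γ (H ζ).im + X < (H ζ).re) := by
  set u : ℂ → ℂ := fun ζ => ψ ζ - ζ with hu
  have hud : DifferentiableOn ℂ u {ζ | 0 < ζ.im} := hd.sub differentiableOn_id
  have hum : ∀ ζ : ℂ, 0 < ζ.im → 0 < (u ζ).im := fun ζ h => by
    have := him ζ h
    simp only [hu, sub_im]; linarith
  have hψ : ∀ ζ, ψ ζ = ζ + u ζ := fun ζ => by simp [hu]
  obtain ⟨H, hH⟩ := convex_H.exists_forall_hasDerivWithinAt (f := fun ζ => (u ζ)⁻¹)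
    (hud.inv fun ζ h h0 => by simpa [h0] using hum ζ h)
  have D : Data u H := ⟨hud, hum, fun ζ h => (hH ζ h).hasDerivAt (isOpen_H.mem_nhds h)⟩
  obtain ⟨η0, hη0, hη⟩ := rigidity hd him hI (c := 1 / 40) (by norm_num)
  have hlog : 0 < Real.log 80 := Real.log_pos (by norm_num)
  set l0 : ℝ := Real.log 80 / η0 + 1 with hl0
  have hl0' : 0 < l0 := by positivity
  have hl1 : Real.log 80 < η0 * l0 := by
    rw [hl0, mul_add, mul_div_cancel₀ _ hη0.ne']; linarith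
  have hg : ∀ w : ℂ, ball w 1 ⊆ Om H → ball (w + l0) 2 ⊆ Om H := fun w hw =>
    D.grow hl0'.le hl1 (fun z hz h1 h2 => hη z hz ((le_div_iff₀ hz).1 h1)
      ((div_le_iff₀ hz).1 h2)) hw
  have hiter : ∀ N : ℕ, 0 < (ψ^[N] I).im := by
    intro N
    induction N with
    | zero => simp
    | succ N ih => rw [Function.iterate_succ_apply']; exact ih.trans (him _ ih)
  have hne : {w : ℂ | ball w 1 ⊆ Om H}.Nonempty := by
    obtain ⟨N, hN⟩ := hI ((1 / (20 * 1)) ^ 2 / (1 + 1 / (20 * 1))) (by positivity)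
    have := hN I (by simp)
    rw [hψ (ψ^[N] I)] at this
    exact ⟨_, D.ball_of_small (hiter N) one_pos this⟩
  have huniv : {w : ℂ | ball w 1 ⊆ Om H} ≠ univ := by
    intro h
    have h1 : ∀ w, w ∈ Om H := fun w => (eq_univ_iff_forall.1 h w) (mem_ball_self one_pos)
    have h2 := D.tt_pos (Data.Z_im (h1 0))
    have h3 := D.tt_le (w := 0) (d := 4 / tt u (ZZ H 0)) (by positivity) (fun w _ => h1 w)
    have h4 : 2 / (4 / tt u (ZZ H 0)) = tt u (ZZ H 0) / 2 := by field_simp; norm_num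
    linarith
  obtain ⟨γ, lip, hγ1, hγ2⟩ := exists_graph _ hne huniv l0 l0 hl0'.le
    (fun w hw v hv => D.cone hl0'.le hg hw v hv)
  have hOm : ∀ w : ℂ, γ w.im + l0 < w.re → w ∈ Om H := fun w hw =>
    hγ2 w hw (mem_ball_self one_pos)
  refine ⟨H, ZZ H, γ, l0, 2 * l0 + 4 * (1 + l0), 8 * (1 + l0), hl0'.le, by positivity, lip,
    D.diffH, D.injOn, fun w hw => ?_, fun w hw => ?_, fun X => ?_⟩
  · have hw' : γ w.im + (2 * l0 + 4 * (1 + l0)) < w.re := hw
    exact (D.hasDerivAt_Z (hOm w (by linarith))).differentiableAt.differentiableWithinAt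
  · have h0 := hOm w (by linarith)
    refine ⟨Data.Z_im h0, Data.H_Z h0, ?_⟩
    set θ := w.re - γ w.im with hθ
    have hθ1 : 2 * l0 + 4 * (1 + l0) < θ := by linarith
    have hθ0 : 0 < θ := by linarith
    have h1 := D.tt_le (w := w) (d := θ / (2 * (1 + l0))) (by positivity) (fun v hv => by
      refine hOm v ?_
      have h2 := graph_lip hl0'.le lip w v
      rw [mem_ball, dist_eq_norm, lt_div_iff₀ (by positivity)] at hv
      linarith)
    have h2 : 2 / (θ / (2 * (1 + l0))) = 4 * (1 + l0) / θ := by field_simp; norm_num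
    rw [h2] at h1
    have h3 : 4 * (1 + l0) / θ ≤ 1 := by rw [div_le_one hθ0]; linarith
    have h4 := D.step (Data.Z_im h0) (h1.trans h3)
    rw [← hψ, Data.H_Z h0] at h4
    calc _ ≤ _ := h4
      _ ≤ 2 * (4 * (1 + l0) / θ) := by gcongr
      _ = _ := by ring
  · refine ⟨(1 / (20 * (|X| + 2))) ^ 2 / (1 + 1 / (20 * (|X| + 2))), by positivity,
      fun ζ hζ h => ?_⟩
    rw [hψ ζ] at h
    have h1 := D.ball_of_small hζ (by positivity) h
    have h2 : ball (H ζ - ((|X| + 1 : ℝ) : ℂ)) 1 ⊆ Om H := by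
      refine (ball_subset_ball' ?_).trans h1
      rw [dist_eq_norm, sub_sub_cancel_left, norm_neg, Complex.norm_real, Real.norm_eq_abs,
        abs_of_pos (by positivity)]
      linarith
    have h3 := hγ1 _ h2
    simp only [sub_im, ofReal_im, sub_zero, sub_re, ofReal_re] at h3
    linarith [le_abs_self X]

end

end Pool.Agent.MP_ff3f8e_an.H65
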