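import Pool.Agent.MP_ff3f8e_an.H65.Tools

open Metric Set Filter Topology Complex ComplexConjugate

namespace Pool.Agent.MP_ff3f8e_an.H65.Flow

noncomputable section

lemma norm_bl_le {f : ℂ → ℂ} (hd : DifferentiableOn ℂ f {ζ | 0 < ζ.im})
    (hm : ∀ ζ : ℂ, 0 < ζ.im → 0 < (f ζ).im) {z ζ : ℂ} (hz : 0 < z.im) (h : 0 < ζ.im) :
    ‖bl (f z) (f ζ)‖ ≤ ‖bl z ζ‖ := by
  have h1 := schwarz_pick hd hm h hz
  have h2 := hh_nonneg (hm ζ h) (hm z hz)
  have h3 := hh_nonneg h hz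
  have : ‖bl (f z) (f ζ)‖ ^ 2 ≤ ‖bl z ζ‖ ^ 2 := by
    rw [norm_bl_sq (hm z hz) (hm ζ h), norm_bl_sq hz h,
      div_le_div_iff₀ (by positivity) (by positivity)]
    nlinarith
  exact (pow_le_pow_iff_left₀ (norm_nonneg _) (norm_nonneg _) two_ne_zero).1 this

lemma sub_conj_eq (z : ℂ) : z - conj z = 2 * z.im * I := by
  rw [Complex.sub_conj]; push_cast; ring

lemma harnack {g : ℂ → ℂ} (hd : DifferentiableOn ℂ g {ζ | 0 < ζ.im})
    (hm : ∀ ζ : ℂ, 0 < ζ.im → ‖g ζ‖ ≤ 1) {z ζ : ℂ} (hz : 0 < z.im) (h : 0 < ζ.im) :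
    ‖1 - g ζ‖ ≤ (hh ζ z + 2) * ‖1 - g z‖ := by
  have h0 := hh_nonneg h hz
  refine le_of_forall_pos_le_add fun ε hε => ?_
  set δ := ε / (hh ζ z + 3) with hδ
  have hδ0 : 0 < δ := by positivity
  have hf : DifferentiableOn ℂ (fun w => I * (1 - g w + δ)) {ζ | 0 < ζ.im} := by fun_prop
  have hfm : ∀ w : ℂ, 0 < w.im → 0 < (I * (1 - g w + δ)).im := by
    intro w hw
    have := (re_le_norm (g w)).trans (hm w hw)
    simp only [mul_im, I_re, I_im, add_re, sub_re, one_re, ofReal_re, zero_mul, one_mul, zero_add]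
    linarith
  have h1 := schwarz_pick hf hfm h hz
  have h2 := norm_le_of_hh (hfm ζ h) (hfm z hz)
  simp only [norm_mul, norm_I, one_mul] at h2
  have h3 : ‖1 - g z + δ‖ ≤ ‖1 - g z‖ + δ := by
    refine (norm_add_le _ _).trans ?_
    rw [Complex.norm_real, Real.norm_eq_abs, abs_of_pos hδ0]
  have h4 : ‖1 - g ζ‖ ≤ ‖1 - g ζ + δ‖ + δ := by
    calc ‖1 - g ζ‖ = ‖1 - g ζ + δ - δ‖ := by congr 1; ring
      _ ≤ ‖1 - g ζ + δ‖ + ‖(δ : ℂ)‖ := norm_sub_le _ _
      _ = _ := by rw [Complex.norm_real, Real.norm_eq_abs, abs_of_pos hδ0]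
  have h5 : ‖1 - g ζ + δ‖ ≤ (hh ζ z + 2) * (‖1 - g z‖ + δ) :=
    h2.trans (by gcongr)
  have h6 : (hh ζ z + 3) * δ = ε := by rw [hδ]; field_simp
  nlinarith

/-- A self-map of the half-plane whose derivative is almost extremal is almost affine. -/
lemma approx_affine {u : ℂ → ℂ} (hd : DifferentiableOn ℂ u {ζ | 0 < ζ.im})
    (hm : ∀ ζ : ℂ, 0 < ζ.im → 0 < (u ζ).im) {z ζ : ℂ} (hz : 0 < z.im) (h : 0 < ζ.im) :
    ‖u ζ - u z - ((u z).im / z.im : ℝ) * (ζ - z)‖ ≤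
      (hh ζ z + 4) ^ 3 * (z.im * ‖(((u z).im / z.im : ℝ) : ℂ) - deriv u z‖) := by
  have ha := hm z hz
  set a := u z with ha'
  have hF : DifferentiableOn ℂ (fun w => bl a (u w)) {ζ | 0 < ζ.im} :=
    (differentiableOn_bl ha).comp hd hm
  set g : ℂ → ℂ := fun w => dslope (fun w => bl a (u w)) z w * (w - conj z) with hg
  have hgd : DifferentiableOn ℂ g {ζ | 0 < ζ.im} :=
    ((Complex.differentiableOn_dslope (isOpen_H.mem_nhds hz)).2 hF).mul (by fun_prop)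
  have hgB : ∀ w : ℂ, 0 < w.im → bl a (u w) = g w * bl z w := by
    intro w hw
    have h0 := sub_conj_ne hw hz
    have h1 := sub_smul_dslope (fun w => bl a (u w)) z w
    simp only [smul_eq_mul, ← ha', bl_self, sub_zero] at h1
    rw [← h1, hg]
    simp only [bl]
    field_simp
  have hu' : HasDerivAt u (deriv u z) z := (hd.differentiableAt (isOpen_H.mem_nhds hz)).hasDerivAt
  have haa := sub_conj_self_ne ha
  have hy : (z.im : ℂ) ≠ 0 := by exact_mod_cast hz.ne'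
  have hβ : (a.im : ℂ) ≠ 0 := by exact_mod_cast ha.ne'
  have hgz : g z = deriv u z * z.im / a.im := by
    have h2 : HasDerivAt (fun v => bl a (u v)) (deriv u z / (a - conj a)) z := by
      unfold bl
      have := (hu'.sub_const a).fun_div (hu'.sub_const (conj a)) haa
      refine this.congr_deriv ?_
      simp only [← ha', sub_self, zero_mul, sub_zero]
      field_simp
    simp only [hg, dslope_same, h2.deriv, sub_conj_eq]
    field_simp
  have hg1 : ∀ w : ℂ, 0 < w.im → ‖g w‖ ≤ 1 := by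
    intro w hw
    by_cases hwz : w = z
    · rw [hwz, hgz, norm_div, norm_mul, Complex.norm_real, Complex.norm_real, Real.norm_eq_abs,
        Real.norm_eq_abs, abs_of_pos hz, abs_of_pos ha, div_le_one ha]
      have := schwarz_pick_deriv hd hm hz
      rwa [le_div_iff₀ hz] at this
    · have h1 := norm_bl_le hd hm hz hw
      rw [← ha', hgB w hw, norm_mul] at h1
      have h2 : 0 < ‖bl z w‖ := by
        rw [norm_pos_iff, bl]
        exact div_ne_zero (sub_ne_zero.2 hwz) (sub_conj_ne hw hz)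
      nlinarith
  have hH := harnack hgd hg1 hz h
  set B := bl z ζ with hB
  have hB1 : ‖B‖ < 1 := norm_bl_lt hz h
  have hgB1 : ‖g ζ * B‖ ≤ ‖B‖ := by
    rw [norm_mul]; nlinarith [hg1 ζ h, norm_nonneg B]
  have e1 : u ζ = am a (g ζ * B) := by rw [← hgB ζ h, am_bl ha (hm ζ h)]
  have e2 : ζ = am z B := (am_bl hz h).symm
  have n1 := one_sub_ne hB1
  have n2 := one_sub_ne (hgB1.trans_lt hB1)
  have e3 : u ζ - a - ((a.im / z.im : ℝ) : ℂ) * (ζ - z)
      = -(2 * a.im * I * B * (1 - g ζ)) / ((1 - g ζ * B) * (1 - B)) := by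
    have f1 : u ζ - a = (a - conj a) * (g ζ * B) / (1 - g ζ * B) := by
      rw [e1, am]; field_simp; ring
    have f2 : ζ - z = (z - conj z) * B / (1 - B) := by
      have : ζ - z = am z B - z := by rw [← e2]
      rw [this, am]; field_simp; ring
    rw [f1, f2, sub_conj_eq, sub_conj_eq]
    push_cast
    field_simp
    ring
  have hh0 := hh_nonneg h hz
  have b1 : 2 / (hh ζ z + 4) ≤ 1 - ‖B‖ := by
    have := one_sub_norm_bl_sq hz h
    rw [← hB] at this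
    have h4 : 2 / (hh ζ z + 4) = (1 - ‖B‖ ^ 2) / 2 := by rw [this]; ring
    rw [h4]; nlinarith [norm_nonneg B]
  have b2 : 2 / (hh ζ z + 4) ≤ ‖1 - B‖ :=
    b1.trans (by simpa using norm_sub_norm_le (1 : ℂ) B)
  have b3 : 2 / (hh ζ z + 4) ≤ ‖1 - g ζ * B‖ :=
    b1.trans (by have := norm_sub_norm_le (1 : ℂ) (g ζ * B); simp only [norm_one] at this; linarith)
  have e4 : a.im * ‖1 - g z‖ = z.im * ‖((a.im / z.im : ℝ) : ℂ) - deriv u z‖ := by
    have : (a.im : ℂ) * (1 - g z) = z.im * (((a.im / z.im : ℝ) : ℂ) - deriv u z) := by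
      rw [hgz]; push_cast; field_simp
    have h2 := congrArg norm this
    rwa [norm_mul, norm_mul, Complex.norm_real, Complex.norm_real, Real.norm_eq_abs,
      Real.norm_eq_abs, abs_of_pos hz, abs_of_pos ha] at h2
  rw [e3, ← e4, norm_div, norm_neg, norm_mul (1 - g ζ * B), div_le_iff₀
    (mul_pos (norm_pos_iff.2 n2) (norm_pos_iff.2 n1))]
  have e5 : ‖2 * (a.im : ℂ) * I * B * (1 - g ζ)‖ = 2 * a.im * ‖B‖ * ‖1 - g ζ‖ := by
    simp only [norm_mul, norm_I, Complex.norm_real, Real.norm_eq_abs, abs_of_pos ha, mul_one,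
      Complex.norm_ofNat]
  rw [e5]
  have c1 : 2 * a.im * ‖B‖ * ‖1 - g ζ‖ ≤ 2 * a.im * 1 * ((hh ζ z + 4) * ‖1 - g z‖) := by
    have : ‖1 - g ζ‖ ≤ (hh ζ z + 4) * ‖1 - g z‖ := hH.trans (by gcongr; norm_num)
    gcongr
  have c2 : 2 / (hh ζ z + 4) * (2 / (hh ζ z + 4)) ≤ ‖1 - g ζ * B‖ * ‖1 - B‖ := by gcongr
  calc _ ≤ 2 * a.im * 1 * ((hh ζ z + 4) * ‖1 - g z‖) := c1
    _ ≤ 4 * a.im * 1 * ((hh ζ z + 4) * ‖1 - g z‖) := by gcongr; norm_num
    _ = (hh ζ z + 4) ^ 3 * (a.im * ‖1 - g z‖) * (2 / (hh ζ z + 4) * (2 / (hh ζ z + 4))) := by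
        field_simp; ring
    _ ≤ _ := by gcongr

/-- Rigidity: where the normalised step is of moderate size it decays at a definite rate. -/
lemma rigidity {ψ : ℂ → ℂ} (hd : DifferentiableOn ℂ ψ {ζ | 0 < ζ.im})
    (him : ∀ ζ : ℂ, 0 < ζ.im → ζ.im < (ψ ζ).im)
    (hI : ∀ δ : ℝ, 0 < δ → ∃ N : ℕ, ∀ ζ : ℂ, 0 < ζ.im → hh (ψ^[N] ζ) (ψ (ψ^[N] ζ)) < δ)
    {c : ℝ} (hc : 0 < c) : ∃ η0 : ℝ, 0 < η0 ∧ ∀ z : ℂ, 0 < z.im →
      c * z.im ≤ ‖ψ z - z‖ → ‖ψ z - z‖ ≤ 2 * z.im →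
      η0 ≤ (ψ z - z).im / z.im - (deriv (fun ζ => ψ ζ - ζ) z).re := by
  obtain ⟨N, hN⟩ := hI (c ^ 2 / 48) (by positivity)
  set u : ℂ → ℂ := fun ζ => ψ ζ - ζ with hu
  have hud : DifferentiableOn ℂ u {ζ | 0 < ζ.im} := hd.sub differentiableOn_id
  have hum : ∀ ζ : ℂ, 0 < ζ.im → 0 < (u ζ).im := fun ζ h => by
    have := him ζ h
    simp only [hu, sub_im]; linarith
  set K : ℝ := ((6 ^ N) ^ 2 + 4) ^ 3 with hK
  have hK0 : 0 < K := by positivity
  set E : ℝ := min (c / 4) 1 / (N + 1) with hE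
  have hE0 : 0 < E := by positivity
  have hE1 : (N + 1) * E ≤ 1 := by
    rw [hE, mul_div_cancel₀ _ (by positivity)]; exact min_le_right _ _
  have hE2 : (N + 1) * E ≤ c / 4 := by
    rw [hE, mul_div_cancel₀ _ (by positivity)]; exact min_le_left _ _
  have hN0 : (0 : ℝ) ≤ N := Nat.cast_nonneg N
  refine ⟨(E / K) ^ 2 / 4, by positivity, fun z hz h1 h2 => ?_⟩
  change c * z.im ≤ ‖u z‖ at h1
  change ‖u z‖ ≤ 2 * z.im at h2
  change (E / K) ^ 2 / 4 ≤ (u z).im / z.im - (deriv u z).re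
  by_contra hcon
  push Not at hcon
  set q : ℝ := (u z).im / z.im with hq
  have hq0 : 0 < q := div_pos (hum z hz) hz
  have hq2 : q ≤ 2 := by
    rw [hq, div_le_iff₀ hz]; exact (im_le_norm' _).trans h2
  have hqz : q * z.im = (u z).im := by rw [hq]; field_simp
  have hder : ‖(q : ℂ) - deriv u z‖ ≤ E / K := by
    have h3 := schwarz_pick_deriv hud hum hz
    rw [← hq] at h3
    have h4 : ‖deriv u z‖ ^ 2 ≤ q ^ 2 := by gcongr
    have h5 : ‖(q : ℂ) - deriv u z‖ ^ 2 ≤ (E / K) ^ 2 := by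
      rw [normSq_eq] at h4 ⊢
      simp only [sub_re, ofReal_re, sub_im, ofReal_im]
      have h6 := (re_le_norm (deriv u z)).trans h3
      nlinarith
    exact (pow_le_pow_iff_left₀ (norm_nonneg _) (by positivity) two_ne_zero).1 h5
  have herr : ∀ ζ : ℂ, z.im ≤ ζ.im → ‖ζ - z‖ ≤ 6 ^ N * z.im →
      ‖u ζ - u z - q * (ζ - z)‖ ≤ E * z.im := by
    intro ζ h3 h4
    have hζ := hz.trans_le h3
    have h5 : hh ζ z ≤ (6 ^ N) ^ 2 := by
      rw [hh_le_iff hζ hz]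
      calc ‖ζ - z‖ ^ 2 ≤ (6 ^ N * z.im) ^ 2 := by gcongr
        _ = (6 ^ N) ^ 2 * (z.im * z.im) := by ring
        _ ≤ _ := by gcongr
    have h6 := hh_nonneg hζ hz
    calc _ ≤ _ := approx_affine hud hum hz hζ
      _ ≤ K * (z.im * (E / K)) := by rw [hK]; gcongr
      _ = E * z.im := by field_simp
  have hψ : ∀ ζ, ψ ζ = ζ + u ζ := fun ζ => by simp [hu]
  have key : ∀ k : ℕ, k ≤ N → z.im ≤ (ψ^[k] z).im ∧ ‖ψ^[k] z - z‖ ≤ 6 ^ k * z.im ∧
      (1 + q) ^ k * (c - 2 * k * E) * z.im ≤ ‖u (ψ^[k] z)‖ ∧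
      (ψ^[k] z).im ≤ (1 + q) ^ k * (1 + k * E) * z.im := by
    intro k
    induction k with
    | zero => intro _; simpa using ⟨hz.le, h1⟩
    | succ k ih =>
      intro hk
      obtain ⟨i1, i2, i3, i4⟩ := ih (by omega)
      rw [Function.iterate_succ_apply']
      set ζ := ψ^[k] z
      have hζ := hz.trans_le i1
      have p6 : (6 : ℝ) ^ k ≤ 6 ^ N := pow_le_pow_right₀ (by norm_num) (by omega)
      have p6' : (6 : ℝ) ^ (k + 1) ≤ 6 ^ N := pow_le_pow_right₀ (by norm_num) hk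
      have p1 : (1 : ℝ) ≤ 6 ^ k := one_le_pow₀ (by norm_num)
      have s1 : (1 : ℝ) ≤ (1 + q) ^ (k + 1) := one_le_pow₀ (by linarith)
      have e1 := herr ζ i1 (i2.trans (by gcongr))
      have hE3 : E ≤ 1 := by nlinarith
      have j1 : z.im ≤ (ψ ζ).im := i1.trans (him ζ hζ).le
      have j2 : ‖ψ ζ - z‖ ≤ 6 ^ (k + 1) * z.im := by
        have : ψ ζ - z = (1 + q) * (ζ - z) + u z + (u ζ - u z - q * (ζ - z)) := by
          rw [hψ]; ring
        rw [this]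
        have h7 : ‖((1 : ℂ) + q) * (ζ - z)‖ ≤ 3 * (6 ^ k * z.im) := by
          rw [norm_mul]
          have : ‖(1 : ℂ) + q‖ ≤ 3 := by
            have : ((1 : ℂ) + q) = ((1 + q : ℝ) : ℂ) := by push_cast; ring
            rw [this, Complex.norm_real, Real.norm_eq_abs, abs_of_pos (by linarith)]; linarith
          gcongr
        have h8 := norm_add₃_le (a := ((1 : ℂ) + q) * (ζ - z)) (b := u z)
          (c := u ζ - u z - q * (ζ - z))
        rw [pow_succ]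
        nlinarith
      have e2 := herr (ψ ζ) j1 (j2.trans (by gcongr))
      refine ⟨j1, j2, ?_, ?_⟩
      · have : (1 + q) * u ζ = u (ψ ζ) - (u (ψ ζ) - u z - q * (ψ ζ - z))
            + (u ζ - u z - q * (ζ - z)) := by
          conv_rhs => rw [show (q : ℂ) * (ψ ζ - z) = q * (ζ + u ζ - z) by rw [← hψ]]
          ring
        have h7 : ‖((1 : ℂ) + q) * u ζ‖ = (1 + q) * ‖u ζ‖ := by
          have : ((1 : ℂ) + q) = ((1 + q : ℝ) : ℂ) := by push_cast; ring
          rw [norm_mul, this, Complex.norm_real, Real.norm_eq_abs, abs_of_pos (by linarith)]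
        have h8 : ‖((1 : ℂ) + q) * u ζ‖ ≤ ‖u (ψ ζ)‖ + E * z.im + E * z.im := by
          rw [this]
          refine (norm_add_le _ _).trans ?_
          have := norm_sub_le (u (ψ ζ)) (u (ψ ζ) - u z - q * (ψ ζ - z))
          linarith
        have h9 : (1 + q) * ((1 + q) ^ k * (c - 2 * k * E) * z.im) ≤ (1 + q) * ‖u ζ‖ := by gcongr
        have h10 : E * z.im ≤ (1 + q) ^ (k + 1) * (E * z.im) :=
          le_mul_of_one_le_left (by positivity) s1
        push_cast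
        rw [pow_succ] at h10 ⊢
        nlinarith
      · have h7 : (u ζ - u z - q * (ζ - z)).im ≤ E * z.im := (im_le_norm' _).trans e1
        simp only [sub_im, mul_im, ofReal_re, ofReal_im, zero_mul, add_zero] at h7
        have h8 : (ψ ζ).im = ζ.im + (u ζ).im := by rw [hψ, add_im]
        have h9 : (1 + q) * ζ.im ≤ (1 + q) * ((1 + q) ^ k * (1 + k * E) * z.im) := by gcongr
        have h10 : E * z.im ≤ (1 + q) ^ (k + 1) * (E * z.im) :=
          le_mul_of_one_le_left (by positivity) s1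
        push_cast
        rw [pow_succ] at h10 ⊢
        nlinarith
  obtain ⟨i1, i2, i3, i4⟩ := key N le_rfl
  have hlt := hN z hz
  set ζ := ψ^[N] z
  have hζ := hz.trans_le i1
  have hψζ := hζ.trans (him ζ hζ)
  have e1 := herr ζ i1 i2
  set s := (1 + q) ^ N * z.im with hs
  have s1 : z.im ≤ s := le_mul_of_one_le_left hz.le (one_le_pow₀ (by linarith))
  have s0 : 0 < s := hz.trans_le s1
  have k1 : c / 2 * s ≤ ‖u ζ‖ := by
    refine le_trans ?_ i3
    have : c / 2 ≤ c - 2 * N * E := by nlinarith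
    calc c / 2 * s ≤ (c - 2 * N * E) * s := by gcongr
      _ = _ := by rw [hs]; ring
  have k2 : ζ.im ≤ (1 + N * E) * s := by
    calc _ ≤ _ := i4
      _ = _ := by rw [hs]; ring
  have k3 : (ψ ζ).im ≤ 6 * s := by
    have h7 : (u ζ - u z - q * (ζ - z)).im ≤ E * z.im := (im_le_norm' _).trans e1
    simp only [sub_im, mul_im, ofReal_re, ofReal_im, zero_mul, add_zero] at h7
    have h8 : (ψ ζ).im = ζ.im + (u ζ).im := by rw [hψ, add_im]
    have h9 : (1 + q) * ζ.im ≤ 3 * ((1 + N * E) * s) := by gcongr; linarith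
    have h10 : E * z.im ≤ E * s := by gcongr
    nlinarith
  have k4 : ζ.im ≤ 2 * s := k2.trans (by gcongr; nlinarith)
  refine absurd hlt (not_lt.2 ?_)
  rw [le_hh_iff hζ hψζ, norm_sub_rev]
  change _ ≤ ‖u ζ‖ ^ 2
  calc c ^ 2 / 48 * (ζ.im * (ψ ζ).im) ≤ c ^ 2 / 48 * (2 * s * (6 * s)) := by gcongr
    _ = (c / 2 * s) ^ 2 := by ring
    _ ≤ _ := by gcongr

end

end Pool.Agent.MP_ff3f8e_an.H65.Flow
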