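import Mathlib

open Metric Set Filter Topology Complex ComplexConjugate

namespace Pool.Agent.MP_ff3f8e_an.H65

noncomputable section

section Iso

variable {Y : Type*} [NormedAddCommGroup Y] [NormedSpace ℂ Y] [CompleteSpace Y]

lemma iso_step (T : Y →L[ℂ] Y) (hT : ∀ h, ‖h‖ ≤ ‖T h‖) {c c' : ℂ}
    (hu : IsUnit (T - c • (1 : Y →L[ℂ] Y))) (hc : ‖c' - c‖ < 1 - ‖c‖) :
    IsUnit (T - c' • (1 : Y →L[ℂ] Y)) := by
  obtain ⟨u, hu⟩ := hu
  have hpos : 0 < 1 - ‖c‖ := (norm_nonneg _).trans_lt hc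
  have hb : ‖(↑u⁻¹ : Y →L[ℂ] Y)‖ ≤ (1 - ‖c‖)⁻¹ := by
    refine ContinuousLinearMap.opNorm_le_bound _ (by positivity) fun h => ?_
    set x := (↑u⁻¹ : Y →L[ℂ] Y) h with hx
    have e : T x - c • x = h := by
      have : ((u : Y →L[ℂ] Y) * ↑u⁻¹) h = h := by rw [u.mul_inv]; rfl
      rw [hu] at this
      simpa using this
    have h1 : ‖T x‖ ≤ ‖h‖ + ‖c‖ * ‖x‖ := by
      rw [← e, ← norm_smul]
      calc ‖T x‖ = ‖(T x - c • x) + c • x‖ := by simp
        _ ≤ _ := norm_add_le _ _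
    have h2 := hT x
    rw [inv_mul_eq_div, le_div_iff₀ hpos]
    nlinarith
  have hn : ‖(c' - c) • (↑u⁻¹ : Y →L[ℂ] Y)‖ < 1 := by
    rw [norm_smul]
    calc ‖c' - c‖ * ‖(↑u⁻¹ : Y →L[ℂ] Y)‖ ≤ ‖c' - c‖ * (1 - ‖c‖)⁻¹ := by gcongr
      _ < (1 - ‖c‖) * (1 - ‖c‖)⁻¹ := by gcongr
      _ = 1 := mul_inv_cancel₀ hpos.ne'
  have := (u.isUnit).mul (isUnit_one_sub_of_norm_lt_one hn)
  convert this using 1
  rw [mul_sub, mul_one, mul_smul_comm, u.mul_inv, hu, sub_smul]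
  abel

/-- An expanding operator with one resolvent point in the unit disc has the whole open disc
in its resolvent set. -/
theorem isUnit_of_isometry (T : Y →L[ℂ] Y) (hT : ∀ h, ‖h‖ ≤ ‖T h‖) {ν : ℂ} (hν : ‖ν‖ < 1)
    (hu : IsUnit (T - ν • (1 : Y →L[ℂ] Y))) {c : ℂ} (hc : ‖c‖ < 1) :
    IsUnit (T - c • (1 : Y →L[ℂ] Y)) := by
  set u : Set ℂ := {c | ‖c‖ < 1 ∧ IsUnit (T - c • (1 : Y →L[ℂ] Y))} with hu'
  have hopen : IsOpen u := by
    rw [Metric.isOpen_iff]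
    rintro c ⟨h1, h2⟩
    refine ⟨1 - ‖c‖, by linarith, fun c' hc' => ?_⟩
    rw [mem_ball, dist_eq_norm] at hc'
    refine ⟨?_, iso_step T hT h2 hc'⟩
    have : ‖c'‖ ≤ ‖c' - c‖ + ‖c‖ := by simpa using norm_add_le (c' - c) c
    linarith
  have := (convex_ball (0 : ℂ) 1).isPreconnected.subset_of_closure_inter_subset hopen
    ⟨ν, by simpa using hν, hν, hu⟩ (by
      rintro c ⟨hcl, hc⟩
      have hc1 : ‖c‖ < 1 := by simpa using hc
      obtain ⟨c', ⟨h1, h2⟩, hd⟩ := Metric.mem_closure_iff.1 hcl ((1 - ‖c‖) / 2) (by linarith)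
      rw [dist_eq_norm] at hd
      refine ⟨hc1, iso_step T hT h2 ?_⟩
      have : ‖c'‖ ≤ ‖c‖ + ‖c - c'‖ := by
        calc ‖c'‖ = ‖c - (c - c')‖ := by congr 1; ring
          _ ≤ _ := norm_sub_le _ _
      linarith)
  exact (this (by simpa using hc)).2

end Iso

lemma pow_bound_of_spectrum {B : Type*} [NormedRing B] [NormedAlgebra ℂ B] [CompleteSpace B]
    (a : B) (h : ∀ z ∈ spectrum ℂ a, ‖z‖ ≤ 1) {β : ℝ} (hβ : 1 < β) :
    ∃ C : ℝ, 0 ≤ C ∧ ∀ k : ℕ, ‖a ^ k‖ ≤ C * β ^ k := by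
  have hr : spectralRadius ℂ a < ENNReal.ofReal β := by
    refine lt_of_le_of_lt (b := 1) ?_ (by simpa using hβ)
    refine iSup₂_le fun z hz => ?_
    exact_mod_cast h z hz
  have := (spectrum.pow_norm_pow_one_div_tendsto_nhds_spectralRadius a).eventually
    (gt_mem_nhds hr)
  obtain ⟨k0, hk0⟩ := eventually_atTop.1 this
  refine ⟨1 + ∑ k ∈ Finset.range (k0 + 1), ‖a ^ k‖, by positivity, fun k => ?_⟩
  have hβk : 1 ≤ β ^ k := one_le_pow₀ hβ.le
  have hs : 0 ≤ ∑ k ∈ Finset.range (k0 + 1), ‖a ^ k‖ := by positivity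
  by_cases hk : k < k0 + 1
  · have : ‖a ^ k‖ ≤ ∑ k ∈ Finset.range (k0 + 1), ‖a ^ k‖ :=
      Finset.single_le_sum (f := fun k => ‖a ^ k‖) (fun _ _ => norm_nonneg _)
        (Finset.mem_range.2 hk)
    nlinarith
  · have h1 := hk0 k (by omega)
    rw [ENNReal.ofReal_lt_ofReal_iff (by linarith)] at h1
    have hk0' : k ≠ 0 := by omega
    have h2 : (‖a ^ k‖ ^ (1 / k : ℝ)) ^ k ≤ β ^ k := by gcongr
    rw [one_div, Real.rpow_inv_natCast_pow (norm_nonneg _) hk0'] at h2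
    nlinarith

/-- The inverse Blaschke factor of `T` has subexponential powers when `T` is isometric. -/
theorem growth {X : Type*} [SeminormedAddCommGroup X] [NormedSpace ℂ X] (T R : X →ₗ[ℂ] X)
    (hT : ∀ h, ‖T h‖ = ‖h‖) {ν : ℂ} (hν : ‖ν‖ < 1) (hTR : ∀ h, T (R h) - ν • R h = h)
    (hRT : ∀ h, R (T h - ν • h) = h) {β : ℝ} (hβ : 1 < β) :
    ∃ C : ℝ, 0 ≤ C ∧ ∀ (k : ℕ) (h : X), ‖((R - conj ν • (T ∘ₗ R)) ^ k) h‖ ≤ C * β ^ k * ‖h‖ := by
  have hRb : ∀ h, ‖R h‖ ≤ (1 - ‖ν‖)⁻¹ * ‖h‖ := by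
    intro h
    have h1 : ‖T (R h)‖ ≤ ‖h‖ + ‖ν‖ * ‖R h‖ := by
      rw [← norm_smul]
      calc ‖T (R h)‖ = ‖(T (R h) - ν • R h) + ν • R h‖ := by simp
        _ ≤ _ := by rw [hTR]; exact norm_add_le _ _
    rw [hT] at h1
    rw [inv_mul_eq_div, le_div_iff₀ (by linarith)]
    nlinarith
  let Tc : X →L[ℂ] X := T.mkContinuous 1 fun h => by rw [hT, one_mul]
  let Rc : X →L[ℂ] X := R.mkContinuous _ hRb
  let Y := UniformSpace.Completion X
  let T' : Y →L[ℂ] Y := Tc.completion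
  let R' : Y →L[ℂ] Y := Rc.completion
  have hT'c : ∀ x : X, T' x = (T x : X) := fun x => Tc.completion_apply_coe x
  have hR'c : ∀ x : X, R' x = (R x : X) := fun x => Rc.completion_apply_coe x
  have hT' : ∀ y, ‖y‖ ≤ ‖T' y‖ := by
    intro y
    induction y using UniformSpace.Completion.induction_on with
    | hp => exact isClosed_le (by fun_prop) (by fun_prop)
    | ih x => rw [hT'c, UniformSpace.Completion.norm_coe, UniformSpace.Completion.norm_coe, hT]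
  have e1 : (T' - ν • 1) * R' = 1 := by
    ext y
    induction y using UniformSpace.Completion.induction_on with
    | hp => exact isClosed_eq (by fun_prop) (by fun_prop)
    | ih x =>
      show T' (R' x) - ν • R' x = x
      rw [hR'c, hT'c, ← UniformSpace.Completion.coe_smul, ← UniformSpace.Completion.coe_sub, hTR]
  have e2 : R' * (T' - ν • 1) = 1 := by
    ext y
    induction y using UniformSpace.Completion.induction_on with
    | hp => exact isClosed_eq (by fun_prop) (by fun_prop)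
    | ih x =>
      show R' (T' x - ν • (x : Y)) = x
      rw [hT'c, ← UniformSpace.Completion.coe_smul, ← UniformSpace.Completion.coe_sub, hR'c, hRT]
  have hu : IsUnit (T' - ν • (1 : Y →L[ℂ] Y)) := ⟨⟨_, _, e1, e2⟩, rfl⟩
  have hRu : IsUnit R' := ⟨⟨_, _, e2, e1⟩, rfl⟩
  set S' : Y →L[ℂ] Y := R' - conj ν • (T' * R') with hS'
  have hspec : ∀ z ∈ spectrum ℂ S', ‖z‖ ≤ 1 := by
    intro μ hμ
    by_contra hcon
    push Not at hcon
    apply hμ
    have hkey : ‖1 + μ * ν‖ < ‖μ + conj ν‖ := by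
      have a1 : ‖μ + conj ν‖ ^ 2 - ‖1 + μ * ν‖ ^ 2 = (‖μ‖ ^ 2 - 1) * (1 - ‖ν‖ ^ 2) := by
        simp only [Complex.sq_norm, Complex.normSq_apply, add_re, add_im, conj_re, conj_im,
          mul_re, mul_im, one_re, one_im]
        ring
      have a2 : 0 < (‖μ‖ ^ 2 - 1) * (1 - ‖ν‖ ^ 2) := by
        apply mul_pos <;> nlinarith [norm_nonneg ν]
      exact lt_of_pow_lt_pow_left₀ 2 (norm_nonneg _) (by linarith)
    have hne : μ + conj ν ≠ 0 := norm_pos_iff.1 ((norm_nonneg _).trans_lt hkey)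
    have hc : ‖(1 + μ * ν) / (μ + conj ν)‖ < 1 := by
      rw [norm_div, div_lt_one (norm_pos_iff.2 hne)]; exact hkey
    have hu2 := isUnit_of_isometry T' hT' hν hu hc
    have hfac : algebraMap ℂ (Y →L[ℂ] Y) μ - S' =
        (μ + conj ν) • ((T' - ((1 + μ * ν) / (μ + conj ν)) • 1) * R') := by
      have e3 : T' * R' = 1 + ν • R' := by
        rw [← e1, sub_mul, smul_mul_assoc, one_mul]; abel
      rw [hS', Algebra.algebraMap_eq_smul_one, sub_mul, smul_mul_assoc, one_mul, smul_sub,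
        smul_smul, mul_div_cancel₀ _ hne, e3]
      module
    rw [spectrum.mem_resolventSet_iff, hfac]
    exact (hu2.mul hRu).smul (Units.mk0 _ hne)
  obtain ⟨C, hC, hpow⟩ := pow_bound_of_spectrum S' hspec hβ
  refine ⟨C, hC, fun k h => ?_⟩
  have hcoe : ∀ (k : ℕ) (x : X), (S' ^ k) x = (((R - conj ν • (T ∘ₗ R)) ^ k) x : X) := by
    intro k
    induction k with
    | zero => intro x; rfl
    | succ k ih =>
      intro x
      have : S' x = ((R - conj ν • (T ∘ₗ R)) x : X) := by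
        show R' x - conj ν • T' (R' x) = ((R x - conj ν • T (R x) : X) : Y)
        rw [hR'c, hT'c, UniformSpace.Completion.coe_sub, UniformSpace.Completion.coe_smul]
      rw [pow_succ, pow_succ]
      show (S' ^ k) (S' x) = _
      rw [this, ih]
      rfl
  rw [← UniformSpace.Completion.norm_coe, ← hcoe]
  calc ‖(S' ^ k) (h : Y)‖ ≤ ‖S' ^ k‖ * ‖(h : Y)‖ := (S' ^ k).le_opNorm _
    _ ≤ C * β ^ k * ‖h‖ := by
      rw [UniformSpace.Completion.norm_coe]
      gcongr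
      exact hpow k

end

end Pool.Agent.MP_ff3f8e_an.H65
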