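import Mathlib

open Metric Set Filter Topology Complex

namespace Pool.Agent.MP_ff3f8e_an.H65

namespace Lagrange

lemma exists_factor {U : Set ℂ} (hU : IsOpen U) (w : ℕ → ℂ) (s : Finset ℕ)
    (hw : ∀ l ∈ s, w l ∈ U) (hinj : ∀ i ∈ s, ∀ l ∈ s, l ≠ i → w i ≠ w l) {H : ℂ → ℂ}
    (hH : DifferentiableOn ℂ H U) (h0 : ∀ l ∈ s, H (w l) = 0) :
    ∃ G : ℂ → ℂ, DifferentiableOn ℂ G U ∧ ∀ v, H v = G v * ∏ l ∈ s, (v - w l) := by
  induction s using Finset.induction_on with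
  | empty => exact ⟨H, hH, fun v => by simp⟩
  | insert a s ha ih =>
    obtain ⟨G, hG, hGH⟩ := ih (fun l hl => hw l (Finset.mem_insert_of_mem hl))
      (fun i hi l hl => hinj i (Finset.mem_insert_of_mem hi) l (Finset.mem_insert_of_mem hl))
      (fun l hl => h0 l (Finset.mem_insert_of_mem hl))
    have h1 : G (w a) = 0 := by
      have h2 := h0 a (Finset.mem_insert_self a s)
      rw [hGH] at h2
      refine (mul_eq_zero.1 h2).resolve_right (Finset.prod_ne_zero_iff.2 fun l hl => ?_)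
      exact sub_ne_zero.2 (hinj a (Finset.mem_insert_self a s) l (Finset.mem_insert_of_mem hl)
        fun e => ha (e ▸ hl))
    refine ⟨dslope G (w a), (differentiableOn_dslope
      (hU.mem_nhds (hw a (Finset.mem_insert_self a s)))).2 hG, fun v => ?_⟩
    have h3 := sub_smul_dslope G (w a) v
    rw [h1, sub_zero, smul_eq_mul] at h3
    rw [Finset.prod_insert ha, hGH, ← h3]
    ring

lemma low (i : ℕ) : ∀ m k : ℕ, i = m + 1 + k →
    (∏ l ∈ Finset.Icc 1 m, |(i : ℝ) ^ 2 - (l : ℝ) ^ 2|) * (k.factorial * i) =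
      (i + m).factorial := by
  intro m
  induction m with
  | zero =>
    intro k hk
    have : i = k + 1 := by omega
    subst this
    simp [Nat.factorial_succ, mul_comm]
  | succ m ih =>
    intro k hk
    have h1 := ih (k + 1) (by omega)
    have h2 : (i : ℝ) = m + 2 + k := by rw [hk]; push_cast; ring
    have h3 : |(i : ℝ) ^ 2 - ((m + 1 : ℕ) : ℝ) ^ 2| = (k + 1) * (i + m + 1) := by
      rw [abs_of_nonneg] <;> push_cast <;> rw [h2]
      · ring
      · have : (0 : ℝ) ≤ m := by positivity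
        have : (0 : ℝ) ≤ k := by positivity
        nlinarith
    rw [Finset.prod_Icc_succ_top (by omega), h3, ← add_assoc, Nat.factorial_succ (i + m)]
    rw [Nat.factorial_succ] at h1
    push_cast at h1 ⊢
    rw [← h1]
    ring

lemma prod_abs (i : ℕ) (hi : 1 ≤ i) : ∀ k : ℕ,
    (∏ l ∈ (Finset.Icc 1 (i + k)).erase i, |(i : ℝ) ^ 2 - (l : ℝ) ^ 2|) * (2 * i ^ 2) =
      k.factorial * (i + k + i).factorial := by
  intro k
  induction k with
  | zero =>
    obtain ⟨m, rfl⟩ : ∃ m, i = m + 1 := ⟨i - 1, by omega⟩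
    have h1 := low (m + 1) m 0 rfl
    have h2 : (Finset.Icc 1 (m + 1 + 0)).erase (m + 1) = Finset.Icc 1 m := by
      ext l
      simp only [Finset.mem_erase, Finset.mem_Icc]
      omega
    rw [h2, show m + 1 + 0 + (m + 1) = (m + 1 + m) + 1 by ring, Nat.factorial_succ (m + 1 + m)]
    push_cast at h1 ⊢
    rw [← h1]
    simp only [Nat.factorial_zero, Nat.cast_one]
    ring
  | succ k ih =>
    have h2 : (Finset.Icc 1 (i + (k + 1))).erase i =
        insert (i + k + 1) ((Finset.Icc 1 (i + k)).erase i) := by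
      ext l
      simp only [Finset.mem_erase, Finset.mem_Icc, Finset.mem_insert]
      omega
    have h3 : |(i : ℝ) ^ 2 - ((i + k + 1 : ℕ) : ℝ) ^ 2| = (k + 1) * (i + k + i + 1) := by
      rw [abs_of_nonpos] <;> push_cast
      · ring
      · have : (0 : ℝ) ≤ i := by positivity
        have : (0 : ℝ) ≤ k := by positivity
        nlinarith
    rw [h2, Finset.prod_insert (by simp), h3, show i + (k + 1) + i = (i + k + i) + 1 by ring,
      Nat.factorial_succ, Nat.factorial_succ, mul_assoc, ih]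
    push_cast
    ring

lemma fact_sq_le (n : ℕ) : ∀ i k : ℕ, n = i + k →
    n.factorial * n.factorial ≤ k.factorial * (n + i).factorial := by
  intro i
  induction i with
  | zero => intro k hk; simp [hk]
  | succ i ih =>
    intro k hk
    refine (ih (k + 1) (by omega)).trans ?_
    rw [← add_assoc, Nat.factorial_succ, Nat.factorial_succ (n + i)]
    have : k + 1 ≤ n + i + 1 := by omega
    calc (k + 1) * k.factorial * (n + i).factorial
        ≤ (n + i + 1) * k.factorial * (n + i).factorial := by gcongr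
      _ = _ := by ring

lemma prod_ratio {n i : ℕ} (hi : i ∈ Finset.Icc 1 n) :
    ∏ l ∈ (Finset.Icc 1 n).erase i, (l : ℝ) ^ 2 / |(i : ℝ) ^ 2 - (l : ℝ) ^ 2| ≤ 2 := by
  obtain ⟨hi1, hi2⟩ := Finset.mem_Icc.1 hi
  obtain ⟨k, rfl⟩ := Nat.exists_eq_add_of_le hi2
  have h1 := prod_abs i hi1 k
  have h2 : (i : ℝ) ^ 2 * ∏ l ∈ (Finset.Icc 1 (i + k)).erase i, (l : ℝ) ^ 2 =
      ((i + k).factorial : ℝ) ^ 2 := by
    rw [Finset.mul_prod_erase (Finset.Icc 1 (i + k)) (fun l : ℕ => (l : ℝ) ^ 2) hi,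
      Finset.prod_pow, ← Nat.cast_prod, ← Finset.Ico_add_one_right_eq_Icc,
      Finset.prod_Ico_id_eq_factorial]
  have h3 : ((i + k).factorial : ℝ) * (i + k).factorial ≤
      k.factorial * (i + k + i).factorial := by exact_mod_cast fact_sq_le (i + k) i k rfl
  have hi0 : (0 : ℝ) < (i : ℝ) ^ 2 := by positivity
  have h4 : (0 : ℝ) < k.factorial * (i + k + i).factorial := by positivity
  rw [Finset.prod_div_distrib]
  set p := ∏ l ∈ (Finset.Icc 1 (i + k)).erase i, (l : ℝ) ^ 2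
  set q := ∏ l ∈ (Finset.Icc 1 (i + k)).erase i, |(i : ℝ) ^ 2 - (l : ℝ) ^ 2|
  have hq : 0 < q := by
    rw [← h1] at h4
    exact (mul_pos_iff_of_pos_right (by positivity)).1 h4
  rw [div_le_iff₀ hq]
  refine le_of_mul_le_mul_left ?_ hi0
  nlinarith

lemma sum_inv_sqrt (n : ℕ) : ∑ l ∈ Finset.Icc 1 n, (√(l : ℝ))⁻¹ ≤ 2 * √(n : ℝ) := by
  induction n with
  | zero => simp
  | succ n ih =>
    rw [Finset.sum_Icc_succ_top (by omega)]
    have h1 : 0 < √((n + 1 : ℕ) : ℝ) := Real.sqrt_pos.2 (by positivity)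
    have h2 : √((n + 1 : ℕ) : ℝ) ^ 2 = n + 1 := by
      rw [Real.sq_sqrt (by positivity)]; push_cast; ring
    have h3 : √(n : ℝ) ^ 2 = n := Real.sq_sqrt (by positivity)
    have h4 : (√((n + 1 : ℕ) : ℝ))⁻¹ ≤ 2 * √((n + 1 : ℕ) : ℝ) - 2 * √(n : ℝ) := by
      rw [inv_le_iff_one_le_mul₀ h1]
      nlinarith [sq_nonneg (√((n + 1 : ℕ) : ℝ) - √(n : ℝ))]
    linarith

lemma prod_one_add {μ : ℝ} (hμ : 0 ≤ μ) (n i : ℕ) :
    ∏ l ∈ (Finset.Icc 1 n).erase i, (1 + μ ^ 4 * n ^ 2 / (l : ℝ) ^ 2) ≤ Real.exp (8 * μ * n) := by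
  have h1 : ∀ l ∈ (Finset.Icc 1 n).erase i, 1 + μ ^ 4 * n ^ 2 / (l : ℝ) ^ 2 ≤
      Real.exp (4 * μ * √(n : ℝ) * (√(l : ℝ))⁻¹) := fun l _ => by
    set y := μ * √(n : ℝ) * (√(l : ℝ))⁻¹ with hy
    have hy0 : 0 ≤ y := by positivity
    have h2 : ∀ m : ℕ, √(m : ℝ) ^ 4 = (m : ℝ) ^ 2 := fun m => by
      rw [show 4 = 2 * 2 from rfl, pow_mul, Real.sq_sqrt (by positivity)]
    have h3 : μ ^ 4 * n ^ 2 / (l : ℝ) ^ 2 = y ^ 4 := by
      rw [hy, mul_pow, mul_pow, inv_pow, h2, h2, div_eq_mul_inv]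
    have h4 : Real.exp (4 * μ * √(n : ℝ) * (√(l : ℝ))⁻¹) = Real.exp y ^ 4 := by
      rw [← Real.exp_nat_mul, hy]
      congr 1
      push_cast
      ring
    rw [h3, h4]
    calc 1 + y ^ 4 ≤ (y + 1) ^ 4 := by
          have : 0 ≤ y ^ 2 := by positivity
          have : 0 ≤ y ^ 3 := by positivity
          nlinarith
      _ ≤ _ := by gcongr; exact Real.add_one_le_exp y
  refine (Finset.prod_le_prod (fun l _ => by positivity) h1).trans ?_
  rw [← Real.exp_sum, Real.exp_le_exp, ← Finset.mul_sum]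
  have h5 : ∑ l ∈ (Finset.Icc 1 n).erase i, (√(l : ℝ))⁻¹ ≤ 2 * √(n : ℝ) :=
    (Finset.sum_le_sum_of_subset_of_nonneg (Finset.erase_subset _ _)
      fun l _ _ => by positivity).trans (sum_inv_sqrt n)
  have h6 : √(n : ℝ) * √(n : ℝ) = n := Real.mul_self_sqrt (by positivity)
  calc _ ≤ 4 * μ * √(n : ℝ) * (2 * √(n : ℝ)) := by gcongr
    _ = 8 * μ * (√(n : ℝ) * √(n : ℝ)) := by ring
    _ = _ := by rw [h6]

/-- Interpolation bound for nodes at pairwise different distances from the centre. -/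
lemma interp {F : ℂ → ℂ} {z : ℂ} {r R B ε : ℝ} (hr : 0 < r) (hR : r < R)
    (hF : DifferentiableOn ℂ F (ball z R)) (hB : ∀ v ∈ ball z R, ‖F v‖ ≤ B) (hε : 0 ≤ ε)
    (s : Finset ℕ) (w : ℕ → ℂ) (t : ℕ → ℝ) (ht : ∀ l ∈ s, ‖w l - z‖ = t l)
    (ht0 : ∀ l ∈ s, 0 < t l) (ht3 : ∀ l ∈ s, 3 * t l ≤ r) (hFw : ∀ l ∈ s, ‖F (w l)‖ ≤ ε)
    (hne : ∀ i ∈ s, ∀ l ∈ s, l ≠ i → t i ≠ t l) :
    ‖F z‖ ≤ 2 * ε * (∑ i ∈ s, ∏ l ∈ s.erase i, t l / |t i - t l|) + B / 2 ^ s.card := by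
  have hδ : ∀ i ∈ s, ∀ l ∈ s, |t i - t l| ≤ ‖w i - w l‖ := fun i hi l hl => by
    rw [← ht i hi, ← ht l hl]
    simpa using abs_norm_sub_norm_le (w i - z) (w l - z)
  have hδ0 : ∀ i ∈ s, ∀ l ∈ s.erase i, 0 < |t i - t l| := fun i hi l hl =>
    abs_pos.2 (sub_ne_zero.2 (hne i hi l (Finset.mem_of_mem_erase hl) (Finset.ne_of_mem_erase hl)))
  have hinj : ∀ i ∈ s, ∀ l ∈ s, l ≠ i → w i ≠ w l := fun i hi l hl h e =>
    hne i hi l hl h (by rw [← ht i hi, ← ht l hl, e])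
  set P : ℂ → ℂ := fun v => ∑ i ∈ s, F (w i) * ∏ l ∈ s.erase i, (v - w l) / (w i - w l) with hP
  have hPd : Differentiable ℂ P := by
    simp only [hP]
    fun_prop
  have hPw : ∀ j ∈ s, P (w j) = F (w j) := fun j hj => by
    simp only [hP]
    rw [Finset.sum_eq_single_of_mem j hj, Finset.prod_eq_one, mul_one]
    · intro l hl
      exact div_self (sub_ne_zero.2
        (hinj j hj l (Finset.mem_of_mem_erase hl) (Finset.ne_of_mem_erase hl)))
    · intro i _ hij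
      rw [Finset.prod_eq_zero (Finset.mem_erase.2 ⟨hij.symm, hj⟩) (by simp), mul_zero]
  have hPn : ∀ v, ‖P v‖ ≤ ε * ∑ i ∈ s, ∏ l ∈ s.erase i, ‖v - w l‖ / |t i - t l| := fun v => by
    rw [Finset.mul_sum]
    refine (norm_sum_le _ _).trans (Finset.sum_le_sum fun i hi => ?_)
    rw [norm_mul, norm_prod]
    refine mul_le_mul (hFw i hi) (Finset.prod_le_prod (fun l _ => norm_nonneg _) fun l hl => ?_)
      (Finset.prod_nonneg fun l _ => norm_nonneg _) hε
    rw [norm_div]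
    exact div_le_div_of_nonneg_left (norm_nonneg _) (hδ0 i hi l hl)
      (hδ i hi l (Finset.mem_of_mem_erase hl))
  have hwU : ∀ l ∈ s, w l ∈ ball z R := fun l hl => by
    rw [mem_ball_iff_norm, ht l hl]
    linarith [ht0 l hl, ht3 l hl]
  obtain ⟨G, hG, hGe⟩ := exists_factor isOpen_ball w s hwU hinj (H := fun v => F v - P v)
    (hF.sub hPd.differentiableOn) fun l hl => by rw [hPw l hl, sub_self]
  set S := ∑ i ∈ s, ∏ l ∈ s.erase i, t l / |t i - t l| with hS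
  set T := ∏ l ∈ s, t l with hT
  have hT0 : 0 < T := Finset.prod_pos ht0
  have hB0 : 0 ≤ B := (norm_nonneg _).trans (hB z (mem_ball_self (hr.trans hR)))
  have hsph : ∀ v ∈ frontier (ball z r), ‖G v‖ ≤ (ε * S + B / 2 ^ s.card) / T := fun v hv => by
    rw [frontier_ball z hr.ne', mem_sphere_iff_norm] at hv
    have hρ : ∀ l ∈ s, 2 * t l ≤ ‖v - w l‖ := fun l hl => by
      have h1 := norm_sub_norm_le (v - z) (w l - z)
      rw [hv, ht l hl, sub_sub_sub_cancel_right] at h1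
      linarith [ht3 l hl]
    have hρ0 : ∀ l ∈ s, 0 < ‖v - w l‖ := fun l hl => by linarith [hρ l hl, ht0 l hl]
    have hq : ∀ l ∈ s, t l / ‖v - w l‖ ≤ 1 / 2 := fun l hl => by
      rw [div_le_iff₀ (hρ0 l hl)]
      linarith [hρ l hl]
    have hq0 : ∀ l ∈ s, 0 ≤ t l / ‖v - w l‖ := fun l hl => div_nonneg (ht0 l hl).le (norm_nonneg _)
    set Q := ∏ l ∈ s, t l / ‖v - w l‖ with hQ
    have hQ0 : 0 ≤ Q := Finset.prod_nonneg hq0
    have h1 : ‖G v‖ * T = ‖F v - P v‖ * Q := by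
      rw [hGe, norm_mul, norm_prod, mul_assoc, hQ, ← Finset.prod_mul_distrib, hT]
      congr 1
      refine Finset.prod_congr rfl fun l hl => ?_
      have := (hρ0 l hl).ne'
      field_simp
    have h2 : Q ≤ 1 / 2 ^ s.card := by
      refine (Finset.prod_le_prod hq0 hq).trans ?_
      simp
    have h3 : (∑ i ∈ s, ∏ l ∈ s.erase i, ‖v - w l‖ / |t i - t l|) * Q ≤ S := by
      rw [Finset.sum_mul]
      refine Finset.sum_le_sum fun i hi => ?_
      rw [hQ, ← Finset.mul_prod_erase s (fun l => t l / ‖v - w l‖) hi, mul_left_comm,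
        ← Finset.prod_mul_distrib]
      have h4 : ∏ l ∈ s.erase i, ‖v - w l‖ / |t i - t l| * (t l / ‖v - w l‖) =
          ∏ l ∈ s.erase i, t l / |t i - t l| := Finset.prod_congr rfl fun l hl => by
        have := (hρ0 l (Finset.mem_of_mem_erase hl)).ne'
        field_simp
      rw [h4]
      refine mul_le_of_le_one_left (Finset.prod_nonneg fun l hl => ?_) ((hq i hi).trans ?_)
      · exact div_nonneg (ht0 l (Finset.mem_of_mem_erase hl)).le (abs_nonneg _)
      · norm_num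
    have h5 : ‖F v‖ ≤ B := hB v (by rw [mem_ball_iff_norm, hv]; exact hR)
    rw [le_div_iff₀ hT0, h1]
    calc ‖F v - P v‖ * Q
        ≤ (B + ε * ∑ i ∈ s, ∏ l ∈ s.erase i, ‖v - w l‖ / |t i - t l|) * Q := by
          gcongr
          exact (norm_sub_le _ _).trans (add_le_add h5 (hPn v))
      _ = ε * ((∑ i ∈ s, ∏ l ∈ s.erase i, ‖v - w l‖ / |t i - t l|) * Q) + B * Q := by ring
      _ ≤ ε * S + B * (1 / 2 ^ s.card) := by gcongr
      _ = _ := by ring
  have hGz : ‖G z‖ ≤ (ε * S + B / 2 ^ s.card) / T := by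
    refine Complex.norm_le_of_forall_mem_frontier_norm_le isBounded_ball ?_ hsph
      (subset_closure (mem_ball_self hr))
    refine DifferentiableOn.diffContOnCl (hG.mono ?_)
    rw [closure_ball z hr.ne']
    exact closedBall_subset_ball hR
  rw [le_div_iff₀ hT0] at hGz
  have h6 : ‖F z - P z‖ = ‖G z‖ * T := by
    rw [hGe, norm_mul, norm_prod, hT]
    congr 1
    exact Finset.prod_congr rfl fun l hl => by rw [norm_sub_rev, ht l hl]
  have h7 : ‖P z‖ ≤ ε * S := by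
    refine (hPn z).trans (le_of_eq ?_)
    congr 1
    refine Finset.sum_congr rfl fun i _ => Finset.prod_congr rfl fun l hl => ?_
    rw [norm_sub_rev, ht l (Finset.mem_of_mem_erase hl)]
  have h8 : ‖F z‖ ≤ ‖F z - P z‖ + ‖P z‖ := by simpa using norm_add_le (F z - P z) (P z)
  linarith

end Lagrange

theorem lagrange_two_const (η : ℝ) (hη : 0 < η) : ∃ κ C : ℝ, 0 < κ ∧ κ ≤ 1 / 4 ∧ 0 ≤ C ∧
    ∀ (F : ℂ → ℂ) (z : ℂ) (d B ε : ℝ), 0 < d → DifferentiableOn ℂ F (ball z (5 * d)) →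
      (∀ w ∈ ball z (5 * d), ‖F w‖ ≤ B) →
      (∀ t : ℝ, κ * d ≤ t → t ≤ 2 * d → ∃ w, ‖w - z‖ = t ∧ ‖F w‖ ≤ ε) →
      ∀ n : ℕ, 1 ≤ n → ‖F z‖ ≤ C * Real.exp (η * n) * ε + B / 2 ^ n := by
  set μ := min (η / 16) (1 / 2) with hμ
  have hμ0 : 0 < μ := lt_min (by positivity) (by norm_num)
  have hμ1 : μ ≤ η / 16 := min_le_left _ _
  have hμ2 : μ ≤ 1 / 2 := min_le_right _ _
  have hκ : μ ^ 4 ≤ 1 / 4 := (pow_le_pow_left₀ hμ0.le hμ2 4).trans (by norm_num)
  have hκ0 : 0 < μ ^ 4 := by positivity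
  refine ⟨μ ^ 4, 8 / η, hκ0, hκ, by positivity, fun F z d B ε hd hF hB hw n hn => ?_⟩
  have hn0 : (0 : ℝ) < n := by exact_mod_cast hn
  set t : ℕ → ℝ := fun l => d * (μ ^ 4 + (l : ℝ) ^ 2 / n ^ 2) with ht
  have ht1 : ∀ l ∈ Finset.Icc 1 n, t l ≤ 5 / 4 * d := fun l hl => by
    have h1 : (l : ℝ) ≤ n := by exact_mod_cast (Finset.mem_Icc.1 hl).2
    have h2 : (l : ℝ) ^ 2 / n ^ 2 ≤ 1 := by
      rw [div_le_one (by positivity)]
      gcongr
    simp only [ht]
    nlinarith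
  have ht2 : ∀ l, μ ^ 4 * d ≤ t l := fun l => by
    have h2 : 0 ≤ d * ((l : ℝ) ^ 2 / n ^ 2) := by positivity
    simp only [ht]
    nlinarith
  have hε : 0 ≤ ε := by
    obtain ⟨w, -, h⟩ := hw (2 * d) (by nlinarith) le_rfl
    exact (norm_nonneg _).trans h
  have hex : ∀ l ∈ Finset.Icc 1 n, ∃ w, ‖w - z‖ = t l ∧ ‖F w‖ ≤ ε := fun l hl =>
    hw _ (ht2 l) (by linarith [ht1 l hl])
  choose! w hw1 hw2 using hex
  have hsub : ∀ i l : ℕ, t i - t l = d / n ^ 2 * ((i : ℝ) ^ 2 - (l : ℝ) ^ 2) := fun i l => by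
    simp only [ht]
    ring
  have hne : ∀ i l : ℕ, l ≠ i → (i : ℝ) ^ 2 - (l : ℝ) ^ 2 ≠ 0 := fun i l h e => by
    rw [sub_eq_zero, sq_eq_sq₀ (by positivity) (by positivity)] at e
    exact h (by exact_mod_cast e.symm)
  have h1 := Lagrange.interp (r := 4 * d) (by positivity) (by linarith) hF hB hε
    (Finset.Icc 1 n) w t hw1 (fun l _ => lt_of_lt_of_le (by positivity) (ht2 l))
    (fun l hl => by linarith [ht1 l hl]) hw2 fun i _ l _ h => by
      rw [← sub_ne_zero, hsub]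
      exact mul_ne_zero (by positivity) (hne i l h)
  have h2 : ∀ i ∈ Finset.Icc 1 n, ∏ l ∈ (Finset.Icc 1 n).erase i, t l / |t i - t l| ≤
      Real.exp (η * n / 2) * 2 := fun i hi => by
    have h3 : ∏ l ∈ (Finset.Icc 1 n).erase i, t l / |t i - t l| =
        (∏ l ∈ (Finset.Icc 1 n).erase i, (1 + μ ^ 4 * n ^ 2 / (l : ℝ) ^ 2)) *
          ∏ l ∈ (Finset.Icc 1 n).erase i, (l : ℝ) ^ 2 / |(i : ℝ) ^ 2 - (l : ℝ) ^ 2| := by
      rw [← Finset.prod_mul_distrib]
      refine Finset.prod_congr rfl fun l hl => ?_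
      have h4 : (0 : ℝ) < l := by
        exact_mod_cast (Finset.mem_Icc.1 (Finset.mem_of_mem_erase hl)).1
      have h5 := abs_pos.2 (hne i l (Finset.ne_of_mem_erase hl))
      rw [hsub, abs_mul, abs_of_pos (by positivity : 0 < d / (n : ℝ) ^ 2)]
      simp only [ht]
      field_simp
      ring
    rw [h3]
    refine mul_le_mul ((Lagrange.prod_one_add hμ0.le n i).trans (Real.exp_le_exp.2 ?_))
      (Lagrange.prod_ratio hi) (Finset.prod_nonneg fun l _ => by positivity) (by positivity)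
    nlinarith
  have h6 := Finset.sum_le_card_nsmul _ _ _ h2
  rw [Nat.card_Icc, Nat.add_sub_cancel] at h1 h6
  rw [nsmul_eq_mul] at h6
  have h7 : (n : ℝ) ≤ 2 / η * Real.exp (η * n / 2) := by
    have := Real.add_one_le_exp (η * n / 2)
    rw [div_mul_eq_mul_div, le_div_iff₀ hη]
    linarith
  have h8 : Real.exp (η * n) = Real.exp (η * n / 2) * Real.exp (η * n / 2) := by
    rw [← Real.exp_add, add_halves]
  refine h1.trans (add_le_add ?_ le_rfl)
  calc _ ≤ 2 * ε * (n * (Real.exp (η * n / 2) * 2)) := by gcongr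
    _ ≤ 2 * ε * (2 / η * Real.exp (η * n / 2) * (Real.exp (η * n / 2) * 2)) := by gcongr
    _ = _ := by rw [h8]; ring

end Pool.Agent.MP_ff3f8e_an.H65
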