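import Pool.Agent.MP_ff3f8e_an.H65.HullA
import Pool.Agent.MP_ff3f8e_an.H65.Lagrange

open Metric Set Filter Topology Complex ComplexConjugate

namespace Pool.Agent.MP_ff3f8e_an.H65

noncomputable section

/-- Abstract data for the hull lemma. -/
structure HullData (X : Type) [CommRing X] [Algebra ℂ X] where
  q : Seminorm ℂ X
  T : X →ₗ[ℂ] X
  R : X →ₗ[ℂ] X
  ν : ℂ
  ν_lt : ‖ν‖ < 1
  M : ℝ
  TR : ∀ h, T (R h) - ν • R h = h
  RT : ∀ h, R (T h - ν • h) = h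
  T_le : ∀ h, q (T h) ≤ q h
  R_le : ∀ h, q (R h) ≤ M * q h
  T_mul : ∀ g h, T (g * h) = T g * T h
  q_mul : ∀ g h, q (g * h) ≤ q g * q h

lemma le_of_pow_le_mul_pow {a b C : ℝ} (hb : 0 ≤ b)
    (h : ∀ n : ℕ, a ^ (n + 1) ≤ C * b ^ (n + 1)) : a ≤ b := by
  by_contra hcon
  push Not at hcon
  have ha : 0 < a := hb.trans_lt hcon
  have h1 : Tendsto (fun n : ℕ => C * (b / a) ^ (n + 1)) atTop (𝓝 (C * 0)) :=
    ((tendsto_pow_atTop_nhds_zero_of_lt_one (by positivity)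
      ((div_lt_one ha).2 hcon)).comp (tendsto_add_atTop_nat 1)).const_mul C
  have h2 : ∀ n : ℕ, 1 ≤ C * (b / a) ^ (n + 1) := by
    intro n
    rw [div_pow, ← mul_div_assoc, le_div_iff₀ (by positivity), one_mul]
    exact h n
  have := ge_of_tendsto' h1 h2
  linarith

namespace HullData

variable {X : Type} [CommRing X] [Algebra ℂ X] (D : HullData X)

lemma antitone_q (h : X) : Antitone fun j : ℕ => D.q ((D.T ^ j) h) :=
  antitone_nat_of_succ_le fun j => by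
    rw [pow_succ', Module.End.mul_apply]; exact D.T_le _

lemma bdd_q (h : X) : BddBelow (range fun j : ℕ => D.q ((D.T ^ j) h)) :=
  ⟨0, by rintro _ ⟨j, rfl⟩; exact apply_nonneg _ _⟩

lemma tendsto_q (h : X) :
    Tendsto (fun j : ℕ => D.q ((D.T ^ j) h)) atTop (𝓝 (⨅ j : ℕ, D.q ((D.T ^ j) h))) :=
  tendsto_atTop_ciInf (D.antitone_q h) (D.bdd_q h)

/-- The limit seminorm. -/
def p : Seminorm ℂ X :=
  Seminorm.of (fun h => ⨅ j : ℕ, D.q ((D.T ^ j) h))
    (fun g h => le_of_tendsto_of_tendsto' (D.tendsto_q (g + h))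
      ((D.tendsto_q g).add (D.tendsto_q h)) fun j => by
        simp only [map_add]; exact map_add_le_add _ _ _)
    (fun c h => tendsto_nhds_unique (D.tendsto_q (c • h)) (by
      simpa only [map_smul, map_smul_eq_mul] using (D.tendsto_q h).const_mul ‖c‖))

lemma tendsto_p (h : X) : Tendsto (fun j : ℕ => D.q ((D.T ^ j) h)) atTop (𝓝 (D.p h)) :=
  D.tendsto_q h

lemma p_le (h : X) (j : ℕ) : D.p h ≤ D.q ((D.T ^ j) h) := ciInf_le (D.bdd_q h) j

lemma le_p {h : X} {c : ℝ} (hc : ∀ j : ℕ, c ≤ D.q ((D.T ^ j) h)) : c ≤ D.p h := le_ciInf hc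

lemma p_T (h : X) : D.p (D.T h) = D.p h :=
  tendsto_nhds_unique (D.tendsto_p (D.T h)) (by
    have := (D.tendsto_p h).comp (tendsto_add_atTop_nat 1)
    simpa only [Function.comp_def, pow_succ, Module.End.mul_apply] using this)

/-- The inverse Blaschke factor of `T`. -/
def S : X →ₗ[ℂ] X := D.R - conj D.ν • (D.T ∘ₗ D.R)

lemma growth_p {β : ℝ} (hβ : 1 < β) :
    ∃ C : ℝ, 0 ≤ C ∧ ∀ (k : ℕ) (h : X), D.p ((D.S ^ k) h) ≤ C * β ^ k * D.p h := by
  let _ : SeminormedAddCommGroup X := D.p.toAddGroupSeminorm.toSeminormedAddCommGroup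
  let _ : NormedSpace ℂ X := ⟨fun c x => (map_smul_eq_mul D.p c x).le⟩
  exact growth D.T D.R D.p_T D.ν_lt D.TR D.RT hβ

lemma q_S_le (h : X) : D.q (D.S h) ≤ 2 * |D.M| * D.q h := by
  have h1 : D.q (D.R h) ≤ |D.M| * D.q h :=
    (D.R_le h).trans (mul_le_mul_of_nonneg_right (le_abs_self _) (apply_nonneg _ _))
  have h2 : D.q (conj D.ν • D.T (D.R h)) ≤ D.q (D.R h) := by
    rw [map_smul_eq_mul, Complex.norm_conj]
    nlinarith [D.T_le (D.R h), D.ν_lt, norm_nonneg D.ν, apply_nonneg D.q (D.T (D.R h))]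
  calc D.q (D.S h) = D.q (D.R h - conj D.ν • D.T (D.R h)) := rfl
    _ ≤ D.q (D.R h) + D.q (conj D.ν • D.T (D.R h)) := map_sub_le_add _ _ _
    _ ≤ _ := by linarith

lemma q_S_pow_le (k : ℕ) (h : X) : D.q ((D.S ^ k) h) ≤ (2 * |D.M|) ^ k * D.q h := by
  induction k with
  | zero => simp
  | succ k ih =>
    rw [pow_succ', Module.End.mul_apply, pow_succ' (2 * |D.M|), mul_assoc]
    exact (D.q_S_le _).trans (by gcongr)

lemma S_T (h : X) : h = D.S (D.T h) + conj D.ν • D.T h - D.ν • D.S h := by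
  have h1 : D.R (D.T h) = h + D.ν • D.R h := by
    have := D.RT h
    rw [map_sub, map_smul] at this
    exact sub_eq_iff_eq_add.1 this
  have h2 : ∀ g, D.S g = D.R g - conj D.ν • D.T (D.R g) := fun _ => rfl
  rw [h2, h2, h1, map_add, map_smul]
  module

lemma q_T_pow_pow (j n : ℕ) (h : X) :
    D.q ((D.T ^ j) (h ^ (n + 1))) ≤ D.q ((D.T ^ j) h) ^ (n + 1) := by
  have hmul : ∀ (j : ℕ) (g h : X), (D.T ^ j) (g * h) = (D.T ^ j) g * (D.T ^ j) h := by
    intro j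
    induction j with
    | zero => simp
    | succ j ih => intro g h; simp only [pow_succ', Module.End.mul_apply, ih, D.T_mul]
  induction n with
  | zero => simp
  | succ n ih =>
    rw [pow_succ h, hmul, pow_succ _ (n + 1)]
    exact (D.q_mul _ _).trans (by gcongr)

/-- A character satisfying a good enough two-constants estimate is bounded by `p`. -/
theorem upgrade : ∃ η : ℝ, 0 < η ∧ ∀ (ℓ : X →ₐ[ℂ] ℂ) (C : ℝ), 0 ≤ C →
    (∀ (h : X) (n : ℕ), 1 ≤ n → ‖ℓ h‖ ≤ C * Real.exp (η * n) * D.p h + D.q h / 2 ^ n) →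
    ∀ h, ‖ℓ h‖ ≤ D.p h := by
  set r := ‖D.ν‖ with hr
  have hr0 : 0 ≤ r := norm_nonneg _
  have hr1 : r < 1 := D.ν_lt
  set β : ℝ := 1 + (1 - r) / 4 with hβ
  have hβ1 : 1 < β := by rw [hβ]; linarith
  have hrβ : r * β ^ 2 < 1 := by rw [hβ]; nlinarith [mul_nonneg hr0 hr0]
  obtain ⟨a, ha⟩ := pow_unbounded_of_one_lt (2 * |D.M|) (one_lt_two (α := ℝ))
  obtain ⟨Cβ, hCβ, hgrow⟩ := D.growth_p hβ1
  have hlog : 0 < Real.log β := Real.log_pos hβ1
  refine ⟨Real.log β / (a + 1), by positivity, fun ℓ C hC hTC => ?_⟩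
  set η := Real.log β / (a + 1) with hη
  set ρ := β ^ 2 with hρ
  have hρ1 : 1 ≤ ρ := one_le_pow₀ hβ1.le
  have hρ0 : 0 < ρ := by positivity
  -- growth at the character
  have hg : ∀ (k : ℕ) (h : X), ‖ℓ ((D.S ^ k) h)‖ / ρ ^ k ≤ (C * β * Cβ + 1) * D.q h := by
    intro k h
    have h1 := hTC ((D.S ^ k) h) (a * k + 1) (by omega)
    have h2 : Real.exp (η * ((a * k + 1 : ℕ) : ℝ)) ≤ β ^ (k + 1) := by
      rw [← Real.exp_log (by positivity : 0 < β ^ (k + 1)), Real.log_pow]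
      apply Real.exp_le_exp.2
      rw [hη, div_mul_eq_mul_div, div_le_iff₀ (by positivity)]
      push_cast
      have : (0 : ℝ) ≤ k := by positivity
      have : (0 : ℝ) ≤ a := by positivity
      nlinarith
    have h3 : D.p ((D.S ^ k) h) ≤ Cβ * β ^ k * D.q h :=
      (hgrow k h).trans (by gcongr; simpa using D.p_le h 0)
    have h4 : D.q ((D.S ^ k) h) / 2 ^ (a * k + 1) ≤ D.q h := by
      rw [div_le_iff₀ (by positivity)]
      refine (D.q_S_pow_le k h).trans ?_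
      rw [mul_comm]
      gcongr
      calc (2 * |D.M|) ^ k ≤ (2 ^ a) ^ k := by gcongr
        _ = 2 ^ (a * k) := by rw [pow_mul]
        _ ≤ 2 ^ (a * k + 1) := pow_le_pow_right₀ one_le_two (by omega)
    have hq := apply_nonneg D.q h
    have h5 : C * Real.exp (η * ((a * k + 1 : ℕ) : ℝ)) * D.p ((D.S ^ k) h) ≤
        C * β * Cβ * D.q h * ρ ^ k := by
      calc _ ≤ C * β ^ (k + 1) * (Cβ * β ^ k * D.q h) := by
            gcongr
          _ = _ := by rw [hρ, ← pow_mul, mul_comm 2 k, pow_mul]; ring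
    have h6 : 1 ≤ ρ ^ k := one_le_pow₀ hρ1
    rw [div_le_iff₀ (by positivity)]
    nlinarith
  set N : X → ℝ := fun h => ⨆ k : ℕ, ‖ℓ ((D.S ^ k) h)‖ / ρ ^ k with hN
  have hbdd : ∀ h, BddAbove (range fun k : ℕ => ‖ℓ ((D.S ^ k) h)‖ / ρ ^ k) :=
    fun h => ⟨_, by rintro _ ⟨k, rfl⟩; exact hg k h⟩
  have hNle : ∀ h k, ‖ℓ ((D.S ^ k) h)‖ ≤ N h * ρ ^ k := fun h k => by
    rw [← div_le_iff₀ (by positivity)]; exact le_ciSup (hbdd h) k
  have hNq : ∀ h, N h ≤ (C * β * Cβ + 1) * D.q h := fun h => ciSup_le fun k => hg k h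
  set Λ := (ρ + r) / (1 - r * ρ) with hΛ
  have hΛ0 : 0 ≤ Λ := div_nonneg (by positivity) (by linarith)
  have hstep : ∀ h, N h ≤ Λ * N (D.T h) := by
    intro h
    have : N h ≤ (ρ + r) * N (D.T h) + r * ρ * N h := by
      refine ciSup_le fun k => ?_
      rw [div_le_iff₀ (by positivity)]
      have e : ℓ ((D.S ^ k) h) = ℓ ((D.S ^ (k + 1)) (D.T h)) + conj D.ν * ℓ ((D.S ^ k) (D.T h))
          - D.ν * ℓ ((D.S ^ (k + 1)) h) := by
        conv_lhs => rw [D.S_T h]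
        simp only [map_sub, map_add, map_smul, pow_succ, Module.End.mul_apply, smul_eq_mul]
      have a1 := hNle (D.T h) (k + 1)
      have a2 := hNle (D.T h) k
      have a3 := hNle h (k + 1)
      have a4 : ‖ℓ ((D.S ^ k) h)‖ ≤ ‖ℓ ((D.S ^ (k + 1)) (D.T h))‖ +
          r * ‖ℓ ((D.S ^ k) (D.T h))‖ + r * ‖ℓ ((D.S ^ (k + 1)) h)‖ := by
        rw [e]
        refine (norm_sub_le _ _).trans (add_le_add ((norm_add_le _ _).trans ?_) ?_)
        · rw [norm_mul, Complex.norm_conj]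
        · rw [norm_mul]
      have a5 := mul_le_mul_of_nonneg_left a2 hr0
      have a6 := mul_le_mul_of_nonneg_left a3 hr0
      rw [pow_succ ρ] at a1 a6
      nlinarith
    rw [hΛ, div_mul_eq_mul_div, le_div_iff₀ (by linarith)]
    linarith
  have hiter : ∀ (j : ℕ) (h : X), N h ≤ Λ ^ j * N ((D.T ^ j) h) := by
    intro j
    induction j with
    | zero => simp
    | succ j ih =>
      intro h
      refine (ih h).trans ?_
      rw [pow_succ, mul_assoc, pow_succ', Module.End.mul_apply]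
      gcongr
      exact hstep _
  intro h
  refine D.le_p fun j => le_of_pow_le_mul_pow (C := Λ ^ j * (C * β * Cβ + 1))
    (apply_nonneg _ _) fun n => ?_
  rw [← norm_pow, ← map_pow]
  calc ‖ℓ (h ^ (n + 1))‖ ≤ N (h ^ (n + 1)) := by simpa using hNle (h ^ (n + 1)) 0
    _ ≤ Λ ^ j * N ((D.T ^ j) (h ^ (n + 1))) := hiter j _
    _ ≤ Λ ^ j * ((C * β * Cβ + 1) * D.q ((D.T ^ j) (h ^ (n + 1)))) := by gcongr; exact hNq _
    _ ≤ Λ ^ j * ((C * β * Cβ + 1) * D.q ((D.T ^ j) h) ^ (n + 1)) := by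
      gcongr; exact D.q_T_pow_pow j n h
    _ = _ := by ring

lemma local_step (ev : ℂ → X →ₐ[ℂ] ℂ)
    (hd : ∀ h, DifferentiableOn ℂ (fun w => ev w h) (ball 0 1))
    (hb : ∀ w ∈ ball (0 : ℂ) 1, ∀ h, ‖ev w h‖ ≤ D.q h) {w0 : ℂ} (hw0 : w0 ∈ ball (0 : ℂ) 1)
    {δ : ℝ} (hδ : 0 < δ)
    (hE : ∀ z : ℂ, ‖z - w0‖ < δ → ∀ t : ℝ, ‖z - w0‖ ≤ t → t ≤ δ →
      ∃ w, ‖w - z‖ = t ∧ ∀ h, ‖ev w h‖ ≤ D.p h) :
    ∃ ε : ℝ, 0 < ε ∧ ball w0 ε ⊆ {w | w ∈ ball (0 : ℂ) 1 ∧ ∀ h, ‖ev w h‖ ≤ D.p h} := by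
  obtain ⟨η, hη, hup⟩ := D.upgrade
  obtain ⟨κ, C, hκ, hκ', hC, hL⟩ := lagrange_two_const η hη
  have hw1 : ‖w0‖ < 1 := by simpa using hw0
  set d := min (δ / 2) ((1 - ‖w0‖) / 6) with hd'
  have hd0 : 0 < d := lt_min (by positivity) (by linarith)
  have hd1 : d ≤ δ / 2 := min_le_left _ _
  have hd2 : d ≤ (1 - ‖w0‖) / 6 := min_le_right _ _
  refine ⟨κ * d, by positivity, fun z hz => ?_⟩
  rw [mem_ball, dist_eq_norm] at hz
  have hz' : ‖z - w0‖ < d := by nlinarith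
  have hsub : ball z (5 * d) ⊆ ball 0 1 := by
    intro w hw
    rw [mem_ball, dist_eq_norm] at hw
    rw [mem_ball_zero_iff]
    calc ‖w‖ = ‖(w - z) + (z - w0) + w0‖ := by congr 1; ring
      _ ≤ ‖w - z‖ + ‖z - w0‖ + ‖w0‖ := norm_add₃_le
      _ < 1 := by linarith
  refine ⟨hsub (mem_ball_self (by positivity)), hup (ev z) C hC fun h n hn => ?_⟩
  refine hL (fun w => ev w h) z d (D.q h) (D.p h) hd0 ((hd h).mono hsub)
    (fun w hw => hb w (hsub hw) h) (fun t ht ht' => ?_) n hn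
  obtain ⟨w, hw, hw'⟩ := hE z (by linarith) t (by linarith) (by linarith)
  exact ⟨w, hw, hw' h⟩

lemma circles_of_preconnected {E : Set ℂ} (hE : IsPreconnected E) {w0 w1 : ℂ} (h0 : w0 ∈ E)
    (h1 : w1 ∈ E) {z : ℂ} (hz : ‖z - w0‖ < ‖w1 - w0‖ / 2) {t : ℝ} (ht : ‖z - w0‖ ≤ t)
    (ht' : t ≤ ‖w1 - w0‖ / 2) : ∃ w ∈ E, ‖w - z‖ = t := by
  have := hE.intermediate_value h0 h1 (f := fun w => ‖w - z‖) (by fun_prop)
  refine this ⟨by rwa [norm_sub_rev], ?_⟩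
  have : ‖w1 - w0‖ ≤ ‖w1 - z‖ + ‖z - w0‖ := norm_sub_le_norm_sub_add_norm_sub _ _ _
  linarith

/-- The hull lemma. -/
theorem propagate (ev : ℂ → X →ₐ[ℂ] ℂ)
    (hd : ∀ h, DifferentiableOn ℂ (fun w => ev w h) (ball 0 1))
    (hb : ∀ w ∈ ball (0 : ℂ) 1, ∀ h, ‖ev w h‖ ≤ D.q h) {w0 : ℂ} (hw0 : w0 ∈ ball (0 : ℂ) 1)
    {δ : ℝ} (hδ : 0 < δ)
    (hE : ∀ z : ℂ, ‖z - w0‖ < δ → ∀ t : ℝ, ‖z - w0‖ ≤ t → t ≤ δ →
      ∃ w, ‖w - z‖ = t ∧ ∀ h, ‖ev w h‖ ≤ D.p h) :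
    ∀ w ∈ ball (0 : ℂ) 1, ∀ h, ‖ev w h‖ ≤ D.p h := by
  set Y := {w | w ∈ ball (0 : ℂ) 1 ∧ ∀ h, ‖ev w h‖ ≤ D.p h} with hY
  obtain ⟨ε, hε, hball⟩ := D.local_step ev hd hb hw0 hδ hE
  set Y0 := connectedComponentIn Y w0 with hY0
  have hsub : Y0 ⊆ Y := connectedComponentIn_subset _ _
  have hpre : IsPreconnected Y0 := isPreconnected_connectedComponentIn
  have hb0 : ball w0 ε ⊆ Y0 :=
    (convex_ball w0 ε).isPreconnected.subset_connectedComponentIn (mem_ball_self hε) hball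
  have hopen : IsOpen Y0 := by
    rw [Metric.isOpen_iff]
    intro w hw
    obtain ⟨w1, hw1, hne⟩ : ∃ w1 ∈ Y0, w1 ≠ w := by
      by_cases h : w0 = w
      · refine ⟨w0 + (ε / 2 : ℝ), hb0 ?_, ?_⟩
        · rw [mem_ball, dist_eq_norm, add_sub_cancel_left, Complex.norm_real, Real.norm_eq_abs,
            abs_of_pos (by positivity)]
          linarith
        · rw [← h]
          simpa using hε.ne'
      · exact ⟨w0, hb0 (mem_ball_self hε), h⟩
    have hpos : 0 < ‖w1 - w‖ / 2 := half_pos (norm_pos_iff.2 (sub_ne_zero.2 hne))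
    obtain ⟨ε', hε', hball'⟩ := D.local_step ev hd hb (hsub hw).1 hpos fun z hz t ht ht' => by
      obtain ⟨v, hv, hv'⟩ := circles_of_preconnected hpre hw hw1 hz ht ht'
      exact ⟨v, hv', (hsub hv).2⟩
    refine ⟨ε', hε', ?_⟩
    rw [hY0, connectedComponentIn_eq hw]
    exact (convex_ball w ε').isPreconnected.subset_connectedComponentIn (mem_ball_self hε') hball'
  have := (convex_ball (0 : ℂ) 1).isPreconnected.subset_of_closure_inter_subset hopen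
    ⟨w0, hw0, hb0 (mem_ball_self hε)⟩ (by
      rintro w ⟨hcl, hw⟩
      have hwY : w ∈ Y := by
        refine ⟨hw, fun h => ?_⟩
        have hc : ContinuousWithinAt (fun w => ‖ev w h‖) Y0 w :=
          ((hd h).continuousOn.continuousAt (isOpen_ball.mem_nhds hw)).norm.continuousWithinAt
        exact hc.closure_le hcl continuousWithinAt_const fun v hv => (hsub hv).2 h
      have h1 : IsPreconnected (insert w Y0) :=
        hpre.subset_closure (subset_insert _ _) (insert_subset hcl subset_closure)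
      exact h1.subset_connectedComponentIn (mem_insert_of_mem _ (hb0 (mem_ball_self hε)))
        (insert_subset hwY hsub) (mem_insert _ _))
  exact fun w hw => (hsub (this hw)).2

end HullData

end

end Pool.Agent.MP_ff3f8e_an.H65
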