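import Mathlib

open Metric Set Filter Topology

namespace Pool.Agent.MP_ff3f8e_an.H65

noncomputable section

/-- `hh ζ ω = |ζ - ω|² / (Im ζ Im ω)`, a monotone function of the hyperbolic distance in the
upper half-plane. -/
def hh (ζ ω : ℂ) : ℝ := ‖ζ - ω‖ ^ 2 / (ζ.im * ω.im)

/-- Coarse upper slopes. -/
def Up (γ : ℝ → ℝ) : Set ℝ := {a | ∃ C, ∀ y y', y ≤ y' → γ y' - γ y ≤ a * (y' - y) + C}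

/-- Coarse lower slopes. -/
def Low (γ : ℝ → ℝ) : Set ℝ := {a | ∃ C, ∀ y y', y ≤ y' → a * (y' - y) - C ≤ γ y' - γ y}

/-- Half-plane model of a composition operator with a resolvent point `ν`, `0 < |ν| < 1`. -/
structure HModel (A : Type) [NormedCommRing A] [NormedAlgebra ℂ A] where
  T : A →L[ℂ] A
  R : A →L[ℂ] A
  ν : ℂ
  ν_ne : ν ≠ 0
  ν_lt : ‖ν‖ < 1
  TR : ∀ f, T (R f) - ν • R f = f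
  RT : ∀ f, R (T f - ν • f) = f
  E : ℂ → A →ₐ[ℂ] ℂ
  E_diff : ∀ f, DifferentiableOn ℂ (fun ζ => E ζ f) {ζ | 0 < ζ.im}
  E_le : ∀ ζ f, ‖E ζ f‖ ≤ ‖f‖
  norm_le : ∀ f (c : ℝ), (∀ ζ : ℂ, 0 < ζ.im → ‖E ζ f‖ ≤ c) → ‖f‖ ≤ c
  ψ : ℂ → ℂ
  ψ_diff : DifferentiableOn ℂ ψ {ζ | 0 < ζ.im}
  ψ_im : ∀ ζ : ℂ, 0 < ζ.im → ζ.im < (ψ ζ).im
  E_T : ∀ f (ζ : ℂ), 0 < ζ.im → E ζ (T f) = E (ψ ζ) f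
  mob : ∀ α β : ℂ, β.im < 0 → ∃ f, ∀ ζ : ℂ, 0 < ζ.im → E ζ f = (ζ - α) / (ζ - β)
  exp : ∀ f, ∃ g, ∀ ζ : ℂ, 0 < ζ.im → E ζ g = Complex.exp (E ζ f)
  escape : ∀ ρ : ℝ, ∃ j : ℕ, ∀ ζ : ℂ, 0 < ζ.im → ρ < ‖ψ^[j] ζ‖
  j0 : ℕ
  j0_spec : ∀ ρ : ℝ, ∃ c, 0 < c ∧ ∀ ζ : ℂ, 0 < ζ.im → ‖ψ^[j0] ζ‖ ≤ ρ → c ≤ (ψ^[j0] ζ).im

/-- An exact Abel function on an invariant domain, with a Lipschitz graph model. -/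
structure AbelModel (ψ : ℂ → ℂ) where
  γ : ℝ → ℝ
  L : ℝ
  L_nonneg : 0 ≤ L
  lip : ∀ y y', |γ y - γ y'| ≤ L * |y - y'|
  U : Set ℂ
  U_open : IsOpen U
  U_im : ∀ ζ ∈ U, 0 < ζ.im
  δ : ℝ
  δ_pos : 0 < δ
  mem_U : ∀ ζ : ℂ, 0 < ζ.im → hh ζ (ψ ζ) < δ → ζ ∈ U
  ψ_mem : ∀ ζ ∈ U, ψ ζ ∈ U
  h : ℂ → ℂ
  h_diff : DifferentiableOn ℂ h U
  h_inj : InjOn h U
  h_mem : ∀ ζ ∈ U, γ (h ζ).im ≤ (h ζ).re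
  h_ψ : ∀ ζ ∈ U, h (ψ ζ) = h ζ + 1
  Ξ : ℂ → ℂ
  Ξ_diff : DifferentiableOn ℂ Ξ {w | γ w.im < w.re}
  Ξ_mem : ∀ w : ℂ, γ w.im < w.re → Ξ w ∈ U
  h_Ξ : ∀ w : ℂ, γ w.im < w.re → h (Ξ w) = w
  proper₁ : ∀ ρ : ℝ, ∃ ρ' : ℝ, ∀ ζ ∈ U, ‖h ζ‖ ≤ ρ → ‖ζ‖ ≤ ρ'
  proper₂ : ∀ ρ c : ℝ, 0 < c → ∃ ρ' : ℝ, ∀ ζ ∈ U, ‖ζ‖ ≤ ρ → c ≤ ζ.im → ‖h ζ‖ ≤ ρ'

/-- Translation model of an operator `T` on a uniform algebra `A` normed by the points `P`. -/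
structure DModel (A : Type) [NormedCommRing A] [NormedAlgebra ℂ A] (T : A →L[ℂ] A) (P : Type)
    where
  e : P → A →ₐ[ℂ] ℂ
  eb : A →ₐ[ℂ] ℂ
  φ : P → P
  e_le : ∀ p f, ‖e p f‖ ≤ ‖f‖
  norm_le : ∀ f (c : ℝ), (∀ p, ‖e p f‖ ≤ c) → ‖f‖ ≤ c
  e_T : ∀ p f, e p (T f) = e (φ p) f
  eb_T : ∀ f, eb (T f) = eb f
  γ : ℝ → ℝ
  L : ℝ
  L_nonneg : 0 ≤ L
  lip : ∀ y y', |γ y - γ y'| ≤ L * |y - y'|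
  h : P → ℂ
  h_mem : ∀ p, γ (h p).im + 1 ≤ (h p).re
  h_φ : ∀ p, h (φ p) = h p + 1
  χ : ℂ → P
  N : ℕ
  χ_diff : ∀ f, DifferentiableOn ℂ (fun w => e (χ w) f) {w | γ w.im < w.re}
  χ_succ : ∀ w : ℂ, γ w.im < w.re → χ (w + 1) = φ (χ w)
  χ_h : ∀ p, χ (h p) = φ^[N] p
  h_χ : ∀ w : ℂ, γ w.im < w.re → h (χ w) = w + N
  χ_lim : ∀ f (ε : ℝ), 0 < ε → ∃ ρ : ℝ, ∀ w : ℂ, γ w.im < w.re → ρ ≤ ‖w‖ →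
    ‖e (χ w) f - eb f‖ ≤ ε
  cp : ∀ F : ℂ → ℂ, DifferentiableOn ℂ F {w | γ w.im + 1 / 2 < w.re} →
    (∀ ε : ℝ, 0 < ε → ∃ ρ : ℝ, ∀ w : ℂ, γ w.im + 1 ≤ w.re → ρ ≤ ‖w‖ → ‖F w‖ ≤ ε) →
    ∃ f, ∀ p, e p f = F (h p)

end

end Pool.Agent.MP_ff3f8e_an.H65
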