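import Pool.Agent.MP_ff3f8e_an.H65.Basic

open Metric Set Filter Topology

namespace Pool.Agent.MP_ff3f8e_an.H65

namespace Interior

/-- A point of the resolvent set is described by bijectivity of `f ↦ T f - l • f`. -/
lemma notMem_spectrum_of_bijective (T : DA →L[ℂ] DA) (l : ℂ)
    (hinj : ∀ f, T f = l • f → f = 0) (hsurj : ∀ g, ∃ f, T f - l • f = g) :
    l ∉ spectrum ℂ T := by
  rw [spectrum.notMem_iff, ← IsUnit.neg_iff, neg_sub, ContinuousLinearMap.isUnit_iff_bijective]
  constructor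
  · rw [injective_iff_map_eq_zero]
    intro f hf
    refine hinj f ?_
    have : T f - l • f = 0 := by simpa [Algebra.algebraMap_eq_smul_one] using hf
    exact sub_eq_zero.1 this
  · intro g
    obtain ⟨f, hf⟩ := hsurj g
    exact ⟨f, by simpa [Algebra.algebraMap_eq_smul_one] using hf⟩

lemma surj_of_notMem_spectrum (T : DA →L[ℂ] DA) (l : ℂ) (h : l ∉ spectrum ℂ T) (g : DA) :
    ∃ f, T f - l • f = g := by
  rw [spectrum.notMem_iff, ← IsUnit.neg_iff, neg_sub,
    ContinuousLinearMap.isUnit_iff_bijective] at h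
  obtain ⟨f, hf⟩ := h.2 g
  exact ⟨f, by simpa [Algebra.algebraMap_eq_smul_one] using hf⟩

lemma mem_spectrum_of_eigen (T : DA →L[ℂ] DA) (l : ℂ) {f : DA} (hf : f ≠ 0)
    (h : T f = l • f) : l ∈ spectrum ℂ T := by
  by_contra hl
  rw [spectrum.notMem_iff, ← IsUnit.neg_iff, neg_sub,
    ContinuousLinearMap.isUnit_iff_bijective] at hl
  have h1 := hl.1
  rw [injective_iff_map_eq_zero] at h1
  exact hf (h1 f (by simp [Algebra.algebraMap_eq_smul_one, h]))

/-- The product of two eigenvalues of a composition operator lies in its spectrum. -/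
lemma mul_mem_of_eigen (C : Comp) {l m : ℂ} {f g : DA} (hf : f ≠ 0) (hg : g ≠ 0)
    (h1 : C.T f = l • f) (h2 : C.T g = m • g) : l * m ∈ spectrum ℂ C.T := by
  have hfg : f * g ≠ 0 := fun h => (eq_zero_or_eq_zero h).elim hf hg
  refine mem_spectrum_of_eigen C.T (l * m) hfg ?_
  rw [C.T_mul, h1, h2, smul_mul_smul_comm]

lemma T_pow (C : Comp) (f : DA) (m : ℕ) : C.T (f ^ m) = C.T f ^ m := by
  induction m with
  | zero => simp [C.T_one]
  | succ m ih => rw [pow_succ, C.T_mul, ih, pow_succ]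

lemma T_algebraMap (C : Comp) (c : ℂ) : C.T (algebraMap ℂ DA c) = algebraMap ℂ DA c := by
  rw [Algebra.algebraMap_eq_smul_one, map_smul, C.T_one]

/-- The weighted composition operator `g ↦ χ ^ m * T g`. -/
noncomputable def W (C : Comp) (χ : DA) (m : ℕ) : DA →L[ℂ] DA :=
  (ContinuousLinearMap.mul ℂ DA (χ ^ m)).comp C.T

lemma W_apply (C : Comp) (χ : DA) (m : ℕ) (g : DA) : W C χ m g = χ ^ m * C.T g := rfl

/-- The cocycle of the weight `χ`. -/
noncomputable def coc (C : Comp) (χ : DA) : ℕ → DA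
  | 0 => 1
  | j + 1 => χ * C.T (coc C χ j)

lemma W_pow (C : Comp) (χ : DA) (m j : ℕ) (g : DA) :
    (W C χ m ^ j) g = coc C χ j ^ m * (C.T ^ j) g := by
  induction j with
  | zero => simp [coc]
  | succ j ih =>
    rw [pow_succ', pow_succ', mul_apply_eq_comp, mul_apply_eq_comp, ih,
      W_apply, C.T_mul, T_pow, coc, mul_pow, mul_assoc]

lemma T_pow_u (C : Comp) {χ u : DA} (hu : C.T u = u * χ) (j : ℕ) :
    (C.T ^ j) u = u * coc C χ j := by
  induction j with
  | zero => simp [coc]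
  | succ j ih =>
    rw [pow_succ', mul_apply_eq_comp, ih, C.T_mul, hu, coc, mul_assoc]

lemma norm_T_pow_le (C : Comp) (j : ℕ) (g : DA) : ‖(C.T ^ j) g‖ ≤ ‖g‖ := by
  induction j with
  | zero => simp
  | succ j ih =>
    rw [pow_succ', mul_apply_eq_comp]
    exact (C.norm_T_le _).trans ih

/-- A nonzero point of the spectrum is an eigenvalue in the attracting fixed point case. -/
lemma eigen (C : Comp) (a : ℂ) (ha : a ∈ ball (0 : ℂ) 1) (hfix : C.φ a = a)
    (hconv : ∀ ε : ℝ, 0 < ε → ∃ j : ℕ, ∀ z ∈ closedBall (0 : ℂ) 1, ‖C.φ^[j] z - a‖ < ε)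
    {l : ℂ} (hl0 : l ≠ 0) (hl : l ∈ spectrum ℂ C.T) : ∃ f, f ≠ 0 ∧ C.T f = l • f := by
  by_contra hcon
  push Not at hcon
  have hinj0 : ∀ f, C.T f = l • f → f = 0 := fun f hf => by
    by_contra h0; exact hcon f h0 hf
  have ha' : a ∈ closedBall (0 : ℂ) 1 := ball_subset_closedBall ha
  have ha1 : ‖a‖ < 1 := by simpa using ha
  set u : DA := coord - algebraMap ℂ DA a with hu
  have hev_u : ∀ z ∈ closedBall (0 : ℂ) 1, ev z u = z - a := fun z hz => by
    simp [hu, ev_coord hz]
  have hu0 : u ≠ 0 := by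
    intro h0
    have h1 := hev_u 1 (by simp)
    rw [h0, map_zero] at h1
    have : a = 1 := by linear_combination h1
    simp [this] at ha1
  obtain ⟨χ, hχ⟩ := exists_div ha (C.T coord)
  rw [C.ev_T _ _ ha', hfix, ev_coord ha'] at hχ
  have hTu : C.T u = u * χ := by
    rw [hu, map_sub, T_algebraMap]
    nth_rewrite 1 [hχ]
    ring
  have hWu : ∀ m g, W C χ m (u * g) = u * W C χ (m + 1) g := fun m g => by
    rw [W_apply, W_apply, C.T_mul, hTu]; ring
  -- injectivity
  have hinj : ∀ m f, W C χ m f = l • f → f = 0 := by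
    intro m
    induction m with
    | zero => intro f hf; exact hinj0 f (by simpa [W_apply] using hf)
    | succ m ih =>
      intro f hf
      have := ih (u * f) (by rw [hWu, hf, mul_smul_comm])
      exact (eq_zero_or_eq_zero this).resolve_left hu0
  -- surjectivity descends
  have hdesc : ∀ m, (∀ g, ∃ f, W C χ (m + 1) f - l • f = g) →
      ∀ g, ∃ f, W C χ m f - l • f = g := by
    intro m hs g
    obtain ⟨h0, hh0⟩ := exists_div ha (W C χ m 1 - l • (1 : DA))
    set c := ev a (W C χ m 1 - l • (1 : DA)) with hc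
    have hc0 : c ≠ 0 := by
      intro hc0
      obtain ⟨k, hk⟩ := hs h0
      rw [hc0, map_zero, zero_add, ← hu] at hh0
      have h1 : W C χ m (1 - u * k) = l • (1 - u * k) := by
        rw [map_sub, hWu, smul_sub, ← mul_smul_comm]
        have : W C χ m 1 = l • (1 : DA) + u * h0 := by rw [← hh0]; ring
        rw [this, ← hk]; ring
      have h2 := congrArg (ev a) (hinj m _ h1)
      simp [hev_u a ha'] at h2
    obtain ⟨g1, hg1⟩ := exists_div ha g
    rw [← hu] at hg1 hh0
    obtain ⟨k, hk⟩ := hs (g1 - (ev a g / c) • h0)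
    refine ⟨(ev a g / c) • (1 : DA) + u * k, ?_⟩
    have e1 : W C χ m ((ev a g / c) • (1 : DA) + u * k) - l • ((ev a g / c) • (1 : DA) + u * k)
        = (ev a g / c) • (W C χ m 1 - l • (1 : DA)) + u * (W C χ (m + 1) k - l • k) := by
      rw [map_add, map_smul, hWu, smul_add, smul_sub, smul_comm l, mul_sub, mul_smul_comm]
      ring
    rw [e1, hk, hh0, smul_add, mul_sub, mul_smul_comm, Algebra.algebraMap_eq_smul_one, smul_smul,
      div_mul_cancel₀ _ hc0]
    rw [Algebra.algebraMap_eq_smul_one] at hg1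
    linear_combination -hg1
  -- a large weight has small spectral radius
  obtain ⟨j, hj⟩ := hconv ((1 - ‖a‖) / 2) (by linarith)
  have hcoc : ‖coc C χ j‖ ≤ 1 / 2 := by
    refine norm_le_of_sphere _ fun z hz => ?_
    have hz' : z ∈ closedBall (0 : ℂ) 1 := sphere_subset_closedBall hz
    have hz1 : ‖z‖ = 1 := by simpa using hz
    have h1 := congrArg (ev z) (T_pow_u C hTu j)
    rw [C.ev_pow j _ hz', hev_u _ (C.maps_iter j hz'), map_mul, hev_u z hz'] at h1
    have h2 := hj z hz'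
    rw [h1, norm_mul] at h2
    have h3 : 1 - ‖a‖ ≤ ‖z - a‖ := by rw [← hz1]; exact norm_sub_norm_le z a
    by_contra hlt
    push Not at hlt
    nlinarith
  obtain ⟨M, hM⟩ : ∃ M : ℕ, (1 / 2 : ℝ) ^ M < ‖l‖ ^ j :=
    exists_pow_lt_of_lt_one (by positivity) (by norm_num)
  have hMs : l ∉ spectrum ℂ (W C χ M) := by
    intro hmem
    have h1 := spectrum.norm_le_norm_of_mem (spectrum.pow_mem_pow _ j hmem)
    have h2 : ‖W C χ M ^ j‖ ≤ (1 / 2 : ℝ) ^ M := by
      refine ContinuousLinearMap.opNorm_le_bound _ (by positivity) fun g => ?_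
      rw [W_pow]
      refine (norm_mul_le _ _).trans ?_
      gcongr
      · exact (norm_pow_le _ _).trans (by gcongr)
      · exact norm_T_pow_le C j g
    rw [norm_pow] at h1
    linarith
  have hall : ∀ k m, m + k = M → ∀ g, ∃ f, W C χ m f - l • f = g := by
    intro k
    induction k with
    | zero =>
      intro m hm
      rw [add_zero] at hm
      rw [hm]
      exact surj_of_notMem_spectrum _ _ hMs
    | succ k ih => intro m hm; exact hdesc m (ih (m + 1) (by omega))
  refine notMem_spectrum_of_bijective C.T l hinj0 (fun g => ?_) hl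
  simpa [W_apply] using hall M 0 (zero_add M) g

end Interior

theorem sg_of_interior (C : Comp) (h : ¬ IsUnit C.T) (a : ℂ) (ha : a ∈ ball (0 : ℂ) 1)
    (hfix : C.φ a = a)
    (hconv : ∀ ε : ℝ, 0 < ε → ∃ j : ℕ, ∀ z ∈ closedBall (0 : ℂ) 1, ‖C.φ^[j] z - a‖ < ε) :
    SG (spectrum ℂ C.T) := by
  have h0 : (0 : ℂ) ∈ spectrum ℂ C.T := (spectrum.zero_mem_iff ℂ).2 h
  intro l hl m hm
  by_cases hl0 : l = 0
  · rwa [hl0, zero_mul]
  by_cases hm0 : m = 0
  · rwa [hm0, mul_zero]
  obtain ⟨f, hf, hf'⟩ := Interior.eigen C a ha hfix hconv hl0 hl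
  obtain ⟨g, hg, hg'⟩ := Interior.eigen C a ha hfix hconv hm0 hm
  exact Interior.mul_mem_of_eigen C hf hg hf' hg'

end Pool.Agent.MP_ff3f8e_an.H65
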