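import Pool.Agent.MP_ff3f8e_an.H65.Interior

open Metric Set Filter Topology Polynomial ComplexConjugate

namespace Pool.Agent.MP_ff3f8e_an.H65

namespace Inv

/-- The inverse of an invertible composition operator is a composition operator. -/
lemma exists_inv (C : Comp) (h : IsUnit C.T) :
    ∃ C' : Comp, C'.T = ↑h.unit⁻¹ ∧ ∀ z ∈ closedBall (0 : ℂ) 1, C'.φ (C.φ z) = z := by
  set S : DA →L[ℂ] DA := ↑h.unit⁻¹ with hS
  have hST : ∀ f, S (C.T f) = f := fun f => by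
    rw [← mul_apply_eq_comp, hS, h.val_inv_mul]; rfl
  have hTS : ∀ f, C.T (S f) = f := fun f => by
    rw [← mul_apply_eq_comp, hS, h.mul_val_inv]; rfl
  obtain ⟨C', hC'⟩ := exists_comp S.toLinearMap
    (fun f g => by
      show S (f * g) = S f * S g
      conv_lhs => rw [← hTS f, ← hTS g, ← C.T_mul, hST])
    (by
      show S 1 = 1
      conv_lhs => rw [← C.T_one, hST])
  refine ⟨C', ContinuousLinearMap.ext hC', fun z hz => ?_⟩
  have h1 := C.ev_T (S coord) z hz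
  have h2 : S coord = C'.T coord := (hC' coord).symm
  rw [hTS, ev_coord hz, h2, C'.ev_T _ _ (C.maps hz), ev_coord (C'.maps (C.maps hz))] at h1
  exact h1.symm

lemma norm_eq_one (C : Comp) (h : IsUnit C.T) {l : ℂ} (hl : l ∈ spectrum ℂ C.T) : ‖l‖ = 1 := by
  obtain ⟨C', hC', -⟩ := exists_inv C h
  have hl0 : l ≠ 0 := by
    rintro rfl
    exact (spectrum.zero_mem_iff ℂ).1 hl h
  have h1 : ‖l‖ ≤ 1 := (spectrum.norm_le_norm_of_mem hl).trans C.opNorm_le
  have h2 : l⁻¹ ∈ spectrum ℂ C'.T := by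
    rw [hC']
    have := (spectrum.inv_mem_iff (r := Units.mk0 l hl0) (a := h.unit)).1 (by simpa using hl)
    simpa using this
  have h3 : ‖l⁻¹‖ ≤ 1 := (spectrum.norm_le_norm_of_mem h2).trans C'.opNorm_le
  rw [norm_inv, inv_le_one₀ (norm_pos_iff.2 hl0)] at h3
  exact le_antisymm h1 h3

lemma injOn (C : Comp) (h : IsUnit C.T) : InjOn C.φ (closedBall 0 1) := by
  obtain ⟨C', -, hC'⟩ := exists_inv C h
  intro z hz w hw hzw
  rw [← hC' z hz, hzw, hC' w hw]

lemma maps_sphere (C : Comp) (h : IsUnit C.T) : MapsTo C.φ (sphere 0 1) (sphere 0 1) := by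
  obtain ⟨C', -, hC'⟩ := exists_inv C h
  intro z hz
  have hz' : z ∈ closedBall (0 : ℂ) 1 := sphere_subset_closedBall hz
  rcases C'.maps_ball_or_const with h1 | ⟨b, hb⟩
  · by_contra hcon
    have h2 : C.φ z ∈ ball (0 : ℂ) 1 := by
      have h3 := C.maps hz'
      simp only [mem_closedBall, mem_sphere, mem_ball] at h3 hcon ⊢
      exact lt_of_le_of_ne h3 hcon
    have h4 := h1 h2
    rw [hC' z hz'] at h4
    simp only [mem_sphere, mem_ball] at h4 hz
    exact h4.ne hz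
  · exfalso
    have h0 : (0 : ℂ) ∈ closedBall (0 : ℂ) 1 := by simp
    have h1 : (1 : ℂ) ∈ closedBall (0 : ℂ) 1 := by simp
    have e0 := hC' 0 h0
    have e1 := hC' 1 h1
    rw [hb _ (C.maps h0)] at e0
    rw [hb _ (C.maps h1)] at e1
    exact zero_ne_one (e0.symm.trans e1)

/-- For an operator of finite order every point of the spectrum is an eigenvalue. -/
lemma eigen_of_pow_eq_one (T : DA →L[ℂ] DA) {n : ℕ} (hn : n ≠ 0) (hT : T ^ n = 1) {l : ℂ}
    (hl : l ∈ spectrum ℂ T) : ∃ f, f ≠ 0 ∧ T f = l • f := by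
  by_contra hcon
  push Not at hcon
  have hln : l ^ n = 1 := by
    have := spectrum.pow_mem_pow T n hl
    rwa [hT, spectrum.one_eq, mem_singleton_iff] at this
  have hl0 : l ≠ 0 := by
    rintro rfl
    simp [hn] at hln
  set q : ℂ[X] := ∑ i ∈ Finset.range n, X ^ i * C l ^ (n - 1 - i) with hq
  have h1 : (X - C l) * q = X ^ n - C l ^ n := by rw [hq, mul_comm, geom_sum₂_mul]
  have h2 : (T - algebraMap ℂ _ l) * aeval T q = 0 := by
    have := congrArg (aeval T) h1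
    rw [map_mul, map_sub, map_sub, map_pow, map_pow, aeval_X, aeval_C, hT, ← map_pow, hln,
      map_one, sub_self] at this
    exact this
  have h3 : aeval T q = 0 := by
    ext1 f
    by_contra hf
    refine hcon _ hf ?_
    have := congrArg (fun A : DA →L[ℂ] DA => A f) h2
    refine sub_eq_zero.1 ?_
    simpa [Algebra.algebraMap_eq_smul_one] using this
  have h4 : eval l q ∈ spectrum ℂ (aeval T q) := spectrum.subset_polynomial_aeval T q ⟨l, hl, rfl⟩
  rw [h3, spectrum.zero_eq, mem_singleton_iff] at h4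
  have h5 : eval l q = n * l ^ (n - 1) := by
    rw [hq, eval_finsetSum]
    simp only [eval_mul, eval_pow, eval_X, eval_C]
    exact geom_sum₂_self l n
  rw [h5] at h4
  simp [hn, hl0] at h4

/-- Peak functions at finitely many distinct points of the circle. -/
lemma exists_peak (n : ℕ) (x : ℕ → ℂ) (hx : ∀ i, x i ∈ sphere (0 : ℂ) 1)
    (hinj : ∀ i < n, ∀ j < n, i ≠ j → x i ≠ x j) {ε : ℝ} (hε : 0 < ε) :
    ∃ p : ℕ → DA, (∀ k, ev (x k) (p k) = 1) ∧
      (∀ z ∈ closedBall (0 : ℂ) 1, ∀ k, ‖ev z (p k)‖ ≤ 1) ∧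
      (∀ z ∈ closedBall (0 : ℂ) 1, ∃ k0, ∀ k < n, k ≠ k0 → ‖ev z (p k)‖ ≤ ε) ∧
      (∀ j < n, ∀ k < n, k ≠ j → ‖ev (x j) (p k)‖ ≤ ε) := by
  have hx1 : ∀ i, ‖x i‖ = 1 := fun i => by simpa using hx i
  have hx' : ∀ i, x i ∈ closedBall (0 : ℂ) 1 := fun i => sphere_subset_closedBall (hx i)
  obtain ⟨δ, hδ, hδ0, hδ1⟩ : ∃ δ : ℝ, (∀ i ∈ Finset.range n, ∀ j ∈ Finset.range n, i ≠ j →
      2 * δ < ‖x i - x j‖) ∧ 0 < δ ∧ δ < 1 := by
    have e1 : ∀ᶠ δ : ℝ in 𝓝[>] 0, ∀ i ∈ Finset.range n, ∀ j ∈ Finset.range n, i ≠ j →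
        2 * δ < ‖x i - x j‖ := by
      rw [Filter.eventually_all_finset]
      intro i hi
      rw [Filter.eventually_all_finset]
      intro j hj
      by_cases hij : i = j
      · simp [hij]
      have hpos : 0 < ‖x i - x j‖ := norm_pos_iff.2 (sub_ne_zero.2
        (hinj i (Finset.mem_range.1 hi) j (Finset.mem_range.1 hj) hij))
      have : ∀ᶠ δ : ℝ in 𝓝 0, δ < ‖x i - x j‖ / 2 := eventually_lt_nhds (by positivity)
      filter_upwards [nhdsWithin_le_nhds this] with δ hδ _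
      linarith
    have e2 : ∀ᶠ δ : ℝ in 𝓝[>] 0, δ < 1 := nhdsWithin_le_nhds (eventually_lt_nhds one_pos)
    have e3 : ∀ᶠ δ : ℝ in 𝓝[>] 0, 0 < δ := self_mem_nhdsWithin
    exact (e1.and (e3.and e2)).exists
  set b : ℕ → DA := fun k => (1 / 2 : ℂ) • (1 + conj (x k) • coord) with hb
  have hev : ∀ k, ∀ z ∈ closedBall (0 : ℂ) 1, ev z (b k) = (1 + conj (x k) * z) / 2 := by
    intro k z hz
    simp only [hb, map_smul, map_add, map_one, ev_coord hz, smul_eq_mul]
    ring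
  have hxx : ∀ k, conj (x k) * x k = 1 := fun k => by
    rw [Complex.conj_mul', hx1]; simp
  have hsq : ∀ k, ∀ z ∈ closedBall (0 : ℂ) 1, ‖ev z (b k)‖ ^ 2 ≤ 1 - ‖z - x k‖ ^ 2 / 4 := by
    intro k z hz
    have hz1 : ‖z‖ ≤ 1 := by simpa using hz
    have e : (1 + conj (x k) * z) / 2 = conj (x k) * (z + x k) / 2 := by
      rw [mul_add, hxx]; ring
    rw [hev k z hz, e, norm_div, norm_mul, Complex.norm_conj, hx1, one_mul, div_pow]
    have h1 := parallelogram_law_with_norm ℝ z (x k)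
    rw [hx1] at h1
    simp only [Complex.norm_ofNat]
    nlinarith [norm_nonneg z]
  have hle1 : ∀ k, ∀ z ∈ closedBall (0 : ℂ) 1, ‖ev z (b k)‖ ≤ 1 := fun k z hz => by
    have := hsq k z hz
    nlinarith [norm_nonneg (ev z (b k)), sq_nonneg ‖z - x k‖]
  have hθ0 : 0 ≤ 1 - δ ^ 2 / 8 := by nlinarith
  have hθ1 : 1 - δ ^ 2 / 8 < 1 := by nlinarith
  obtain ⟨m, hm⟩ := exists_pow_lt_of_lt_one hε hθ1
  have hfar : ∀ k, ∀ z ∈ closedBall (0 : ℂ) 1, δ ≤ ‖z - x k‖ → ‖ev z (b k ^ m)‖ ≤ ε := by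
    intro k z hz hd
    have h1 := hsq k z hz
    have h2 : δ ^ 2 ≤ ‖z - x k‖ ^ 2 := by gcongr
    have h3 : ‖ev z (b k)‖ ≤ 1 - δ ^ 2 / 8 := by
      refine (pow_le_pow_iff_left₀ (norm_nonneg _) hθ0 two_ne_zero).1 ?_
      nlinarith [sq_nonneg (δ ^ 2)]
    rw [map_pow, norm_pow]
    exact (pow_le_pow_left₀ (norm_nonneg _) h3 m).trans hm.le
  refine ⟨fun k => b k ^ m, fun k => ?_, fun z hz k => ?_, fun z hz => ?_, fun j hj k hk hkj => ?_⟩
  · rw [map_pow, hev k _ (hx' k), hxx]; norm_num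
  · rw [map_pow, norm_pow]; exact pow_le_one₀ (norm_nonneg _) (hle1 k z hz)
  · by_cases hex : ∃ k0 < n, ‖z - x k0‖ < δ
    · obtain ⟨k0, hk0, hz0⟩ := hex
      refine ⟨k0, fun k hk hne => hfar k z hz ?_⟩
      have h1 := hδ k (Finset.mem_range.2 hk) k0 (Finset.mem_range.2 hk0) hne
      have h2 : ‖x k - x k0‖ ≤ ‖z - x k‖ + ‖z - x k0‖ := by
        calc ‖x k - x k0‖ = ‖(z - x k0) - (z - x k)‖ := by congr 1; ring
          _ ≤ _ := by rw [add_comm]; exact norm_sub_le _ _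
      linarith
    · push Not at hex
      exact ⟨0, fun k hk _ => hfar k z hz (hex k hk)⟩
  · refine hfar k _ (hx' j) ?_
    have := hδ j (Finset.mem_range.2 hj) k (Finset.mem_range.2 hk) hkj.symm
    linarith

lemma norm_sum_le_add {n : ℕ} (k0 : ℕ) (a : ℕ → ℂ) {c ε : ℝ} (hc : 0 ≤ c) (hε : 0 ≤ ε)
    (h0 : ‖a k0‖ ≤ c) (h : ∀ k < n, k ≠ k0 → ‖a k‖ ≤ ε) :
    ‖∑ k ∈ Finset.range n, a k‖ ≤ c + n * ε := by
  calc ‖∑ k ∈ Finset.range n, a k‖ ≤ ∑ k ∈ Finset.range n, ‖a k‖ := norm_sum_le _ _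
    _ ≤ ∑ k ∈ Finset.range n, ((if k = k0 then c else 0) + ε) := by
      refine Finset.sum_le_sum fun k hk => ?_
      split_ifs with hk0
      · rw [hk0]; linarith
      · rw [zero_add]; exact h k (Finset.mem_range.1 hk) hk0
    _ ≤ c + n * ε := by
      rw [Finset.sum_add_distrib, Finset.sum_ite_eq', Finset.sum_const, Finset.card_range,
        nsmul_eq_mul]
      split_ifs <;> linarith

/-- Long orbits on the circle put the whole circle into the spectrum. -/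
lemma mem_spectrum_of_orbits (C : Comp) (hs : MapsTo C.φ (sphere 0 1) (sphere 0 1))
    (horb : ∀ n : ℕ, ∃ x ∈ sphere (0 : ℂ) 1, ∀ i < n, ∀ j < n, i ≠ j → C.φ^[i] x ≠ C.φ^[j] x)
    {w : ℂ} (hw : ‖w‖ = 1) : w ∈ spectrum ℂ C.T := by
  by_contra hcon
  have hw0 : w ≠ 0 := by rintro rfl; simp at hw
  rw [spectrum.notMem_iff, ← IsUnit.neg_iff, neg_sub] at hcon
  set R : DA →L[ℂ] DA := ↑hcon.unit⁻¹ with hR
  have hTR : ∀ g, C.T (R g) - w • R g = g := fun g => by
    have := congrArg (fun A : DA →L[ℂ] DA => A g) hcon.mul_val_inv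
    simpa [Algebra.algebraMap_eq_smul_one, ← hR] using this
  obtain ⟨n, hn⟩ := exists_nat_gt (6 * ‖R‖)
  have hn0 : (0 : ℝ) < n := lt_of_le_of_lt (by positivity) hn
  obtain ⟨x0, hx0, hinj⟩ := horb n
  set x : ℕ → ℂ := fun k => C.φ^[k] x0 with hxdef
  have hx : ∀ k, x k ∈ sphere (0 : ℂ) 1 := fun k => hs.iterate k hx0
  have hx' : ∀ k, x k ∈ closedBall (0 : ℂ) 1 := fun k => sphere_subset_closedBall (hx k)
  obtain ⟨p, hp1, hp2, hp3, hp4⟩ := exists_peak n x hx hinj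
    (ε := 1 / (2 * n)) (by positivity)
  have hnε : (n : ℝ) * (1 / (2 * n)) = 1 / 2 := by field_simp
  set g : DA := ∑ k ∈ Finset.range n, w ^ k • p k with hg
  have hevg : ∀ z, ev z g = ∑ k ∈ Finset.range n, w ^ k * ev z (p k) := fun z => by
    simp [hg, map_sum]
  have hnw : ∀ (k : ℕ) (c : ℂ), ‖w ^ k * c‖ = ‖c‖ := fun k c => by
    rw [norm_mul, norm_pow, hw, one_pow, one_mul]
  have hgn : ‖g‖ ≤ 3 / 2 := by
    refine norm_le_of_closedBall _ fun z hz => ?_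
    obtain ⟨k0, hk0⟩ := hp3 z hz
    rw [hevg]
    refine (norm_sum_le_add k0 _ zero_le_one (ε := 1 / (2 * n)) (by positivity) ?_ ?_).trans ?_
    · rw [hnw]; exact hp2 z hz k0
    · intro k hk hne; rw [hnw]; exact hk0 k hk hne
    · rw [hnε]; norm_num
  have hclose : ∀ j < n, ‖(w ^ j)⁻¹ * ev (x j) g - 1‖ ≤ 1 / 2 := by
    intro j hj
    have e : (w ^ j)⁻¹ * ev (x j) g - 1 = (w ^ j)⁻¹ *
        ∑ k ∈ Finset.range n, (w ^ k * ev (x j) (p k) - if k = j then w ^ j else 0) := by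
      rw [Finset.sum_sub_distrib, Finset.sum_ite_eq', if_pos (Finset.mem_range.2 hj), ← hevg,
        mul_sub, inv_mul_cancel₀ (pow_ne_zero _ hw0)]
    rw [e, norm_mul, norm_inv, norm_pow, hw, one_pow, inv_one, one_mul]
    refine (norm_sum_le_add j _ le_rfl (ε := 1 / (2 * n)) (by positivity) ?_ ?_).trans ?_
    · simp [hp1]
    · intro k hk hne
      rw [if_neg hne, sub_zero, hnw]; exact hp4 j hj k hk hne
    · rw [hnε]; norm_num
  set f := R g with hf
  have hfn : ‖f‖ ≤ ‖R‖ * (3 / 2) := (R.le_opNorm g).trans (by gcongr)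
  set a : ℕ → ℂ := fun k => w * ((w ^ k)⁻¹ * ev (x k) f) with ha
  have han : ∀ k, ‖a k‖ ≤ ‖f‖ := fun k => by
    simp only [ha, norm_mul, norm_inv, norm_pow, hw, one_pow, inv_one, one_mul]
    exact norm_ev_le _ _
  have htel : ∀ k, a (k + 1) - a k = (w ^ k)⁻¹ * ev (x k) g := fun k => by
    have h1 := congrArg (ev (x k)) (hTR g)
    rw [map_sub, map_smul, C.ev_T _ _ (hx' k), smul_eq_mul] at h1
    have h2 : x (k + 1) = C.φ (x k) := Function.iterate_succ_apply' _ _ _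
    simp only [ha]
    rw [h2, ← h1, ← hf]
    field_simp
    ring
  have hsum : ∑ k ∈ Finset.range n, ((w ^ k)⁻¹ * ev (x k) g - 1) = a n - a 0 - n := by
    rw [Finset.sum_sub_distrib, ← Finset.sum_range_sub a n]
    simp [htel]
  have h1 : ‖a n - a 0 - n‖ ≤ n * (1 / 2) := by
    rw [← hsum]
    refine (norm_sum_le _ _).trans ?_
    refine (Finset.sum_le_sum fun k hk => hclose k (Finset.mem_range.1 hk)).trans ?_
    simp
  have h2 : (n : ℝ) ≤ ‖a n - a 0‖ + ‖a n - a 0 - n‖ := by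
    calc (n : ℝ) = ‖(a n - a 0) - (a n - a 0 - n)‖ := by simp
      _ ≤ _ := norm_sub_le _ _
  have h3 : ‖a n - a 0‖ ≤ ‖f‖ + ‖f‖ := (norm_sub_le _ _).trans (add_le_add (han n) (han 0))
  linarith

end Inv

theorem sg_of_isUnit (C : Comp) (h : IsUnit C.T) : SG (spectrum ℂ C.T) := by
  intro l hl m hm
  by_cases hA : ∃ n : ℕ, n ≠ 0 ∧ ∀ z ∈ sphere (0 : ℂ) 1, C.φ^[n] z = z
  · obtain ⟨n, hn, hid⟩ := hA
    have hT : C.T ^ n = 1 := by
      ext1 f
      refine ext_sphere fun z hz => ?_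
      rw [C.ev_pow n f (sphere_subset_closedBall hz), hid z hz]; rfl
    obtain ⟨f, hf, hf'⟩ := Inv.eigen_of_pow_eq_one C.T hn hT hl
    obtain ⟨g, hg, hg'⟩ := Inv.eigen_of_pow_eq_one C.T hn hT hm
    exact Interior.mul_mem_of_eigen C hf hg hf' hg'
  · refine Inv.mem_spectrum_of_orbits C (Inv.maps_sphere C h) (fun n => ?_) ?_
    · by_contra hcon
      push Not at hcon
      refine hA ⟨n.factorial, n.factorial_ne_zero, fun z hz => ?_⟩
      have hz' : z ∈ closedBall (0 : ℂ) 1 := sphere_subset_closedBall hz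
      have key : ∀ i j, i < j → j < n → C.φ^[i] z = C.φ^[j] z → C.φ^[n.factorial] z = z := by
        intro i j hij hj e
        obtain ⟨d, rfl⟩ := Nat.exists_eq_add_of_lt hij
        rw [add_assoc, Function.iterate_add_apply] at e
        have e' : z = C.φ^[d + 1] z :=
          ((Inv.injOn C h).iterate C.maps i) hz' (C.maps_iter _ hz') e
        have hp : Function.IsPeriodicPt C.φ (d + 1) z := e'.symm
        exact hp.trans_dvd (Nat.dvd_factorial (by omega) (by omega))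
      obtain ⟨i, hi, j, hj, hij, e⟩ := hcon z hz
      rcases lt_or_gt_of_ne hij with h1 | h1
      · exact key i j h1 hj e
      · exact key j i h1 hi e.symm
    · rw [norm_mul, Inv.norm_eq_one C h hl, Inv.norm_eq_one C h hm, one_mul]

end Pool.Agent.MP_ff3f8e_an.H65
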