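import Pool.Agent.MP_ff3f8e_an.H65.Basic
import Pool.Agent.MP_ff3f8e_an.H65.HullB

open Metric Set Filter Topology Complex ComplexConjugate

namespace Pool.Agent.MP_ff3f8e_an.H65

noncomputable section

section Res

variable {A : Type*} [NormedAddCommGroup A] [NormedSpace ℂ A]

lemma exists_R {T : A →L[ℂ] A} {ν : ℂ} (hν : ν ∈ resolventSet ℂ T) :
    ∃ R : A →L[ℂ] A, (∀ f, T (R f) - ν • R f = f) ∧ ∀ f, R (T f - ν • f) = f := by
  obtain ⟨u, hu⟩ := (spectrum.mem_resolventSet_iff.1 hν).neg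
  rw [neg_sub, Algebra.algebraMap_eq_smul_one] at hu
  refine ⟨↑u⁻¹, fun f => ?_, fun f => ?_⟩
  · have : ((u : A →L[ℂ] A) * ↑u⁻¹) f = f := by rw [u.mul_inv]; rfl
    rw [hu] at this
    simpa using this
  · have : ((↑u⁻¹ : A →L[ℂ] A) * u) f = f := by rw [u.inv_mul]; rfl
    rw [hu] at this
    simpa using this

lemma isUnit_of_R {T R : A →L[ℂ] A} {ν : ℂ} (hTR : ∀ f, T (R f) - ν • R f = f)
    (hRT : ∀ f, R (T f - ν • f) = f) : IsUnit (T - ν • (1 : A →L[ℂ] A)) :=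
  ⟨⟨T - ν • 1, R, by ext f; simpa using hTR f, by ext f; simpa using hRT f⟩, rfl⟩

lemma R_comm {T R : A →L[ℂ] A} {ν : ℂ} (hTR : ∀ f, T (R f) - ν • R f = f)
    (hRT : ∀ f, R (T f - ν • f) = f) (n : ℕ) (f : A) : (T ^ n) (R f) = R ((T ^ n) f) := by
  have h1 : ∀ f, T (R f) = R (T f) := by
    intro f
    have a := hTR f
    have b := hRT f
    rw [map_sub, map_smul] at b
    rw [sub_eq_iff_eq_add] at a b
    rw [a, b]
  induction n generalizing f with
  | zero => simp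
  | succ n ih => simp only [pow_succ, mul_apply_eq_comp, h1, ih]

lemma resolvent_orbit {T R : A →L[ℂ] A} {ν : ℂ} (hTR : ∀ f, T (R f) - ν • R f = f) (N : ℕ)
    (F : A) : (T ^ N) (R F) = ν ^ N • R F + ∑ l ∈ Finset.range N, ν ^ (N - 1 - l) • (T ^ l) F := by
  induction N with
  | zero => simp
  | succ N ih =>
    have a := hTR F
    rw [sub_eq_iff_eq_add] at a
    rw [pow_succ, mul_apply_eq_comp, a, map_add, map_smul, ih, Finset.sum_range_succ, smul_add,
      Finset.smul_sum, smul_smul, ← pow_succ']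
    have : ∑ l ∈ Finset.range N, ν • ν ^ (N - 1 - l) • (T ^ l) F =
        ∑ l ∈ Finset.range N, ν ^ (N + 1 - 1 - l) • (T ^ l) F := by
      refine Finset.sum_congr rfl fun l hl => ?_
      rw [smul_smul, ← pow_succ']
      congr 2
      have := Finset.mem_range.1 hl
      omega
    rw [this]
    simp only [add_tsub_cancel_right, tsub_self, pow_zero, one_smul]
    abel

end Res

namespace Comp

variable (C : Comp)

/-- The image of the closed disc under the `j`-th iterate. -/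
def W (j : ℕ) : Set ℂ := C.φ^[j] '' closedBall 0 1

lemma W_compact (j : ℕ) : IsCompact (C.W j) :=
  (isCompact_closedBall _ _).image_of_continuousOn (C.cont_iter j)

lemma W_preconnected (j : ℕ) : IsPreconnected (C.W j) :=
  (convex_closedBall _ _).isPreconnected.image _ (C.cont_iter j)

lemma W_succ (j : ℕ) : C.W (j + 1) ⊆ C.W j := by
  rintro _ ⟨z, hz, rfl⟩
  exact ⟨C.φ z, C.maps hz, rfl⟩

lemma W_anti : Antitone C.W := antitone_nat_of_succ_le C.W_succ

lemma W_sub (j : ℕ) : C.W j ⊆ closedBall 0 1 := by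
  rintro _ ⟨z, hz, rfl⟩
  exact C.maps_iter j hz

lemma exists_mem_K {S : Set ℂ} (hS : IsClosed S) (h : ∀ j, (C.W j ∩ S).Nonempty) :
    ∃ w ∈ S, ∀ j, w ∈ C.W j := by
  obtain ⟨w, hw⟩ := IsCompact.nonempty_iInter_of_sequence_nonempty_isCompact_isClosed
    (fun j => C.W j ∩ S) (fun j => inter_subset_inter_left _ (C.W_succ j)) h
    ((C.W_compact 0).inter_right hS) fun j => (C.W_compact j).isClosed.inter hS
  rw [mem_iInter] at hw
  exact ⟨w, (hw 0).2, fun j => (hw j).1⟩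

lemma K_ivt {f : ℂ → ℝ} (hf : Continuous f) {w0 w1 : ℂ} (h0 : ∀ j, w0 ∈ C.W j)
    (h1 : ∀ j, w1 ∈ C.W j) {c : ℝ} (hc0 : f w0 ≤ c) (hc1 : c ≤ f w1) :
    ∃ w, f w = c ∧ ∀ j, w ∈ C.W j :=
  C.exists_mem_K (S := {w | f w = c}) (isClosed_eq hf continuous_const) fun j => by
    obtain ⟨w, hw, hw'⟩ := (C.W_preconnected j).intermediate_value (h0 j) (h1 j) hf.continuousOn
      ⟨hc0, hc1⟩
    exact ⟨w, hw, hw'⟩

lemma T_pow_mul (n : ℕ) (f g : DA) : (C.T ^ n) (f * g) = (C.T ^ n) f * (C.T ^ n) g := by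
  induction n with
  | zero => simp
  | succ n ih => simp only [pow_succ', mul_apply_eq_comp, ih, C.T_mul]

lemma T_pow_pow (n k : ℕ) (f : DA) : (C.T ^ n) (f ^ (k + 1)) = (C.T ^ n) f ^ (k + 1) := by
  induction k with
  | zero => simp
  | succ k ih => rw [pow_succ f, C.T_pow_mul, ih, ← pow_succ]

/-- The hull data of a composition operator. -/
def hullData {R : DA →L[ℂ] DA} {ν : ℂ} (hν : ‖ν‖ < 1) (hTR : ∀ f, C.T (R f) - ν • R f = f)
    (hRT : ∀ f, R (C.T f - ν • f) = f) : HullData DA where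
  q := normSeminorm ℂ DA
  T := C.T.toLinearMap
  R := R.toLinearMap
  ν := ν
  ν_lt := hν
  M := ‖R‖
  TR := hTR
  RT := hRT
  T_le := C.norm_T_le
  R_le := R.le_opNorm
  T_mul := C.T_mul
  q_mul := norm_mul_le

lemma arc_of_K {b p : ℂ} (hb : ∀ j, b ∈ C.W j) (hp : ∀ j, p ∈ C.W j) (hne : p ≠ b)
    (hK : ∀ w, (∀ j, w ∈ C.W j) → ‖w‖ = 1) :
    ∃ q : ℂ, ‖q‖ = 1 ∧ ∃ c : ℝ, 0 < c ∧ ∀ w : ℂ, ‖w‖ = 1 → ‖w - q‖ < c → ∀ j, w ∈ C.W j := by
  have hb1 := hK b hb
  have hp1 := hK p hp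
  have hbb : conj b * b = 1 := by
    rw [mul_comm, Complex.mul_conj, Complex.normSq_eq_norm_sq, hb1]; simp
  set f : ℂ → ℝ := fun w => (w * conj b).re with hf
  have hfc : Continuous f := by fun_prop
  have hfb : f b = 1 := by simp only [hf]; rw [mul_comm, hbb]; rfl
  have hfp : f p < 1 := by
    have h1 : 0 < ‖p - b‖ ^ 2 := pow_pos (norm_pos_iff.2 (sub_ne_zero.2 hne)) 2
    have h2 : ‖p‖ ^ 2 = 1 := by rw [hp1]; norm_num
    have h3 : ‖b‖ ^ 2 = 1 := by rw [hb1]; norm_num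
    simp only [Complex.sq_norm, Complex.normSq_apply, sub_re, sub_im] at h1 h2 h3
    simp only [hf, mul_re, conj_re, conj_im]
    nlinarith
  set σ : ℂ → ℂ := fun w => conj (w * conj b) * b with hσ
  have hσσ : ∀ w, σ (σ w) = w := by
    intro w
    simp only [hσ]
    rw [mul_assoc, mul_comm b, hbb, mul_one, Complex.conj_conj, mul_assoc, hbb, mul_one]
  have hσd : ∀ w v, ‖σ w - σ v‖ = ‖w - v‖ := by
    intro w v
    simp only [hσ]
    rw [← sub_mul, ← map_sub, ← sub_mul, norm_mul, Complex.norm_conj, norm_mul, Complex.norm_conj,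
      hb1, mul_one, mul_one]
  have hσ1 : ∀ w, ‖σ w‖ = ‖w‖ := fun w => by simpa [hσ] using hσd w 0
  have hσf : ∀ w, f (σ w) = f w := by
    intro w
    simp only [hf, hσ]
    rw [mul_assoc, mul_comm b, hbb, mul_one, conj_re]
  have hdich : ∀ w, ‖w‖ = 1 → f p < f w → f w < 1 → (∀ j, w ∈ C.W j) ∨ ∀ j, σ w ∈ C.W j := by
    intro w hw h1 h2
    obtain ⟨v, hv, hvK⟩ := C.K_ivt hfc hp hb h1.le (by rw [hfb]; exact h2.le)
    have hv1 := hK v hvK
    have n1 : ‖w * conj b‖ ^ 2 = 1 := by rw [norm_mul, Complex.norm_conj, hw, hb1]; norm_num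
    have n2 : ‖v * conj b‖ ^ 2 = 1 := by rw [norm_mul, Complex.norm_conj, hv1, hb1]; norm_num
    rw [Complex.sq_norm, Complex.normSq_apply] at n1 n2
    have hre : (v * conj b).re = (w * conj b).re := hv
    have him : (v * conj b).im = (w * conj b).im ∨ (v * conj b).im = -(w * conj b).im := by
      rw [hre] at n2
      exact mul_self_eq_mul_self_iff.1 (by linarith)
    have hv' : v = v * conj b * b := by rw [mul_assoc, hbb, mul_one]
    rcases him with him | him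
    · left
      have : v * conj b = w * conj b := Complex.ext hre him
      have : v = w := by rw [hv', this, mul_assoc, hbb, mul_one]
      rwa [← this]
    · right
      have : v * conj b = conj (w * conj b) := Complex.ext (by rw [conj_re]; exact hre) (by rw [conj_im]; exact him)
      have : v = σ w := by rw [hv', this]
      rwa [← this]
  have hSo : IsOpen {w | f p < f w ∧ f w < 1} :=
    (isOpen_lt continuous_const hfc).inter (isOpen_lt hfc continuous_const)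
  by_cases hall : ∀ w, ‖w‖ = 1 → f p < f w → f w < 1 → ∀ j, w ∈ C.W j
  · obtain ⟨q, hq, hqK⟩ := C.K_ivt hfc hp hb (c := (f p + 1) / 2) (by linarith) (by linarith)
    obtain ⟨c, hc, hsub⟩ := Metric.isOpen_iff.1 hSo q ⟨by linarith, by linarith⟩
    refine ⟨q, hK q hqK, c, hc, fun w hw hwq => ?_⟩
    have := hsub (show w ∈ ball q c by rwa [mem_ball, dist_eq_norm])
    exact hall w hw this.1 this.2
  · push Not at hall
    obtain ⟨q', hq1, hq2, hq3, j, hj⟩ := hall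
    obtain ⟨c1, hc1, hsub1⟩ := Metric.isOpen_iff.1 hSo (σ q') ⟨by rwa [hσf], by rwa [hσf]⟩
    obtain ⟨c2, hc2, hsub2⟩ := Metric.isOpen_iff.1 (C.W_compact j).isClosed.isOpen_compl q' hj
    refine ⟨σ q', by rw [hσ1, hq1], min c1 c2, lt_min hc1 hc2, fun w hw hwq => ?_⟩
    have := hsub1 (show w ∈ ball (σ q') c1 by
      rw [mem_ball, dist_eq_norm]; exact hwq.trans_le (min_le_left _ _))
    rcases hdich w hw this.1 this.2 with h | h
    · exact h
    · exfalso
      refine hsub2 (show σ w ∈ ball q' c2 from ?_) (h j)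
      rw [mem_ball, dist_eq_norm, ← hσd, hσσ]
      exact hwq.trans_le (min_le_right _ _)

lemma radial_estimate {q : ℂ} (hq : ‖q‖ = 1) {c : ℝ} (hc : 0 < c) (h : DA) {P : ℝ}
    (hP : ∀ w : ℂ, ‖w‖ = 1 → ‖w - q‖ < c → ‖ev w h‖ ≤ P) {η ρ : ℝ} (hη : 0 < η) (hρ0 : 0 ≤ ρ)
    (hρ1 : ρ ≤ 1) (hρ : 1 - ρ ≤ min η 1 * c ^ 2 / 4) (n : ℕ) :
    ‖ev (ρ * q) h‖ ≤ 1 * Real.exp (η * n) * P + ‖h‖ / 2 ^ n := by
  have hP0 : 0 ≤ P := (norm_nonneg _).trans (hP q hq (by simpa using hc))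
  set lam : ℝ := 4 * n / c ^ 2 with hlam
  have hlam0 : 0 ≤ lam := by positivity
  obtain ⟨g, hg⟩ := exists_ev_eq (F := fun w => exp (-(lam * (1 - conj q * w))))
    (by fun_prop) (by fun_prop)
  have hqq : conj q * q = 1 := by
    rw [mul_comm, Complex.mul_conj, Complex.normSq_eq_norm_sq, hq]; simp
  have hnorm : ∀ w ∈ closedBall (0 : ℂ) 1,
      ‖ev w g‖ = Real.exp (-(lam * (1 - (conj q * w).re))) := by
    intro w hw
    rw [hg w hw, Complex.norm_exp]
    simp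
  have h1 : ‖h * g‖ ≤ P + ‖h‖ * Real.exp (-(2 * n)) := by
    refine norm_le_of_sphere _ fun w hw => ?_
    have hw1 : ‖w‖ = 1 := by simpa using hw
    have hre : 1 - (conj q * w).re = ‖w - q‖ ^ 2 / 2 := by
      have h2 : ‖w‖ ^ 2 = 1 := by rw [hw1]; norm_num
      have h3 : ‖q‖ ^ 2 = 1 := by rw [hq]; norm_num
      simp only [Complex.sq_norm, Complex.normSq_apply, sub_re, sub_im] at h2 h3 ⊢
      simp only [mul_re, conj_re, conj_im]
      nlinarith
    rw [map_mul, norm_mul, hnorm w (sphere_subset_closedBall hw), hre]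
    have hpos : 0 ≤ ‖h‖ * Real.exp (-(2 * n)) := by positivity
    by_cases hwq : ‖w - q‖ < c
    · have : Real.exp (-(lam * (‖w - q‖ ^ 2 / 2))) ≤ 1 :=
        Real.exp_le_one_iff.2 (neg_nonpos.2 (by positivity))
      nlinarith [hP w hw1 hwq, norm_nonneg (ev w h)]
    · push Not at hwq
      have : Real.exp (-(lam * (‖w - q‖ ^ 2 / 2))) ≤ Real.exp (-(2 * n)) := by
        apply Real.exp_le_exp.2
        have : 2 * n = lam * (c ^ 2 / 2) := by rw [hlam]; field_simp; ring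
        rw [this]
        gcongr
      have := mul_le_mul (norm_ev_le w h) this (by positivity) (norm_nonneg _)
      linarith
  have hz : (ρ : ℂ) * q ∈ closedBall (0 : ℂ) 1 := by
    simpa [hq, abs_of_nonneg hρ0] using hρ1
  have h2 := (norm_ev_le (ρ * q) (h * g)).trans h1
  rw [map_mul, norm_mul, hnorm _ hz, mul_left_comm, hqq, mul_one, ofReal_re] at h2
  have h3 : lam * (1 - ρ) ≤ min η 1 * n := by
    calc lam * (1 - ρ) ≤ lam * (min η 1 * c ^ 2 / 4) := by gcongr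
      _ = _ := by rw [hlam]; field_simp
  have h4 : ‖ev (ρ * q) h‖ ≤ Real.exp (lam * (1 - ρ)) * (P + ‖h‖ * Real.exp (-(2 * n))) := by
    rw [Real.exp_neg, ← div_eq_mul_inv, div_le_iff₀ (Real.exp_pos _)] at h2
    linarith
  have hn : (0 : ℝ) ≤ n := by positivity
  have h5 : Real.exp (lam * (1 - ρ)) ≤ Real.exp (η * n) :=
    Real.exp_le_exp.2 (h3.trans (by gcongr; exact min_le_left _ _))
  have h6 : Real.exp (lam * (1 - ρ)) * Real.exp (-(2 * n)) ≤ 1 / 2 ^ n := by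
    rw [← Real.exp_add, le_div_iff₀ (by positivity)]
    have : (2 : ℝ) ^ n ≤ Real.exp n := by
      rw [← mul_one (n : ℝ), Real.exp_nat_mul]
      gcongr
      linarith [Real.add_one_le_exp 1]
    calc _ ≤ Real.exp (lam * (1 - ρ) + -(2 * n)) * Real.exp n := by gcongr
      _ ≤ 1 := by
        rw [← Real.exp_add, Real.exp_le_one_iff]
        have : min η 1 * n ≤ 1 * n := by gcongr; exact min_le_right _ _
        linarith
  have h7 := mul_le_mul_of_nonneg_left h6 (norm_nonneg h)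
  have h8 := mul_le_mul_of_nonneg_right h5 hP0
  rw [mul_one_div] at h7
  nlinarith

/-- If `T` is not invertible but has a resolvent point in the disc, the iterates of the symbol
converge uniformly to a fixed point. -/
theorem exists_point (hT : ¬ IsUnit C.T) {R : DA →L[ℂ] DA} {ν : ℂ} (hν : ‖ν‖ < 1)
    (hTR : ∀ f, C.T (R f) - ν • R f = f) (hRT : ∀ f, R (C.T f - ν • f) = f) :
    ∃ b ∈ closedBall (0 : ℂ) 1, C.φ b = b ∧
      ∀ ε : ℝ, 0 < ε → ∃ j : ℕ, ∀ z ∈ closedBall (0 : ℂ) 1, ‖C.φ^[j] z - b‖ < ε := by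
  set D := C.hullData hν hTR hRT with hD
  have hDT : ∀ (j : ℕ) (h : DA), (D.T ^ j) h = (C.T ^ j) h := fun j h => by
    rw [← ContinuousLinearMap.coe_coe (C.T ^ j), ContinuousLinearMap.toLinearMap_pow]; rfl
  have hKp : ∀ w, (∀ j, w ∈ C.W j) → ∀ h, ‖ev w h‖ ≤ D.p h := by
    intro w hw h
    refine D.le_p fun j => ?_
    obtain ⟨z, hz, rfl⟩ := hw j
    rw [hDT, ← C.ev_pow j h hz]
    exact norm_ev_le _ _
  have hfin : ¬ ∀ w ∈ ball (0 : ℂ) 1, ∀ h, ‖ev w h‖ ≤ D.p h := by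
    intro hall
    apply hT
    have : ∀ h, ‖h‖ ≤ ‖C.T h‖ := fun h =>
      (norm_le_of_ball h fun w hw => hall w hw h).trans (by have := D.p_le h 1; rw [pow_one] at this; exact this)
    simpa using isUnit_of_isometry C.T this hν (isUnit_of_R hTR hRT) (c := 0) (by simp)
  obtain ⟨b, -, hb⟩ := C.exists_mem_K isClosed_univ fun j =>
    ⟨_, ⟨0, by simp, rfl⟩, mem_univ _⟩
  have huniq : ∀ p, (∀ j, p ∈ C.W j) → p = b := by
    intro p hp
    by_contra hne
    apply hfin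
    by_cases hK : ∀ w, (∀ j, w ∈ C.W j) → ‖w‖ = 1
    · obtain ⟨q, hq, c, hc, harc⟩ := C.arc_of_K hb hp hne hK
      obtain ⟨η, hη, hup⟩ := D.upgrade
      set m : ℝ := min (min η 1 * c ^ 2 / 4) (1 / 2) with hm
      have hm0 : 0 < m := lt_min (by have := lt_min hη one_pos; positivity) (by norm_num)
      have hm1 : m ≤ 1 / 2 := min_le_right _ _
      have hrad : ∀ ρ ∈ Icc (1 - m) (1 - m / 2), ∀ h, ‖ev ((ρ : ℝ) * q) h‖ ≤ D.p h := by
        intro ρ hρ
        refine hup _ 1 zero_le_one fun h n _ => ?_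
        exact radial_estimate hq hc h (fun w hw hwq => hKp w (harc w hw hwq) h) hη
          (by linarith [hρ.1]) (by linarith [hρ.2])
          (le_trans (by linarith [hρ.1]) (min_le_left _ (1 / 2))) n
      have hE : IsPreconnected ((fun ρ : ℝ => (ρ : ℂ) * q) '' Icc (1 - m) (1 - m / 2)) :=
        isPreconnected_Icc.image _ (by fun_prop)
      have hd : ‖((1 - m / 2 : ℝ) : ℂ) * q - ((1 - m : ℝ) : ℂ) * q‖ = m / 2 := by
        rw [← sub_mul, norm_mul, hq, mul_one, ← ofReal_sub, Complex.norm_real, Real.norm_eq_abs,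
          abs_of_pos (by linarith)]
        ring
      refine D.propagate ev ev_differentiableOn (fun w _ h => norm_ev_le w h)
        (w0 := ((1 - m : ℝ) : ℂ) * q) ?_ (δ := m / 4) (by positivity) fun z hz t ht ht' => ?_
      · rw [mem_ball_zero_iff, norm_mul, hq, mul_one, Complex.norm_real, Real.norm_eq_abs,
          abs_of_pos (by linarith)]
        linarith
      · obtain ⟨_, ⟨ρ, hρ, rfl⟩, hw⟩ := HullData.circles_of_preconnected hE
          ⟨1 - m, ⟨le_rfl, by linarith⟩, rfl⟩ ⟨1 - m / 2, ⟨by linarith, le_rfl⟩, rfl⟩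
          (z := z) (by rw [hd]; linarith) ht (by rw [hd]; linarith)
        exact ⟨_, hw, hrad ρ hρ⟩
    · push Not at hK
      obtain ⟨w0, hw0, hw0'⟩ := hK
      have hw0b : w0 ∈ ball (0 : ℂ) 1 := by
        have := C.W_sub 0 (hw0 0)
        rw [mem_ball_zero_iff]
        exact lt_of_le_of_ne (by simpa using this) hw0'
      obtain ⟨w1, hw1, hne1⟩ : ∃ w1, (∀ j, w1 ∈ C.W j) ∧ w1 ≠ w0 := by
        by_cases h : p = w0
        · exact ⟨b, hb, fun h' => hne (h.trans h'.symm)⟩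
        · exact ⟨p, hp, h⟩
      refine D.propagate ev ev_differentiableOn (fun w _ h => norm_ev_le w h) hw0b
        (δ := ‖w1 - w0‖ / 2) (half_pos (norm_pos_iff.2 (sub_ne_zero.2 hne1)))
        fun z hz t ht ht' => ?_
      obtain ⟨w, hw, hwK⟩ := C.K_ivt (f := fun w => ‖w - z‖) (by fun_prop) hw0 hw1 (c := t)
        (by rwa [norm_sub_rev]) (by
          have : ‖w1 - w0‖ ≤ ‖w1 - z‖ + ‖z - w0‖ := norm_sub_le_norm_sub_add_norm_sub _ _ _
          linarith)
      exact ⟨w, hw, hKp w hwK⟩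
  refine ⟨b, C.W_sub 0 (hb 0), huniq _ fun j => ?_, fun ε hε => ?_⟩
  · obtain ⟨z, hz, hzb⟩ := hb j
    exact C.W_succ j ⟨z, hz, by rw [Function.iterate_succ_apply', hzb]⟩
  · by_contra hcon
    push Not at hcon
    obtain ⟨w, hw, hwK⟩ := C.exists_mem_K (S := {w | ε ≤ ‖w - b‖})
      (isClosed_le continuous_const (by fun_prop)) fun j => by
        obtain ⟨z, hz, hz'⟩ := hcon j
        exact ⟨_, ⟨z, hz, rfl⟩, hz'⟩
    rw [huniq w hwK] at hw
    simp at hw
    linarith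

/-- Far iterates touch the circle only at the fixed point. -/
theorem exists_j0 {R : DA →L[ℂ] DA} {ν : ℂ} (hν : ‖ν‖ < 1)
    (hTR : ∀ f, C.T (R f) - ν • R f = f) (hRT : ∀ f, R (C.T f - ν • f) = f) {b : ℂ}
    (hconv : ∀ ε : ℝ, 0 < ε → ∃ j : ℕ, ∀ z ∈ closedBall (0 : ℂ) 1, ‖C.φ^[j] z - b‖ < ε) :
    ∃ j0 : ℕ, ∀ z ∈ closedBall (0 : ℂ) 1, ‖C.φ^[j0] z‖ = 1 → C.φ^[j0] z = b := by
  classical
  have ht : Tendsto (fun j : ℕ => ‖ν‖ ^ j * ‖R‖) atTop (𝓝 (0 * ‖R‖)) :=
    (tendsto_pow_atTop_nhds_zero_of_lt_one (norm_nonneg _) hν).mul_const _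
  obtain ⟨j0, hj0⟩ := eventually_atTop.1 (ht.eventually (gt_mem_nhds (by simp : 0 * ‖R‖ < 1)))
  refine ⟨j0, fun z hz hy1 => ?_⟩
  set y := C.φ^[j0] z with hy
  by_contra hne
  have hex : ∃ n, y ∉ C.W n := by
    obtain ⟨j, hj⟩ := hconv ‖y - b‖ (norm_pos_iff.2 (sub_ne_zero.2 hne))
    refine ⟨j, ?_⟩
    rintro ⟨x, hx, hxy⟩
    have := hj x hx
    rw [hxy] at this
    exact lt_irrefl _ this
  have hn : y ∉ C.W (Nat.find hex) := Nat.find_spec hex
  have hlt : j0 < Nat.find hex := by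
    by_contra h
    exact hn (C.W_anti (not_lt.1 h) ⟨z, hz, rfl⟩)
  obtain ⟨j, hj⟩ : ∃ j, Nat.find hex = j + 1 := ⟨Nat.find hex - 1, by omega⟩
  have hyj : y ∈ C.W j := by
    by_contra h
    have := Nat.find_min' hex h
    omega
  rw [hj] at hn hlt
  obtain ⟨x, hx, hxy⟩ := hyj
  obtain ⟨p, hp⟩ := exists_ev_eq (F := fun w => (1 + conj y * w) / 2) (by fun_prop) (by fun_prop)
  have hyy : conj y * y = 1 := by
    rw [mul_comm, Complex.mul_conj, Complex.normSq_eq_norm_sq, hy1]; simp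
  have hpy : ev y p = 1 := by rw [hp y (by simp [hy1]), hyy]; norm_num
  have hplt : ∀ w ∈ closedBall (0 : ℂ) 1, w ≠ y → ‖ev w p‖ < 1 := by
    intro w hw hwy
    have h1 : 0 < ‖w - y‖ ^ 2 := pow_pos (norm_pos_iff.2 (sub_ne_zero.2 hwy)) 2
    have h2 : ‖w‖ ^ 2 ≤ 1 := by
      have : ‖w‖ ≤ 1 := by simpa using hw
      nlinarith [norm_nonneg w]
    have h3 : ‖y‖ ^ 2 = 1 := by rw [hy1]; norm_num
    have h4 : ‖1 + conj y * w‖ ^ 2 < 2 ^ 2 := by
      simp only [Complex.sq_norm, Complex.normSq_apply, sub_re, sub_im, add_re, add_im, mul_re,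
        mul_im, conj_re, conj_im, one_re, one_im] at h1 h2 h3 ⊢
      have : (y.re * w.re - -y.im * w.im) * (y.re * w.re - -y.im * w.im) +
          (y.re * w.im + -y.im * w.re) * (y.re * w.im + -y.im * w.re) =
          (y.re * y.re + y.im * y.im) * (w.re * w.re + w.im * w.im) := by ring
      nlinarith
    have h5 := lt_of_pow_lt_pow_left₀ 2 (by norm_num) h4
    rw [hp w hw, norm_div]
    simp only [Complex.norm_ofNat]
    linarith
  have hp1 : ‖p‖ ≤ 1 := norm_le_of_closedBall p fun w hw => by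
    by_cases h : w = y
    · rw [h, hpy]; simp
    · exact (hplt w hw h).le
  have hTp : ‖(C.T ^ (j + 1)) p‖ < 1 := by
    obtain ⟨w, hw, hw'⟩ := exists_norm_eq ((C.T ^ (j + 1)) p)
    rw [← hw', C.ev_pow _ _ hw]
    exact hplt _ (C.maps_iter _ hw) fun h => hn ⟨w, hw, h⟩
  have hxl : ∀ l < j, C.φ^[l] x ≠ y := by
    intro l hl h
    apply hn
    refine ⟨C.φ^[j - l - 1] x, C.maps_iter _ hx, ?_⟩
    rw [← Function.iterate_add_apply, show j + 1 + (j - l - 1) = (j - l) + j by omega,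
      Function.iterate_add_apply, hxy]
    conv_lhs => rw [← h]
    rw [← Function.iterate_add_apply, show j - l + l = j by omega, hxy]
  have hineq : ∀ k : ℕ, ‖∑ l ∈ Finset.range j, ν ^ (j + 1 - 1 - l) * ev (C.φ^[l] x) p ^ (k + 1)
      + 1‖ ≤ ‖R‖ * ‖(C.T ^ (j + 1)) p‖ ^ (k + 1) + ‖ν‖ ^ (j + 1) * ‖R‖ := by
    intro k
    have h1 := congrArg (ev x) (resolvent_orbit hTR (j + 1) (p ^ (k + 1)))
    rw [R_comm hTR hRT, map_add, map_smul, map_sum, Finset.sum_range_succ] at h1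
    simp only [map_smul, C.ev_pow _ _ hx, smul_eq_mul, map_pow, hxy, hpy, one_pow, mul_one,
      add_tsub_cancel_right, tsub_self, pow_zero] at h1
    simp only [add_tsub_cancel_right]
    rw [← sub_eq_iff_eq_add'.2 h1]
    refine (norm_sub_le _ _).trans (add_le_add ?_ ?_)
    · refine (norm_ev_le _ _).trans ((R.le_opNorm _).trans ?_)
      rw [C.T_pow_pow]
      gcongr
      exact norm_pow_le _ _
    · rw [norm_mul, norm_pow]
      gcongr
      refine (norm_ev_le _ _).trans ((R.le_opNorm _).trans ?_)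
      have : ‖p ^ (k + 1)‖ ≤ 1 := (norm_pow_le _ _).trans (pow_le_one₀ (norm_nonneg _) hp1)
      nlinarith [norm_nonneg R]
  have t1 : Tendsto (fun k : ℕ => ‖∑ l ∈ Finset.range j,
      ν ^ (j + 1 - 1 - l) * ev (C.φ^[l] x) p ^ (k + 1) + 1‖) atTop
      (𝓝 ‖∑ l ∈ Finset.range j, ν ^ (j + 1 - 1 - l) * 0 + 1‖) := by
    refine Tendsto.norm (Tendsto.add_const _ (tendsto_finsetSum _ fun l hl => ?_))
    refine Tendsto.const_mul _ ?_
    exact (tendsto_pow_atTop_nhds_zero_of_norm_lt_one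
      (hplt _ (C.maps_iter l hx) (hxl l (Finset.mem_range.1 hl)))).comp (tendsto_add_atTop_nat 1)
  have t2 : Tendsto (fun k : ℕ => ‖R‖ * ‖(C.T ^ (j + 1)) p‖ ^ (k + 1) + ‖ν‖ ^ (j + 1) * ‖R‖)
      atTop (𝓝 (‖R‖ * 0 + ‖ν‖ ^ (j + 1) * ‖R‖)) :=
    (((tendsto_pow_atTop_nhds_zero_of_lt_one (norm_nonneg _) hTp).comp
      (tendsto_add_atTop_nat 1)).const_mul _).add_const _
  have := le_of_tendsto_of_tendsto' t1 t2 hineq
  have h2 := hj0 (j + 1) (by omega)
  simp at this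
  linarith

end Comp

end

end Pool.Agent.MP_ff3f8e_an.H65
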