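import Pool.Agent.MP_ff3f8e_an.H65.Iface

open Metric Set Filter Topology Complex ComplexConjugate

namespace Pool.Agent.MP_ff3f8e_an.H65

noncomputable section

lemma isOpen_H : IsOpen {ζ : ℂ | 0 < ζ.im} := isOpen_lt continuous_const continuous_im

lemma convex_H : Convex ℝ {ζ : ℂ | 0 < ζ.im} := convex_halfSpace_im_gt 0

lemma hh_nonneg {ζ ω : ℂ} (h : 0 < ζ.im) (h' : 0 < ω.im) : 0 ≤ hh ζ ω := by
  unfold hh; positivity

lemma hh_comm (ζ ω : ℂ) : hh ζ ω = hh ω ζ := by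
  unfold hh; rw [norm_sub_rev, mul_comm]

lemma hh_self (ζ : ℂ) : hh ζ ζ = 0 := by simp [hh]

lemma hh_mul {ζ ω : ℂ} (h : 0 < ζ.im) (h' : 0 < ω.im) :
    hh ζ ω * (ζ.im * ω.im) = ‖ζ - ω‖ ^ 2 := by
  unfold hh; field_simp

lemma hh_le_iff {ζ ω : ℂ} (h : 0 < ζ.im) (h' : 0 < ω.im) {c : ℝ} :
    hh ζ ω ≤ c ↔ ‖ζ - ω‖ ^ 2 ≤ c * (ζ.im * ω.im) := by
  unfold hh; rw [div_le_iff₀ (by positivity)]

lemma le_hh_iff {ζ ω : ℂ} (h : 0 < ζ.im) (h' : 0 < ω.im) {c : ℝ} :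
    c ≤ hh ζ ω ↔ c * (ζ.im * ω.im) ≤ ‖ζ - ω‖ ^ 2 := by
  unfold hh; rw [le_div_iff₀ (by positivity)]

lemma hh_affine (x t : ℝ) (ht : 0 < t) (ζ ω : ℂ) :
    hh (x + t * ζ) (x + t * ω) = hh ζ ω := by
  unfold hh
  have : (x : ℂ) + t * ζ - (x + t * ω) = t * (ζ - ω) := by ring
  rw [this, norm_mul, Complex.norm_real, Real.norm_eq_abs, abs_of_pos ht]
  simp only [add_im, ofReal_im, mul_im, ofReal_re, zero_mul, add_zero, zero_add]
  by_cases h : ζ.im * ω.im = 0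
  · have : t * ζ.im * (t * ω.im) = 0 := by
      calc t * ζ.im * (t * ω.im) = t * t * (ζ.im * ω.im) := by ring
        _ = 0 := by rw [h, mul_zero]
    rw [h, this]; simp
  · have h1 : ζ.im ≠ 0 := left_ne_zero_of_mul h
    have h2 : ω.im ≠ 0 := right_ne_zero_of_mul h
    field_simp

lemma continuousAt_hh {ζ ω : ℂ} (h : 0 < ζ.im) (h' : 0 < ω.im) :
    ContinuousAt (fun p : ℂ × ℂ => hh p.1 p.2) (ζ, ω) := by
  unfold hh
  refine ContinuousAt.div (by fun_prop) (by fun_prop) (by positivity)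

lemma normSq_eq (z : ℂ) : ‖z‖ ^ 2 = z.re ^ 2 + z.im ^ 2 := by
  rw [Complex.sq_norm, Complex.normSq_apply]; ring

lemma norm_sub_conj_sq (ζ y : ℂ) : ‖ζ - conj y‖ ^ 2 = ‖ζ - y‖ ^ 2 + 4 * (ζ.im * y.im) := by
  simp only [normSq_eq, sub_re, sub_im, conj_re, conj_im]; ring

lemma sub_conj_ne {ζ y : ℂ} (h : 0 < ζ.im) (hy : 0 < y.im) : ζ - conj y ≠ 0 := by
  intro h0
  have := congrArg im h0
  simp at this; linarith

/-- Blaschke factor of the half-plane with zero `y`. -/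
def bl (y ζ : ℂ) : ℂ := (ζ - y) / (ζ - conj y)

/-- Inverse of `bl y`: a map from the disc onto the half-plane sending `0` to `y`. -/
def am (y w : ℂ) : ℂ := (y - conj y * w) / (1 - w)

lemma bl_self (y : ℂ) : bl y y = 0 := by simp [bl]

lemma am_zero (y : ℂ) : am y 0 = y := by simp [am]

lemma norm_bl_sq {y ζ : ℂ} (hy : 0 < y.im) (h : 0 < ζ.im) :
    ‖bl y ζ‖ ^ 2 = hh ζ y / (hh ζ y + 4) := by
  have h1 := hh_mul h hy
  have h2 := hh_nonneg h hy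
  have h3 : 0 < ζ.im * y.im := by positivity
  rw [bl, norm_div, div_pow, norm_sub_conj_sq, ← h1, div_eq_div_iff (by positivity) (by positivity)]
  ring

lemma one_sub_norm_bl_sq {y ζ : ℂ} (hy : 0 < y.im) (h : 0 < ζ.im) :
    1 - ‖bl y ζ‖ ^ 2 = 4 / (hh ζ y + 4) := by
  have h2 := hh_nonneg h hy
  rw [norm_bl_sq hy h]; field_simp; ring

lemma norm_bl_lt {y ζ : ℂ} (hy : 0 < y.im) (h : 0 < ζ.im) : ‖bl y ζ‖ < 1 := by
  have h2 := hh_nonneg h hy
  have : ‖bl y ζ‖ ^ 2 < 1 := by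
    rw [norm_bl_sq hy h, div_lt_one (by positivity)]; linarith
  nlinarith [norm_nonneg (bl y ζ)]

lemma hh_le_of_norm_bl_le {y ζ y' ζ' : ℂ} (hy : 0 < y.im) (h : 0 < ζ.im) (hy' : 0 < y'.im)
    (h' : 0 < ζ'.im) (hle : ‖bl y ζ‖ ≤ ‖bl y' ζ'‖) : hh ζ y ≤ hh ζ' y' := by
  have h1 : ‖bl y ζ‖ ^ 2 ≤ ‖bl y' ζ'‖ ^ 2 := by gcongr
  have h2 := hh_nonneg h hy
  have h3 := hh_nonneg h' hy'
  rw [norm_bl_sq hy h, norm_bl_sq hy' h', div_le_div_iff₀ (by positivity) (by positivity)] at h1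
  nlinarith

lemma differentiableOn_bl {y : ℂ} (hy : 0 < y.im) :
    DifferentiableOn ℂ (bl y) {ζ | 0 < ζ.im} := by
  unfold bl
  exact DifferentiableOn.div (by fun_prop) (by fun_prop) fun ζ h => sub_conj_ne h hy

lemma one_sub_ne {w : ℂ} (hw : ‖w‖ < 1) : 1 - w ≠ 0 := by
  intro h
  have : w = 1 := by linear_combination -h
  simp [this] at hw

lemma differentiableOn_am (y : ℂ) : DifferentiableOn ℂ (am y) (ball 0 1) := by
  unfold am
  exact DifferentiableOn.div (by fun_prop) (by fun_prop) fun w h => one_sub_ne (by simpa using h)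

lemma am_im (y : ℂ) {w : ℂ} (hw : ‖w‖ < 1) :
    (am y w).im = y.im * (1 - ‖w‖ ^ 2) / ‖1 - w‖ ^ 2 := by
  have h0 := one_sub_ne hw
  have h1 : Complex.normSq (1 - w) ≠ 0 := by simpa using h0
  rw [am, Complex.div_im, Complex.sq_norm (1 - w), normSq_eq]
  simp only [sub_im, mul_im, conj_re, conj_im, sub_re, mul_re, one_re, one_im]
  field_simp
  ring

lemma am_im_pos {y : ℂ} (hy : 0 < y.im) {w : ℂ} (hw : ‖w‖ < 1) : 0 < (am y w).im := by
  rw [am_im y hw]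
  have h0 : 0 < ‖1 - w‖ := norm_pos_iff.2 (one_sub_ne hw)
  have : 0 < 1 - ‖w‖ ^ 2 := by nlinarith [norm_nonneg w]
  positivity

lemma sub_conj_self_ne {y : ℂ} (hy : 0 < y.im) : y - conj y ≠ 0 := sub_conj_ne hy hy

lemma bl_am {y : ℂ} (hy : 0 < y.im) {w : ℂ} (hw : ‖w‖ < 1) : bl y (am y w) = w := by
  have h0 := one_sub_ne hw
  have h1 := sub_conj_self_ne hy
  have e1 : am y w - y = w * (y - conj y) / (1 - w) := by unfold am; field_simp; ring
  have e2 : am y w - conj y = (y - conj y) / (1 - w) := by unfold am; field_simp; ring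
  rw [bl, e1, e2]; field_simp

lemma am_bl {y ζ : ℂ} (hy : 0 < y.im) (h : 0 < ζ.im) : am y (bl y ζ) = ζ := by
  have h0 := sub_conj_ne h hy
  have h1 := sub_conj_self_ne hy
  have e1 : 1 - bl y ζ = (y - conj y) / (ζ - conj y) := by unfold bl; field_simp; ring
  have e2 : y - conj y * bl y ζ = ζ * (y - conj y) / (ζ - conj y) := by unfold bl; field_simp; ring
  rw [am, e1, e2]; field_simp

/-- The quantity `hh` in the disc coordinate `bl y`. -/
lemma hh_eq_bl {y ζ ω : ℂ} (hy : 0 < y.im) (h : 0 < ζ.im) (h' : 0 < ω.im) :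
    hh ζ ω * ((1 - ‖bl y ζ‖ ^ 2) * (1 - ‖bl y ω‖ ^ 2)) = 4 * ‖bl y ζ - bl y ω‖ ^ 2 := by
  have h0 := sub_conj_ne h hy
  have h0' := sub_conj_ne h' hy
  have e : bl y ζ - bl y ω = (ζ - ω) * (y - conj y) / ((ζ - conj y) * (ω - conj y)) := by
    unfold bl; field_simp; ring
  have a1 : 0 < ‖ζ - conj y‖ := norm_pos_iff.2 h0
  have a2 : 0 < ‖ω - conj y‖ := norm_pos_iff.2 h0'
  have e1 : 1 - ‖bl y ζ‖ ^ 2 = 4 * (ζ.im * y.im) / ‖ζ - conj y‖ ^ 2 := by
    rw [bl, norm_div, div_pow, eq_div_iff (by positivity), sub_mul, div_mul_cancel₀ _ (by positivity),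
      norm_sub_conj_sq]; ring
  have e2 : 1 - ‖bl y ω‖ ^ 2 = 4 * (ω.im * y.im) / ‖ω - conj y‖ ^ 2 := by
    rw [bl, norm_div, div_pow, eq_div_iff (by positivity), sub_mul, div_mul_cancel₀ _ (by positivity),
      norm_sub_conj_sq]; ring
  have e3 : ‖y - conj y‖ ^ 2 = 4 * (y.im * y.im) := by rw [norm_sub_conj_sq]; simp
  rw [e1, e2, e, norm_div, norm_mul, norm_mul, div_pow, mul_pow, mul_pow, e3, ← hh_mul h h']
  field_simp

/-- Schwarz-Pick lemma in the half-plane. -/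
theorem schwarz_pick {f : ℂ → ℂ} (hd : DifferentiableOn ℂ f {ζ | 0 < ζ.im})
    (hm : ∀ ζ : ℂ, 0 < ζ.im → 0 < (f ζ).im) {ζ ω : ℂ} (h : 0 < ζ.im) (h' : 0 < ω.im) :
    hh (f ζ) (f ω) ≤ hh ζ ω := by
  have hfω := hm ω h'
  have hA : MapsTo (am ω) (ball 0 1) {ζ | 0 < ζ.im} := fun w hw => am_im_pos h' (by simpa using hw)
  have hg : DifferentiableOn ℂ (fun w => bl (f ω) (f (am ω w))) (ball 0 1) :=
    (differentiableOn_bl hfω).comp (hd.comp (differentiableOn_am ω) hA) fun w hw => hm _ (hA hw)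
  have hmaps : MapsTo (fun w => bl (f ω) (f (am ω w))) (ball 0 1) (closedBall 0 1) :=
    fun w hw => by simpa using (norm_bl_lt hfω (hm _ (hA hw))).le
  have := Complex.norm_le_norm_of_mapsTo_ball hg hmaps (by simp [am_zero, bl_self])
    (norm_bl_lt h' h)
  simp only [am_bl h' h] at this
  exact hh_le_of_norm_bl_le hfω (hm ζ h) h' h this

/-- Derivative bound for a map from a disc to the half-plane. -/
theorem norm_deriv_le_of_ball {Z : ℂ → ℂ} {w : ℂ} {d : ℝ} (hd0 : 0 < d)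
    (hd : DifferentiableOn ℂ Z (ball w d)) (hm : ∀ v ∈ ball w d, 0 < (Z v).im) :
    ‖deriv Z w‖ ≤ 2 * (Z w).im / d := by
  have hw : w ∈ ball w d := mem_ball_self hd0
  have hy := hm w hw
  have hg : DifferentiableOn ℂ (fun v => bl (Z w) (Z v)) (ball w d) :=
    (differentiableOn_bl hy).comp hd hm
  have hmaps : MapsTo (fun v => bl (Z w) (Z v)) (ball w d) (closedBall (bl (Z w) (Z w)) 1) :=
    fun v hv => by simpa [bl_self] using (norm_bl_lt hy (hm v hv)).le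
  have h1 := Complex.norm_deriv_le_div_of_mapsTo_ball hg hmaps hd0
  have hZ : HasDerivAt Z (deriv Z w) w := (hd.differentiableAt (ball_mem_nhds w hd0)).hasDerivAt
  have h0 := sub_conj_self_ne hy
  have h2 : HasDerivAt (fun v => bl (Z w) (Z v)) (deriv Z w / (Z w - conj (Z w))) w := by
    unfold bl
    have := (hZ.sub_const (Z w)).fun_div (hZ.sub_const (conj (Z w))) h0
    refine this.congr_deriv ?_
    simp only [sub_self, zero_mul, sub_zero]
    field_simp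
  rw [h2.deriv, norm_div] at h1
  have e3 : ‖Z w - conj (Z w)‖ = 2 * (Z w).im := by
    have : ‖Z w - conj (Z w)‖ ^ 2 = (2 * (Z w).im) ^ 2 := by rw [norm_sub_conj_sq]; simp; ring
    exact (pow_left_inj₀ (norm_nonneg _) (by positivity) two_ne_zero).1 this
  rw [e3, div_le_div_iff₀ (by positivity) hd0] at h1
  rw [le_div_iff₀ hd0]; linarith

/-- Infinitesimal Schwarz-Pick lemma in the half-plane. -/
theorem schwarz_pick_deriv {f : ℂ → ℂ} (hd : DifferentiableOn ℂ f {ζ | 0 < ζ.im})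
    (hm : ∀ ζ : ℂ, 0 < ζ.im → 0 < (f ζ).im) {ζ : ℂ} (h : 0 < ζ.im) :
    ‖deriv f ζ‖ ≤ (f ζ).im / ζ.im := by
  have hA : MapsTo (am ζ) (ball 0 1) {ζ | 0 < ζ.im} := fun w hw => am_im_pos h (by simpa using hw)
  have h1 := norm_deriv_le_of_ball one_pos (hd.comp (differentiableOn_am ζ) hA)
    fun v hv => hm _ (hA hv)
  have hf : HasDerivAt f (deriv f ζ) (am ζ 0) := by
    rw [am_zero]; exact (hd.differentiableAt (isOpen_H.mem_nhds h)).hasDerivAt
  have ha : HasDerivAt (am ζ) (ζ - conj ζ) 0 := by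
    unfold am
    have := (((hasDerivAt_id (0 : ℂ)).const_mul (conj ζ)).const_sub ζ).fun_div
      ((hasDerivAt_id (0 : ℂ)).const_sub 1) (by simp)
    refine this.congr_deriv ?_
    simp; ring
  rw [(hf.comp 0 ha).deriv, norm_mul] at h1
  have e3 : ‖ζ - conj ζ‖ = 2 * ζ.im := by
    have : ‖ζ - conj ζ‖ ^ 2 = (2 * ζ.im) ^ 2 := by rw [norm_sub_conj_sq]; simp; ring
    exact (pow_left_inj₀ (norm_nonneg _) (by positivity) two_ne_zero).1 this
  simp only [e3, Function.comp, am_zero, div_one] at h1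
  rw [le_div_iff₀ h]; linarith

lemma im_le_norm' (p : ℂ) : p.im ≤ ‖p‖ := (le_abs_self _).trans (abs_im_le_norm p)

lemma norm_sub_sq_le_hh {p q : ℂ} (hp : 0 < p.im) (hq : 0 < q.im) :
    ‖p - q‖ ^ 2 ≤ hh p q * (‖p‖ * ‖q‖) := by
  rw [← hh_mul hp hq]
  have := hh_nonneg hp hq
  gcongr
  · exact im_le_norm' p
  · exact im_le_norm' q

lemma norm_le_of_hh {p q : ℂ} (hp : 0 < p.im) (hq : 0 < q.im) :
    ‖p‖ ≤ (hh p q + 2) * ‖q‖ := by
  have h1 := norm_sub_sq_le_hh hp hq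
  have h2 := hh_nonneg hp hq
  have h3 : (‖p‖ - ‖q‖) ^ 2 ≤ ‖p - q‖ ^ 2 := by
    rw [sq_le_sq, abs_of_nonneg (norm_nonneg (p - q))]; exact abs_norm_sub_norm_le p q
  have hp' : 0 < ‖p‖ := hp.trans_le (im_le_norm' p)
  have h4 : ‖p‖ * ‖p‖ ≤ ‖p‖ * ((hh p q + 2) * ‖q‖) := by nlinarith [sq_nonneg ‖q‖]
  exact le_of_mul_le_mul_left h4 hp'

lemma im_le_of_hh {p q : ℂ} (hp : 0 < p.im) (hq : 0 < q.im) :
    p.im ≤ (hh p q + 2) * q.im := by
  have h1 := hh_mul hp hq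
  have h2 := hh_nonneg hp hq
  have h3 : (p.im - q.im) ^ 2 ≤ ‖p - q‖ ^ 2 := by
    rw [normSq_eq]; simp only [sub_im]; nlinarith [sq_nonneg (p - q).re]
  have h4 : p.im * p.im ≤ p.im * ((hh p q + 2) * q.im) := by nlinarith [sq_nonneg q.im]
  exact le_of_mul_le_mul_left h4 hp

lemma ratio_le_of_hh {p q : ℂ} (hp : 0 < p.im) (hq : 0 < q.im) {s : ℝ} (h0 : 0 ≤ s) (h1 : s ≤ 1)
    (h : hh p q ≤ s ^ 2) : ‖q / p - 1‖ ≤ 2 * s := by
  have hp' : 0 < ‖p‖ := hp.trans_le (im_le_norm' p)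
  have hp0 : p ≠ 0 := norm_pos_iff.1 hp'
  have e : q / p - 1 = (q - p) / p := by field_simp
  rw [e, norm_div, div_le_iff₀ hp', norm_sub_rev]
  have a1 := norm_sub_sq_le_hh hp hq
  have a2 : ‖q‖ ≤ ‖p‖ + ‖p - q‖ := by
    calc ‖q‖ = ‖p - (p - q)‖ := by congr 1; ring
      _ ≤ _ := norm_sub_le _ _
  have a3 : ‖p - q‖ ^ 2 ≤ s ^ 2 * (‖p‖ * (‖p‖ + ‖p - q‖)) :=
    a1.trans (by gcongr)
  by_contra hcon
  push Not at hcon
  set x := ‖p - q‖
  set a := ‖p‖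
  have b1 : s ^ 2 * (a * a) ≤ x ^ 2 / 4 := by nlinarith [mul_nonneg h0 hp'.le]
  have b2 : s ^ 2 * (a * x) ≤ x ^ 2 / 2 := by
    have : s * (s * a) ≤ x / 2 := by nlinarith [mul_nonneg h0 hp'.le]
    nlinarith [norm_nonneg (p - q)]
  have hx : 0 < x := lt_of_le_of_lt (by positivity) hcon
  nlinarith

/-- A set stable under adding a translated cone is squeezed between two Lipschitz graphs. -/
theorem exists_graph (P : Set ℂ) (hne : P.Nonempty) (hP : P ≠ univ) (L C : ℝ) (hL : 0 ≤ L)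
    (h : ∀ w ∈ P, ∀ v : ℂ, L * |v.im - w.im| + C ≤ v.re - w.re → v ∈ P) :
    ∃ γ : ℝ → ℝ, (∀ y y', |γ y - γ y'| ≤ L * |y - y'|) ∧ (∀ w ∈ P, γ w.im ≤ w.re) ∧
      ∀ v : ℂ, γ v.im + C < v.re → v ∈ P := by
  obtain ⟨v0, hv0⟩ := (ne_univ_iff_exists_notMem P).1 hP
  have := hne.to_subtype
  have hbdd : ∀ y : ℝ, BddBelow (range fun w : P => w.1.re + L * |y - w.1.im|) := by
    intro y
    refine ⟨v0.re - C - L * |v0.im - y|, ?_⟩
    rintro _ ⟨w, rfl⟩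
    by_contra hcon
    push Not at hcon
    refine hv0 (h w w.2 v0 ?_)
    have : |v0.im - w.1.im| ≤ |v0.im - y| + |y - w.1.im| := abs_sub_le _ _ _
    nlinarith
  have hlip : ∀ y y' : ℝ, (⨅ w : P, w.1.re + L * |y - w.1.im|) ≤
      (⨅ w : P, w.1.re + L * |y' - w.1.im|) + L * |y - y'| := by
    intro y y'
    rw [← sub_le_iff_le_add]
    refine le_ciInf fun w => ?_
    have h1 := ciInf_le (hbdd y) w
    have : |y - w.1.im| ≤ |y - y'| + |y' - w.1.im| := abs_sub_le _ _ _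
    nlinarith
  refine ⟨fun y => ⨅ w : P, w.1.re + L * |y - w.1.im|, fun y y' => ?_, fun w hw => ?_,
    fun v hv => ?_⟩
  · have h1 := hlip y y'
    have h2 := hlip y' y
    rw [abs_sub_comm y' y] at h2
    rw [abs_le]; constructor <;> linarith
  · simpa using ciInf_le (hbdd w.im) ⟨w, hw⟩
  · obtain ⟨w, hw⟩ := exists_lt_of_ciInf_lt (f := fun w : P => w.1.re + L * |v.im - w.1.im|)
      (a := v.re - C) (by linarith)
    exact h w w.2 v (by linarith)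

lemma lip_continuous {γ : ℝ → ℝ} {L : ℝ} (lip : ∀ y y', |γ y - γ y'| ≤ L * |y - y'|) :
    Continuous γ := by
  have hL : 0 ≤ L := by simpa using (abs_nonneg _).trans (lip 1 0)
  exact (LipschitzWith.of_dist_le_mul (K := ⟨L, hL⟩) fun y y' => by
    exact lip y y').continuous

lemma isOpen_graph {γ : ℝ → ℝ} {L : ℝ} (lip : ∀ y y', |γ y - γ y'| ≤ L * |y - y'|) (X : ℝ) :
    IsOpen {w : ℂ | γ w.im + X < w.re} :=
  isOpen_lt (((lip_continuous lip).comp continuous_im).add continuous_const) continuous_re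

lemma isOpen_graph' {γ : ℝ → ℝ} {L : ℝ} (lip : ∀ y y', |γ y - γ y'| ≤ L * |y - y'|) :
    IsOpen {w : ℂ | γ w.im < w.re} :=
  isOpen_lt ((lip_continuous lip).comp continuous_im) continuous_re

/-- The function `w.re - γ w.im` is Lipschitz. -/
lemma graph_lip {γ : ℝ → ℝ} {L : ℝ} (hL : 0 ≤ L) (lip : ∀ y y', |γ y - γ y'| ≤ L * |y - y'|)
    (w w' : ℂ) : (w.re - γ w.im) - (1 + L) * ‖w' - w‖ ≤ w'.re - γ w'.im := by
  have h1 := lip w'.im w.im
  have h2 : |w'.im - w.im| ≤ ‖w' - w‖ := by simpa using abs_im_le_norm (w' - w)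
  have h3 : |w'.re - w.re| ≤ ‖w' - w‖ := by simpa using abs_re_le_norm (w' - w)
  have h4 := abs_le.1 h3
  have h5 := (abs_le.1 h1).2
  nlinarith

end

end Pool.Agent.MP_ff3f8e_an.H65
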