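import Pool.Agent.MP_ff3f8e_an.H65.Iface
import Pool.Agent.MP_ff3f8e_an.H65.Tools

open Metric Set Filter Topology Complex MeasureTheory

namespace Pool.Agent.MP_ff3f8e_an.H65

noncomputable section

namespace S1

/-- Moving a ray by one: the difference of the two ray integrals is the base edge. -/
lemma ray_shift {H : ℂ → ℂ} {U : Set ℂ} (hU : IsOpen U) (hc : Convex ℝ U)
    (hH : DifferentiableOn ℂ H U) (d : ℂ)
    (hmem : ∀ x y : ℝ, |x| ≤ 1 / 2 → 0 ≤ y → (x : ℂ) + y * d ∈ U)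
    (hint : IntegrableOn
      (fun y : ℝ => (H (((1 / 2 : ℝ) : ℂ) + y * d) - H (((-1 / 2 : ℝ) : ℂ) + y * d)) * d) (Ioi 0))
    (b : ℝ → ℝ) (hb : Tendsto b atTop (𝓝 0))
    (hle : ∀ x y : ℝ, |x| ≤ 1 / 2 → 1 ≤ y → ‖H (x + y * d)‖ ≤ b y) :
    ∫ y in Ioi (0 : ℝ), (H (((1 / 2 : ℝ) : ℂ) + y * d) - H (((-1 / 2 : ℝ) : ℂ) + y * d)) * d =
      -∫ x in (-1 / 2 : ℝ)..(1 / 2 : ℝ), H x := by
  obtain ⟨Φ, hΦ⟩ := hc.exists_forall_hasDerivWithinAt hH
  have hΦ' : ∀ t ∈ U, HasDerivAt Φ (H t) t := fun t ht => (hΦ t ht).hasDerivAt (hU.mem_nhds ht)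
  have habs : ∀ x ∈ uIcc (-1 / 2 : ℝ) (1 / 2), |x| ≤ 1 / 2 := by
    intro x hx
    rw [uIcc_of_le (by norm_num)] at hx
    exact abs_le.2 ⟨by linarith [hx.1], hx.2⟩
  have hedge : ∀ y : ℝ, 0 ≤ y → ∫ x in (-1 / 2 : ℝ)..(1 / 2 : ℝ), H (x + y * d) =
      Φ (((1 / 2 : ℝ) : ℂ) + y * d) - Φ (((-1 / 2 : ℝ) : ℂ) + y * d) := by
    intro y hy
    refine intervalIntegral.integral_eq_sub_of_hasDerivAt
      (f := fun x : ℝ => Φ (x + y * d)) (fun x hx => ?_) ?_
    · have h1 : HasDerivAt (fun z : ℂ => Φ (z + y * d)) (H (x + y * d)) x := by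
        simpa using (hΦ' _ (hmem x y (habs x hx) hy)).comp_add_const (x : ℂ) (y * d)
      exact h1.comp_ofReal
    · refine ContinuousOn.intervalIntegrable ?_
      exact hH.continuousOn.comp (by fun_prop) fun x hx => hmem x y (habs x hx) hy
  have hder : ∀ (x : ℝ), |x| ≤ 1 / 2 → ∀ y ∈ Ici (0 : ℝ),
      HasDerivAt (fun y : ℝ => Φ (x + y * d)) (H (x + y * d) * d) y := by
    intro x hx y hy
    have h0 : HasDerivAt (fun z : ℂ => (x : ℂ) + z * d) d y := by
      simpa using ((hasDerivAt_id (y : ℂ)).mul_const d).const_add (x : ℂ)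
    exact ((hΦ' _ (hmem x y hx hy)).comp (y : ℂ) h0).comp_ofReal
  have hlim : Tendsto (fun y : ℝ => Φ (((1 / 2 : ℝ) : ℂ) + y * d) - Φ (((-1 / 2 : ℝ) : ℂ) + y * d))
      atTop (𝓝 0) := by
    refine squeeze_zero_norm' ?_ hb
    filter_upwards [eventually_ge_atTop (1 : ℝ)] with y hy
    rw [← hedge y (by linarith)]
    have := intervalIntegral.norm_integral_le_of_norm_le_const (a := (-1 / 2 : ℝ)) (b := 1 / 2)
      (f := fun x : ℝ => H (x + y * d)) (C := b y)
      fun x hx => hle x y (habs x (uIoc_subset_uIcc hx)) hy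
    norm_num at this ⊢
    exact this
  have key := integral_Ioi_of_hasDerivAt_of_tendsto' (a := 0)
    (f := fun y : ℝ => Φ (((1 / 2 : ℝ) : ℂ) + y * d) - Φ (((-1 / 2 : ℝ) : ℂ) + y * d))
    (f' := fun y : ℝ => (H (((1 / 2 : ℝ) : ℂ) + y * d) - H (((-1 / 2 : ℝ) : ℂ) + y * d)) * d)
    (fun y hy => by
      have h1 := hder (1 / 2) (by norm_num [abs_of_pos]) y hy
      have h2 := hder (-1 / 2) (by rw [abs_le]; constructor <;> norm_num) y hy
      rw [sub_mul]
      exact h1.sub h2) hint hlim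
  rw [key, ← hedge 0 le_rfl]
  simp

/-- A convex neighbourhood of the half-strip. -/
def U (σ a : ℝ) : Set ℂ := {t | -1 < σ * t.im ∧ |t.re - a * t.im| < 3 / 4}

/-- Direction of the ray. -/
def dir (σ a : ℝ) : ℂ := σ * (a + I)

/-- The periodic exponential. -/
def ex (σ : ℝ) (t : ℂ) : ℂ := exp (2 * Real.pi * I * σ * t)

/-- The ray. -/
def cv (σ a y : ℝ) : ℂ := ((-1 / 2 : ℝ) : ℂ) + y * dir σ a

/-- The kernel along the ray. -/
def ker (σ a : ℝ) (r : ℂ) (y : ℝ) : ℂ := exp (r * cv σ a y) / (1 - ex σ (cv σ a y)) * dir σ a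

lemma isOpen_U (σ a : ℝ) : IsOpen (U σ a) := by
  have h1 : IsOpen {t : ℂ | -1 < σ * t.im} := isOpen_lt continuous_const (by fun_prop)
  have h2 : IsOpen {t : ℂ | |t.re - a * t.im| < 3 / 4} := isOpen_lt (by fun_prop) continuous_const
  exact h1.inter h2

lemma convex_U (σ a : ℝ) : Convex ℝ (U σ a) := by
  intro p hp q hq u v hu hv huv
  obtain ⟨p1, p2⟩ := hp
  obtain ⟨q1, q2⟩ := hq
  rw [abs_lt] at p2 q2
  have hv' : v = 1 - u := by linarith
  subst hv'
  refine ⟨?_, abs_lt.2 ⟨?_, ?_⟩⟩ <;>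
    simp only [add_re, add_im, smul_re, smul_im, smul_eq_mul]
  · rcases hu.eq_or_lt with rfl | hu'
    · simpa using q1
    · nlinarith [mul_pos hu' (sub_pos.2 p1), mul_nonneg hv (sub_pos.2 q1).le]
  · rcases hu.eq_or_lt with rfl | hu'
    · simpa using q2.1
    · nlinarith [mul_pos hu' (sub_pos.2 p2.1), mul_nonneg hv (sub_pos.2 q2.1).le]
  · rcases hu.eq_or_lt with rfl | hu'
    · simpa using q2.2
    · nlinarith [mul_pos hu' (sub_pos.2 p2.2), mul_nonneg hv (sub_pos.2 q2.2).le]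

lemma re_pt (σ a x y : ℝ) : ((x : ℂ) + y * dir σ a).re = x + y * σ * a := by
  simp [dir]; ring

lemma im_pt (σ a x y : ℝ) : ((x : ℂ) + y * dir σ a).im = y * σ := by
  simp [dir]

lemma mem_U {σ : ℝ} (hσ : σ * σ = 1) (a : ℝ) {x y : ℝ} (hx : |x| ≤ 1 / 2) (hy : 0 ≤ y) :
    (x : ℂ) + y * dir σ a ∈ U σ a := by
  refine ⟨?_, ?_⟩
  · rw [im_pt]
    have : σ * (y * σ) = y := by linear_combination y * hσ
    linarith
  · rw [re_pt, im_pt]
    have : x + y * σ * a - a * (y * σ) = x := by ring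
    rw [this]; linarith

lemma zero_mem_U (σ a : ℝ) : (0 : ℂ) ∈ U σ a := by
  refine ⟨by simp, by simp⟩

lemma den_ne {σ : ℝ} (hσ : σ * σ = 1) {a : ℝ} {t : ℂ} (ht : t ∈ U σ a) (h0 : t ≠ 0) :
    1 - ex σ t ≠ 0 := by
  intro h
  have h1 : exp (2 * Real.pi * I * σ * t) = 1 := by
    have : ex σ t = 1 := by linear_combination -h
    exact this
  obtain ⟨n, hn⟩ := exp_eq_one_iff.1 h1
  have hσ' : (σ : ℂ) * σ = 1 := by exact_mod_cast hσ
  have h2 : (2 * Real.pi * I : ℂ) ≠ 0 := two_pi_I_ne_zero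
  have h3 : t = σ * n := by
    apply mul_left_cancel₀ h2
    linear_combination σ * hn - 2 * Real.pi * I * t * hσ'
  have h4 := ht.2
  rw [h3] at h4
  have h5 : |σ| = 1 := by
    have : |σ| * |σ| = 1 := by rw [← abs_mul, hσ, abs_one]
    nlinarith [abs_nonneg σ]
  simp [abs_mul, h5] at h4
  have h6 : |n| < 1 := by
    have : ((|n| : ℤ) : ℝ) < 1 := by push_cast; linarith
    exact_mod_cast this
  have h7 : n = 0 := Int.abs_lt_one_iff.1 h6
  exact h0 (by simp [h3, h7])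

lemma norm_ex {σ : ℝ} (hσ : σ * σ = 1) (a x y : ℝ) :
    ‖ex σ (x + y * dir σ a)‖ = Real.exp (-(2 * Real.pi) * y) := by
  rw [ex, norm_exp]
  congr 1
  have := im_pt σ a x y
  generalize ((x : ℂ) + y * dir σ a) = t at this
  simp [this]
  linear_combination 2 * Real.pi * y * hσ

lemma ex_add_one {σ : ℝ} (hσ : σ * σ = 1) (t : ℂ) : ex σ (t + 1) = ex σ t := by
  rw [ex, ex, mul_add, exp_add, mul_one]
  rcases mul_self_eq_one_iff.1 hσ with rfl | rfl
  · simp
  · simp [exp_neg]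

lemma den_ge {σ : ℝ} (hσ : σ * σ = 1) (a x : ℝ) {y : ℝ} (hy : 1 ≤ y) :
    1 / 2 ≤ ‖1 - ex σ (x + y * dir σ a)‖ := by
  have h1 := norm_sub_norm_le (1 : ℂ) (ex σ (x + y * dir σ a))
  rw [norm_ex hσ, norm_one] at h1
  have h2 : Real.exp (-(2 * Real.pi) * y) ≤ Real.exp (-1) := by
    rw [Real.exp_le_exp]; nlinarith [Real.pi_gt_three]
  have h3 : Real.exp (-1) ≤ 1 / 2 := by
    rw [Real.exp_neg, one_div]
    exact inv_anti₀ (by norm_num) (by linarith [Real.add_one_le_exp (1 : ℝ)])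
  linarith

lemma norm_exp_pt (r d : ℂ) {x : ℝ} (hx : |x| ≤ 1 / 2) (y : ℝ) :
    ‖exp (r * (x + y * d))‖ ≤ Real.exp ‖r‖ * Real.exp ((r * d).re * y) := by
  rw [norm_exp, ← Real.exp_add, Real.exp_le_exp]
  have h1 : (r * (x + y * d)).re = r.re * x + (r * d).re * y := by simp; ring
  have h2 : r.re * x ≤ ‖r‖ := by
    have := abs_re_le_norm r
    calc r.re * x ≤ |r.re * x| := le_abs_self _
      _ = |r.re| * |x| := abs_mul _ _
      _ ≤ ‖r‖ * 1 := by gcongr; linarith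
      _ = ‖r‖ := mul_one _
  linarith

lemma cv_mem {σ : ℝ} (hσ : σ * σ = 1) (a : ℝ) {y : ℝ} (hy : 0 ≤ y) : cv σ a y ∈ U σ a :=
  mem_U hσ a (by rw [abs_le]; constructor <;> norm_num) hy

lemma cv_add_one (σ a y : ℝ) : cv σ a y + 1 = ((1 / 2 : ℝ) : ℂ) + y * dir σ a := by
  simp only [cv]; push_cast; ring

lemma cv_add_one_mem {σ : ℝ} (hσ : σ * σ = 1) (a : ℝ) {y : ℝ} (hy : 0 ≤ y) :
    cv σ a y + 1 ∈ U σ a := by
  rw [cv_add_one]
  exact mem_U hσ a (by rw [abs_le]; constructor <;> norm_num) hy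

lemma pt_ne (σ a : ℝ) {x : ℝ} (hx : x ≠ 0) (y : ℝ) : (x : ℂ) + y * dir σ a ≠ 0 := by
  intro h
  have h1 := re_pt σ a x y
  have h2 := im_pt σ a x y
  rw [h] at h1 h2
  simp only [zero_re, zero_im] at h1 h2
  rw [← h2] at h1
  exact hx (by linarith)

lemma continuous_cv (σ a : ℝ) : Continuous (cv σ a) := by unfold cv; fun_prop

lemma continuousOn_ker {σ : ℝ} (hσ : σ * σ = 1) (a : ℝ) (r : ℂ) :
    ContinuousOn (ker σ a r) (Ici 0) := by
  have := continuous_cv σ a
  unfold ker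
  refine ContinuousOn.mul (ContinuousOn.div (by fun_prop) (by unfold ex; fun_prop) ?_)
    continuousOn_const
  intro y hy
  exact den_ne hσ (cv_mem hσ a hy) (pt_ne σ a (by norm_num) y)

lemma ker_int {σ : ℝ} (hσ : σ * σ = 1) (a : ℝ) {r : ℂ} (hr : (r * dir σ a).re < 0) :
    IntegrableOn (fun y => ‖ker σ a r y‖) (Ioi 0) := by
  refine integrable_of_isBigO_exp_neg (b := -(r * dir σ a).re) (by linarith)
    (continuousOn_ker hσ a r).norm ?_
  refine Asymptotics.IsBigO.of_bound (2 * Real.exp ‖r‖ * ‖dir σ a‖) ?_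
  filter_upwards [eventually_ge_atTop (1 : ℝ)] with y hy
  have h1 := den_ge hσ a (-1 / 2) hy
  have h2 := norm_exp_pt r (dir σ a) (x := -1 / 2) (by rw [abs_le]; constructor <;> norm_num) y
  rw [norm_norm, neg_neg, Real.norm_eq_abs, abs_of_pos (Real.exp_pos _), ker, norm_mul, norm_div]
  calc ‖exp (r * cv σ a y)‖ / ‖1 - ex σ (cv σ a y)‖ * ‖dir σ a‖
      ≤ Real.exp ‖r‖ * Real.exp ((r * dir σ a).re * y) / (1 / 2) * ‖dir σ a‖ := by
        gcongr
        · exact h2
        · exact h1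
    _ = _ := by ring

lemma ker_mul_int {σ : ℝ} (hσ : σ * σ = 1) (a : ℝ) {r : ℂ} (hr : (r * dir σ a).re < 0)
    {g : ℝ → ℂ} (hg : ContinuousOn g (Ioi 0)) {M : ℝ} (hM : ∀ y, 0 < y → ‖g y‖ ≤ M) :
    IntegrableOn (fun y => ker σ a r y * g y) (Ioi 0) := by
  refine Integrable.mono' ((ker_int hσ a hr).mul_const M)
    ((((continuousOn_ker hσ a r).mono Ioi_subset_Ici_self).mul hg).aestronglyMeasurable
      measurableSet_Ioi) ?_
  filter_upwards [ae_restrict_mem measurableSet_Ioi] with y hy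
  rw [norm_mul]
  gcongr
  exact hM y hy

/-- The contribution of one ray. -/
lemma half {σ : ℝ} (hσ : σ * σ = 1) (a : ℝ) {r : ℂ} (hr : (r * dir σ a).re < 0) {g : ℂ → ℂ}
    (hg : DifferentiableOn ℂ g (U σ a)) {M : ℝ} (hM : ∀ t ∈ U σ a, ‖g t‖ ≤ M) :
    IntervalIntegrable (fun x : ℝ => (exp (r * x) * g x - g 0 * ex σ x) / (1 - ex σ x))
        volume (-1 / 2) (1 / 2) ∧
      (∫ y in Ioi (0 : ℝ), ker σ a r y * g (cv σ a y + 1)) -
        exp (-r) * ∫ y in Ioi (0 : ℝ), ker σ a r y * g (cv σ a y) =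
      -exp (-r) * ∫ x in (-1 / 2 : ℝ)..(1 / 2 : ℝ),
        (exp (r * x) * g x - g 0 * ex σ x) / (1 - ex σ x) := by
  have hn : U σ a ∈ 𝓝 (0 : ℂ) := (isOpen_U σ a).mem_nhds (zero_mem_U σ a)
  set E : ℂ → ℂ := fun t => exp (r * t) * g t - g 0 * ex σ t with hE
  set D : ℂ → ℂ := fun t => 1 - ex σ t with hD
  have hEd : DifferentiableOn ℂ E (U σ a) :=
    (DifferentiableOn.mul (by fun_prop) hg).sub (by unfold ex; fun_prop)
  have hDd : DifferentiableOn ℂ D (U σ a) := by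
    simp only [hD]; unfold ex; fun_prop
  have hE0 : E 0 = 0 := by simp [hE, ex]
  have hD0 : D 0 = 0 := by simp [hD, ex]
  have hσ0 : (σ : ℂ) ≠ 0 := by
    intro h
    have : σ = 0 := by exact_mod_cast h
    simp [this] at hσ
  have hDne : ∀ t ∈ U σ a, dslope D 0 t ≠ 0 := by
    intro t ht
    by_cases h0 : t = 0
    · subst h0
      have h1 : HasDerivAt D (-(2 * Real.pi * I * σ)) 0 := by
        have h2 : HasDerivAt (fun t : ℂ => 2 * Real.pi * I * σ * t) (2 * Real.pi * I * σ) 0 := by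
          simpa using (hasDerivAt_id (0 : ℂ)).const_mul (2 * Real.pi * I * σ)
        simpa [hD, ex] using h2.cexp.const_sub 1
      rw [dslope_same, h1.deriv]
      exact neg_ne_zero.2 (mul_ne_zero two_pi_I_ne_zero hσ0)
    · rw [dslope_of_ne _ h0, slope_def_field, hD0]
      exact div_ne_zero (by simpa using den_ne hσ ht h0) (by simpa using h0)
  set H : ℂ → ℂ := fun t => dslope E 0 t / dslope D 0 t with hH
  have hHd : DifferentiableOn ℂ H (U σ a) :=
    ((differentiableOn_dslope hn).2 hEd).div ((differentiableOn_dslope hn).2 hDd) hDne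
  have hHe : ∀ t : ℂ, t ≠ 0 → H t = E t / D t := by
    intro t h0
    simp only [hH]
    rw [dslope_of_ne _ h0, dslope_of_ne _ h0, slope_def_field, slope_def_field, hE0, hD0]
    simp only [sub_zero]
    exact div_div_div_cancel_right₀ h0 _ _
  have hae : ∀ᵐ x : ℝ, H x = E x / D x := by
    filter_upwards [compl_mem_ae_iff.2 (measure_singleton (0 : ℝ))] with x hx
    exact hHe x (by simpa using hx)
  have habs : ∀ x ∈ uIcc (-1 / 2 : ℝ) (1 / 2), |x| ≤ 1 / 2 := by
    intro x hx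
    rw [uIcc_of_le (by norm_num)] at hx
    exact abs_le.2 ⟨by linarith [hx.1], hx.2⟩
  have hHi : IntervalIntegrable (fun x : ℝ => H x) volume (-1 / 2) (1 / 2) := by
    refine ContinuousOn.intervalIntegrable ?_
    exact hHd.continuousOn.comp (by fun_prop) fun x hx => by
      simpa using mem_U hσ a (habs x hx) le_rfl
  have hi1 : IntegrableOn (fun y => ker σ a r y * g (cv σ a y + 1)) (Ioi 0) :=
    ker_mul_int hσ a hr (hg.continuousOn.comp ((continuous_cv σ a).add_const 1).continuousOn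
      fun y hy => cv_add_one_mem hσ a (le_of_lt hy))
      fun y hy => hM _ (cv_add_one_mem hσ a hy.le)
  have hi0 : IntegrableOn (fun y => ker σ a r y * g (cv σ a y)) (Ioi 0) :=
    ker_mul_int hσ a hr (hg.continuousOn.comp (continuous_cv σ a).continuousOn
      fun y hy => cv_mem hσ a (le_of_lt hy))
      fun y hy => hM _ (cv_mem hσ a hy.le)
  have hpt : ∀ y : ℝ, (H (((1 / 2 : ℝ) : ℂ) + y * dir σ a) -
      H (((-1 / 2 : ℝ) : ℂ) + y * dir σ a)) * dir σ a =
      exp r * (ker σ a r y * g (cv σ a y + 1)) - ker σ a r y * g (cv σ a y) := by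
    intro y
    rw [hHe _ (pt_ne σ a (by norm_num) y), hHe _ (pt_ne σ a (by norm_num) y), ← cv_add_one]
    change (E (cv σ a y + 1) / D (cv σ a y + 1) - E (cv σ a y) / D (cv σ a y)) * dir σ a = _
    simp only [hE, hD, ker, ex_add_one hσ, mul_add, mul_one, exp_add]
    ring
  have hM0 : 0 ≤ M := (norm_nonneg _).trans (hM 0 (zero_mem_U σ a))
  have key := ray_shift (isOpen_U σ a) (convex_U σ a) hHd (dir σ a)
    (fun x y hx hy => mem_U hσ a hx hy)
    (by simp only [hpt]; exact (hi1.const_mul _).sub hi0)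
    (fun y => 2 * (Real.exp ‖r‖ * Real.exp ((r * dir σ a).re * y) * M +
      M * Real.exp (-(2 * Real.pi) * y))) ?_ ?_
  · refine ⟨hHi.congr_ae (ae_restrict_of_ae hae), ?_⟩
    simp only [hpt] at key
    rw [integral_sub (hi1.const_mul _) hi0, integral_const_mul,
      intervalIntegral.integral_congr_ae (g := fun x : ℝ => E x / D x)
        (hae.mono fun x hx _ => hx)] at key
    have h1 : exp (-r) * exp r = 1 := by rw [← exp_add]; simp
    simp only [hE, hD] at key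
    linear_combination exp (-r) * key -
      (∫ y in Ioi (0 : ℝ), ker σ a r y * g (cv σ a y + 1)) * h1
  · have t1 : Tendsto (fun y : ℝ => Real.exp ((r * dir σ a).re * y)) atTop (𝓝 0) :=
      Real.tendsto_exp_atBot.comp (tendsto_id.const_mul_atTop_of_neg hr)
    have t2 : Tendsto (fun y : ℝ => Real.exp (-(2 * Real.pi) * y)) atTop (𝓝 0) :=
      Real.tendsto_exp_atBot.comp (tendsto_id.const_mul_atTop_of_neg
        (by linarith [Real.pi_pos]))
    simpa using (((t1.const_mul (Real.exp ‖r‖)).mul_const M).add (t2.const_mul M)).const_mul 2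
  · intro x y hx hy
    have hne : (x : ℂ) + y * dir σ a ≠ 0 := by
      intro h
      have h2 := im_pt σ a x y
      rw [h, zero_im] at h2
      have : y * σ * σ = y := by linear_combination y * hσ
      rw [← h2] at this
      linarith
    have hmem := mem_U hσ a hx (by linarith : (0 : ℝ) ≤ y)
    rw [hHe _ hne, norm_div]
    have h1 := den_ge hσ a x hy
    have h2 := norm_exp_pt r (dir σ a) hx y
    have h3 : ‖E (x + y * dir σ a)‖ ≤ Real.exp ‖r‖ * Real.exp ((r * dir σ a).re * y) * M +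
        M * Real.exp (-(2 * Real.pi) * y) := by
      refine (norm_sub_le _ _).trans ?_
      rw [norm_mul, norm_mul, norm_ex hσ]
      gcongr
      · exact hM _ hmem
      · exact hM _ (zero_mem_U σ a)
    calc ‖E (x + y * dir σ a)‖ / ‖D (x + y * dir σ a)‖ ≤
        (Real.exp ‖r‖ * Real.exp ((r * dir σ a).re * y) * M +
          M * Real.exp (-(2 * Real.pi) * y)) / (1 / 2) := by gcongr
      _ = _ := by ring

/-- The ray integral as a function of the base point. -/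
def ray (σ a : ℝ) (r : ℂ) (G : ℂ → ℂ) (w : ℂ) : ℂ :=
  ∫ y in Ioi (0 : ℝ), ker σ a r y * G (w + cv σ a y)

section Graph

variable {γ : ℝ → ℝ} {L : ℝ}

lemma ray_int {σ : ℝ} (hσ : σ * σ = 1) (a : ℝ) {r : ℂ} (hr : (r * dir σ a).re < 0) {G : ℂ → ℂ}
    {W : Set ℂ} (hG : DifferentiableOn ℂ G W) {M : ℝ} (hM : ∀ v ∈ W, ‖G v‖ ≤ M) {w : ℂ}
    (hw : ∀ t ∈ U σ a, w + t ∈ W) :
    IntegrableOn (fun y => ker σ a r y * G (w + cv σ a y)) (Ioi 0) :=
  ker_mul_int hσ a hr (hG.continuousOn.comp ((continuous_cv σ a).const_add w).continuousOn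
    fun _ hy => hw _ (cv_mem hσ a (le_of_lt hy))) fun _ hy => hM _ (hw _ (cv_mem hσ a hy.le))

lemma ray_diff {σ : ℝ} (hσ : σ * σ = 1) (a : ℝ) {r : ℂ} (hr : (r * dir σ a).re < 0) {G : ℂ → ℂ}
    {V W : Set ℂ} (hV : IsOpen V) (hW : IsOpen W) (hG : DifferentiableOn ℂ G W) {M : ℝ}
    (hM : ∀ v ∈ W, ‖G v‖ ≤ M) {ρ : ℝ} (hρ : 0 < ρ)
    (hw : ∀ w ∈ V, ∀ t ∈ U σ a, closedBall (w + t) ρ ⊆ W) :
    DifferentiableOn ℂ (ray σ a r G) V := by
  intro w hwV
  have hw' : ∀ w ∈ V, ∀ t ∈ U σ a, w + t ∈ W := fun w h t ht =>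
    hw w h t ht (mem_closedBall_self hρ.le)
  have hn : V ∈ 𝓝 w := hV.mem_nhds hwV
  have key := hasDerivAt_integral_of_dominated_loc_of_deriv_le (μ := volume.restrict (Ioi 0))
    (F := fun w y => ker σ a r y * G (w + cv σ a y))
    (F' := fun w y => ker σ a r y * deriv G (w + cv σ a y))
    (bound := fun y => ‖ker σ a r y‖ * (M / ρ)) hn
    (by filter_upwards [hn] with v hv using (ray_int hσ a hr hG hM (hw' v hv)).aestronglyMeasurable)
    (ray_int hσ a hr hG hM (hw' w hwV))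
    ((((continuousOn_ker hσ a r).mono Ioi_subset_Ici_self).aestronglyMeasurable
      measurableSet_Ioi).mul
      ((measurable_deriv G).comp ((continuous_cv σ a).const_add w).measurable).aestronglyMeasurable)
    ?_ ((ker_int hσ a hr).mul_const _) ?_
  · exact key.2.differentiableAt.differentiableWithinAt
  · filter_upwards [ae_restrict_mem measurableSet_Ioi] with y hy v hv
    have hb := hw v hv _ (cv_mem hσ a (le_of_lt hy))
    rw [norm_mul]
    gcongr
    refine norm_deriv_le_of_forall_mem_sphere_norm_le hρ ?_ fun z hz =>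
      hM z (hb (sphere_subset_closedBall hz))
    exact DifferentiableOn.diffContOnCl (hG.mono (closure_ball_subset_closedBall.trans hb))
  · filter_upwards [ae_restrict_mem measurableSet_Ioi] with y hy v hv
    have hm := hw' v hv _ (cv_mem hσ a (le_of_lt hy))
    exact ((hG.differentiableAt (hW.mem_nhds hm)).hasDerivAt.comp_add_const v _).const_mul _

lemma ray_lim {σ : ℝ} (hσ : σ * σ = 1) (a : ℝ) {r : ℂ} (hr : (r * dir σ a).re < 0) {G : ℂ → ℂ}
    {V W : Set ℂ} (hG : DifferentiableOn ℂ G W) {M : ℝ}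
    (hM : ∀ v ∈ W, ‖G v‖ ≤ M) (hw : ∀ w ∈ V, ∀ t ∈ U σ a, w + t ∈ W)
    (h0 : ∀ ε : ℝ, 0 < ε → ∃ ρ : ℝ, ∀ v ∈ W, ρ ≤ ‖v‖ → ‖G v‖ ≤ ε) (ε : ℝ) (hε : 0 < ε) :
    ∃ ρ : ℝ, ∀ w ∈ V, ρ ≤ ‖w‖ → ‖ray σ a r G w‖ ≤ ε := by
  have hP : ∀ᶠ w in comap norm atTop ⊓ 𝓟 V, w ∈ V := mem_inf_of_right (mem_principal_self V)
  have key := tendsto_integral_filter_of_dominated_convergence (μ := volume.restrict (Ioi 0))
    (l := comap norm atTop ⊓ 𝓟 V) (F := fun w y => ker σ a r y * G (w + cv σ a y))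
    (f := fun _ => 0) (fun y => ‖ker σ a r y‖ * M)
    (by filter_upwards [hP] with v hv using (ray_int hσ a hr hG hM (hw v hv)).aestronglyMeasurable)
    ?_ ((ker_int hσ a hr).mul_const _) ?_
  · rw [integral_zero] at key
    have h1 := (Metric.tendsto_nhds.1 key) ε hε
    rw [eventually_inf_principal, eventually_comap, eventually_atTop] at h1
    obtain ⟨ρ, hρ⟩ := h1
    refine ⟨ρ, fun w hwV hw => ?_⟩
    have := hρ _ hw w rfl hwV
    rw [dist_zero_right] at this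
    exact this.le
  · filter_upwards [hP] with v hv
    filter_upwards [ae_restrict_mem measurableSet_Ioi] with y hy
    rw [norm_mul]
    gcongr
    exact hM _ (hw v hv _ (cv_mem hσ a (le_of_lt hy)))
  · filter_upwards [ae_restrict_mem measurableSet_Ioi] with y hy
    have : Tendsto (fun w => G (w + cv σ a y)) (comap norm atTop ⊓ 𝓟 V) (𝓝 0) := by
      rw [Metric.tendsto_nhds]
      intro δ hδ
      obtain ⟨ρ, hρ⟩ := h0 (δ / 2) (by positivity)
      have h2 : ∀ᶠ w : ℂ in comap norm atTop ⊓ 𝓟 V, ρ + ‖cv σ a y‖ ≤ ‖w‖ :=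
        mem_inf_of_left (preimage_mem_comap (Ici_mem_atTop _))
      filter_upwards [hP, h2] with w hwV h2
      have h3 : ‖w‖ ≤ ‖w + cv σ a y‖ + ‖cv σ a y‖ := by
        simpa using norm_sub_le (w + cv σ a y) (cv σ a y)
      have := hρ _ (hw w hwV _ (cv_mem hσ a (le_of_lt hy))) (by linarith)
      rw [dist_zero_right]
      linarith
    simpa using this.const_mul (ker σ a r y)

lemma shift_up (hL : 0 ≤ L) (lip : ∀ y y', |γ y - γ y'| ≤ L * |y - y'|) {a : ℝ} (ha : a ∈ Up γ) :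
    ∃ c : ℝ, ∀ (w : ℂ), ∀ t ∈ U 1 a, w.re - γ w.im - c ≤ (w + t).re - γ (w + t).im := by
  obtain ⟨C, hC⟩ := ha
  refine ⟨1 + |C| + L + |a|, fun w t ht => ?_⟩
  obtain ⟨h1, h2⟩ := ht
  rw [abs_lt] at h2
  simp only [add_re, add_im]
  rcases le_total 0 t.im with h | h
  · have := hC w.im (w.im + t.im) (by linarith)
    have h3 := le_abs_self C
    have h4 := abs_nonneg a
    have h5 : a * (w.im + t.im - w.im) = a * t.im := by ring
    linarith
  · have h3 := (abs_le.1 (lip (w.im + t.im) w.im)).2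
    have h4 : |w.im + t.im - w.im| ≤ 1 := by rw [abs_le]; constructor <;> linarith
    have h5 : L * |w.im + t.im - w.im| ≤ L := by nlinarith
    have h6 : -|a| ≤ a * t.im := by
      have := neg_abs_le (a * t.im)
      have h7 : |t.im| ≤ 1 := by rw [abs_le]; constructor <;> linarith
      rw [abs_mul] at this
      nlinarith [abs_nonneg a]
    have := abs_nonneg C
    linarith

lemma shift_low (hL : 0 ≤ L) (lip : ∀ y y', |γ y - γ y'| ≤ L * |y - y'|) {a : ℝ}
    (ha : a ∈ Low γ) :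
    ∃ c : ℝ, ∀ (w : ℂ), ∀ t ∈ U (-1) a, w.re - γ w.im - c ≤ (w + t).re - γ (w + t).im := by
  obtain ⟨C, hC⟩ := ha
  refine ⟨1 + |C| + L + |a|, fun w t ht => ?_⟩
  obtain ⟨h1, h2⟩ := ht
  rw [abs_lt] at h2
  simp only [add_re, add_im]
  rcases le_total t.im 0 with h | h
  · have := hC (w.im + t.im) w.im (by linarith)
    have h3 := le_abs_self C
    have h4 := abs_nonneg a
    have h5 : a * (w.im - (w.im + t.im)) = -(a * t.im) := by ring
    linarith
  · have h3 := (abs_le.1 (lip (w.im + t.im) w.im)).2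
    have h4 : |w.im + t.im - w.im| ≤ 1 := by rw [abs_le]; constructor <;> linarith
    have h5 : L * |w.im + t.im - w.im| ≤ L := by nlinarith
    have h6 : -|a| ≤ a * t.im := by
      have := neg_abs_le (a * t.im)
      have h7 : |t.im| ≤ 1 := by rw [abs_le]; constructor <;> linarith
      rw [abs_mul] at this
      nlinarith [abs_nonneg a]
    have := abs_nonneg C
    linarith

/-- One ray: the four properties of the ray integral of a translate. -/
lemma ray_props (hL : 0 ≤ L) (lip : ∀ y y', |γ y - γ y'| ≤ L * |y - y'|) {σ : ℝ}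
    (hσ : σ * σ = 1) (a : ℝ) {r : ℂ} (hr : (r * dir σ a).re < 0) {c : ℝ}
    (hc : ∀ (w : ℂ), ∀ t ∈ U σ a, w.re - γ w.im - c ≤ (w + t).re - γ (w + t).im) {n : ℕ}
    (hn : c + 1 ≤ n) {G : ℂ → ℂ} (hG : DifferentiableOn ℂ G {w | γ w.im < w.re}) {M : ℝ}
    (hM : ∀ v : ℂ, γ v.im < v.re → ‖G v‖ ≤ M) :
    DifferentiableOn ℂ (fun w => ray σ a r G (w + n)) {w | γ w.im < w.re} ∧
    ((∀ ε : ℝ, 0 < ε → ∃ ρ : ℝ, ∀ v : ℂ, γ v.im < v.re → ρ ≤ ‖v‖ → ‖G v‖ ≤ ε) →
      ∀ ε : ℝ, 0 < ε → ∃ ρ : ℝ, ∀ w : ℂ, γ w.im < w.re → ρ ≤ ‖w‖ → ‖ray σ a r G (w + n)‖ ≤ ε) ∧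
    (∀ l : ℂ, (∀ v : ℂ, γ v.im < v.re → G (v + 1) = l * G v) →
      ∀ w : ℂ, γ w.im < w.re → ray σ a r G (w + 1 + n) = l * ray σ a r G (w + n)) ∧
    ∀ w : ℂ, γ w.im < w.re →
      IntervalIntegrable (fun x : ℝ => (exp (r * x) * G (w + n + x) - G (w + n) * ex σ x) /
        (1 - ex σ x)) volume (-1 / 2) (1 / 2) ∧
      ray σ a r G (w + 1 + n) - exp (-r) * ray σ a r G (w + n) =
        -exp (-r) * ∫ x in (-1 / 2 : ℝ)..(1 / 2 : ℝ),
          (exp (r * x) * G (w + n + x) - G (w + n) * ex σ x) / (1 - ex σ x) := by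
  have hV : ∀ w : ℂ, γ w.im < w.re → γ (w + n).im + n < (w + n).re := by
    intro w hw; simpa using hw
  have hball : ∀ w ∈ {w : ℂ | γ w.im + n < w.re}, ∀ t ∈ U σ a,
      closedBall (w + t) (1 / (1 + L)) ⊆ {w | γ w.im < w.re} := by
    intro w hw t ht v hv
    have h1 := graph_lip hL lip (w + t) v
    have h2 := hc w t ht
    have h3 : (1 + L) * ‖v - (w + t)‖ ≤ 1 := by
      rw [mem_closedBall, dist_eq_norm, le_div_iff₀ (by positivity)] at hv
      linarith
    have h4 : γ w.im + n < w.re := hw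
    change γ v.im < v.re
    linarith
  have hmem : ∀ w ∈ {w : ℂ | γ w.im + n < w.re}, ∀ t ∈ U σ a, w + t ∈ {w : ℂ | γ w.im < w.re} :=
    fun w hw t ht => hball w hw t ht (mem_closedBall_self (by positivity))
  refine ⟨?_, fun h0 ε hε => ?_, fun l hl w hw => ?_, fun w hw => ?_⟩
  · exact (ray_diff hσ a hr (isOpen_graph lip n) (isOpen_graph' lip) hG hM (by positivity)
      hball).comp (by fun_prop) hV
  · obtain ⟨ρ, hρ⟩ := ray_lim hσ a hr hG hM hmem h0 ε hε
    refine ⟨ρ + n, fun w hw h => hρ _ (hV w hw) ?_⟩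
    have h3 : ‖w‖ ≤ ‖w + n‖ + n := by simpa using norm_sub_le (w + n) (n : ℂ)
    linarith
  · rw [ray, ray, ← integral_const_mul]
    refine setIntegral_congr_fun measurableSet_Ioi fun y hy => ?_
    have := hl _ (hmem _ (hV w hw) _ (cv_mem hσ a (le_of_lt hy)))
    have e : w + 1 + n + cv σ a y = w + n + cv σ a y + 1 := by ring
    simp only [e, this]
    ring
  · have key := half hσ a hr (g := fun t => G (w + n + t))
      (hG.comp (by fun_prop) (hmem _ (hV w hw))) (M := M) fun t ht => hM _ (hmem _ (hV w hw) t ht)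
    simp only [add_zero] at key
    refine ⟨key.1, ?_⟩
    rw [← key.2, ray, ray]
    congr 2
    ext y
    congr 2
    ring

/-- Solving the difference equation on a graph domain. -/
lemma solve (hL : 0 ≤ L) (lip : ∀ y y', |γ y - γ y'| ≤ L * |y - y'|) (s : ℂ) (ap am : ℝ)
    (hap : ap ∈ Up γ) (ham : am ∈ Low γ) (h1 : s.re * ap < s.im)
    (h2 : s.im - 2 * Real.pi < s.re * am) :
    ∃ n : ℕ, ∀ (G : ℂ → ℂ) (M : ℝ), DifferentiableOn ℂ G {w | γ w.im < w.re} →
      (∀ v : ℂ, γ v.im < v.re → ‖G v‖ ≤ M) → ∃ F : ℂ → ℂ,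
      DifferentiableOn ℂ F {w | γ w.im < w.re} ∧
      ((∀ ε : ℝ, 0 < ε → ∃ ρ : ℝ, ∀ v : ℂ, γ v.im < v.re → ρ ≤ ‖v‖ → ‖G v‖ ≤ ε) →
        ∀ ε : ℝ, 0 < ε → ∃ ρ : ℝ, ∀ w : ℂ, γ w.im < w.re → ρ ≤ ‖w‖ → ‖F w‖ ≤ ε) ∧
      (∀ l : ℂ, (∀ v : ℂ, γ v.im < v.re → G (v + 1) = l * G v) →
        ∀ w : ℂ, γ w.im < w.re → F (w + 1) = l * F w) ∧
      ∀ w : ℂ, γ w.im < w.re → F (w + 1) - exp (-s) * F w = -exp (-s) * G (w + n) := by
  obtain ⟨c1, hc1⟩ := shift_up hL lip hap
  obtain ⟨c2, hc2⟩ := shift_low hL lip ham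
  obtain ⟨n, hn⟩ := exists_nat_ge (max c1 c2 + 1)
  refine ⟨n, fun G M hG hM => ?_⟩
  have hr1 : (s * dir 1 ap).re < 0 := by simp [dir]; linarith
  have hr2 : ((s - 2 * Real.pi * I) * dir (-1) am).re < 0 := by simp [dir]; linarith
  obtain ⟨p1, p2, p3, p4⟩ := ray_props hL lip (σ := 1) (by norm_num) ap hr1 hc1
    (n := n) (by linarith [le_max_left c1 c2]) hG hM
  obtain ⟨q1, q2, q3, q4⟩ := ray_props hL lip (σ := -1) (by norm_num) am hr2 hc2
    (n := n) (by linarith [le_max_right c1 c2]) hG hM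
  refine ⟨fun w => ray 1 ap s G (w + n) + ray (-1) am (s - 2 * Real.pi * I) G (w + n),
    p1.add q1, fun h0 ε hε => ?_, fun l hl w hw => ?_, fun w hw => ?_⟩
  · obtain ⟨ρ1, hρ1⟩ := p2 h0 (ε / 2) (by positivity)
    obtain ⟨ρ2, hρ2⟩ := q2 h0 (ε / 2) (by positivity)
    refine ⟨max ρ1 ρ2, fun w hw h => (norm_add_le _ _).trans ?_⟩
    linarith [hρ1 w hw ((le_max_left _ _).trans h), hρ2 w hw ((le_max_right _ _).trans h)]
  · simp only [p3 l hl w hw, q3 l hl w hw]
    ring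
  · obtain ⟨i1, e1⟩ := p4 w hw
    obtain ⟨i2, e2⟩ := q4 w hw
    have hl : exp (-(s - 2 * Real.pi * I)) = exp (-s) := by
      rw [neg_sub, sub_eq_add_neg, exp_add, exp_two_pi_mul_I, one_mul]
    rw [hl] at e2
    have hsum := intervalIntegral.integral_add i1 i2
    have hconst : ∫ x in (-1 / 2 : ℝ)..(1 / 2 : ℝ),
        ((exp (s * x) * G (w + n + x) - G (w + n) * ex 1 x) / (1 - ex 1 x) +
        (exp ((s - 2 * Real.pi * I) * x) * G (w + n + x) - G (w + n) * ex (-1) x) /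
          (1 - ex (-1) x)) = G (w + n) := by
      rw [intervalIntegral.integral_congr_ae (g := fun _ => G (w + n))]
      · simp; norm_num
      filter_upwards [compl_mem_ae_iff.2 (measure_singleton (0 : ℝ))] with x hx hxI
      have hx0 : (x : ℂ) ≠ 0 := by simpa using hx
      have hxa : |x| ≤ 1 / 2 := by
        rw [uIoc_of_le (by norm_num)] at hxI
        exact abs_le.2 ⟨by linarith [hxI.1], hxI.2⟩
      have hd : 1 - ex 1 x ≠ 0 :=
        den_ne (σ := 1) (by norm_num) (by simpa using mem_U (σ := 1) (by norm_num) 0 hxa le_rfl) hx0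
      have hu : ex 1 x ≠ 0 := exp_ne_zero _
      have a1 : ex (-1) x = (ex 1 x)⁻¹ := by
        rw [ex, ex, ← exp_neg]; congr 1; push_cast; ring
      have a2 : exp ((s - 2 * Real.pi * I) * x) = exp (s * x) * (ex 1 x)⁻¹ := by
        rw [ex, ← exp_neg, ← exp_add]; congr 1; push_cast; ring
      have hd' : ex 1 x - 1 ≠ 0 := fun h => hd (by linear_combination -h)
      rw [a1, a2]
      field_simp
      ring
    rw [hconst] at hsum
    linear_combination e1 + e2 + exp (-s) * hsum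

end Graph

end S1

theorem DModel.not_mem_spectrum {A : Type} [NormedCommRing A] [NormedAlgebra ℂ A]
    [CompleteSpace A] {T : A →L[ℂ] A} {P : Type} (D : DModel A T P) (s : ℂ) (ap am : ℝ)
    (hap : ap ∈ Up D.γ) (ham : am ∈ Low D.γ) (h1 : s.re * ap < s.im)
    (h2 : s.im - 2 * Real.pi < s.re * am) (hne : exp (-s) ≠ 1) :
    exp (-s) ∉ spectrum ℂ T := by
  obtain ⟨n, hn⟩ := S1.solve D.L_nonneg D.lip s ap am hap ham h1 h2
  set l := exp (-s) with hl
  have hl0 : l ≠ 0 := exp_ne_zero _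
  have ext0 : ∀ f : A, (∀ p, D.e p f = 0) → f = 0 := fun f hf =>
    norm_le_zero_iff.1 (D.norm_le f 0 fun p => by simp [hf p])
  have hmem : ∀ p, D.γ (D.h p).im < (D.h p).re := fun p => by linarith [D.h_mem p]
  have hT1 : T 1 = 1 := sub_eq_zero.1 (ext0 _ fun p => by simp [D.e_T])
  have hpow : ∀ (k : ℕ) (p : P) (f : A), D.e p ((T ^ k) f) = D.e (D.φ^[k] p) f := by
    intro k
    induction k with
    | zero => intro p f; simp
    | succ k ih =>
      intro p f
      rw [pow_succ, mul_apply_eq_comp, ih, D.e_T, Function.iterate_succ_apply']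
  have hχ : ∀ (k : ℕ) (w : ℂ), D.γ w.im < w.re → D.χ (w + k) = D.φ^[k] (D.χ w) := by
    intro k w hw
    induction k with
    | zero => simp
    | succ k ih =>
      rw [Nat.cast_succ, ← add_assoc, D.χ_succ, ih, Function.iterate_succ_apply']
      have : (0 : ℝ) ≤ k := Nat.cast_nonneg k
      simp only [add_im, natCast_im, add_zero, add_re, natCast_re]
      linarith
  have hK : ∀ (p : P) (g : A), D.e (D.χ (D.h p + n)) g = D.e p ((T ^ (n + D.N)) g) := by
    intro p g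
    rw [hχ n _ (hmem p), D.χ_h, hpow, Function.iterate_add_apply]
  have hinj : ∀ g : A, T g = l • g → g = 0 := by
    intro g hg
    obtain ⟨F, -, -, hF3, hF4⟩ := hn (fun w => D.e (D.χ w) g) ‖g‖ (D.χ_diff g)
      fun v _ => D.e_le _ _
    have h3 := hF3 l fun v hv => by rw [D.χ_succ v hv, ← D.e_T, hg, map_smul, smul_eq_mul]
    have h4 : (T ^ (n + D.N)) g = 0 := ext0 _ fun p => by
      have := hF4 _ (hmem p)
      rw [h3 _ (hmem p), sub_self, hK] at this
      exact (mul_eq_zero.1 this.symm).resolve_left (neg_ne_zero.2 hl0)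
    have h5 : ∀ k : ℕ, (T ^ k) g = l ^ k • g := by
      intro k
      induction k with
      | zero => simp
      | succ k ih =>
        rw [pow_succ', mul_apply_eq_comp, ih, map_smul, hg, smul_smul, pow_succ]
    rw [h5] at h4
    exact (smul_eq_zero.1 h4).resolve_left (pow_ne_zero _ hl0)
  have hQ : ∀ (k : ℕ) (g : A), ∃ q, T q - l • q = (T ^ k) g - l ^ k • g := by
    intro k g
    induction k with
    | zero => exact ⟨0, by simp⟩
    | succ k ih =>
      obtain ⟨q, hq⟩ := ih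
      refine ⟨l • q + (T ^ k) g, ?_⟩
      rw [pow_succ' T, mul_apply_eq_comp, map_add, map_smul, pow_succ' l, mul_smul]
      have : l • T q - l • l • q = l • (T ^ k) g - l • l ^ k • g := by
        rw [← smul_sub, hq, smul_sub]
      rw [smul_add]
      linear_combination (exp := 1) this
  have hsurj0 : ∀ g : A, D.eb g = 0 → ∃ f, T f - l • f = g := by
    intro g hg
    obtain ⟨F, hF1, hF2, -, hF4⟩ := hn (fun w => D.e (D.χ w) g) ‖g‖ (D.χ_diff g)
      fun v _ => D.e_le _ _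
    have h0 := hF2 fun ε hε => by simpa [hg] using D.χ_lim g ε hε
    obtain ⟨f, hf⟩ := D.cp F (hF1.mono fun w (hw : D.γ w.im + 1 / 2 < w.re) =>
      show D.γ w.im < w.re by linarith) fun ε hε => by
        obtain ⟨ρ, hρ⟩ := h0 ε hε
        exact ⟨ρ, fun w hw h => hρ w (by linarith) h⟩
    have h3 : T f - l • f = -l • (T ^ (n + D.N)) g := sub_eq_zero.1 (ext0 _ fun p => by
      have := hF4 _ (hmem p)
      rw [hK] at this
      simp only [map_sub, map_smul, D.e_T, hf, D.h_φ, smul_eq_mul]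
      linear_combination this)
    obtain ⟨q, hq⟩ := hQ (n + D.N) g
    refine ⟨(-(l ^ (n + D.N + 1))⁻¹) • (f + l • q), ?_⟩
    have h4 : T (f + l • q) - l • (f + l • q) = -(l ^ (n + D.N + 1)) • g := by
      have : l • T q - l • l • q = l • (T ^ (n + D.N)) g - l • l ^ (n + D.N) • g := by
        rw [← smul_sub, hq, smul_sub]
      rw [map_add, map_smul, smul_add, pow_succ' l, neg_smul, mul_smul]
      rw [neg_smul] at h3
      linear_combination (exp := 1) this + h3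
    rw [map_smul, smul_comm l, ← smul_sub, h4, smul_smul, neg_mul_neg,
      inv_mul_cancel₀ (pow_ne_zero _ hl0), one_smul]
  have hsurj : ∀ g : A, ∃ f, T f - l • f = g := by
    intro g
    obtain ⟨f, hf⟩ := hsurj0 (g - D.eb g • 1) (by simp)
    have h1l : 1 - l ≠ 0 := sub_ne_zero.2 hne.symm
    refine ⟨f + (D.eb g / (1 - l)) • 1, ?_⟩
    have : (D.eb g / (1 - l)) • (1 : A) - l • (D.eb g / (1 - l)) • (1 : A) = D.eb g • 1 := by
      rw [smul_smul, ← sub_smul]
      congr 1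
      field_simp
    rw [map_add, map_smul, hT1, smul_add]
    linear_combination (exp := 1) hf + this
  rw [spectrum.notMem_iff, ContinuousLinearMap.isUnit_iff_bijective]
  have happ : ∀ f, (algebraMap ℂ (A →L[ℂ] A) l - T) f = l • f - T f := fun f => by
    simp [Algebra.algebraMap_eq_smul_one]
  constructor
  · rw [injective_iff_map_eq_zero]
    intro g hg
    rw [happ] at hg
    exact hinj g (sub_eq_zero.1 hg).symm
  · intro g
    obtain ⟨f, hf⟩ := hsurj (-g)
    exact ⟨f, by rw [happ, ← neg_sub, hf, neg_neg]⟩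

end

end Pool.Agent.MP_ff3f8e_an.H65
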