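import Pool.Agent.MP_ff3f8e_an.H65.S2B

open Metric Set Filter Topology Complex MeasureTheory

namespace Pool.Agent.MP_ff3f8e_an.H65

namespace S2

noncomputable section

variable {A : Type} [NormedCommRing A] [NormedAlgebra ℂ A] {T : A →L[ℂ] A} {P : Type}

lemma valley (D : DModel A T P) {s : ℂ} (hs : 0 < s.re) {M : ℝ} (hM : 0 ≤ M)
    (hlow : ∀ f, ‖f‖ ≤ M * ‖T f - exp (-s) • f‖) (hsurj : ∀ g, ∃ f, T f - exp (-s) • f = g)
    (y1 y y2 : ℝ) (h1 : y1 + 1 ≤ y) (h2 : y + 1 ≤ y2) :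
    Real.exp (-FF D.γ s y) ≤
      KK D.L M s.re D.N * (Real.exp (-FF D.γ s y1) + Real.exp (-FF D.γ s y2)) := by
  have hL := D.L_nonneg
  have h12 : y1 ≤ y2 := by linarith
  have hN : (0 : ℝ) ≤ D.N := Nat.cast_nonneg _
  have hyI : y ∈ uIcc y1 y2 := by rw [uIcc_of_le h12]; exact ⟨by linarith, by linarith⟩
  set X1 : ℝ := D.γ y1 + D.L * (y2 - y1) + 1 with hX1
  have hX : ∀ u ∈ uIcc y1 y2, D.γ u < X1 := fun u hu => by
    linarith [(gamma_bounds D h12 hu).2]
  have hXa := hX y1 left_mem_uIcc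
  have hXb := hX y2 right_mem_uIcc
  set Ω : Set ℂ := {t | D.γ t.im < t.re} with hΩ
  set G : A → ℂ → ℂ := fun f t => D.e (D.χ t) f * exp (s * t) with hG
  have hGd : ∀ f, DifferentiableOn ℂ (G f) Ω := fun f => (D.χ_diff f).mul (by fun_prop)
  have hor : ∀ u a b : ℝ, D.γ u < a → D.γ u < b → ∀ x ∈ uIcc a b, (x : ℂ) + u * I ∈ Ω := by
    intro u a b ha hb x hx
    have : D.γ u < x := (lt_min ha hb).trans_le hx.1
    simpa [hΩ] using this
  have ver : ∀ u ∈ uIcc y1 y2, (X1 : ℂ) + u * I ∈ Ω := by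
    intro u hu; simpa [hΩ] using hX u hu
  set w' : ℂ := (D.γ y : ℂ) + y * I with hw'
  have hw'θ : w'.re ≤ D.γ w'.im := by simp [hw']
  have hδ1 : 0 < 1 / (1 + D.L) := by positivity
  obtain ⟨g, hg⟩ := D.cp (fun w => 1 / (w - w'))
    (DifferentiableOn.div (by fun_prop) (by fun_prop) fun t ht h0 => by
      have := dist_ge D hw'θ (le_of_lt ht)
      rw [norm_sub_rev, h0, norm_zero] at this
      have : 0 < 1 / 2 / (1 + D.L) := by positivity
      linarith)
    (fun ε hε => ⟨‖w'‖ + 1 / ε, fun w _ hw => by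
      have a := norm_sub_norm_le w w'
      have b : 0 < 1 / ε := by positivity
      rw [norm_div, norm_one, div_le_iff₀ (by linarith)]
      have c : 1 / ε ≤ ‖w - w'‖ := by linarith
      rw [div_le_iff₀ hε] at c
      linarith⟩)
  have hgn : ‖g‖ ≤ 1 + D.L := D.norm_le _ _ fun p => by
    have a := dist_ge D hw'θ (D.h_mem p)
    rw [norm_sub_rev] at a
    rw [hg, norm_div, norm_one, div_le_iff₀ (hδ1.trans_le a)]
    rw [div_le_iff₀ (by positivity)] at a
    linarith
  obtain ⟨f, hf⟩ := hsurj g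
  have hfn : ‖f‖ ≤ M * (1 + D.L) := (hlow f).trans (by rw [hf]; gcongr)
  have H : ∀ u a b : ℝ, D.γ u < a → D.γ u < b → HI (G f) u a b := fun u a b ha hb =>
    hi_of_cont (hGd f).continuousOn (hor u a b ha hb)
  have p1 := hor y1 X1 (D.γ y1 + 1) hXa (by linarith)
  have p2 := hor y2 X1 (D.γ y2 + 1) hXb (by linarith)
  -- upper bound
  have hup : ‖CI (G g) y1 y2 X1 (D.γ y1 + 1) (D.γ y2 + 1)‖ ≤ M * (1 + D.L) * Real.exp (2 * s.re) *
      (Real.exp (-FF D.γ s y1) + Real.exp (-FF D.γ s y2)) := by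
    have e0 : G g = fun t => G (T f) t - exp (-s) * G f t := by
      funext t
      simp only [hG]
      rw [← hf, map_sub, map_smul, smul_eq_mul]; ring
    have e1 : EqOn (G (T f)) (fun t => exp (-s) * G f (t + ((1 : ℝ) : ℂ))) Ω := by
      intro t ht
      simp only [hG]
      rw [D.e_T, ofReal_one, D.χ_succ t ht, mul_left_comm, ← Complex.exp_add]
      congr 2; ring
    rw [e0, CI_sub_fun (k' := fun t => exp (-s) * G f t) (hGd _).continuousOn
        (continuousOn_const.mul (hGd f).continuousOn) p1 p2 ver,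
      CI_congr e1 p1 p2 ver, CI_const_mul, CI_const_mul, CI_shift,
      CI_move (X := X1) (H _ _ _ hXa (by linarith)) (H _ _ _ hXb (by linarith))
        ((hGd f).mono fun t ht => (hX _ ht.2).trans_le ((le_min le_rfl (by linarith)).trans ht.1.1)),
      ← mul_sub, CI_ends (H _ _ _ hXa (by linarith)) (H _ _ _ hXb (by linarith))
        (H _ _ _ hXa (by linarith)) (H _ _ _ hXb (by linarith)), norm_mul]
    have hseg : ∀ u : ℝ, ‖∫ x in D.γ u + 1..D.γ u + 1 + 1, G f (x + u * I)‖ ≤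
        M * (1 + D.L) * Real.exp (2 * s.re) * Real.exp (-FF D.γ s u) := by
      intro u
      refine (intervalIntegral.norm_integral_le_of_norm_le_const
        (C := M * (1 + D.L) * Real.exp (2 * s.re) * Real.exp (-FF D.γ s u))
        fun x hx => ?_).trans (by simp)
      have b : x ≤ D.γ u + 1 + 1 := (uIoc_subset_uIcc hx).2.trans (max_le (by linarith) le_rfl)
      simp only [hG]
      rw [norm_mul, norm_exp_pos, mul_assoc (M * _), ← Real.exp_add]
      gcongr
      · exact (D.e_le _ _).trans hfn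
      · rw [FF]; nlinarith
    have a1 := hseg y1
    have a2 := hseg y2
    have a3 := norm_sub_le (∫ x in D.γ y2 + 1..D.γ y2 + 1 + 1, G f (x + y2 * I))
      (∫ x in D.γ y1 + 1..D.γ y1 + 1 + 1, G f (x + y1 * I))
    refine (mul_le_of_le_one_left (norm_nonneg _) (norm_l_le hs)).trans ?_
    linarith
  -- lower bound
  set w : ℂ := ((D.γ y - D.N : ℝ) : ℂ) + y * I with hw
  have hwre : w.re = D.γ y - D.N := by simp [hw]
  have hwim : w.im = y := by simp [hw]
  set k : ℂ → ℂ := fun t => exp (s * t) / (t - w) with hk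
  have e2 : EqOn (G g) k Ω := by
    intro t ht
    simp only [hG, hk]
    rw [hg, D.h_χ t ht, mul_comm, mul_one_div]
    congr 1
    rw [hw, hw']; push_cast; ring
  rw [CI_congr e2 p1 p2 ver] at hup
  have hlo : 2 * Real.pi * Real.exp (-FF D.γ s y - s.re * D.N) ≤
      ‖CI k y1 y2 X1 (D.γ y1 + 1) (D.γ y2 + 1)‖ +
        Real.exp s.re / s.re * (Real.exp (-FF D.γ s y1) + Real.exp (-FF D.γ s y2)) := by
    refine le_of_exp_decay (c := Real.exp (|s.im| * (|y1| + |y2|)) * |y2 - y1|)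
      (X0 := -(D.γ y1 - D.L * (y2 - y1) - D.N - 1)) hs fun X hXX => ?_
    have g0 := (gamma_bounds D h12 hyI).1
    have g1 := (gamma_bounds D h12 left_mem_uIcc).1
    have g2 := (gamma_bounds D h12 right_mem_uIcc).1
    have hc := CI_cauchy (f := fun t => exp (s * t)) (by fun_prop) (y1 := y1) (y2 := y2) (X := -X)
      (X' := X1) (a1 := D.γ y1 + 1) (a2 := D.γ y2 + 1) (w := w) (by linarith)
      (by linarith [hX y hyI]) (by linarith) (by linarith)
    have hn : ‖2 * Real.pi * I * exp (s * w)‖ =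
        2 * Real.pi * Real.exp (-FF D.γ s y - s.re * D.N) := by
      rw [norm_mul, hw, norm_exp_pos]
      simp only [norm_mul, norm_I, mul_one, Complex.norm_real, Real.norm_eq_abs,
        abs_of_pos Real.pi_pos, Complex.norm_ofNat]
      congr 2
      rw [FF]; ring
    have hh : ∀ u : ℝ, 1 ≤ |u - y| → -X ≤ D.γ u + 1 →
        ‖∫ x in (-X)..D.γ u + 1, k (x + u * I)‖ ≤
          Real.exp s.re / s.re * Real.exp (-FF D.γ s u) := by
      intro u hu huX
      refine (norm_int_exp_pos (B := Real.exp (-(s.im * u))) hs huX (Real.exp_pos _).le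
        fun x => ?_).trans (le_of_eq ?_)
      · refine (norm_div_le_of_one_le (one_le_norm_of_im (by simpa [hwim] using hu))).trans ?_
        rw [norm_exp_pos, ← Real.exp_add, add_comm, sub_eq_add_neg]
      · rw [← Real.exp_add, div_mul_eq_mul_div, ← Real.exp_add, FF]
        congr 2; ring
    have a1 := hh y1 (by rw [abs_sub_comm, abs_of_nonneg (by linarith)]; linarith) (by linarith)
    have a2 := hh y2 (by rw [abs_of_nonneg (by linarith)]; linarith) (by linarith)
    have a3 : ‖∫ u in y1..y2, k (((-X : ℝ) : ℂ) + u * I)‖ ≤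
        Real.exp (|s.im| * (|y1| + |y2|)) * Real.exp (-s.re * X) * |y2 - y1| := by
      refine intervalIntegral.norm_integral_le_of_norm_le_const fun u hu => ?_
      refine (norm_div_le_of_one_le (one_le_norm_of_re ?_)).trans ?_
      · have : (((-X : ℝ) : ℂ) + u * I).re = -X := by simp
        rw [this, hwre, abs_sub_comm, abs_of_nonneg (by linarith)]; linarith
      · rw [norm_exp_pos, ← Real.exp_add, Real.exp_le_exp]
        linarith [neg_abs_le (s.im * u), mul_le_of_mem (τ := s.im) hu]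
    have a4 := norm_CI_le k y1 y2 (-X) (D.γ y1 + 1) (D.γ y2 + 1)
    have a5 := norm_sub_le (CI k y1 y2 X1 (D.γ y1 + 1) (D.γ y2 + 1))
      (CI k y1 y2 (-X) (D.γ y1 + 1) (D.γ y2 + 1))
    rw [← hn, ← hc]
    linarith
  set S := Real.exp (-FF D.γ s y1) + Real.exp (-FF D.γ s y2) with hS
  have b3 : Real.exp (-FF D.γ s y - s.re * (D.N + 1)) ≤
      (M * (1 + D.L) * Real.exp (2 * s.re) + Real.exp s.re / s.re) * S := by
    have a := Real.exp_pos (-FF D.γ s y - s.re * D.N)
    have b : Real.exp (-FF D.γ s y - s.re * (D.N + 1)) ≤ Real.exp (-FF D.γ s y - s.re * D.N) := by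
      rw [Real.exp_le_exp]; linarith
    nlinarith [Real.pi_gt_three]
  rw [Real.exp_sub, div_le_iff₀ (Real.exp_pos _)] at b3
  rw [KK]; linarith

lemma flat (D : DModel A T P) {s : ℂ} (hs : 0 < s.re) {M C : ℝ} (hM : 0 ≤ M)
    (hlow : ∀ f, ‖f‖ ≤ M * ‖T f - exp (-s) • f‖) (hF : ∀ y, FF D.γ s y ≤ C) : False := by
  have hL := D.L_nonneg
  have hN : (0 : ℝ) ≤ D.N := Nat.cast_nonneg _
  set c : ℝ := Real.exp (FF D.γ s 0 - s.re * (D.N + 1)) with hc
  have hc0 : 0 < c := Real.exp_pos _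
  set B : ℝ := Real.exp C with hB
  have hB0 : 0 < B := Real.exp_pos _
  have hexp : ∀ w : ℂ, D.γ w.im ≤ w.re → ‖exp (-s * w)‖ ≤ B := by
    intro w hw
    rw [← re_add_im w, norm_exp_neg, hB, Real.exp_le_exp]
    have := hF w.im
    rw [FF] at this
    nlinarith
  have key : ∀ X : ℝ, 0 < X → c * X ^ 2 ≤ M * B * (1 + D.L) ^ 2 * (X + D.N + 1) := by
    intro X hX
    set w0 : ℂ := ((D.γ 0 - X : ℝ) : ℂ) with hw0
    have hd : ∀ w : ℂ, D.γ w.im ≤ w.re → X / (1 + D.L) ≤ ‖w - w0‖ := by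
      intro w hw
      have := graph_lip hL D.lip w w0
      rw [div_le_iff₀ (by positivity), norm_sub_rev]
      simp only [hw0, ofReal_re, ofReal_im] at this ⊢
      nlinarith
    have hδ : 0 < X / (1 + D.L) := by positivity
    have hne : ∀ w : ℂ, D.γ w.im ≤ w.re → w - w0 ≠ 0 := fun w hw =>
      norm_pos_iff.1 (hδ.trans_le (hd w hw))
    obtain ⟨f, hf⟩ := D.cp (fun w => exp (-s * w) / (w - w0))
      (DifferentiableOn.div (by fun_prop) (by fun_prop) fun t ht => hne t (by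
        have : D.γ t.im + 1 / 2 < t.re := ht
        linarith))
      (fun ε hε => ⟨‖w0‖ + B / ε, fun w hw hw' => by
        have a := norm_sub_norm_le w w0
        have b : 0 < B / ε := by positivity
        rw [norm_div, div_le_iff₀ (by linarith)]
        have c : B / ε ≤ ‖w - w0‖ := by linarith
        rw [div_le_iff₀ hε] at c
        linarith [hexp w (by linarith)]⟩)
    have hup : ‖T f - exp (-s) • f‖ ≤ B / (X / (1 + D.L)) ^ 2 := by
      refine D.norm_le _ _ fun p => ?_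
      rw [e_sub, hf, hf, D.h_φ]
      set w := D.h p
      have hw : D.γ w.im ≤ w.re := by linarith [D.h_mem p]
      have hw1 : D.γ (w + 1).im ≤ (w + 1).re := by simp; linarith
      have n0 := hne w hw
      have n1 := hne _ hw1
      have e : exp (-s * (w + 1)) / (w + 1 - w0) - exp (-s) * (exp (-s * w) / (w - w0)) =
          -(exp (-s * (w + 1)) / ((w + 1 - w0) * (w - w0))) := by
        rw [show -s * (w + 1) = -s + -s * w by ring, Complex.exp_add]
        field_simp
        ring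
      rw [e, norm_neg, norm_div, norm_mul, sq]
      gcongr
      · exact hexp _ hw1
      · exact hd _ hw1
      · exact hd _ hw
    have hlo : c / (X + D.N + 1) ≤ ‖f‖ := by
      set w1 : ℂ := ((D.γ 0 + 1 : ℝ) : ℂ) with hw1
      refine le_trans (le_of_eq ?_) (D.e_le (D.χ w1) f)
      rw [hf, D.h_χ w1 (by simp [hw1]), norm_div]
      congr 1
      · have : w1 + D.N = ((D.γ 0 + 1 + D.N : ℝ) : ℂ) + (0 : ℝ) * I := by
          rw [hw1]; push_cast; ring
        rw [this, norm_exp_neg, hc, FF]; congr 1; ring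
      · have : w1 + D.N - w0 = ((X + D.N + 1 : ℝ) : ℂ) := by rw [hw1, hw0]; push_cast; ring
        rw [this, Complex.norm_real, Real.norm_eq_abs, abs_of_pos (by positivity)]
    have h3 : c / (X + D.N + 1) ≤ M * (B / (X / (1 + D.L)) ^ 2) :=
      hlo.trans ((hlow f).trans (by gcongr))
    rw [div_le_iff₀ (by positivity)] at h3
    calc c * X ^ 2 ≤ M * (B / (X / (1 + D.L)) ^ 2) * (X + D.N + 1) * X ^ 2 := by gcongr
      _ = _ := by field_simp
  set K : ℝ := M * B * (1 + D.L) ^ 2 with hK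
  have hK0 : 0 ≤ K := by positivity
  set X : ℝ := 2 * K / c + D.N + 1 with hX
  have hX0 : 0 < X := by positivity
  have h1 := key X hX0
  have h2 : c * X = 2 * K + c * (D.N + 1) := by rw [hX]; field_simp; ring
  have h3 : (D.N : ℝ) + 1 ≤ X := by
    have : 0 ≤ 2 * K / c := by positivity
    linarith
  have h4 : c * X ^ 2 = (2 * K + c * (D.N + 1)) * X := by rw [← h2]; ring
  have h5 : 0 < c * (D.N + 1) * X := by positivity
  nlinarith

lemma FF_lip (D : DModel A T P) {s : ℂ} (hs : 0 < s.re) {Λ : ℝ} (h : s.re * D.L + |s.im| ≤ Λ)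
    (y y' : ℝ) : |FF D.γ s y - FF D.γ s y'| ≤ Λ * |y - y'| := by
  have e : FF D.γ s y - FF D.γ s y' = s.im * (y - y') - s.re * (D.γ y - D.γ y') := by
    unfold FF; ring
  have a := abs_sub (s.im * (y - y')) (s.re * (D.γ y - D.γ y'))
  rw [abs_mul, abs_mul, abs_of_pos hs] at a
  have b := D.lip y y'
  have c := abs_nonneg (y - y')
  rw [e]
  nlinarith

lemma coarse (D : DModel A T P) {s : ℂ} (hs : 0 < s.re) {M Λ : ℝ} (hM : 0 ≤ M)
    (hΛ : s.re * D.L + |s.im| ≤ Λ)
    (hlow : ∀ f, ‖f‖ ≤ M * ‖T f - exp (-s) • f‖) (hsurj : ∀ g, ∃ f, T f - exp (-s) • f = g) :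
    (∀ y y', y ≤ y' →
      FF D.γ s y - 2 * (Λ + Real.log (2 * (KK D.L M s.re D.N + 1))) ≤ FF D.γ s y') ∨
    (∀ y y', y ≤ y' →
      FF D.γ s y' ≤ FF D.γ s y + 2 * (Λ + Real.log (2 * (KK D.L M s.re D.N + 1)))) := by
  have hL := D.L_nonneg
  have hK : 0 ≤ KK D.L M s.re D.N := by unfold KK; positivity
  have hΛ0 : 0 ≤ Λ := le_trans (by positivity) hΛ
  refine four_point (peak_of_spaced (by linarith) hΛ0 (FF_lip D hs hΛ) fun y1 y y2 h1 h2 =>
    (peak D hs hM hlow y1 y y2 h1 h2).trans (by gcongr; linarith)) fun y1 y y2 h1 h2 => ?_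
  have := peak_of_spaced (F := fun y => -FF D.γ s y) (K := KK D.L M s.re D.N + 1) (by linarith) hΛ0
    (fun y y' => by
      rw [show -FF D.γ s y - -FF D.γ s y' = -(FF D.γ s y - FF D.γ s y') by ring, abs_neg]
      exact FF_lip D hs hΛ y y')
    (fun y1 y y2 h1 h2 => (valley D hs hM hlow hsurj y1 y y2 h1 h2).trans (by gcongr; linarith))
    y1 y y2 h1 h2
  rw [max_neg_neg] at this
  linarith

end

end S2

theorem DModel.mem_spectrum {A : Type} [NormedCommRing A] [NormedAlgebra ℂ A]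
    [CompleteSpace A] {T : A →L[ℂ] A} {P : Type} (D : DModel A T P) (s : ℂ) (hs : 0 < s.re)
    (hup : ∀ a ∈ Up D.γ, s.im ≤ s.re * a) (hlow : ∀ a ∈ Low D.γ, s.re * a ≤ s.im) :
    exp (-s) ∈ spectrum ℂ T := by
  by_contra hcon
  have hres : exp (-s) ∈ resolventSet ℂ T := by simpa [spectrum] using hcon
  have happ : ∀ (l : ℂ) (f : A), (algebraMap ℂ (A →L[ℂ] A) l - T) f = -(T f - l • f) := by
    intro l f
    rw [Algebra.algebraMap_eq_smul_one]; simp
  have hsurj : ∀ l ∈ resolventSet ℂ T, ∀ g, ∃ f, T f - l • f = g := by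
    intro l hl g
    obtain ⟨u, hu⟩ := hl
    refine ⟨(↑u⁻¹ : A →L[ℂ] A) (-g), ?_⟩
    rw [← neg_inj, ← happ, ← hu, ← mul_apply_eq_comp, u.mul_inv,
      one_apply_eq_self]
  obtain ⟨M, hM, hMl⟩ : ∃ M : ℝ, 0 ≤ M ∧ ∀ f, ‖f‖ ≤ M * ‖T f - exp (-s) • f‖ := by
    obtain ⟨u, hu⟩ := hres
    refine ⟨‖(↑u⁻¹ : A →L[ℂ] A)‖, norm_nonneg _, fun f => ?_⟩
    have := (↑u⁻¹ : A →L[ℂ] A).le_opNorm ((u : A →L[ℂ] A) f)
    rwa [← mul_apply_eq_comp, u.inv_mul, one_apply_eq_self, hu, happ,
      norm_neg] at this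
  have hcont : Continuous fun ε : ℝ => exp (-(s + ε * I)) := by fun_prop
  have ht : Tendsto (fun ε : ℝ => exp (-(s + ε * I))) (𝓝 0) (𝓝 (exp (-s))) := by
    simpa using hcont.tendsto 0
  have ev1 : ∀ᶠ ε : ℝ in 𝓝 0, exp (-(s + ε * I)) ∈ resolventSet ℂ T :=
    ht.eventually ((spectrum.isOpen_resolventSet T).mem_nhds hres)
  have ev2 : ∀ᶠ ε : ℝ in 𝓝 0, M * ‖exp (-(s + ε * I)) - exp (-s)‖ < 1 / 2 := by
    have : Tendsto (fun ε : ℝ => M * ‖exp (-(s + ε * I)) - exp (-s)‖) (𝓝 0) (𝓝 0) := by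
      simpa using ((ht.sub_const (exp (-s))).norm).const_mul M
    exact this.eventually (gt_mem_nhds (by norm_num))
  obtain ⟨ε0, hε0, hε⟩ := Metric.eventually_nhds_iff.1 (ev1.and ev2)
  set C : ℝ := 2 * (s.re * D.L + |s.im| + ε0 + Real.log (2 * (S2.KK D.L (2 * M) s.re D.N + 1)))
    with hC
  have hco : ∀ ε : ℝ, |ε| < ε0 →
      (∀ y y', y ≤ y' → S2.FF D.γ s y + ε * y - C ≤ S2.FF D.γ s y' + ε * y') ∨
      (∀ y y', y ≤ y' → S2.FF D.γ s y' + ε * y' ≤ S2.FF D.γ s y + ε * y + C) := by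
    intro ε hlt
    obtain ⟨r1, r2⟩ := hε (y := ε) (by simpa [Real.dist_eq] using hlt)
    have hre : (s + ε * I).re = s.re := by simp
    have him : (s + ε * I).im = s.im + ε := by simp
    have hFF : ∀ y, S2.FF D.γ (s + ε * I) y = S2.FF D.γ s y + ε * y := fun y => by
      unfold S2.FF; rw [hre, him]; ring
    have := S2.coarse D (s := s + ε * I) (by rwa [hre]) (M := 2 * M) (Λ := s.re * D.L + |s.im| + ε0)
      (by positivity) (by rw [hre, him]; linarith [abs_add_le s.im ε]) (fun f => by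
        have a := hMl f
        have b : T f - exp (-s) • f = (T f - exp (-(s + ε * I)) • f) +
            (exp (-(s + ε * I)) - exp (-s)) • f := by rw [sub_smul]; abel
        have c := norm_add_le (T f - exp (-(s + ε * I)) • f) ((exp (-(s + ε * I)) - exp (-s)) • f)
        rw [← b, norm_smul] at c
        have d := mul_le_mul_of_nonneg_left c hM
        nlinarith [norm_nonneg f]) (hsurj _ r1)
    simpa only [hFF, hre] using this
  have hdown : ∀ ε : ℝ, 0 < ε → ε < ε0 → ∀ y y', y ≤ y' →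
      S2.FF D.γ s y' ≤ S2.FF D.γ s y + ε * (y' - y) + C := by
    intro ε h0 h1
    rcases hco (-ε) (by rwa [abs_neg, abs_of_pos h0]) with h | h
    · exfalso
      have := hup ((s.im - ε) / s.re) ⟨C / s.re, fun y y' hy => by
        have := h y y' hy
        unfold S2.FF at this
        rw [div_mul_eq_mul_div, ← add_div, le_div_iff₀ hs]
        linarith⟩
      rw [mul_div_cancel₀ _ hs.ne'] at this
      linarith
    · intro y y' hy
      linarith [h y y' hy]
  have hupp : ∀ ε : ℝ, 0 < ε → ε < ε0 → ∀ y y', y ≤ y' →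
      S2.FF D.γ s y ≤ S2.FF D.γ s y' + ε * (y' - y) + C := by
    intro ε h0 h1
    rcases hco ε (by rwa [abs_of_pos h0]) with h | h
    · intro y y' hy
      linarith [h y y' hy]
    · exfalso
      have := hlow ((s.im + ε) / s.re) ⟨C / s.re, fun y y' hy => by
        have := h y y' hy
        unfold S2.FF at this
        rw [div_mul_eq_mul_div, ← sub_div, div_le_iff₀ hs]
        linarith⟩
      rw [mul_div_cancel₀ _ hs.ne'] at this
      linarith
  refine S2.flat D hs hM hMl (C := S2.FF D.γ s 0 + 1 + C) fun y => ?_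
  set ε : ℝ := min (ε0 / 2) (1 / (|y| + 1)) with hεd
  have e0 : 0 < ε := lt_min (by positivity) (by positivity)
  have e1 : ε < ε0 := (min_le_left _ _).trans_lt (by linarith)
  have e2 : ε * (|y| + 1) ≤ 1 := by
    rw [← le_div_iff₀ (by positivity)]; exact min_le_right _ _
  rcases le_total 0 y with h | h
  · have := hdown ε e0 e1 0 y h
    rw [abs_of_nonneg h] at e2
    nlinarith
  · have := hupp ε e0 e1 y 0 h
    rw [abs_of_nonpos h] at e2
    nlinarith

end Pool.Agent.MP_ff3f8e_an.H65
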