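import Pool.Agent.MP_ff3f8e_an.H65.Model
import Pool.Agent.MP_ff3f8e_an.H65.S1
import Pool.Agent.MP_ff3f8e_an.H65.S2
import Pool.Agent.MP_ff3f8e_an.H65.Inv

open Metric Set Filter Topology Complex ComplexConjugate

namespace Pool.Agent.MP_ff3f8e_an.H65

noncomputable section

section General

variable {A : Type} [NormedCommRing A] [NormedAlgebra ℂ A]

lemma mem_spectrum_of_eigen {T : A →L[ℂ] A} {l : ℂ} {f : A} (hf : f ≠ 0) (h : T f = l • f) :
    l ∈ spectrum ℂ T := by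
  intro hl
  obtain ⟨R, -, hR⟩ := exists_R hl
  have := hR f
  rw [h, sub_self, map_zero] at this
  exact hf this.symm

lemma sg_of_idem {T : A →L[ℂ] A} (h : ∀ f, T (T f) = T f) : SG (spectrum ℂ T) := by
  have key : ∀ l ∈ spectrum ℂ T, l = 0 ∨ l = 1 := by
    intro l hl
    by_contra hcon
    push Not at hcon
    obtain ⟨h0, h1⟩ := hcon
    have h1' : 1 - l ≠ 0 := sub_ne_zero.2 h1.symm
    have hu := isUnit_of_R (T := T) (R := (-l⁻¹) • 1 + (l⁻¹ * (1 - l)⁻¹) • T) (ν := l)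
      (fun f => by
        simp only [add_apply, smul_apply, one_apply_eq_self, map_add, map_smul, h]
        match_scalars <;> field_simp <;> ring)
      (fun f => by
        simp only [add_apply, smul_apply, one_apply_eq_self, map_sub, map_smul, h]
        match_scalars <;> field_simp <;> ring)
    apply hl
    rw [spectrum.mem_resolventSet_iff, Algebra.algebraMap_eq_smul_one, ← neg_sub]
    exact hu.neg
  intro l hl m hm
  rcases key l hl with rfl | rfl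
  · rwa [zero_mul]
  · rwa [one_mul]

lemma L_mem_Up {γ : ℝ → ℝ} {L : ℝ} (lip : ∀ y y', |γ y - γ y'| ≤ L * |y - y'|) : L ∈ Up γ :=
  ⟨0, fun y y' h => by
    have := (abs_le.1 (lip y' y)).2
    rwa [abs_of_nonneg (by linarith), ← add_zero (L * _)] at this⟩

lemma neg_L_mem_Low {γ : ℝ → ℝ} {L : ℝ} (lip : ∀ y y', |γ y - γ y'| ≤ L * |y - y'|) :
    -L ∈ Low γ :=
  ⟨0, fun y y' h => by
    have := (abs_le.1 (lip y' y)).1
    rw [abs_of_nonneg (by linarith)] at this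
    linarith⟩

variable [CompleteSpace A] {T : A →L[ℂ] A} {P : Type}

lemma DModel.exists_log (D : DModel A T P) {l : ℂ} (hl : l ∈ spectrum ℂ T) (h0 : l ≠ 0)
    (h1 : ‖l‖ ≤ 1) : ∃ s : ℂ, exp (-s) = l ∧ 0 ≤ s.re ∧ (∀ a ∈ Up D.γ, s.im ≤ s.re * a) ∧
      ∀ a ∈ Low D.γ, s.re * a ≤ s.im := by
  classical
  by_cases hl1 : l = 1
  · exact ⟨0, by simp [hl1], by simp, by simp, by simp⟩
  by_contra hcon
  push Not at hcon
  set s0 := -Complex.log l with hs0
  have hσ : 0 ≤ s0.re := by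
    rw [hs0, neg_re, Complex.log_re, neg_nonneg]
    exact Real.log_nonpos (norm_nonneg _) h1
  set s : ℤ → ℂ := fun k => s0 + k * (2 * Real.pi * I) with hs
  have hre : ∀ k, (s k).re = s0.re := fun k => by simp [hs]
  have him : ∀ k, (s k).im = s0.im + k * (2 * Real.pi) := fun k => by simp [hs]
  have hexp : ∀ k, exp (-s k) = l := fun k => by
    have : -s k = Complex.log l + ((-k : ℤ) : ℂ) * (2 * Real.pi * I) := by
      simp only [hs, hs0]; push_cast; ring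
    rw [this, Complex.exp_add, Complex.exp_int_mul_two_pi_mul_I, mul_one, Complex.exp_log h0]
  have hpi := Real.two_pi_pos
  obtain ⟨k0, hk0⟩ : ∃ k0 : ℤ, (s k0).im < s0.re * -D.L := by
    obtain ⟨k, hk⟩ := exists_int_lt ((s0.re * -D.L - s0.im) / (2 * Real.pi))
    rw [lt_div_iff₀ hpi] at hk
    exact ⟨k, by rw [him]; linarith⟩
  have hex : ∃ n : ℕ, ∃ a ∈ Up D.γ, s0.re * a < (s (k0 + 1 + n)).im := by
    obtain ⟨n, hn⟩ := exists_nat_gt ((s0.re * D.L - (s k0).im) / (2 * Real.pi))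
    rw [div_lt_iff₀ hpi] at hn
    refine ⟨n, D.L, L_mem_Up D.lip, ?_⟩
    rw [him] at hn ⊢
    push_cast
    nlinarith
  obtain ⟨ap, hap, h2⟩ := Nat.find_spec hex
  obtain ⟨am, ham, h3⟩ : ∃ a ∈ Low D.γ, (s (k0 + Nat.find hex)).im < s0.re * a := by
    rcases Nat.eq_zero_or_pos (Nat.find hex) with h | h
    · exact ⟨-D.L, neg_L_mem_Low D.lip, by simpa [h] using hk0⟩
    · obtain ⟨n, hn⟩ : ∃ n, Nat.find hex = n + 1 := ⟨Nat.find hex - 1, by omega⟩
      have h4 := Nat.find_min hex (m := n) (by omega)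
      push Not at h4
      have e : k0 + Nat.find hex = k0 + 1 + n := by rw [hn]; push_cast; ring
      rw [e]
      have := hcon (s (k0 + 1 + n)) (hexp _) (by rwa [hre]) (by rwa [hre])
      rwa [hre] at this
  refine D.not_mem_spectrum (s (k0 + 1 + Nat.find hex)) ap am hap ham (by rwa [hre]) ?_
    (by rwa [hexp]) (by rwa [hexp])
  rw [hre]
  rw [him] at h3 ⊢
  push_cast at h3 ⊢
  linarith

lemma DModel.mul_mem (D : DModel A T P) (hone : (1 : ℂ) ∈ spectrum ℂ T)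
    (hT : ∀ l ∈ spectrum ℂ T, ‖l‖ ≤ 1) {l m : ℂ} (hl : l ∈ spectrum ℂ T) (hm : m ∈ spectrum ℂ T)
    (hl0 : l ≠ 0) (hm0 : m ≠ 0) : l * m ∈ spectrum ℂ T := by
  obtain ⟨s, rfl, a1, a2, a3⟩ := D.exists_log hl hl0 (hT l hl)
  obtain ⟨s', rfl, b1, b2, b3⟩ := D.exists_log hm hm0 (hT _ hm)
  rw [← Complex.exp_add, ← neg_add]
  rcases eq_or_lt_of_le (add_nonneg a1 b1) with h | h
  · have c1 : s.re = 0 := by linarith
    have c2 : s'.re = 0 := by linarith
    have d1 := a2 _ (L_mem_Up D.lip)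
    have d2 := a3 _ (neg_L_mem_Low D.lip)
    have d3 := b2 _ (L_mem_Up D.lip)
    have d4 := b3 _ (neg_L_mem_Low D.lip)
    rw [c1, zero_mul] at d1 d2
    rw [c2, zero_mul] at d3 d4
    have : s + s' = 0 := Complex.ext (by simp [c1, c2]) (by simp; linarith)
    simpa [this] using hone
  · refine D.mem_spectrum (s + s') (by simpa using h) (fun a ha => ?_) fun a ha => ?_
    · simp only [add_im, add_re]; linarith [a2 a ha, b2 a ha]
    · simp only [add_im, add_re]; linarith [a3 a ha, b3 a ha]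

end General

lemma exists_small_resolvent {T : DA →L[ℂ] DA} {ν : ℂ} (hν : ν ∈ resolventSet ℂ T) (h0 : ν ≠ 0)
    (h1 : ‖ν‖ ≤ 1) : ∃ ν' ∈ resolventSet ℂ T, ν' ≠ 0 ∧ ‖ν'‖ < 1 := by
  have hc : ContinuousAt (fun t : ℝ => (t : ℂ) * ν) 1 := by fun_prop
  have h2 : ∀ᶠ t : ℝ in 𝓝 1, (t : ℂ) * ν ∈ resolventSet ℂ T :=
    hc.eventually ((spectrum.isOpen_resolventSet T).mem_nhds (by simpa using hν))
  have h3 : ∀ᶠ t : ℝ in 𝓝[<] 1, (t : ℂ) * ν ∈ resolventSet ℂ T ∧ t ∈ Ioo (0 : ℝ) 1 :=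
    (h2.filter_mono nhdsWithin_le_nhds).and (Ioo_mem_nhdsLT one_pos)
  obtain ⟨t, ht, ht0, ht1⟩ := h3.exists
  refine ⟨_, ht, mul_ne_zero (by exact_mod_cast ht0.ne') h0, ?_⟩
  rw [norm_mul, Complex.norm_real, Real.norm_eq_abs, abs_of_pos ht0]
  nlinarith [norm_nonneg ν]

theorem Comp.sg (C : Comp) : SG (spectrum ℂ C.T) := by
  by_cases hu : IsUnit C.T
  · exact sg_of_isUnit C hu
  rcases C.maps_ball_or_const with hmaps | ⟨b, hb⟩
  swap
  · refine sg_of_idem fun f => ext_ball fun z hz => ?_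
    have hz' := ball_subset_closedBall hz
    rw [C.ev_T _ _ hz', C.ev_T _ _ (C.maps hz'), C.ev_T _ _ hz', hb _ (C.maps hz'), hb _ hz']
  have hT : ∀ l ∈ spectrum ℂ C.T, ‖l‖ ≤ 1 := fun l hl =>
    (spectrum.norm_le_norm_of_mem hl).trans C.opNorm_le
  have h0 : (0 : ℂ) ∈ spectrum ℂ C.T := (spectrum.zero_mem_iff ℂ).2 hu
  intro l hl m hm
  by_contra hcon
  have hne : l * m ≠ 0 := fun h => hcon (h ▸ h0)
  obtain ⟨ν, hν, hν0, hν1⟩ := exists_small_resolvent (spectrum.notMem_iff.1 hcon) hne (by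
    rw [norm_mul]; exact mul_le_one₀ (hT l hl) (norm_nonneg _) (hT m hm))
  obtain ⟨R, hTR, hRT⟩ := exists_R hν
  obtain ⟨b, hb, hfix, hconv⟩ := C.exists_point hu hν1 hTR hRT
  rcases eq_or_lt_of_le (mem_closedBall_zero_iff.1 hb) with hb1 | hb1
  · obtain ⟨j0, hj0⟩ := C.exists_j0 hν1 hTR hRT hconv
    obtain ⟨D⟩ := Bdry.exists_dmodel (C := C)
      ⟨b, hb1, hfix, hmaps, hconv, R, ν, hν0, hν1, hTR, hRT, j0, hj0⟩
    exact hcon (D.mul_mem (mem_spectrum_of_eigen one_ne_zero (by rw [C.T_one, one_smul])) hT hl hm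
      (left_ne_zero_of_mul hne) (right_ne_zero_of_mul hne))
  · exact hcon (sg_of_interior C hu b (mem_ball_zero_iff.2 hb1) hfix hconv l hl m hm)

theorem sg_of_mul (T : DA →ₗ[ℂ] DA) (hT : ∀ f g, T (f * g) = T f * T g) :
    ∃ T' : DA →L[ℂ] DA, (∀ f, T' f = T f) ∧ SG (spectrum ℂ T') := by
  have h1 : T 1 * (T 1 - 1) = 0 := by rw [mul_sub, ← hT, mul_one, mul_one, sub_self]
  rcases eq_zero_or_eq_zero h1 with h | h
  · refine ⟨0, fun f => ?_, sg_of_idem fun f => rfl⟩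
    rw [← mul_one f, hT, h, mul_zero]; rfl
  · obtain ⟨C, hC⟩ := exists_comp T hT (sub_eq_zero.1 h)
    exact ⟨C.T, hC, C.sg⟩

theorem semigroup_DA (T : DA →ₗ[ℂ] DA) (hT : ∀ f g, T (f * g) = T f * T g) :
    SG {l | ¬ ∃ S : DA →L[ℂ] DA, (∀ f, S (T f - l • f) = f) ∧ (∀ f, T (S f) - l • S f = f)} := by
  obtain ⟨T', hT', hsg⟩ := sg_of_mul T hT
  have : {l | ¬ ∃ S : DA →L[ℂ] DA, (∀ f, S (T f - l • f) = f) ∧ (∀ f, T (S f) - l • S f = f)} =
      spectrum ℂ T' := by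
    ext l
    simp only [mem_ofPred_eq, ← hT']
    rw [not_iff_comm]
    constructor
    · intro h
      obtain ⟨R, h1, h2⟩ := exists_R (spectrum.notMem_iff.1 h)
      exact ⟨R, h2, h1⟩
    · rintro ⟨R, h1, h2⟩
      rw [spectrum.notMem_iff, Algebra.algebraMap_eq_smul_one, ← neg_sub]
      exact (isUnit_of_R h2 h1).neg
  rwa [this]

end

end Pool.Agent.MP_ff3f8e_an.H65
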