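import Pool.Agent.MP_ff3f8e_an.H65.Bdry
import Pool.Agent.MP_ff3f8e_an.H65.Flow
import Pool.Agent.MP_ff3f8e_an.H65.Eta

open Metric Set Filter Topology Complex ComplexConjugate

namespace Pool.Agent.MP_ff3f8e_an.H65

noncomputable section

theorem exists_abelModel (ψ : ℂ → ℂ) (hd : DifferentiableOn ℂ ψ {ζ | 0 < ζ.im})
    (him : ∀ ζ : ℂ, 0 < ζ.im → ζ.im < (ψ ζ).im)
    (hI : ∀ δ : ℝ, 0 < δ → ∃ N : ℕ, ∀ ζ : ℂ, 0 < ζ.im → hh (ψ^[N] ζ) (ψ (ψ^[N] ζ)) < δ) :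
    Nonempty (AbelModel ψ) := by
  obtain ⟨H, Z, γ, L, X0, C, hL, hX0, lip, hH, hinj, hZ, hZ', hδ⟩ := exists_flow ψ hd him hI
  have hZm : MapsTo Z {w | γ w.im + X0 < w.re} {ζ | 0 < ζ.im} := fun w hw => (hZ' w hw).1
  have hψm : MapsTo ψ {ζ | 0 < ζ.im} {ζ | 0 < ζ.im} := fun ζ h => lt_trans h (him ζ h)
  obtain ⟨X, η, ξ, γ', L', hX, hL', lip', hη, hηp, hηl, hηm, hξ, hξ'⟩ :=
    exists_eta γ L hL lip X0 C hX0 (fun w => H (ψ (Z w)) - w - 1)
      (((hH.comp (hd.comp hZ hZm) (hψm.comp hZm)).sub differentiableOn_id).sub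
        (differentiableOn_const 1)) fun w hw => (hZ' w hw).2.2
  obtain ⟨δ, hδ0, hδ'⟩ := hδ X
  have hp : ∀ w : ℂ, w + 1 + (H (ψ (Z w)) - w - 1) = H (ψ (Z w)) := fun w => by ring
  simp only [hp] at hηp
  have hZH : ∀ ζ : ℂ, 0 < ζ.im → γ (H ζ).im + X < (H ζ).re → Z (H ζ) = ζ := fun ζ h h' =>
    hinj (hZ' _ (by linarith)).1 h (hZ' _ (by linarith)).2.1
  have hηlo : ∀ w w' : ℂ, γ w.im + X < w.re → γ w'.im + X < w'.re →
      ‖w - w'‖ ≤ 2 * ‖η w - η w'‖ ∧ ‖η w - η w'‖ ≤ 2 * ‖w - w'‖ := by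
    intro w w' h h'
    have a1 := hηl w w' h h'
    have a2 := norm_sub_norm_le (η w - η w') (w - w')
    have a3 := norm_sub_norm_le (w - w') (η w - η w')
    rw [norm_sub_rev (w - w')] at a3
    constructor <;> linarith [norm_nonneg (w - w')]
  set w0 : ℂ := ((γ 0 + X + 1 : ℝ) : ℂ) with hw0
  have hw0V : γ w0.im + X < w0.re := by simp [hw0]
  refine ⟨{
    γ := γ'
    L := L'
    L_nonneg := hL'
    lip := lip'
    U := {ζ | 0 < ζ.im} ∩ H ⁻¹' {w | γ w.im + X < w.re}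
    U_open := hH.continuousOn.isOpen_inter_preimage isOpen_H (isOpen_graph lip X)
    U_im := fun ζ h => h.1
    δ := δ
    δ_pos := hδ0
    mem_U := fun ζ h h' => ⟨h, hδ' ζ h h'⟩
    ψ_mem := fun ζ h => ⟨hψm h.1, by
      have := (hηp _ h.2).1
      rwa [hZH ζ h.1 h.2] at this⟩
    h := fun ζ => η (H ζ)
    h_diff := hη.comp (hH.mono inter_subset_left) fun ζ h => h.2
    h_inj := fun ζ h ζ' h' he => hinj h.1 h'.1 (by
      have := (hηlo _ _ h.2 h'.2).1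
      simp only at he
      rw [he, sub_self, norm_zero, mul_zero] at this
      exact sub_eq_zero.1 (norm_le_zero_iff.1 this))
    h_mem := fun ζ h => hηm _ h.2
    h_ψ := fun ζ h => by
      have := (hηp _ h.2).2
      rwa [hZH ζ h.1 h.2] at this
    Ξ := fun w => Z (ξ w)
    Ξ_diff := hZ.comp hξ fun w hw => by
      have := (hξ' w hw).1
      show γ (ξ w).im + X0 < (ξ w).re
      linarith
    Ξ_mem := fun w hw => by
      have a1 := (hξ' w hw).1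
      have a2 := hZ' (ξ w) (by linarith)
      refine ⟨a2.1, ?_⟩
      show γ (H (Z (ξ w))).im + X < (H (Z (ξ w))).re
      rwa [a2.2.1]
    h_Ξ := fun w hw => by
      have a1 := hξ' w hw
      rw [(hZ' (ξ w) (by linarith [a1.1])).2.1, a1.2]
    proper₁ := fun ρ => ?_
    proper₂ := fun ρ c hc => ?_ }⟩
  · have hK : IsCompact (closedBall w0 (2 * (ρ + ‖η w0‖)) ∩ {w : ℂ | γ w.im + X ≤ w.re}) :=
      (isCompact_closedBall _ _).inter_right (isClosed_le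
        (((lip_continuous lip).comp continuous_im).add continuous_const) continuous_re)
    obtain ⟨ρ', hρ'⟩ := hK.exists_bound_of_continuousOn (hZ.continuousOn.mono fun w hw => by
      have : γ w.im + X ≤ w.re := hw.2
      show γ w.im + X0 < w.re
      linarith)
    refine ⟨ρ', fun ζ h hρ => ?_⟩
    have := hρ' (H ζ) ⟨?_, le_of_lt (show γ (H ζ).im + X < (H ζ).re from h.2)⟩
    · rwa [hZH ζ h.1 h.2] at this
    · rw [mem_closedBall, dist_eq_norm]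
      have a1 := (hηlo _ _ h.2 hw0V).1
      have a2 := norm_sub_le (η (H ζ)) (η w0)
      linarith
  · have hK : IsCompact (closedBall (0 : ℂ) ρ ∩ {ζ : ℂ | c ≤ ζ.im}) :=
      (isCompact_closedBall _ _).inter_right (isClosed_le continuous_const continuous_im)
    obtain ⟨ρ', hρ'⟩ := hK.exists_bound_of_continuousOn (hH.continuousOn.mono fun w hw =>
      lt_of_lt_of_le hc hw.2)
    refine ⟨‖η w0‖ + 2 * (ρ' + ‖w0‖), fun ζ h hρ hc' => ?_⟩
    have a0 := hρ' ζ ⟨by simpa using hρ, hc'⟩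
    have a1 := (hηlo _ _ h.2 hw0V).2
    have a2 := norm_sub_le (H ζ) w0
    have a3 := norm_le_norm_sub_add (η (H ζ)) (η w0)
    linarith

namespace AbelModel

variable {ψ : ℂ → ℂ} (Ab : AbelModel ψ)

lemma iter_mem (n : ℕ) {ζ : ℂ} (h : ζ ∈ Ab.U) : ψ^[n] ζ ∈ Ab.U :=
  MapsTo.iterate (fun _ h => Ab.ψ_mem _ h) n h

lemma h_iter (n : ℕ) {ζ : ℂ} (h : ζ ∈ Ab.U) : Ab.h (ψ^[n] ζ) = Ab.h ζ + n := by
  induction n with
  | zero => simp
  | succ n ih =>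
    rw [Function.iterate_succ_apply', Ab.h_ψ _ (Ab.iter_mem n h), ih]; push_cast; ring

lemma Ξ_succ {w : ℂ} (hw : Ab.γ w.im < w.re) : Ab.Ξ (w + 1) = ψ (Ab.Ξ w) := by
  have hw' : Ab.γ (w + 1).im < (w + 1).re := by simp; linarith
  refine Ab.h_inj (Ab.Ξ_mem _ hw') (Ab.ψ_mem _ (Ab.Ξ_mem _ hw)) ?_
  rw [Ab.h_Ξ _ hw', Ab.h_ψ _ (Ab.Ξ_mem _ hw), Ab.h_Ξ _ hw]

lemma Ξ_h {ζ : ℂ} (h : ζ ∈ Ab.U) : Ab.Ξ (Ab.h ζ + 1) = ψ ζ := by
  have hw' : Ab.γ (Ab.h ζ + 1).im < (Ab.h ζ + 1).re := by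
    have := Ab.h_mem ζ h
    simp; linarith
  refine Ab.h_inj (Ab.Ξ_mem _ hw') (Ab.ψ_mem _ h) ?_
  rw [Ab.h_Ξ _ hw', Ab.h_ψ _ h]

end AbelModel

namespace Bdry

variable {C : Comp} (B : Bdry C)

lemma iter_fix (n : ℕ) : C.φ^[n] B.b = B.b := Function.iterate_fixed B.fix n

lemma mem_ball_of_ne {N : ℕ} (hN : B.j0 ≤ N) {z : ℂ} (hz : z ∈ closedBall (0 : ℂ) 1)
    (hne : C.φ^[N] z ≠ B.b) : C.φ^[N] z ∈ ball (0 : ℂ) 1 := by
  obtain ⟨k, rfl⟩ := Nat.exists_eq_add_of_le hN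
  rw [Function.iterate_add_apply] at hne ⊢
  rw [mem_ball_zero_iff]
  exact lt_of_le_of_ne (by simpa using C.maps_iter _ (C.maps_iter k hz))
    fun h => hne (B.j0_spec _ (C.maps_iter k hz) h)

lemma contAt_icay {N : ℕ} {z : ℂ} (hz : z ∈ closedBall (0 : ℂ) 1)
    (h : C.φ^[N] z ∈ ball (0 : ℂ) 1) :
    ContinuousWithinAt (fun z => B.icay (C.φ^[N] z)) (closedBall 0 1) z :=
  ContinuousAt.comp_continuousWithinAt (f := C.φ^[N])
    (B.icay_diff.continuousOn.continuousAt (isOpen_ball.mem_nhds h)) (C.cont_iter N z hz)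

lemma mem_U (Ab : AbelModel B.ψ) {N : ℕ}
    (hs : ∀ ζ : ℂ, 0 < ζ.im → hh (B.ψ^[N] ζ) (B.ψ (B.ψ^[N] ζ)) < Ab.δ / 2) {z : ℂ}
    (hz : z ∈ closedBall (0 : ℂ) 1) (h : C.φ^[N] z ∈ ball (0 : ℂ) 1) :
    B.icay (C.φ^[N] z) ∈ Ab.U := by
  have h0 := B.icay_pos h
  refine Ab.mem_U _ h0 (lt_of_le_of_lt ?_ (half_lt_self Ab.δ_pos))
  have c1 := (B.contAt_icay hz h).mono ball_subset_closedBall
  have c2 : ContinuousWithinAt (fun z => B.ψ (B.icay (C.φ^[N] z))) (ball 0 1) z :=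
    ContinuousAt.comp_continuousWithinAt (f := fun z => B.icay (C.φ^[N] z))
      (B.ψ_diff.continuousOn.continuousAt (isOpen_H.mem_nhds h0)) c1
  have c3 : ContinuousWithinAt
      (fun z => hh (B.icay (C.φ^[N] z)) (B.ψ (B.icay (C.φ^[N] z)))) (ball 0 1) z :=
    ContinuousAt.comp_continuousWithinAt
      (f := fun z => (B.icay (C.φ^[N] z), B.ψ (B.icay (C.φ^[N] z))))
      (continuousAt_hh h0 (B.ψ_pos h0)) (c1.prodMk c2)
  refine c3.closure_le (by rwa [closure_ball _ one_ne_zero]) continuousWithinAt_const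
    fun v hv => ?_
  have := hs _ (B.icay_pos hv)
  rw [B.iter_icay N hv] at this
  exact this.le

lemma exists_cp (Ab : AbelModel B.ψ) {N : ℕ} (hN : B.j0 ≤ N)
    (hs : ∀ ζ : ℂ, 0 < ζ.im → hh (B.ψ^[N] ζ) (B.ψ (B.ψ^[N] ζ)) < Ab.δ / 2) (F : ℂ → ℂ)
    (hF : DifferentiableOn ℂ F {w | Ab.γ w.im + 1 / 2 < w.re})
    (hF0 : ∀ ε : ℝ, 0 < ε → ∃ ρ : ℝ, ∀ w : ℂ, Ab.γ w.im + 1 ≤ w.re → ρ ≤ ‖w‖ → ‖F w‖ ≤ ε) :
    ∃ f : DA, ∀ ζ : ℂ, 0 < ζ.im → ev (B.cay ζ) f = F (Ab.h (B.ψ^[N] ζ) + 1) := by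
  classical
  set G : ℂ → ℂ := fun z => if C.φ^[N] z = B.b then 0 else F (Ab.h (B.icay (C.φ^[N] z)) + 1)
    with hG
  have hne : ∀ z ∈ ball (0 : ℂ) 1, C.φ^[N] z ≠ B.b := by
    intro z hz h
    have := B.maps.iterate N hz
    rw [h, mem_ball_zero_iff, B.hb] at this
    exact lt_irrefl _ this
  have hth : ∀ ζ ∈ Ab.U, Ab.γ (Ab.h ζ + 1).im + 1 ≤ (Ab.h ζ + 1).re := fun ζ h => by
    have := Ab.h_mem ζ h
    simpa using this
  have hFh : DifferentiableOn ℂ (fun ζ => F (Ab.h ζ + 1)) Ab.U :=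
    hF.comp (Ab.h_diff.add_const 1) fun ζ h => by
      have := hth ζ h
      show Ab.γ (Ab.h ζ + 1).im + 1 / 2 < (Ab.h ζ + 1).re
      linarith
  have hd : DifferentiableOn ℂ G (ball 0 1) := by
    refine DifferentiableOn.congr (f := fun z => F (Ab.h (B.icay (C.φ^[N] z)) + 1)) ?_
      fun z hz => if_neg (hne z hz)
    exact hFh.comp (B.icay_diff.comp (C.diff_iter N) (B.maps.iterate N))
      fun z hz => B.mem_U Ab hs (ball_subset_closedBall hz) (B.maps.iterate N hz)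
  have hc : ContinuousOn G (closedBall 0 1) := by
    intro z hz
    by_cases h : C.φ^[N] z = B.b
    · rw [ContinuousWithinAt, show G z = 0 from if_pos h, Metric.tendsto_nhds]
      intro ε hε
      obtain ⟨ρ, hρ⟩ := hF0 (ε / 2) (by positivity)
      obtain ⟨ρ', hρ'⟩ := Ab.proper₁ (ρ + 1)
      have t1 : Tendsto C.φ^[N] (𝓝[closedBall 0 1] z) (𝓝 B.b) := h ▸ C.cont_iter N z hz
      filter_upwards [t1.eventually (ball_mem_nhds B.b (by positivity : 0 < 2 / (|ρ'| + 1))),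
        self_mem_nhdsWithin] with v hv hv'
      rw [dist_zero_right]
      by_cases h' : C.φ^[N] v = B.b
      · simpa [hG, h'] using hε
      · have a1 := B.mem_ball_of_ne hN hv' h'
        have a2 := B.mem_U Ab hs hv' a1
        have a3 := B.far_of_close a1 (ρ := ρ') (by rwa [← dist_eq_norm])
        have a4 : ρ + 1 < ‖Ab.h (B.icay (C.φ^[N] v))‖ := by
          by_contra hcon
          linarith [hρ' _ a2 (not_lt.1 hcon)]
        have a5 : ‖Ab.h (B.icay (C.φ^[N] v))‖ ≤ ‖Ab.h (B.icay (C.φ^[N] v)) + 1‖ + 1 := by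
          simpa using norm_sub_le (Ab.h (B.icay (C.φ^[N] v)) + 1) 1
        have a6 := hρ _ (hth _ a2) (by linarith)
        rw [show G v = _ from if_neg h']
        linarith
    · have a1 := B.mem_ball_of_ne hN hz h
      have c1 : ContinuousWithinAt (fun z => F (Ab.h (B.icay (C.φ^[N] z)) + 1))
          (closedBall 0 1) z :=
        ContinuousAt.comp_continuousWithinAt (g := fun ζ => F (Ab.h ζ + 1))
          (f := fun z => B.icay (C.φ^[N] z))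
          (hFh.continuousOn.continuousAt (Ab.U_open.mem_nhds (B.mem_U Ab hs hz a1)))
          (B.contAt_icay hz a1)
      refine c1.congr_of_eventuallyEq ?_ (if_neg h)
      filter_upwards [(C.cont_iter N z hz).eventually (isOpen_ne.mem_nhds h)] with v hv
      exact if_neg hv
  obtain ⟨f, hf⟩ := exists_ev_eq hc hd
  refine ⟨f, fun ζ h => ?_⟩
  rw [hf _ (ball_subset_closedBall (B.cay_mem h)), B.iter_eq N h]
  exact if_neg (hne _ (B.cay_mem h))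

include B in
theorem exists_dmodel : Nonempty (DModel DA C.T {ζ : ℂ // 0 < ζ.im}) := by
  classical
  obtain ⟨Ab⟩ := exists_abelModel B.ψ B.ψ_diff B.hmodel.ψ_im B.hmodel.small_steps
  obtain ⟨N0, hN0⟩ := B.hmodel.small_steps (Ab.δ / 2) (half_pos Ab.δ_pos)
  have hpos : ∀ (n : ℕ) {ζ : ℂ}, 0 < ζ.im → 0 < (B.ψ^[n] ζ).im := fun n _ h =>
    B.hmodel.iter_pos n h
  have hs : ∀ ζ : ℂ, 0 < ζ.im → hh (B.ψ^[N0 + B.j0] ζ) (B.ψ (B.ψ^[N0 + B.j0] ζ)) < Ab.δ / 2 := by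
    intro ζ h
    rw [Function.iterate_add_apply]
    exact hN0 _ (hpos _ h)
  set N := N0 + B.j0 with hN
  have hU : ∀ ζ : ℂ, 0 < ζ.im → B.ψ^[N] ζ ∈ Ab.U := fun ζ h =>
    Ab.mem_U _ (hpos N h) ((hs ζ h).trans (half_lt_self Ab.δ_pos))
  let φ : {ζ : ℂ // 0 < ζ.im} → {ζ : ℂ // 0 < ζ.im} := fun p => ⟨B.ψ p, B.ψ_pos p.2⟩
  have hφ : ∀ (n : ℕ) (p : {ζ : ℂ // 0 < ζ.im}), (φ^[n] p : ℂ) = B.ψ^[n] p := by
    intro n p
    induction n with
    | zero => rfl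
    | succ n ih => rw [Function.iterate_succ_apply', Function.iterate_succ_apply', ← ih]
  let χ : ℂ → {ζ : ℂ // 0 < ζ.im} := fun w =>
    if hw : Ab.γ w.im < w.re then
      ⟨B.ψ^[B.j0] (Ab.Ξ w), hpos _ (Ab.U_im _ (Ab.Ξ_mem w hw))⟩ else ⟨I, by simp⟩
  have hχ : ∀ w : ℂ, Ab.γ w.im < w.re → (χ w : ℂ) = B.ψ^[B.j0] (Ab.Ξ w) := fun w hw => by
    simp only [χ, dif_pos hw]
  have hb : B.b ∈ closedBall (0 : ℂ) 1 := by simp [B.hb]
  refine ⟨{
    e := fun p => ev (B.cay p)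
    eb := ev B.b
    φ := φ
    e_le := fun p f => norm_ev_le _ f
    norm_le := fun f c h => B.hmodel.norm_le f c fun ζ hζ => h ⟨ζ, hζ⟩
    e_T := fun p f => B.hmodel.E_T f p p.2
    eb_T := fun f => by rw [C.ev_T f _ hb, B.fix]
    γ := Ab.γ
    L := Ab.L
    L_nonneg := Ab.L_nonneg
    lip := Ab.lip
    h := fun p => Ab.h (B.ψ^[N] p) + 1
    h_mem := fun p => by simpa using Ab.h_mem _ (hU p p.2)
    h_φ := fun p => by
      show Ab.h (B.ψ^[N] (B.ψ p)) + 1 = _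
      rw [← Function.iterate_succ_apply, Function.iterate_succ_apply', Ab.h_ψ _ (hU p p.2)]
    χ := χ
    N := B.j0 + N + 1
    χ_diff := fun f => ?_
    χ_succ := fun w hw => ?_
    χ_h := fun p => ?_
    h_χ := fun w hw => ?_
    χ_lim := fun f ε hε => ?_
    cp := fun F hF hF0 => ?_ }⟩
  · refine DifferentiableOn.congr (f := fun w => ev (B.cay (B.ψ^[B.j0] (Ab.Ξ w))) f) ?_
      fun w hw => by rw [hχ w hw]
    exact (B.hmodel.E_diff f).comp ((B.hmodel.iter_diff B.j0).comp Ab.Ξ_diff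
      fun w hw => Ab.U_im _ (Ab.Ξ_mem w hw)) fun w hw => hpos _ (Ab.U_im _ (Ab.Ξ_mem w hw))
  · have hw' : Ab.γ (w + 1).im < (w + 1).re := by simp; linarith
    apply Subtype.ext
    show _ = B.ψ (χ w)
    rw [hχ _ hw', hχ _ hw, Ab.Ξ_succ hw, ← Function.iterate_succ_apply,
      Function.iterate_succ_apply']
  · have hw' : Ab.γ (Ab.h (B.ψ^[N] p) + 1).im < (Ab.h (B.ψ^[N] p) + 1).re := by
      have := Ab.h_mem _ (hU p p.2)
      simp; linarith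
    apply Subtype.ext
    rw [hχ _ hw', hφ, Ab.Ξ_h (hU p p.2), add_assoc, Function.iterate_add_apply _ B.j0 (N + 1),
      Function.iterate_succ_apply']
  · rw [hχ _ hw, ← Function.iterate_add_apply, Ab.h_iter _ (Ab.Ξ_mem w hw), Ab.h_Ξ w hw]
    push_cast; ring
  · obtain ⟨η, hη, hη'⟩ := Metric.continuousWithinAt_iff.1 (ev_continuousOn f B.b hb) ε hε
    obtain ⟨c, hc, hc'⟩ := B.height (2 / η + 1)
    obtain ⟨ρ', hρ'⟩ := Ab.proper₂ (2 / η + 1) c hc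
    refine ⟨ρ' + B.j0 + 1, fun w hw hρ => ?_⟩
    have a0 := Ab.Ξ_mem w hw
    have a1 := hpos B.j0 (Ab.U_im _ a0)
    have a2 : 2 / η + 1 < ‖B.ψ^[B.j0] (Ab.Ξ w)‖ := by
      by_contra hcon
      push Not at hcon
      have b1 := hρ' _ (Ab.iter_mem B.j0 a0) hcon (hc' _ (Ab.U_im _ a0) hcon)
      rw [Ab.h_iter _ a0, Ab.h_Ξ w hw] at b1
      have b2 : ‖w‖ ≤ ‖w + B.j0‖ + B.j0 := by simpa using norm_sub_le (w + B.j0) (B.j0 : ℂ)
      linarith
    rw [hχ w hw, ← dist_eq_norm]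
    refine (hη' (ball_subset_closedBall (B.cay_mem a1)) ?_).le
    rw [dist_eq_norm]
    exact B.close_of_far a1 hη a2
  · obtain ⟨f, hf⟩ := B.exists_cp Ab (Nat.le_add_left _ _) hs F hF hF0
    exact ⟨f, fun p => hf p p.2⟩

end Bdry

end

end Pool.Agent.MP_ff3f8e_an.H65
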