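import Pool.Agent.MP_ff3f8e_an.H65.Tools
import Pool.Agent.MP_ff3f8e_an.H65.Rect

open Metric Set Filter Topology Complex MeasureTheory

namespace Pool.Agent.MP_ff3f8e_an.H65

namespace S2

noncomputable section

/-- Integral over the path from `a1 + i y1` horizontally to `X + i y1`, up to `X + i y2`,
horizontally to `a2 + i y2`. -/
def CI (k : ℂ → ℂ) (y1 y2 X a1 a2 : ℝ) : ℂ :=
  (∫ x in X..a2, k (x + y2 * I)) + I * (∫ y in y1..y2, k (X + y * I)) -
    ∫ x in X..a1, k (x + y1 * I)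

/-- Integrability along a horizontal segment. -/
abbrev HI (k : ℂ → ℂ) (c a b : ℝ) : Prop :=
  IntervalIntegrable (fun x : ℝ => k (x + c * I)) volume a b

lemma hi_of_cont {k : ℂ → ℂ} {S : Set ℂ} (hk : ContinuousOn k S) {c a b : ℝ}
    (h : ∀ x ∈ uIcc a b, (x : ℂ) + c * I ∈ S) : HI k c a b :=
  (hk.comp (f := fun x : ℝ => (x : ℂ) + c * I) (by fun_prop) h).intervalIntegrable

lemma vi_of_cont {k : ℂ → ℂ} {S : Set ℂ} (hk : ContinuousOn k S) {c a b : ℝ}
    (h : ∀ y ∈ uIcc a b, (c : ℂ) + y * I ∈ S) :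
    IntervalIntegrable (fun y : ℝ => k (c + y * I)) volume a b :=
  (hk.comp (f := fun y : ℝ => (c : ℂ) + y * I) (by fun_prop) h).intervalIntegrable

lemma CI_sub {k : ℂ → ℂ} {y1 y2 X X' a1 a2 : ℝ} (h1 : HI k y1 X a1) (h2 : HI k y2 X a2)
    (h1' : HI k y1 X X') (h2' : HI k y2 X X') :
    CI k y1 y2 X' a1 a2 - CI k y1 y2 X a1 a2 =
      (∫ x in X..X', k (x + y1 * I)) - (∫ x in X..X', k (x + y2 * I)) +
        I * (∫ y in y1..y2, k (X' + y * I)) - I * (∫ y in y1..y2, k (X + y * I)) := by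
  have e1 := intervalIntegral.integral_interval_sub_left h1 h1'
  have e2 := intervalIntegral.integral_interval_sub_left h2 h2'
  unfold CI
  linear_combination e1 - e2

lemma CI_move {k : ℂ → ℂ} {y1 y2 X X' a1 a2 : ℝ} (h1 : HI k y1 X a1) (h2 : HI k y2 X a2)
    (hk : DifferentiableOn ℂ k (uIcc X X' ×ℂ uIcc y1 y2)) :
    CI k y1 y2 X' a1 a2 = CI k y1 y2 X a1 a2 := by
  have h1' : HI k y1 X X' := hi_of_cont hk.continuousOn fun x hx => by
    simp [mem_reProdIm, hx]
  have h2' : HI k y2 X X' := hi_of_cont hk.continuousOn fun x hx => by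
    simp [mem_reProdIm, hx]
  have e := CI_sub h1 h2 h1' h2'
  have g := integral_boundary_rect_eq_zero_of_differentiableOn k (X + y1 * I) (X' + y2 * I)
    (by simpa using hk)
  simp only [add_re, ofReal_re, mul_re, I_re, mul_zero, ofReal_im, I_im, mul_one, sub_self,
    add_zero, add_im, mul_im, zero_add, smul_eq_mul] at g
  rw [← sub_eq_zero, e, g]

lemma CI_cauchy {f : ℂ → ℂ} (hf : Differentiable ℂ f) {y1 y2 X X' a1 a2 : ℝ} {w : ℂ}
    (ha : X < w.re) (hb : w.re < X') (hc : y1 < w.im) (hd : w.im < y2) :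
    CI (fun t => f t / (t - w)) y1 y2 X' a1 a2 - CI (fun t => f t / (t - w)) y1 y2 X a1 a2 =
      2 * Real.pi * I * f w := by
  have hcont : ContinuousOn (fun t => f t / (t - w)) {t | t.im ≠ w.im} :=
    ContinuousOn.div hf.continuous.continuousOn (by fun_prop) fun t ht h0 =>
      ht (by rw [sub_eq_zero.1 h0])
  have H : ∀ c a b : ℝ, c ≠ w.im → HI (fun t => f t / (t - w)) c a b := fun c a b hc =>
    hi_of_cont hcont fun x _ => by simpa using hc
  rw [CI_sub (H _ _ _ hc.ne) (H _ _ _ hd.ne') (H _ _ _ hc.ne) (H _ _ _ hd.ne')]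
  exact rect_cauchy f X X' y1 y2 w ha hb hc hd hf.differentiableOn

lemma CI_shift (k : ℂ → ℂ) (c y1 y2 X a1 a2 : ℝ) :
    CI (fun t => k (t + c)) y1 y2 X a1 a2 = CI k y1 y2 (X + c) (a1 + c) (a2 + c) := by
  unfold CI
  have e : ∀ y a b : ℝ, (∫ x in a..b, k (x + y * I + c)) = ∫ x in a + c..b + c, k (x + y * I) := by
    intro y a b
    rw [← intervalIntegral.integral_comp_add_right (fun x : ℝ => k (x + y * I)) c]
    congr 1; funext x; congr 1; push_cast; ring
  rw [e, e]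
  congr 4
  funext y; beta_reduce; congr 1; push_cast; ring

lemma CI_ends {k : ℂ → ℂ} {y1 y2 X a1 a2 b1 b2 : ℝ} (h1 : HI k y1 X a1) (h2 : HI k y2 X a2)
    (h1' : HI k y1 X b1) (h2' : HI k y2 X b2) :
    CI k y1 y2 X b1 b2 - CI k y1 y2 X a1 a2 =
      (∫ x in a2..b2, k (x + y2 * I)) - ∫ x in a1..b1, k (x + y1 * I) := by
  have e1 := intervalIntegral.integral_interval_sub_left h1' h1
  have e2 := intervalIntegral.integral_interval_sub_left h2' h2
  unfold CI
  linear_combination e2 - e1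

lemma CI_const_mul (c : ℂ) (k : ℂ → ℂ) (y1 y2 X a1 a2 : ℝ) :
    CI (fun t => c * k t) y1 y2 X a1 a2 = c * CI k y1 y2 X a1 a2 := by
  unfold CI
  simp only [intervalIntegral.integral_const_mul]
  ring

lemma CI_congr {k k' : ℂ → ℂ} {S : Set ℂ} (h : EqOn k k' S) {y1 y2 X a1 a2 : ℝ}
    (h1 : ∀ x ∈ uIcc X a1, (x : ℂ) + y1 * I ∈ S) (h2 : ∀ x ∈ uIcc X a2, (x : ℂ) + y2 * I ∈ S)
    (h3 : ∀ y ∈ uIcc y1 y2, (X : ℂ) + y * I ∈ S) :
    CI k y1 y2 X a1 a2 = CI k' y1 y2 X a1 a2 := by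
  unfold CI
  rw [intervalIntegral.integral_congr (g := fun x : ℝ => k' (x + y2 * I)) fun x hx => h (h2 x hx),
    intervalIntegral.integral_congr (g := fun x : ℝ => k' (x + y1 * I)) fun x hx => h (h1 x hx),
    intervalIntegral.integral_congr (g := fun y : ℝ => k' (X + y * I)) fun x hx => h (h3 x hx)]

lemma CI_sub_fun {k k' : ℂ → ℂ} {S : Set ℂ} (hk : ContinuousOn k S) (hk' : ContinuousOn k' S)
    {y1 y2 X a1 a2 : ℝ}
    (h1 : ∀ x ∈ uIcc X a1, (x : ℂ) + y1 * I ∈ S) (h2 : ∀ x ∈ uIcc X a2, (x : ℂ) + y2 * I ∈ S)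
    (h3 : ∀ y ∈ uIcc y1 y2, (X : ℂ) + y * I ∈ S) :
    CI (fun t => k t - k' t) y1 y2 X a1 a2 = CI k y1 y2 X a1 a2 - CI k' y1 y2 X a1 a2 := by
  unfold CI
  rw [intervalIntegral.integral_sub (hi_of_cont hk h2) (hi_of_cont hk' h2),
    intervalIntegral.integral_sub (hi_of_cont hk h1) (hi_of_cont hk' h1),
    intervalIntegral.integral_sub (vi_of_cont hk h3) (vi_of_cont hk' h3)]
  ring

lemma norm_CI_le (k : ℂ → ℂ) (y1 y2 X a1 a2 : ℝ) :
    ‖CI k y1 y2 X a1 a2‖ ≤ ‖∫ x in X..a2, k (x + y2 * I)‖ + ‖∫ y in y1..y2, k (X + y * I)‖ +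
      ‖∫ x in X..a1, k (x + y1 * I)‖ := by
  unfold CI
  refine (norm_sub_le _ _).trans ?_
  gcongr
  refine (norm_add_le _ _).trans ?_
  rw [norm_mul, norm_I, one_mul]

lemma norm_int_exp_neg {g : ℝ → ℂ} {a b B σ : ℝ} (hσ : 0 < σ) (hab : a ≤ b) (hB : 0 ≤ B)
    (h : ∀ x, ‖g x‖ ≤ B * Real.exp (-σ * x)) :
    ‖∫ x in b..a, g x‖ ≤ B * Real.exp (-σ * a) / σ := by
  rw [intervalIntegral.integral_symm, norm_neg]
  refine (intervalIntegral.norm_integral_le_of_norm_le hab (Eventually.of_forall fun x _ => h x)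
    (Continuous.intervalIntegrable (by fun_prop) _ _)).trans ?_
  have hd : ∀ x ∈ uIcc a b, HasDerivAt (fun x => -(B * Real.exp (-σ * x) / σ))
      (B * Real.exp (-σ * x)) x := by
    intro x _
    have := ((((hasDerivAt_id x).const_mul (-σ)).exp.const_mul B).div_const σ).neg
    refine this.congr_deriv ?_
    simp only [id]
    field_simp
  rw [intervalIntegral.integral_eq_sub_of_hasDerivAt hd
    (Continuous.intervalIntegrable (by fun_prop) _ _)]
  have : 0 ≤ B * Real.exp (-σ * b) / σ := by positivity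
  linarith

lemma norm_int_exp_pos {g : ℝ → ℂ} {a b B σ : ℝ} (hσ : 0 < σ) (hab : a ≤ b) (hB : 0 ≤ B)
    (h : ∀ x, ‖g x‖ ≤ B * Real.exp (σ * x)) :
    ‖∫ x in a..b, g x‖ ≤ B * Real.exp (σ * b) / σ := by
  refine (intervalIntegral.norm_integral_le_of_norm_le hab (Eventually.of_forall fun x _ => h x)
    (Continuous.intervalIntegrable (by fun_prop) _ _)).trans ?_
  have hd : ∀ x ∈ uIcc a b, HasDerivAt (fun x => B * Real.exp (σ * x) / σ)
      (B * Real.exp (σ * x)) x := by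
    intro x _
    have := (((hasDerivAt_id x).const_mul σ).exp.const_mul B).div_const σ
    refine this.congr_deriv ?_
    simp only [id]
    field_simp
  rw [intervalIntegral.integral_eq_sub_of_hasDerivAt hd
    (Continuous.intervalIntegrable (by fun_prop) _ _)]
  have : 0 ≤ B * Real.exp (σ * a) / σ := by positivity
  linarith

/-- A Cauchy transform is holomorphic away from the path. -/
lemma cauchy_diff {g z : ℝ → ℂ} (hg : Continuous g) (hz : Continuous z) (a b : ℝ) {U : Set ℂ}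
    (hU : IsOpen U) {δ : ℝ} (hδ : 0 < δ) (h : ∀ x ∈ uIcc a b, ∀ w ∈ U, δ ≤ ‖z x - w‖) :
    DifferentiableOn ℂ (fun w => ∫ x in a..b, g x / (z x - w)) U := by
  intro w0 hw0
  have hne : ∀ x ∈ uIcc a b, ∀ w ∈ U, z x - w ≠ 0 := fun x hx w hw h0 => by
    have := h x hx w hw
    rw [h0, norm_zero] at this; linarith
  have hc : ∀ w ∈ U, ContinuousOn (fun x => g x / (z x - w)) (uIcc a b) := fun w hw =>
    hg.continuousOn.div (by fun_prop) fun x hx => hne x hx w hw
  have hc' : ContinuousOn (fun x => g x / (z x - w0) ^ 2) (uIcc a b) :=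
    hg.continuousOn.div (by fun_prop) fun x hx => pow_ne_zero _ (hne x hx w0 hw0)
  have := intervalIntegral.hasDerivAt_integral_of_dominated_loc_of_deriv_le (μ := volume)
    (F := fun w x => g x / (z x - w)) (F' := fun w x => g x / (z x - w) ^ 2) (a := a) (b := b)
    (bound := fun x => ‖g x‖ / δ ^ 2) (hU.mem_nhds hw0)
    (by
      filter_upwards [hU.mem_nhds hw0] with w hw
      exact ((hc w hw).mono uIoc_subset_uIcc).aestronglyMeasurable measurableSet_uIoc)
    (hc w0 hw0).intervalIntegrable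
    ((hc'.mono uIoc_subset_uIcc).aestronglyMeasurable measurableSet_uIoc)
    (Eventually.of_forall fun x hx w hw => by
      rw [norm_div, norm_pow]
      have := h x (uIoc_subset_uIcc hx) w hw
      gcongr)
    (Continuous.intervalIntegrable (by fun_prop) _ _)
    (Eventually.of_forall fun x hx w hw => by
      have h0 := hne x (uIoc_subset_uIcc hx) w hw
      have := (hasDerivAt_const w (g x)).fun_div ((hasDerivAt_id w).const_sub (z x)) h0
      refine this.congr_deriv ?_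
      simp)
  exact this.2.differentiableAt.differentiableWithinAt

/-- A Cauchy transform tends to zero at infinity. -/
lemma cauchy_decay {g z : ℝ → ℂ} (hg : Continuous g) (hz : Continuous z) (a b : ℝ) {ε : ℝ}
    (hε : 0 < ε) : ∃ ρ : ℝ, ∀ w : ℂ, ρ ≤ ‖w‖ → ‖∫ x in a..b, g x / (z x - w)‖ ≤ ε := by
  obtain ⟨B, hB⟩ := (isCompact_uIcc (a := a) (b := b)).exists_bound_of_continuousOn hg.continuousOn
  obtain ⟨R, hR⟩ := (isCompact_uIcc (a := a) (b := b)).exists_bound_of_continuousOn hz.continuousOn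
  have hB0 : 0 ≤ B := (norm_nonneg _).trans (hB a left_mem_uIcc)
  set d : ℝ := B * |b - a| / ε + 1 with hd
  have hd0 : 0 < d := by positivity
  refine ⟨R + d, fun w hw => ?_⟩
  refine (intervalIntegral.norm_integral_le_of_norm_le_const (C := B / d) fun x hx => ?_).trans ?_
  · have hx' := uIoc_subset_uIcc hx
    have h1 := hR x hx'
    have h2 : ‖w‖ - ‖z x‖ ≤ ‖z x - w‖ := by rw [norm_sub_rev]; exact norm_sub_norm_le _ _
    rw [norm_div]
    gcongr
    · exact hB x hx'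
    · linarith
  · rw [div_mul_eq_mul_div, div_le_iff₀ hd0, hd, mul_add, mul_div_cancel₀ _ hε.ne']
    linarith

/-- A function without large peaks and valleys is coarsely monotone. -/
lemma four_point {F : ℝ → ℝ} {C : ℝ}
    (hp : ∀ y1 y y2, y1 ≤ y → y ≤ y2 → F y ≤ max (F y1) (F y2) + C)
    (hv : ∀ y1 y y2, y1 ≤ y → y ≤ y2 → min (F y1) (F y2) - C ≤ F y) :
    (∀ y y', y ≤ y' → F y - 2 * C ≤ F y') ∨ (∀ y y', y ≤ y' → F y' ≤ F y + 2 * C) := by
  have hC : 0 ≤ C := by simpa using hp 0 0 0 le_rfl le_rfl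
  by_contra hcon
  push Not at hcon
  obtain ⟨⟨y1, y2, h12, hd⟩, y3, y4, h34, hr⟩ := hcon
  rcases le_total (F (min y1 y3)) (F (max y2 y4)) with h | h
  · have a1 := hp (min y1 y3) y1 y2 (min_le_left _ _) h12
    have a2 := hv (min y1 y3) y2 (max y2 y4) ((min_le_left _ _).trans h12) (le_max_left _ _)
    rw [min_eq_left h] at a2
    rcases le_total (F (min y1 y3)) (F y2) with h' | h'
    · rw [max_eq_right h'] at a1; linarith
    · rw [max_eq_left h'] at a1; linarith
  · have a1 := hp y3 y4 (max y2 y4) h34 (le_max_right _ _)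
    have a2 := hv (min y1 y3) y3 (max y2 y4) (min_le_right _ _) (h34.trans (le_max_right _ _))
    rw [min_eq_right h] at a2
    rcases le_total (F y3) (F (max y2 y4)) with h' | h'
    · rw [max_eq_right h'] at a1; linarith
    · rw [max_eq_left h'] at a1; linarith

/-- Removal of the spacing condition in the peak estimate. -/
lemma peak_of_spaced {F : ℝ → ℝ} {K Λ : ℝ} (hK : 1 ≤ K) (hΛ : 0 ≤ Λ)
    (lip : ∀ y y', |F y - F y'| ≤ Λ * |y - y'|)
    (h : ∀ y1 y y2, y1 + 1 ≤ y → y + 1 ≤ y2 →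
      Real.exp (F y) ≤ K * (Real.exp (F y1) + Real.exp (F y2))) :
    ∀ y1 y y2, y1 ≤ y → y ≤ y2 → F y ≤ max (F y1) (F y2) + (Λ + Real.log (2 * K)) := by
  intro y1 y y2 h1 h2
  have hlog : 0 ≤ Real.log (2 * K) := Real.log_nonneg (by linarith)
  have m1 := le_max_left (F y1) (F y2)
  have m2 := le_max_right (F y1) (F y2)
  by_cases c1 : y1 + 1 ≤ y
  · by_cases c2 : y + 1 ≤ y2
    · have := h y1 y y2 c1 c2
      have e1 := Real.exp_le_exp.2 m1
      have e2 := Real.exp_le_exp.2 m2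
      have e3 : Real.exp (F y) ≤ Real.exp (max (F y1) (F y2) + Real.log (2 * K)) := by
        rw [Real.exp_add, Real.exp_log (by linarith)]
        nlinarith
      linarith [Real.exp_le_exp.1 e3]
    · have a := (abs_le.1 (lip y y2)).2
      have b : |y - y2| ≤ 1 := abs_le.2 ⟨by linarith, by linarith⟩
      nlinarith
  · have a := (abs_le.1 (lip y y1)).2
    have b : |y - y1| ≤ 1 := abs_le.2 ⟨by linarith, by linarith⟩
    nlinarith

end

end S2

end Pool.Agent.MP_ff3f8e_an.H65
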