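import Pool.Agent.MP_ff3f8e_an.H65.S2A

open Metric Set Filter Topology Complex MeasureTheory

namespace Pool.Agent.MP_ff3f8e_an.H65

namespace S2

noncomputable section

/-- The logarithm of `|exp (-s w)|` on the graph. -/
def FF (γ : ℝ → ℝ) (s : ℂ) (y : ℝ) : ℝ := -s.re * γ y + s.im * y

/-- The constant of the peak and valley estimates. -/
def KK (L M σ : ℝ) (N : ℕ) : ℝ :=
  (M * (1 + L) * Real.exp (2 * σ) + Real.exp σ / σ) * Real.exp (σ * (N + 1))

lemma norm_exp_neg (s : ℂ) (x y : ℝ) :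
    ‖exp (-s * (x + y * I))‖ = Real.exp (-s.re * x + s.im * y) := by
  rw [Complex.norm_exp]; congr 1; simp; ring

lemma norm_exp_pos (s : ℂ) (x y : ℝ) :
    ‖exp (s * (x + y * I))‖ = Real.exp (s.re * x - s.im * y) := by
  rw [Complex.norm_exp]; congr 1; simp

lemma le_of_exp_decay {a b c σ X0 : ℝ} (hσ : 0 < σ)
    (h : ∀ X, X0 ≤ X → a ≤ b + c * Real.exp (-σ * X)) : a ≤ b := by
  have h1 : Tendsto (fun X : ℝ => -σ * X) atTop atBot :=
    tendsto_id.const_mul_atTop_of_neg (by linarith)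
  have h2 : Tendsto (fun X : ℝ => b + c * Real.exp (-σ * X)) atTop (𝓝 (b + c * 0)) :=
    ((Real.tendsto_exp_atBot.comp h1).const_mul c).const_add b
  rw [mul_zero, add_zero] at h2
  exact ge_of_tendsto h2 (eventually_atTop.2 ⟨X0, h⟩)

lemma one_le_norm_of_im {t w : ℂ} (h : 1 ≤ |t.im - w.im|) : 1 ≤ ‖t - w‖ :=
  h.trans (by simpa using abs_im_le_norm (t - w))

lemma one_le_norm_of_re {t w : ℂ} (h : 1 ≤ |t.re - w.re|) : 1 ≤ ‖t - w‖ :=
  h.trans (by simpa using abs_re_le_norm (t - w))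

lemma norm_div_le_of_one_le {a t : ℂ} (h : 1 ≤ ‖t‖) : ‖a / t‖ ≤ ‖a‖ := by
  rw [norm_div]; exact div_le_self (norm_nonneg _) h

lemma mul_le_of_mem {τ y y1 y2 : ℝ} (h : y ∈ uIoc y1 y2) : |τ * y| ≤ |τ| * (|y1| + |y2|) := by
  rw [abs_mul]
  gcongr
  have a := le_abs_self y1; have b := neg_abs_le y1
  have c := le_abs_self y2; have d := neg_abs_le y2
  rcases mem_uIoc.1 h with h | h <;> rw [abs_le] <;> constructor <;>
    linarith [h.1, h.2, abs_nonneg y1, abs_nonneg y2]

variable {A : Type} [NormedCommRing A] [NormedAlgebra ℂ A] {T : A →L[ℂ] A} {P : Type}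

lemma dist_ge (D : DModel A T P) {t w : ℂ} {c : ℝ} (ht : t.re ≤ D.γ t.im)
    (hw : D.γ w.im + c ≤ w.re) : c / (1 + D.L) ≤ ‖t - w‖ := by
  have := graph_lip D.L_nonneg D.lip w t
  have hL := D.L_nonneg
  rw [div_le_iff₀ (by positivity)]
  nlinarith

lemma gamma_bounds (D : DModel A T P) {y1 y2 y : ℝ} (h12 : y1 ≤ y2) (hy : y ∈ uIcc y1 y2) :
    D.γ y1 - D.L * (y2 - y1) ≤ D.γ y ∧ D.γ y ≤ D.γ y1 + D.L * (y2 - y1) := by
  rw [uIcc_of_le h12] at hy
  have h := abs_le.1 (D.lip y y1)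
  rw [abs_of_nonneg (by linarith [hy.1])] at h
  have hL := D.L_nonneg
  have : D.L * (y - y1) ≤ D.L * (y2 - y1) := by gcongr; exact hy.2
  constructor <;> linarith [h.1, h.2]

lemma e_sub (D : DModel A T P) (p : P) (f : A) (l : ℂ) :
    D.e p (T f - l • f) = D.e (D.φ p) f - l * D.e p f := by
  rw [map_sub, map_smul, D.e_T, smul_eq_mul]

lemma norm_l_le {s : ℂ} (hs : 0 < s.re) : ‖exp (-s)‖ ≤ 1 := by
  rw [Complex.norm_exp, Real.exp_le_one_iff]; simp; linarith

lemma peak (D : DModel A T P) {s : ℂ} (hs : 0 < s.re) {M : ℝ} (hM : 0 ≤ M)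
    (hlow : ∀ f, ‖f‖ ≤ M * ‖T f - exp (-s) • f‖) (y1 y y2 : ℝ) (h1 : y1 + 1 ≤ y)
    (h2 : y + 1 ≤ y2) :
    Real.exp (FF D.γ s y) ≤
      KK D.L M s.re D.N * (Real.exp (FF D.γ s y1) + Real.exp (FF D.γ s y2)) := by
  have hL := D.L_nonneg
  have h12 : y1 ≤ y2 := by linarith
  set X0 : ℝ := D.γ y1 - D.L * (y2 - y1) with hX0
  have hX : ∀ u ∈ uIcc y1 y2, X0 ≤ D.γ u := fun u hu => (gamma_bounds D h12 hu).1
  have hX1 := hX y1 left_mem_uIcc
  have hX2 := hX y2 right_mem_uIcc
  set k : ℂ → ℂ → ℂ := fun w t => exp (-s * t) / (t - w) with hk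
  set Φ : ℂ → ℂ := fun w => CI (k w) y1 y2 X0 (D.γ y1) (D.γ y2) with hΦ
  have hor : ∀ u a b : ℝ, a ≤ D.γ u → b ≤ D.γ u → ∀ x ∈ uIcc a b,
      ((x : ℂ) + u * I).re ≤ D.γ ((x : ℂ) + u * I).im := by
    intro u a b ha hb x hx
    have : x ≤ D.γ u := hx.2.trans (max_le ha hb)
    simpa using this
  have ver : ∀ u ∈ uIcc y1 y2, ((X0 : ℂ) + u * I).re ≤ D.γ ((X0 : ℂ) + u * I).im := by
    intro u hu; simpa using hX u hu
  have hδ : 0 < 1 / 2 / (1 + D.L) := by positivity
  have hdiff : DifferentiableOn ℂ Φ {w | D.γ w.im + 1 / 2 < w.re} := by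
    have hU := isOpen_graph D.lip (1 / 2)
    refine (DifferentiableOn.add ?_ (DifferentiableOn.const_mul ?_ I)).sub ?_
    · exact cauchy_diff (g := fun x : ℝ => exp (-s * (x + y2 * I))) (z := fun x : ℝ => x + y2 * I)
        (by fun_prop) (by fun_prop) _ _ hU hδ fun x hx w hw =>
          dist_ge D (hor y2 _ _ hX2 le_rfl x hx) (le_of_lt hw)
    · exact cauchy_diff (g := fun u : ℝ => exp (-s * (X0 + u * I))) (z := fun u : ℝ => X0 + u * I)
        (by fun_prop) (by fun_prop) _ _ hU hδ fun u hu w hw => dist_ge D (ver u hu) (le_of_lt hw)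
    · exact cauchy_diff (g := fun x : ℝ => exp (-s * (x + y1 * I))) (z := fun x : ℝ => x + y1 * I)
        (by fun_prop) (by fun_prop) _ _ hU hδ fun x hx w hw =>
          dist_ge D (hor y1 _ _ hX1 le_rfl x hx) (le_of_lt hw)
  have hdec : ∀ ε : ℝ, 0 < ε → ∃ ρ : ℝ, ∀ w : ℂ, D.γ w.im + 1 ≤ w.re → ρ ≤ ‖w‖ → ‖Φ w‖ ≤ ε := by
    intro ε hε
    have hε3 : 0 < ε / 3 := by positivity
    obtain ⟨r1, hr1⟩ := cauchy_decay (g := fun x : ℝ => exp (-s * (x + y2 * I)))
      (z := fun x : ℝ => x + y2 * I) (by fun_prop) (by fun_prop) X0 (D.γ y2) hε3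
    obtain ⟨r2, hr2⟩ := cauchy_decay (g := fun u : ℝ => exp (-s * (X0 + u * I)))
      (z := fun u : ℝ => X0 + u * I) (by fun_prop) (by fun_prop) y1 y2 hε3
    obtain ⟨r3, hr3⟩ := cauchy_decay (g := fun x : ℝ => exp (-s * (x + y1 * I)))
      (z := fun x : ℝ => x + y1 * I) (by fun_prop) (by fun_prop) X0 (D.γ y1) hε3
    refine ⟨max r1 (max r2 r3), fun w _ hw => (norm_CI_le _ _ _ _ _ _).trans ?_⟩
    have a1 := hr1 w ((le_max_left _ _).trans hw)
    have a2 := hr2 w ((le_max_left _ _).trans ((le_max_right _ _).trans hw))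
    have a3 := hr3 w ((le_max_right _ _).trans ((le_max_right _ _).trans hw))
    simp only [hk]
    linarith
  obtain ⟨f, hf⟩ := D.cp Φ hdiff hdec
  -- upper bound
  have hup : ‖T f - exp (-s) • f‖ ≤
      (1 + D.L) * Real.exp s.re * (Real.exp (FF D.γ s y1) + Real.exp (FF D.γ s y2)) := by
    refine D.norm_le _ _ fun p => ?_
    rw [e_sub, hf, hf, D.h_φ]
    set w := D.h p
    have hw : D.γ w.im + 1 ≤ w.re := D.h_mem p
    have hδ1 : 0 < 1 / (1 + D.L) := by positivity
    have hkd : DifferentiableOn ℂ (k w) {t | t.re ≤ D.γ t.im} :=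
      DifferentiableOn.div (by fun_prop) (by fun_prop) fun t ht h0 => by
        have := dist_ge D ht hw
        rw [h0, norm_zero] at this; linarith
    have H : ∀ u a b : ℝ, a ≤ D.γ u → b ≤ D.γ u → HI (k w) u a b := fun u a b ha hb =>
      hi_of_cont hkd.continuousOn (hor u a b ha hb)
    have e1 : k (w + 1) = fun t => exp (-s) * k w (t + ((-1 : ℝ) : ℂ)) := by
      funext t
      simp only [hk]
      rw [← mul_div_assoc, ← Complex.exp_add]
      congr 1
      · congr 1; push_cast; ring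
      · push_cast; ring
    have e2 : Φ (w + 1) = exp (-s) * CI (k w) y1 y2 X0 (D.γ y1 + -1) (D.γ y2 + -1) := by
      simp only [hΦ]
      rw [e1, CI_const_mul, CI_shift, CI_move (X := X0) (H _ _ _ hX1 (by linarith))
        (H _ _ _ hX2 (by linarith))]
      refine hkd.mono fun t ht => ?_
      have a := hX _ ht.2
      have b : t.re ≤ X0 := ht.1.2.trans (max_le le_rfl (by linarith))
      exact b.trans a
    have hseg : ∀ u : ℝ, ‖∫ x in D.γ u..D.γ u + -1, k w (x + u * I)‖ ≤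
        (1 + D.L) * Real.exp s.re * Real.exp (FF D.γ s u) := by
      intro u
      refine (intervalIntegral.norm_integral_le_of_norm_le_const
        (C := (1 + D.L) * Real.exp s.re * Real.exp (FF D.γ s u)) fun x hx => ?_).trans (by simp)
      have hx' := uIoc_subset_uIcc hx
      have a := dist_ge D (hor u _ _ le_rfl (by linarith) x hx') hw
      have b : D.γ u + -1 ≤ x := (le_min (by linarith) le_rfl).trans hx'.1
      simp only [hk]
      rw [norm_div, norm_exp_neg, div_le_iff₀ (hδ1.trans_le a), mul_assoc, mul_assoc,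
        ← mul_assoc (Real.exp _), ← Real.exp_add]
      have c : Real.exp (-s.re * x + s.im * u) ≤ Real.exp (s.re + FF D.γ s u) := by
        rw [Real.exp_le_exp, FF]; nlinarith
      rw [div_le_iff₀ (by positivity)] at a
      have d := Real.exp_pos (s.re + FF D.γ s u)
      nlinarith
    rw [e2, ← mul_sub, CI_ends (H _ _ _ hX1 le_rfl) (H _ _ _ hX2 le_rfl) (H _ _ _ hX1 (by linarith))
      (H _ _ _ hX2 (by linarith)), norm_mul]
    have a1 := hseg y1
    have a2 := hseg y2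
    have a3 := norm_sub_le (∫ x in D.γ y2..D.γ y2 + -1, k w (x + y2 * I))
      (∫ x in D.γ y1..D.γ y1 + -1, k w (x + y1 * I))
    refine (mul_le_of_le_one_left (norm_nonneg _) (norm_l_le hs)).trans ?_
    linarith
  -- lower bound
  set w0 : ℂ := ((D.γ y + 1 : ℝ) : ℂ) + y * I with hw0
  set w : ℂ := ((D.γ y + 1 + D.N : ℝ) : ℂ) + y * I with hw
  have hwre : w.re = D.γ y + 1 + D.N := by simp [hw]
  have hwim : w.im = y := by simp [hw]
  have hΦw : ‖Φ w‖ ≤ ‖f‖ := by
    have : D.h (D.χ w0) = w := by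
      rw [D.h_χ w0 (by simp [hw0]), hw0, hw]; push_cast; ring
    rw [← this, ← hf]; exact D.e_le _ _
  have hN : (0 : ℝ) ≤ D.N := Nat.cast_nonneg _
  have hyI : y ∈ uIcc y1 y2 := by rw [uIcc_of_le h12]; exact ⟨by linarith, by linarith⟩
  have hlo : 2 * Real.pi * Real.exp (FF D.γ s y - s.re * (D.N + 1)) ≤
      ‖f‖ + (Real.exp (FF D.γ s y1) + Real.exp (FF D.γ s y2)) / s.re := by
    refine le_of_exp_decay (c := Real.exp (|s.im| * (|y1| + |y2|)) * |y2 - y1|)
      (X0 := D.γ y1 + D.L * (y2 - y1) + D.N + 2) hs fun X hXX => ?_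
    have g0 := (gamma_bounds D h12 hyI).2
    have g1 := (gamma_bounds D h12 left_mem_uIcc).2
    have g2 := (gamma_bounds D h12 right_mem_uIcc).2
    have hc := CI_cauchy (f := fun t => exp (-s * t)) (by fun_prop) (y1 := y1) (y2 := y2) (X := X0)
      (X' := X) (a1 := D.γ y1) (a2 := D.γ y2) (w := w) (by linarith [hX y hyI]) (by linarith)
      (by linarith) (by linarith)
    have hn : ‖2 * Real.pi * I * exp (-s * w)‖ =
        2 * Real.pi * Real.exp (FF D.γ s y - s.re * (D.N + 1)) := by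
      rw [norm_mul, hw, norm_exp_neg]
      simp only [norm_mul, norm_I, mul_one, Complex.norm_real, Real.norm_eq_abs,
        abs_of_pos Real.pi_pos, Complex.norm_ofNat]
      congr 2
      rw [FF]; ring
    have hh : ∀ u : ℝ, 1 ≤ |u - y| → D.γ u ≤ X →
        ‖∫ x in X..D.γ u, k w (x + u * I)‖ ≤ Real.exp (FF D.γ s u) / s.re := by
      intro u hu huX
      refine (norm_int_exp_neg (B := Real.exp (s.im * u)) hs huX (Real.exp_pos _).le
        fun x => ?_).trans (le_of_eq ?_)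
      · refine (norm_div_le_of_one_le (one_le_norm_of_im (by simpa [hwim] using hu))).trans ?_
        rw [norm_exp_neg, ← Real.exp_add, add_comm]
      · rw [← Real.exp_add, FF, add_comm]
    have a1 := hh y1 (by rw [abs_sub_comm, abs_of_nonneg (by linarith)]; linarith) (by linarith)
    have a2 := hh y2 (by rw [abs_of_nonneg (by linarith)]; linarith) (by linarith)
    have a3 : ‖∫ u in y1..y2, k w (X + u * I)‖ ≤
        Real.exp (|s.im| * (|y1| + |y2|)) * Real.exp (-s.re * X) * |y2 - y1| := by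
      refine intervalIntegral.norm_integral_le_of_norm_le_const fun u hu => ?_
      refine (norm_div_le_of_one_le (one_le_norm_of_re ?_)).trans ?_
      · have : ((X : ℂ) + u * I).re = X := by simp
        rw [this, hwre, abs_of_nonneg (by linarith)]; linarith
      · rw [norm_exp_neg, ← Real.exp_add, Real.exp_le_exp]
        linarith [le_abs_self (s.im * u), mul_le_of_mem (τ := s.im) hu]
    have a4 := norm_CI_le (k w) y1 y2 X (D.γ y1) (D.γ y2)
    have a5 := norm_sub_le (CI (k w) y1 y2 X (D.γ y1) (D.γ y2)) (Φ w)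
    rw [← hn, ← hc, add_div]
    simp only [hΦ, hk] at a1 a2 a3 a4 a5 hΦw ⊢
    linarith
  have hfin := hlow f
  set S := Real.exp (FF D.γ s y1) + Real.exp (FF D.γ s y2) with hS
  have hS0 : 0 < S := by positivity
  have b1 : ‖f‖ ≤ M * (1 + D.L) * Real.exp (2 * s.re) * S := by
    calc ‖f‖ ≤ M * ((1 + D.L) * Real.exp s.re * S) := hfin.trans (by gcongr)
      _ = M * (1 + D.L) * Real.exp s.re * S := by ring
      _ ≤ _ := by gcongr; linarith
  have b2 : S / s.re ≤ Real.exp s.re / s.re * S := by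
    rw [div_mul_eq_mul_div]
    gcongr
    exact le_mul_of_one_le_left hS0.le (Real.one_le_exp hs.le)
  have b3 : Real.exp (FF D.γ s y - s.re * (D.N + 1)) ≤
      (M * (1 + D.L) * Real.exp (2 * s.re) + Real.exp s.re / s.re) * S := by
    have := Real.exp_pos (FF D.γ s y - s.re * (D.N + 1))
    nlinarith [Real.pi_gt_three]
  rw [Real.exp_sub, div_le_iff₀ (Real.exp_pos _)] at b3
  rw [KK]; linarith

end

end S2

end Pool.Agent.MP_ff3f8e_an.H65
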