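import Pool.Agent.MP_ff3f8e_an.H65.Ultra
import Pool.Agent.MP_ff3f8e_an.H65.Kpoint

open Metric Set Filter Topology Complex ComplexConjugate

namespace Pool.Agent.MP_ff3f8e_an.H65

noncomputable section

/-- A positive harmonic function on the half-plane that is small near the real point `c`. -/
def UU (c w : ℝ) (ζ : ℂ) : ℝ := ((ζ - c) / (ζ - (c - w * I))).re

lemma UU_eq (c : ℝ) {w : ℝ} (hw : 0 < w) {ζ : ℂ} (h : 0 < ζ.im) :
    UU c w ζ * ((ζ.re - c) ^ 2 + (ζ.im + w) ^ 2) = (ζ.re - c) ^ 2 + ζ.im ^ 2 + w * ζ.im := by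
  have hpos : 0 < (ζ.re - c) ^ 2 + (ζ.im + w) ^ 2 := by positivity
  have hn : Complex.normSq (ζ - (c - w * I)) = (ζ.re - c) ^ 2 + (ζ.im + w) ^ 2 := by
    simp [Complex.normSq_apply]; ring
  rw [UU, Complex.div_re, hn, ← add_div, div_mul_cancel₀ _ hpos.ne']
  simp; ring

lemma UU_pos (c : ℝ) {w : ℝ} (hw : 0 < w) {ζ : ℂ} (h : 0 < ζ.im) : 0 < UU c w ζ := by
  have h1 := UU_eq c hw h
  have hpos : 0 < (ζ.re - c) ^ 2 + (ζ.im + w) ^ 2 := by positivity
  have h2 : 0 < (ζ.re - c) ^ 2 + ζ.im ^ 2 + w * ζ.im := by positivity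
  by_contra hcon
  push Not at hcon
  nlinarith

lemma UU_small (c : ℝ) {w : ℝ} (hw : 0 < w) {ζ : ℂ} (h : 0 < ζ.im) {a : ℝ} (ha : a ≤ 1 / 4)
    (hU : UU c w ζ ≤ a) : ζ.im ≤ 2 * a * w ∧ |ζ.re - c| ≤ 3 / 5 * w := by
  have h1 := UU_eq c hw h
  have h0 := UU_pos c hw h
  have hpos : 0 < (ζ.re - c) ^ 2 + (ζ.im + w) ^ 2 := by positivity
  have h2 : (ζ.re - c) ^ 2 + ζ.im ^ 2 + w * ζ.im ≤ a * ((ζ.re - c) ^ 2 + (ζ.im + w) ^ 2) := by
    rw [← h1]; gcongr
  have ha0 : 0 < a := h0.trans_le hU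
  set x := (ζ.re - c) ^ 2 with hx
  have hx0 : 0 ≤ x := sq_nonneg _
  have hwy : 0 < w * ζ.im := by positivity
  have hy2 : 0 ≤ ζ.im ^ 2 := sq_nonneg _
  have h3 : 3 / 4 * x + 1 / 2 * (w * ζ.im) ≤ a * w ^ 2 := by nlinarith
  constructor
  · have : w * ζ.im ≤ w * (2 * a * w) := by nlinarith
    exact le_of_mul_le_mul_left this hw
  · refine abs_le_of_sq_le_sq' ?_ (by positivity) |>.elim fun h1 h2 => abs_le.2 ⟨h1, h2⟩
    nlinarith

lemma UU_center (c : ℝ) {w y : ℝ} (hw : 0 < w) (hy : 0 < y) : UU c w (c + y * I) ≤ y / w := by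
  have h1 := UU_eq c hw (ζ := c + y * I) (by simpa using hy)
  simp only [add_re, ofReal_re, mul_re, I_re, mul_zero, ofReal_im, I_im, mul_one, sub_self,
    add_zero, add_im, mul_im, zero_add] at h1
  have h0 := UU_pos c hw (ζ := c + y * I) (by simpa using hy)
  rw [le_div_iff₀ hw]
  have : UU c w (c + y * I) * (y + w) * (y + w) = y * (y + w) := by nlinarith
  have h2 := mul_right_cancel₀ (by positivity : y + w ≠ 0) this
  nlinarith

/-- Points below a far-moving point move far. -/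
lemma good_box {f : ℂ → ℂ} (hd : DifferentiableOn ℂ f {ζ | 0 < ζ.im})
    (him : ∀ ζ : ℂ, 0 < ζ.im → ζ.im < (f ζ).im) {z : ℂ} (hz : 0 < z.im) {K L : ℝ} (hK : 1 ≤ K)
    (hL : 1 ≤ L) (hgood : (8 * K ^ 2 * L) ^ 2 ≤ hh z (f z)) {ζ : ℂ} (hζ : 0 < ζ.im)
    (h1 : |ζ.re - z.re| ≤ K * z.im) (h2 : ζ.im ≤ K * z.im) :
    L / 2 ≤ hh ζ (f ζ) ∧
      (|(f ζ).re - z.re| ≤ K * z.im → (f ζ).im ≤ K * z.im → L * ζ.im ≤ (f ζ).im) := by
  have hv : ∀ ζ : ℂ, 0 < ζ.im → 0 < (f ζ - ζ).im := fun ζ h => by simpa using him ζ h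
  have hsp := schwarz_pick (f := fun ζ => f ζ - ζ) (hd.sub differentiableOn_id) hv hζ hz
  set p := f ζ - ζ with hp
  set q := f z - z with hq
  have hp0 : 0 < p.im := hv ζ hζ
  have hq0 : 0 < q.im := hv z hz
  have hfz : 0 < (f z).im := hz.trans (him z hz)
  have hfζ : 0 < (f ζ).im := hζ.trans (him ζ hζ)
  have hqn : 8 * K ^ 2 * L * z.im ≤ ‖q‖ := by
    rw [le_hh_iff hz hfz, norm_sub_rev] at hgood
    refine le_of_sq_le_sq ?_ (norm_nonneg _) |> fun h => h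
    have := him z hz
    calc (8 * K ^ 2 * L * z.im) ^ 2 = (8 * K ^ 2 * L) ^ 2 * (z.im * z.im) := by ring
      _ ≤ (8 * K ^ 2 * L) ^ 2 * (z.im * (f z).im) := by gcongr
      _ ≤ _ := hgood
  have hhb : hh ζ z * ζ.im ≤ 2 * K ^ 2 * z.im := by
    have a1 := hh_mul hζ hz
    have a2 : ‖ζ - z‖ ^ 2 ≤ 2 * (K * z.im) ^ 2 := by
      rw [normSq_eq, sub_re, sub_im]
      have b1 : (ζ.re - z.re) ^ 2 ≤ (K * z.im) ^ 2 := sq_le_sq' (abs_le.1 h1).1 (abs_le.1 h1).2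
      have b2 : (ζ.im - z.im) ^ 2 ≤ (K * z.im) ^ 2 := sq_le_sq' (by nlinarith) (by linarith)
      linarith
    have : hh ζ z * ζ.im * z.im ≤ 2 * K ^ 2 * z.im * z.im := by nlinarith
    exact le_of_mul_le_mul_right this hz
  have hcase : ‖p‖ < ‖q‖ / 2 → L * ζ.im ≤ p.im := by
    intro hlt
    have a1 := hh_mul hp0 hq0
    have a2 : ‖q‖ / 2 ≤ ‖p - q‖ := by
      have : ‖q‖ ≤ ‖p‖ + ‖p - q‖ := by
        calc ‖q‖ = ‖p - (p - q)‖ := by congr 1; ring
          _ ≤ _ := norm_sub_le _ _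
      linarith
    have hqpos : 0 < ‖q‖ := hq0.trans_le (im_le_norm' q)
    have a3 : (‖q‖ / 2) ^ 2 ≤ hh ζ z * (p.im * ‖q‖) := by
      calc (‖q‖ / 2) ^ 2 ≤ ‖p - q‖ ^ 2 := by gcongr
        _ = hh p q * (p.im * q.im) := a1.symm
        _ ≤ _ := by
          have := hh_nonneg hζ hz
          gcongr
          exact im_le_norm' q
    have a4 : ‖q‖ / 4 ≤ hh ζ z * p.im := by
      have : ‖q‖ / 4 * ‖q‖ ≤ hh ζ z * p.im * ‖q‖ := by nlinarith
      exact le_of_mul_le_mul_right this hqpos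
    have a5 : 2 * K ^ 2 * z.im * (L * ζ.im) ≤ 2 * K ^ 2 * z.im * p.im := by
      calc 2 * K ^ 2 * z.im * (L * ζ.im) = (8 * K ^ 2 * L * z.im) / 4 * ζ.im := by ring
        _ ≤ hh ζ z * p.im * ζ.im := by gcongr; linarith
        _ = hh ζ z * ζ.im * p.im := by ring
        _ ≤ _ := by gcongr
    exact le_of_mul_le_mul_left a5 (by positivity)
  have hpn : L * ζ.im ≤ ‖p‖ := by
    by_cases hlt : ‖p‖ < ‖q‖ / 2
    · exact (hcase hlt).trans (im_le_norm' p)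
    · push Not at hlt
      have : L * ζ.im ≤ 4 * K ^ 2 * L * z.im := by
        calc L * ζ.im ≤ L * (K * z.im) := by gcongr
          _ ≤ L * (4 * K ^ 2 * z.im) := by gcongr; nlinarith
          _ = _ := by ring
      linarith
  constructor
  · rw [le_hh_iff hζ hfζ, norm_sub_rev, ← hp]
    have a1 : (f ζ).im ≤ ζ.im + ‖p‖ := by
      have := im_le_norm' p
      simp only [hp, sub_im] at this ⊢
      linarith
    have a2 : ζ.im ≤ ‖p‖ := le_trans (by nlinarith) hpn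
    calc L / 2 * (ζ.im * (f ζ).im) ≤ L / 2 * (ζ.im * (2 * ‖p‖)) := by gcongr; linarith
      _ = L * ζ.im * ‖p‖ := by ring
      _ ≤ ‖p‖ * ‖p‖ := by gcongr
      _ = _ := by ring
  · intro h3 h4
    have a1 : ‖p‖ ≤ 3 * K * z.im := by
      refine (Complex.norm_le_abs_re_add_abs_im p).trans ?_
      have b1 : |p.re| ≤ 2 * K * z.im := by
        have : p.re = ((f ζ).re - z.re) - (ζ.re - z.re) := by simp [hp]
        rw [this]
        exact (abs_sub _ _).trans (by linarith)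
      have b2 : |p.im| ≤ K * z.im := by
        rw [abs_of_pos hp0]
        simp only [hp, sub_im]
        linarith
      linarith
    have a2 : ‖p‖ < ‖q‖ / 2 := by
      have : 3 * K * z.im < 4 * K ^ 2 * L * z.im := by
        refine mul_lt_mul_of_pos_right ?_ hz
        have : K ≤ K ^ 2 := by nlinarith
        nlinarith
      linarith
    have := hcase a2
    simp only [hp, sub_im] at this
    linarith

lemma tilt (E : ℕ → ℝ) (n : ℕ) (hn : 1 ≤ n) (M' : ℝ) (hM : 0 < M') (hE : ∀ l, 0 < E l)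
    (h0 : E (2 * n) = E 0)
    (hV : ∀ c : ℕ → ℝ, (∀ l, 0 ≤ c l) → c 0 = 0 → c (2 * n + 1) = 0 → ∀ m1 m2 : ℝ,
      (∀ l ≤ 2 * n, |c l - c (l + 1)| * E l ≤ m1) → (∀ l ≤ 2 * n, c (l + 1) * E l ≤ m2) →
      ∀ j ≤ 2 * n, 3 / 4 * (c (j + 1) * E j) ≤ 5 / 4 * M' * m1 + m2 / 4) :
    (1 + 1 / (5 * M')) ^ n * E n ≤ (5 * M' + 1) * E 0 := by
  set β := 1 + 1 / (5 * M') with hβ
  have hβ0 : 0 < 1 / (5 * M') := by positivity
  have hβ1 : 1 ≤ β := by linarith
  set c : ℕ → ℝ := fun l => if l = 0 ∨ 2 * n + 1 ≤ l then 0 else β ^ min (l - 1) (2 * n - (l - 1))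
    with hc
  have hc0 : ∀ l, 0 ≤ c l := fun l => by
    simp only [hc]; split_ifs <;> positivity
  have hcs : ∀ l < 2 * n, c (l + 1) = β ^ min l (2 * n - l) := fun l hl => by
    simp only [hc]
    rw [if_neg (by omega)]
    simp
  obtain ⟨j, hj, hmax⟩ := Finset.exists_max_image (Finset.range (2 * n + 1))
    (fun l => c (l + 1) * E l) ⟨0, by simp⟩
  set m2 := c (j + 1) * E j with hm2
  have hm2' : ∀ l ≤ 2 * n, c (l + 1) * E l ≤ m2 := fun l hl =>
    hmax l (Finset.mem_range.2 (by omega))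
  have hm20 : 0 ≤ m2 := mul_nonneg (hc0 _) (hE _).le
  have hE0 := hE 0
  have hm1 : ∀ l ≤ 2 * n, |c l - c (l + 1)| * E l ≤ β * E 0 + (β - 1) * m2 := by
    intro l hl
    have p1 : 0 ≤ (β - 1) * m2 := mul_nonneg (by linarith) hm20
    have p2 : E 0 ≤ β * E 0 := by nlinarith
    rcases Nat.eq_zero_or_pos l with rfl | hl0
    · rw [hcs 0 (by omega)]
      simp [hc]
      linarith
    obtain ⟨k, rfl⟩ : ∃ k, l = k + 1 := ⟨l - 1, by omega⟩
    rcases eq_or_lt_of_le hl with hl' | hl'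
    · have e1 : c (k + 1 + 1) = 0 := by simp only [hc]; rw [if_pos (by omega)]
      have e2 : c (k + 1) = β := by
        rw [hcs k (by omega), show min k (2 * n - k) = 1 by omega, pow_one]
      rw [e1, e2, hl', h0, sub_zero, abs_of_pos (by linarith)]
      linarith
    · have key : |c (k + 1) - c (k + 1 + 1)| ≤ (β - 1) * c (k + 1 + 1) := by
        rw [hcs k (by omega), hcs (k + 1) hl']
        by_cases hk : k + 1 ≤ n
        · rw [show min k (2 * n - k) = k by omega, show min (k + 1) (2 * n - (k + 1)) = k + 1 by omega,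
            pow_succ]
          have : 0 < β ^ k := by positivity
          rw [abs_of_nonpos (by nlinarith)]
          nlinarith [mul_nonneg (mul_nonneg this.le (sub_nonneg.2 hβ1)) (sub_nonneg.2 hβ1)]
        · rw [show min k (2 * n - k) = 2 * n - (k + 1) + 1 by omega,
            show min (k + 1) (2 * n - (k + 1)) = 2 * n - (k + 1) by omega, pow_succ]
          have : 0 < β ^ (2 * n - (k + 1)) := by positivity
          rw [abs_of_nonneg (by nlinarith)]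
          nlinarith
      have := hm2' (k + 1) hl
      calc _ ≤ (β - 1) * c (k + 1 + 1) * E (k + 1) := by gcongr; exact (hE _).le
        _ = (β - 1) * (c (k + 1 + 1) * E (k + 1)) := by ring
        _ ≤ (β - 1) * m2 := by gcongr
        _ ≤ _ := by linarith
  have h1 := hV c hc0 (by simp [hc]) (by simp [hc]) _ _ hm1 hm2' j
    (by have := Finset.mem_range.1 hj; omega)
  have h2 := hm2' n (by omega)
  rw [hcs n (by omega), show min n (2 * n - n) = n by omega] at h2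
  have e1 : M' * (β - 1) = 1 / 5 := by rw [hβ]; field_simp; ring
  have e2 : M' * β = M' + 1 / 5 := by linarith [mul_sub M' β 1]
  have e3 : 5 / 4 * M' * (β * E 0 + (β - 1) * m2) = 5 / 4 * ((M' + 1 / 5) * E 0 + 1 / 5 * m2) := by
    rw [← e2, ← e1]; ring
  rw [e3] at h1
  linarith

lemma sum_single {a : ℕ → ℂ} {K j : ℕ} (hj : j ≤ K) {x : ℝ} (hx : 0 ≤ x)
    (h : ∀ l ≤ K, l ≠ j → ‖a l‖ ≤ x) :
    ‖∑ l ∈ Finset.range (K + 1), a l - a j‖ ≤ (K + 1) * x := by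
  rw [← Finset.add_sum_erase _ _ (Finset.mem_range.2 (by omega : j < K + 1)), add_sub_cancel_left]
  refine (norm_sum_le _ _).trans ?_
  refine (Finset.sum_le_card_nsmul _ _ x fun l hl => ?_).trans ?_
  · rw [Finset.mem_erase, Finset.mem_range] at hl
    exact h l (by omega) hl.1
  · rw [nsmul_eq_mul]
    gcongr
    exact_mod_cast (Finset.card_erase_le).trans (by simp)

namespace HModel

variable {A : Type} [NormedCommRing A] [NormedAlgebra ℂ A] (M : HModel A)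

lemma exists_test (c : ℝ) {w : ℝ} (hw : 0 < w) (t : ℝ) :
    ∃ F : A, ∀ ζ : ℂ, 0 < ζ.im → ‖M.E ζ F‖ = Real.exp (-(t * UU c w ζ)) := by
  obtain ⟨f, hf⟩ := M.mob c (c - w * I) (by simpa using hw)
  obtain ⟨g, hg⟩ := M.exp ((-t : ℂ) • f)
  refine ⟨g, fun ζ h => ?_⟩
  rw [hg ζ h, Complex.norm_exp, map_smul, hf ζ h, UU]
  simp

/-- The infimum of `UU c w` on the image of the `j`-th iterate. -/
def low (c w : ℝ) (j : ℕ) : ℝ := ⨅ ζ : {ζ : ℂ // 0 < ζ.im}, UU c w (M.ψ^[j] ζ)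

instance : Nonempty {ζ : ℂ // 0 < ζ.im} := ⟨⟨I, by simp⟩⟩

lemma low_le (c : ℝ) {w : ℝ} (hw : 0 < w) (j : ℕ) {ζ : ℂ} (h : 0 < ζ.im) :
    M.low c w j ≤ UU c w (M.ψ^[j] ζ) :=
  ciInf_le ⟨0, by rintro _ ⟨ζ, rfl⟩; exact (UU_pos c hw (M.iter_pos j ζ.2)).le⟩
    (⟨ζ, h⟩ : {ζ : ℂ // 0 < ζ.im})

lemma low_nonneg (c : ℝ) {w : ℝ} (hw : 0 < w) (j : ℕ) : 0 ≤ M.low c w j :=
  le_ciInf fun ζ => (UU_pos c hw (M.iter_pos j ζ.2)).le

lemma low_mono (c : ℝ) {w : ℝ} (hw : 0 < w) : Monotone (M.low c w) :=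
  monotone_nat_of_le_succ fun j => le_ciInf fun ζ => M.low_le c hw j (M.ψ_pos ζ.2)

lemma exists_lt_low (c w : ℝ) (j : ℕ) {x : ℝ} (hx : M.low c w j < x) :
    ∃ ζ : ℂ, 0 < ζ.im ∧ UU c w (M.ψ^[j] ζ) < x := by
  obtain ⟨ζ, h⟩ := exists_lt_of_ciInf_lt hx
  exact ⟨ζ, ζ.2, h⟩

lemma hh_iter_le (n : ℕ) {ζ ω : ℂ} (h : 0 < ζ.im) (h' : 0 < ω.im) :
    hh (M.ψ^[n] ζ) (M.ψ^[n] ω) ≤ hh ζ ω :=
  schwarz_pick (M.iter_diff n) (fun _ h => M.iter_pos n h) h h'

/-- The peak inequality along a separated orbit. -/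
lemma W_ineq {j k : ℕ} (hj : j < k) {x : ℂ} (hx : 0 < x.im)
    (hgood : ∀ i, 1 ≤ i → i ≤ k → (8 * k : ℝ) ≤ hh (M.ψ^[j] x) (M.ψ^[i] (M.ψ^[j] x))) (F : A)
    {s : ℝ} (hs : ∀ ζ : ℂ, 0 < ζ.im → ‖M.E (M.ψ^[k] ζ) F‖ ≤ s) :
    ‖M.ν‖ ^ (k - 1 - j) * ‖M.E (M.ψ^[j] x) F‖ ≤ 2 * ‖M.R‖ * (s + ‖M.ν‖ ^ k * ‖F‖) := by
  have hb : ∀ l : ℕ, ∃ b : A, ∀ ζ : ℂ, 0 < ζ.im → M.E ζ b = bl (M.ψ^[l] x) ζ := fun l =>
    M.mob _ _ (by simpa using M.iter_pos l hx)
  choose b hb using hb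
  set y := M.ψ^[j] x with hy
  have hy0 : 0 < y.im := M.iter_pos j hx
  set Θ : A := ∏ l ∈ (Finset.range k).erase j, b l with hΘ
  have hΘ1 : ∀ ζ : ℂ, 0 < ζ.im → ‖M.E ζ Θ‖ ≤ 1 := by
    intro ζ h
    rw [hΘ, map_prod, norm_prod]
    exact Finset.prod_le_one (fun _ _ => norm_nonneg _) fun l _ => by
      rw [hb l ζ h]; exact (norm_bl_lt (M.iter_pos l hx) h).le
  have hΘ0 : ∀ l ∈ Finset.range k, l ≠ j → M.E (M.ψ^[l] x) Θ = 0 := by
    intro l hl hne
    rw [hΘ, map_prod]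
    exact Finset.prod_eq_zero (Finset.mem_erase.2 ⟨hne, hl⟩) (by
      rw [hb l _ (M.iter_pos l hx), bl_self])
  have hk0 : (0 : ℝ) < k := by exact_mod_cast (by omega : 0 < k)
  have hΘy : 1 / 2 ≤ ‖M.E y Θ‖ := by
    rw [hΘ, map_prod, norm_prod]
    have hq : 4 / (8 * (k : ℝ) + 4) ≤ 1 := by rw [div_le_one (by positivity)]; linarith
    have h1 : ∀ l ∈ (Finset.range k).erase j, 1 - 4 / (8 * (k : ℝ) + 4) ≤ ‖M.E y (b l)‖ := by
      intro l hl
      rw [Finset.mem_erase, Finset.mem_range] at hl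
      have hl0 := M.iter_pos l hx
      have hsep : (8 * k : ℝ) ≤ hh y (M.ψ^[l] x) := by
        rcases lt_or_gt_of_ne hl.1 with h | h
        · refine (hgood (j - l) (by omega) (by omega)).trans ?_
          have := M.hh_iter_le (j - l) hl0 hy0
          rw [← Function.iterate_add_apply, show j - l + l = j by omega, ← hy] at this
          rw [hh_comm y (M.ψ^[l] x)]
          exact this
        · have := hgood (l - j) (by omega) (by omega)
          rwa [hy, ← Function.iterate_add_apply, show l - j + j = l by omega] at this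
      rw [hb l y hy0]
      have a1 := one_sub_norm_bl_sq hl0 hy0
      have a2 := norm_bl_lt hl0 hy0
      have a3 : 4 / (hh y (M.ψ^[l] x) + 4) ≤ 4 / (8 * (k : ℝ) + 4) := by gcongr
      nlinarith [norm_nonneg (bl (M.ψ^[l] x) y)]
    calc 1 / 2 ≤ 1 + k * (-(4 / (8 * (k : ℝ) + 4))) := by
          have : (k : ℝ) * (4 / (8 * k + 4)) ≤ 1 / 2 := by
            rw [← mul_div_assoc, div_le_iff₀ (by positivity)]; linarith
          linarith
      _ ≤ (1 + -(4 / (8 * (k : ℝ) + 4))) ^ k := one_add_mul_le_pow (by linarith) k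
      _ ≤ (1 + -(4 / (8 * (k : ℝ) + 4))) ^ ((Finset.range k).erase j).card := by
          have : 0 < 4 / (8 * (k : ℝ) + 4) := by positivity
          exact pow_le_pow_of_le_one (by linarith) (by linarith)
            ((Finset.card_erase_le).trans (by simp))
      _ = ∏ _l ∈ (Finset.range k).erase j, (1 - 4 / (8 * (k : ℝ) + 4)) := by
          rw [Finset.prod_const, sub_eq_add_neg]
      _ ≤ _ := Finset.prod_le_prod (fun _ _ => by linarith) h1
  have h1 := congrArg (M.E x) (resolvent_orbit M.TR k (F * Θ))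
  rw [R_comm M.TR M.RT, map_add, map_smul, map_sum,
    Finset.sum_eq_single_of_mem j (Finset.mem_range.2 hj) fun l hl hne => by
      rw [map_smul, M.E_pow l _ hx, map_mul, hΘ0 l hl hne]; simp] at h1
  rw [map_smul, M.E_pow j _ hx, map_mul (M.E _), ← hy, smul_eq_mul, smul_eq_mul] at h1
  have hs0 : 0 ≤ s := (norm_nonneg _).trans (hs x hx)
  have h2 : ‖M.E x (M.R ((M.T ^ k) (F * Θ)))‖ ≤ ‖M.R‖ * s := by
    refine (M.E_le _ _).trans ((M.R.le_opNorm _).trans ?_)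
    gcongr
    refine M.norm_pow_le k _ fun ζ h => ?_
    rw [map_mul, norm_mul]
    exact (mul_le_mul (hs ζ h) (hΘ1 _ (M.iter_pos k h)) (norm_nonneg _) hs0).trans_eq (mul_one s)
  have h3 : ‖M.E x (M.R (F * Θ))‖ ≤ ‖M.R‖ * ‖F‖ := by
    refine (M.E_le _ _).trans ((M.R.le_opNorm _).trans ?_)
    gcongr
    refine M.norm_le _ _ fun ζ h => ?_
    rw [map_mul, norm_mul]
    exact (mul_le_mul (M.E_le _ _) (hΘ1 _ h) (norm_nonneg _) (norm_nonneg _)).trans_eq (mul_one _)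
  have h4 : ‖M.ν ^ (k - 1 - j) * (M.E y F * M.E y Θ)‖ ≤
      ‖M.R‖ * s + ‖M.ν‖ ^ k * (‖M.R‖ * ‖F‖) := by
    rw [← sub_eq_iff_eq_add'.2 h1]
    refine (norm_sub_le _ _).trans (add_le_add h2 ?_)
    rw [norm_mul, norm_pow]
    gcongr
  rw [norm_mul, norm_mul, norm_pow] at h4
  have h5 : 0 ≤ ‖M.ν‖ ^ (k - 1 - j) * ‖M.E y F‖ := by positivity
  nlinarith

/-- The flatness inequality under the single visit property. -/
lemma V_ineq {c w t a : ℝ} (hw : 0 < w) (ht : 0 < t) {i K : ℕ}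
    (hsingle : ∀ ζ : ℂ, 0 < ζ.im → ∀ l l', l < l' → l' ≤ K →
      UU c w (M.ψ^[i + l] ζ) ≤ a → UU c w (M.ψ^[i + l'] ζ) ≤ a → False)
    (hgap : ∀ l ≤ K, (K + 1) * Real.exp (-(t * (a - M.low c w (i + l)))) ≤ 1 / 4)
    (e : ℕ → ℝ) (he : ∀ l, 0 ≤ e l) (he0 : e 0 = 0) (heK : e (K + 1) = 0) (m1 m2 : ℝ)
    (hm1 : ∀ l ≤ K, |e l - e (l + 1)| * (‖M.ν‖⁻¹ ^ l * Real.exp (-(t * M.low c w (i + l)))) ≤ m1)
    (hm2 : ∀ l ≤ K, e (l + 1) * (‖M.ν‖⁻¹ ^ l * Real.exp (-(t * M.low c w (i + l)))) ≤ m2)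
    (j : ℕ) (hj : j ≤ K) :
    3 / 4 * (e (j + 1) * (‖M.ν‖⁻¹ ^ j * Real.exp (-(t * M.low c w (i + j))))) ≤
      5 / 4 * (‖M.R‖ + 1) * m1 + m2 / 4 := by
  obtain ⟨F, hF⟩ := M.exists_test c hw t
  set EE : ℕ → ℝ := fun l => ‖M.ν‖⁻¹ ^ l * Real.exp (-(t * M.low c w (i + l))) with hEE
  set G : ℕ → A := fun l => M.ν⁻¹ ^ l • (M.T ^ (i + l)) F with hG
  have hK0 : (0 : ℝ) < K + 1 := by positivity
  have hGn : ∀ l (ζ : ℂ), 0 < ζ.im →
      ‖M.E ζ (G l)‖ = ‖M.ν‖⁻¹ ^ l * Real.exp (-(t * UU c w (M.ψ^[i + l] ζ))) := by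
    intro l ζ h
    simp only [hG]
    rw [map_smul, smul_eq_mul, norm_mul, norm_pow, norm_inv, M.E_pow _ _ h,
      hF _ (M.iter_pos _ h)]
  have hG1 : ∀ l (ζ : ℂ), 0 < ζ.im → ‖M.E ζ (G l)‖ ≤ EE l := by
    intro l ζ h
    rw [hGn l ζ h]
    simp only [hEE]
    gcongr
    exact M.low_le c hw _ h
  have hG2 : ∀ l ≤ K, ∀ ζ : ℂ, 0 < ζ.im → a < UU c w (M.ψ^[i + l] ζ) →
      ‖M.E ζ (G l)‖ ≤ EE l / (4 * (K + 1)) := by
    intro l hl ζ h hU
    rw [hGn l ζ h, le_div_iff₀ (by positivity)]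
    simp only [hEE]
    rw [mul_assoc]
    gcongr
    have h1 : Real.exp (-(t * UU c w (M.ψ^[i + l] ζ))) ≤
        Real.exp (-(t * M.low c w (i + l))) * Real.exp (-(t * (a - M.low c w (i + l)))) := by
      rw [← Real.exp_add]
      apply Real.exp_le_exp.2
      nlinarith
    have h2 := hgap l hl
    have h3 := Real.exp_pos (-(t * M.low c w (i + l)))
    calc _ ≤ Real.exp (-(t * M.low c w (i + l))) * Real.exp (-(t * (a - M.low c w (i + l)))) *
          (4 * (K + 1)) := by gcongr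
      _ = Real.exp (-(t * M.low c w (i + l))) *
          (4 * ((K + 1) * Real.exp (-(t * (a - M.low c w (i + l)))))) := by ring
      _ ≤ _ := by nlinarith
  have hsum : ∀ (d : ℕ → ℝ) (m : ℝ), (∀ l ≤ K, |d l| * EE l ≤ m) → ∀ ζ : ℂ, 0 < ζ.im →
      ∀ j0 ≤ K, (∀ l ≤ K, l ≠ j0 → a < UU c w (M.ψ^[i + l] ζ)) →
      ‖M.E ζ (∑ l ∈ Finset.range (K + 1), (d l : ℂ) • G l) - d j0 * M.E ζ (G j0)‖ ≤ m / 4 := by
    intro d m hd ζ h j0 hj0 hl
    have hm0 : 0 ≤ m := le_trans (by simp only [hEE]; positivity) (hd 0 (by omega))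
    have := sum_single (a := fun l => d l * M.E ζ (G l)) hj0 (x := m / (4 * (K + 1)))
      (by positivity) fun l hlK hne => by
        rw [norm_mul, Complex.norm_real, Real.norm_eq_abs]
        calc _ ≤ |d l| * (EE l / (4 * (K + 1))) := by gcongr; exact hG2 l hlK ζ h (hl l hlK hne)
          _ = |d l| * EE l / (4 * (K + 1)) := by ring
          _ ≤ _ := by gcongr; exact hd l hlK
    simp only [map_sum, map_smul, smul_eq_mul]
    refine this.trans_eq ?_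
    field_simp
  have hvisit : ∀ ζ : ℂ, 0 < ζ.im → ∀ j0 ≤ K, UU c w (M.ψ^[i + j0] ζ) ≤ a →
      ∀ l ≤ K, l ≠ j0 → a < UU c w (M.ψ^[i + l] ζ) := by
    intro ζ h j0 hj0 hU l hl hne
    by_contra hcon
    push Not at hcon
    rcases lt_or_gt_of_ne hne with h' | h'
    · exact hsingle ζ h l j0 h' hj0 hcon hU
    · exact hsingle ζ h j0 l h' hl hU hcon
  set f : A := ∑ l ∈ Finset.range (K + 1), (e (l + 1) : ℂ) • G l with hf
  have hTG : ∀ l, M.T (G l) = M.ν • G (l + 1) := by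
    intro l
    simp only [hG]
    rw [map_smul, smul_smul, pow_succ' M.ν⁻¹, ← mul_assoc, mul_inv_cancel₀ M.ν_ne, one_mul,
      ← add_assoc, pow_succ' M.T, mul_apply_eq_comp]
  have hTf : M.T f - M.ν • f =
      M.ν • ∑ l ∈ Finset.range (K + 1), ((e l - e (l + 1) : ℝ) : ℂ) • G l := by
    have e1 : M.T f = M.ν • ∑ l ∈ Finset.range (K + 1), (e l : ℂ) • G l := by
      have e2 : ∑ l ∈ Finset.range (K + 1), (e (l + 1) : ℂ) • G (l + 1) =
          ∑ l ∈ Finset.range (K + 1), (e l : ℂ) • G l := by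
        have a1 := Finset.sum_range_succ' (fun l => (e l : ℂ) • G l) (K + 1)
        have a2 := Finset.sum_range_succ (fun l => (e l : ℂ) • G l) (K + 1)
        simp only [he0, heK, ofReal_zero, zero_smul, add_zero] at a1 a2
        rw [← a1, a2]
      rw [← e2, hf, map_sum, Finset.smul_sum]
      refine Finset.sum_congr rfl fun l _ => ?_
      rw [map_smul, hTG, smul_comm]
    rw [e1, ← smul_sub, hf, ← Finset.sum_sub_distrib]
    congr 1
    refine Finset.sum_congr rfl fun l _ => ?_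
    rw [ofReal_sub, sub_smul]
  have hm10 : 0 ≤ m1 := le_trans (by positivity) (hm1 0 (by omega))
  have hfn : ‖f‖ ≤ 5 / 4 * (‖M.R‖ + 1) * m1 := by
    have h1 : ‖∑ l ∈ Finset.range (K + 1), ((e l - e (l + 1) : ℝ) : ℂ) • G l‖ ≤ 5 / 4 * m1 := by
      refine M.norm_le _ _ fun ζ h => ?_
      obtain ⟨j0, hj0, hl⟩ : ∃ j0 ≤ K, ∀ l ≤ K, l ≠ j0 → a < UU c w (M.ψ^[i + l] ζ) := by
        by_cases hex : ∃ j0 ≤ K, UU c w (M.ψ^[i + j0] ζ) ≤ a
        · obtain ⟨j0, hj0, hU⟩ := hex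
          exact ⟨j0, hj0, hvisit ζ h j0 hj0 hU⟩
        · push Not at hex
          exact ⟨0, by omega, fun l hl _ => hex l hl⟩
      have a1 := hsum (fun l => e l - e (l + 1)) m1 hm1 ζ h j0 hj0 hl
      have a2 : ‖((e j0 - e (j0 + 1) : ℝ) : ℂ) * M.E ζ (G j0)‖ ≤ m1 := by
        rw [norm_mul, Complex.norm_real, Real.norm_eq_abs]
        exact le_trans (by gcongr; exact hG1 j0 ζ h) (hm1 j0 hj0)
      have a3 := norm_le_norm_sub_add
        (M.E ζ (∑ l ∈ Finset.range (K + 1), ((e l - e (l + 1) : ℝ) : ℂ) • G l))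
        (((e j0 - e (j0 + 1) : ℝ) : ℂ) * M.E ζ (G j0))
      linarith
    have h2 : ‖f‖ ≤ ‖M.R‖ * ‖M.T f - M.ν • f‖ := by
      conv_lhs => rw [← M.RT f]
      exact M.R.le_opNorm _
    rw [hTf, norm_smul] at h2
    have h3 := M.ν_lt
    have h4 : ‖M.ν‖ * ‖∑ l ∈ Finset.range (K + 1), ((e l - e (l + 1) : ℝ) : ℂ) • G l‖ ≤
        5 / 4 * m1 := by
      refine le_trans ?_ h1
      exact mul_le_of_le_one_left (norm_nonneg _) h3.le
    have h5 := mul_le_mul_of_nonneg_left h4 (norm_nonneg M.R)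
    nlinarith
  have hlt : M.low c w (i + j) < a := by
    by_contra hcon
    push Not at hcon
    have h1 := hgap j hj
    have h2 : 1 ≤ Real.exp (-(t * (a - M.low c w (i + j)))) :=
      Real.one_le_exp (by nlinarith)
    have : (0 : ℝ) ≤ K := by positivity
    nlinarith
  obtain ⟨ζ, hζ, hU⟩ := M.exists_lt_low c w (i + j) (x := min a (M.low c w (i + j) + 1 / (4 * t)))
    (lt_min hlt (by have : 0 < 1 / (4 * t) := by positivity
                    linarith))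
  have a1 := hsum (fun l => e (l + 1)) m2 (fun l hl => by
    rw [abs_of_nonneg (he _)]; exact hm2 l hl) ζ hζ j hj
    (hvisit ζ hζ j hj (hU.le.trans (min_le_left _ _)))
  have a2 : 3 / 4 * (e (j + 1) * EE j) ≤ ‖(e (j + 1) : ℂ) * M.E ζ (G j)‖ := by
    rw [norm_mul, Complex.norm_real, Real.norm_eq_abs, abs_of_nonneg (he _), hGn j ζ hζ]
    simp only [hEE]
    have b1 : 3 / 4 * Real.exp (-(t * M.low c w (i + j))) ≤
        Real.exp (-(t * UU c w (M.ψ^[i + j] ζ))) := by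
      have c1 : 3 / 4 ≤ Real.exp (-(1 / 4)) := by linarith [Real.add_one_le_exp (-(1 / 4))]
      have c2 : t * UU c w (M.ψ^[i + j] ζ) ≤ t * M.low c w (i + j) + 1 / 4 := by
        have := hU.le.trans (min_le_right _ _)
        calc _ ≤ t * (M.low c w (i + j) + 1 / (4 * t)) := by gcongr
          _ = _ := by field_simp
      calc _ ≤ Real.exp (-(1 / 4)) * Real.exp (-(t * M.low c w (i + j))) := by gcongr
        _ ≤ _ := by rw [← Real.exp_add]; exact Real.exp_le_exp.2 (by linarith)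
    have := he (j + 1)
    calc _ = e (j + 1) * (‖M.ν‖⁻¹ ^ j * (3 / 4 * Real.exp (-(t * M.low c w (i + j))))) := by ring
      _ ≤ _ := by gcongr
  have a3 := M.E_le ζ f
  have a4 : ‖(e (j + 1) : ℂ) * M.E ζ (G j)‖ ≤
      ‖M.E ζ f - (e (j + 1) : ℂ) * M.E ζ (G j)‖ + ‖M.E ζ f‖ := by
    rw [norm_sub_rev]; exact norm_le_norm_sub_add _ _
  show 3 / 4 * (e (j + 1) * EE j) ≤ _
  linarith

end HModel

end

end Pool.Agent.MP_ff3f8e_an.H65
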