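import Pool.Agent.MP_ff3f8e_an.H65.StepsA

open Metric Set Filter Topology Complex ComplexConjugate

namespace Pool.Agent.MP_ff3f8e_an.H65

noncomputable section

lemma exp_gap : Real.exp (-2) + 1 / 10 < Real.exp (-1) := by
  have h1 := Real.exp_neg_one_gt_d9
  have h2 := Real.exp_neg_one_lt_d9
  have h3 : Real.exp (-2) = Real.exp (-1) * Real.exp (-1) := by rw [← Real.exp_add]; norm_num
  nlinarith

namespace HModel

variable {A : Type} [NormedCommRing A] [NormedAlgebra ℂ A] (M : HModel A)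

lemma norm_ν_pos : 0 < ‖M.ν‖ := norm_pos_iff.2 M.ν_ne

lemma sigma_pos : 0 < -Real.log ‖M.ν‖ := neg_pos.2 (Real.log_neg M.norm_ν_pos M.ν_lt)

lemma inv_pow_eq (l : ℕ) : ‖M.ν‖⁻¹ ^ l = Real.exp (l * -Real.log ‖M.ν‖) := by
  rw [Real.exp_nat_mul, Real.exp_neg, Real.exp_log M.norm_ν_pos]

/-- At most linear growth of `low` along a block. -/
lemma low_growth {c w a B : ℝ} (hw : 0 < w) (ha : 0 < a) (hB : 1 ≤ B) (hBa : 2 * B * a ≤ 1 / 4)
    {j n : ℕ} (hn : 1 ≤ n) (hj : 4 * (‖M.R‖ + 1) * ‖M.ν‖ ^ (j + 1) ≤ Real.exp (-1))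
    (hlow : M.low c w j ≤ B * a)
    (hgood : ∀ ζ : ℂ, 0 < ζ.im → |ζ.re - c| ≤ w → ζ.im ≤ w → ∀ i, 1 ≤ i → i ≤ j + n →
      (8 * (j + n : ℕ) : ℝ) ≤ hh ζ (M.ψ^[i] ζ)) :
    M.low c w (j + n) ≤
      B * (2 * (1 + n * -Real.log ‖M.ν‖ + Real.log (4 * (‖M.R‖ + 1)))) * a := by
  obtain ⟨x, hx, hU⟩ := M.exists_lt_low c w j (x := 2 * B * a) (by nlinarith)
  have hy0 := M.iter_pos j hx
  obtain ⟨h1, h2⟩ := UU_small c hw hy0 hBa hU.le
  set t := 1 / (2 * B * a) with ht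
  have hBa0 : 0 < 2 * B * a := by positivity
  have ht0 : 0 < t := by positivity
  obtain ⟨F, hF⟩ := M.exists_test c hw t
  have hF1 : ‖F‖ ≤ 1 := M.norm_le _ _ fun ζ h => by
    rw [hF ζ h, Real.exp_le_one_iff, neg_nonpos]
    exact mul_nonneg ht0.le (UU_pos c hw h).le
  have hW := M.W_ineq (j := j) (k := j + n) (by omega) hx
    (hgood _ hy0 (by linarith) (by nlinarith)) F (s := Real.exp (-(t * M.low c w (j + n))))
    fun ζ h => by
      rw [hF _ (M.iter_pos _ h)]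
      gcongr
      exact M.low_le c hw _ h
  rw [hF _ hy0] at hW
  obtain ⟨k, rfl⟩ : ∃ k, n = k + 1 := ⟨n - 1, by omega⟩
  rw [show j + (k + 1) - 1 - j = k by omega, show j + (k + 1) = k + (j + 1) by omega,
    pow_add] at hW
  rw [show j + (k + 1) = k + (j + 1) by omega]
  have hr := M.norm_ν_pos
  have hR := norm_nonneg M.R
  have h3 : Real.exp (-1) ≤ Real.exp (-(t * UU c w (M.ψ^[j] x))) := by
    apply Real.exp_le_exp.2
    have : t * UU c w (M.ψ^[j] x) ≤ t * (2 * B * a) := by gcongr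
    rw [ht, one_div_mul_cancel hBa0.ne'] at this
    linarith
  set s := Real.exp (-(t * M.low c w (k + (j + 1)))) with hs
  have hs0 : 0 < s := Real.exp_pos _
  have h4 : ‖M.ν‖ ^ k * Real.exp (-1) ≤ 4 * (‖M.R‖ + 1) * s := by
    have a1 : ‖M.ν‖ ^ k * Real.exp (-1) ≤
        ‖M.ν‖ ^ k * Real.exp (-(t * UU c w (M.ψ^[j] x))) := by gcongr
    have a2 : 2 * ‖M.R‖ * (s + ‖M.ν‖ ^ k * ‖M.ν‖ ^ (j + 1) * ‖F‖) ≤
        2 * (‖M.R‖ + 1) * (s + ‖M.ν‖ ^ k * ‖M.ν‖ ^ (j + 1) * 1) := by gcongr; linarith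
    have a3 : ‖M.ν‖ ^ k * (4 * (‖M.R‖ + 1) * ‖M.ν‖ ^ (j + 1)) ≤ ‖M.ν‖ ^ k * Real.exp (-1) := by
      gcongr
    nlinarith
  have h5 := Real.log_le_log (by positivity) h4
  rw [Real.log_mul (by positivity) (by positivity), Real.log_mul (by positivity) hs0.ne',
    Real.log_exp, hs, Real.log_exp, Real.log_pow] at h5
  have hσ := M.sigma_pos
  have h6 : t * M.low c w (k + (j + 1)) ≤
      1 + (k + 1 : ℕ) * -Real.log ‖M.ν‖ + Real.log (4 * (‖M.R‖ + 1)) := by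
    push_cast; linarith
  rw [ht, one_div_mul_eq_div, div_le_iff₀ hBa0] at h6
  linarith

lemma single_visit {c w a L Λ : ℝ} (hw : 0 < w) (ha : 0 < a) {m i n : ℕ} (hmi : m ≤ i)
    (hL0 : 0 < L) (hLa : L * a ≤ 1 / 4) (hΛ : 8 * L < Λ)
    (hheight : ∀ ζ : ℂ, 0 < ζ.im → |(M.ψ^[m] ζ).re - c| ≤ w → a * w / 4 ≤ (M.ψ^[m] ζ).im)
    (hret : ∀ ζ : ℂ, 0 < ζ.im → |ζ.re - c| ≤ w → ζ.im ≤ w → ∀ l, 1 ≤ l → l ≤ 2 * n →
      |(M.ψ^[l] ζ).re - c| ≤ w → (M.ψ^[l] ζ).im ≤ w → Λ * ζ.im ≤ (M.ψ^[l] ζ).im) :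
    ∀ ζ : ℂ, 0 < ζ.im → ∀ l l', l < l' → l' ≤ 2 * n →
      UU c w (M.ψ^[i + l] ζ) ≤ L * a → UU c w (M.ψ^[i + l'] ζ) ≤ L * a → False := by
  intro ζ h l l' hll hl' hU hU'
  obtain ⟨a1, a2⟩ := UU_small c hw (M.iter_pos _ h) hLa hU
  obtain ⟨a3, a4⟩ := UU_small c hw (M.iter_pos _ h) hLa hU'
  have e1 : M.ψ^[i + l'] ζ = M.ψ^[l' - l] (M.ψ^[i + l] ζ) := by
    rw [← Function.iterate_add_apply]; congr 1; omega
  have e2 : M.ψ^[i + l] ζ = M.ψ^[m] (M.ψ^[i + l - m] ζ) := by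
    rw [← Function.iterate_add_apply]; congr 1; omega
  have b0 : 2 * (L * a) * w ≤ w := by nlinarith
  have a5 := hret _ (M.iter_pos (i + l) h) (by linarith) (by linarith) (l' - l) (by omega)
    (by omega) (by rw [← e1]; linarith) (by rw [← e1]; linarith)
  have a6 := hheight _ (M.iter_pos (i + l - m) h) (by rw [← e2]; linarith)
  rw [← e1] at a5
  rw [← e2] at a6
  have haw : 0 < a * w := by positivity
  have b1 : Λ * (a * w / 4) ≤ Λ * (M.ψ^[i + l] ζ).im :=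
    mul_le_mul_of_nonneg_left a6 (by linarith)
  have b2 : 8 * L * (a * w / 4) < Λ * (a * w / 4) := mul_lt_mul_of_pos_right hΛ (by positivity)
  linarith

lemma gap_arith {n : ℕ} (hn : 1 ≤ n) {σ t B a L b : ℝ} (hσ : 0 < σ) (ht : 0 < t) (ha : 0 < a)
    (hL : B * (1 + Real.log (8 * n + 4) / (2 * n * σ)) ≤ L) (hb : b ≤ B * a)
    (b2 : 2 * n * σ ≤ t * (B * a)) :
    (((2 * n : ℕ) : ℝ) + 1) * Real.exp (-(t * (L * a - b))) ≤ 1 / 4 := by
  have hn0 : (0 : ℝ) < n := by exact_mod_cast hn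
  have hlog : 0 < Real.log (8 * n + 4) := Real.log_pos (by linarith)
  have b3 : Real.log (8 * n + 4) ≤ t * (L * a - b) := by
    calc Real.log (8 * n + 4) = 2 * n * σ * (Real.log (8 * n + 4) / (2 * n * σ)) := by
          field_simp
      _ ≤ t * (B * a) * (Real.log (8 * n + 4) / (2 * n * σ)) := by gcongr
      _ = t * (B * (1 + Real.log (8 * n + 4) / (2 * n * σ)) * a - B * a) := by ring
      _ ≤ _ := by gcongr
  have b4 : Real.exp (-(t * (L * a - b))) ≤ 1 / (8 * n + 4) := by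
    refine (Real.exp_le_exp.2 (neg_le_neg b3)).trans_eq ?_
    rw [Real.exp_neg, Real.exp_log (by positivity), one_div]
  calc _ ≤ (((2 * n : ℕ) : ℝ) + 1) * (1 / (8 * n + 4)) := by gcongr
    _ = 1 / 4 := by push_cast; field_simp; ring

lemma decay_arith {n σ κ ε t b0 b1 b2 C : ℝ} (hn : 0 < n) (hσ : 0 < σ) (hε0 : 0 ≤ ε)
    (hε1 : ε ≤ 1 / 2) (hε : ε * σ ≤ κ / 2) (hnk : C < n * (κ / 2)) (ht : 0 < t)
    (htd : t * (b2 - b0) = 2 * n * σ) (hcon : (1 - ε) * (b1 - b0) < b2 - b1)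
    (h5 : n * κ + (n * σ + -(t * b1)) ≤ C + -(t * b0)) : False := by
  have h6 : (2 - ε) * (t * (b1 - b0)) ≤ 2 * n * σ := by
    rw [← htd]
    nlinarith
  have hns : 0 < n * σ := by positivity
  have h7 : t * (b1 - b0) ≤ n * σ * (1 + ε) := by
    have h : 0 ≤ ε * (1 - ε) := mul_nonneg hε0 (by linarith)
    have : (2 - ε) * (t * (b1 - b0)) ≤ (2 - ε) * (n * σ * (1 + ε)) := by nlinarith
    exact le_of_mul_le_mul_left this (by linarith)
  have h8 : n * (ε * σ) ≤ n * (κ / 2) := by gcongr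
  nlinarith

/-- Geometric decay of block increments of `low`. -/
lemma low_decay {c w a B L Λ ε : ℝ} (hw : 0 < w) (ha : 0 < a) (hB : 0 < B) {m i n : ℕ}
    (hn : 1 ≤ n) (hmi : m ≤ i) (hε0 : 0 ≤ ε) (hε1 : ε ≤ 1 / 2)
    (hε : ε * -Real.log ‖M.ν‖ ≤ Real.log (1 + 1 / (5 * (‖M.R‖ + 1))) / 2)
    (hnk : Real.log (5 * (‖M.R‖ + 1) + 1) < n * (Real.log (1 + 1 / (5 * (‖M.R‖ + 1))) / 2))
    (hL : B * (1 + Real.log (8 * n + 4) / (2 * n * -Real.log ‖M.ν‖)) ≤ L) (hLa : L * a ≤ 1 / 4)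
    (hΛ : 8 * L < Λ) (hlow : M.low c w (i + 2 * n) ≤ B * a)
    (hheight : ∀ ζ : ℂ, 0 < ζ.im → |(M.ψ^[m] ζ).re - c| ≤ w → a * w / 4 ≤ (M.ψ^[m] ζ).im)
    (hret : ∀ ζ : ℂ, 0 < ζ.im → |ζ.re - c| ≤ w → ζ.im ≤ w → ∀ l, 1 ≤ l → l ≤ 2 * n →
      |(M.ψ^[l] ζ).re - c| ≤ w → (M.ψ^[l] ζ).im ≤ w → Λ * ζ.im ≤ (M.ψ^[l] ζ).im) :
    M.low c w (i + 2 * n) - M.low c w (i + n) ≤ (1 - ε) * (M.low c w (i + n) - M.low c w i) := by
  have m1 : M.low c w i ≤ M.low c w (i + n) := M.low_mono c hw (by omega)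
  have m0 := M.low_nonneg c hw i
  by_contra hcon
  push Not at hcon
  have hσ := M.sigma_pos
  have hn0 : (0 : ℝ) < n := by exact_mod_cast hn
  have hd : 0 < M.low c w (i + 2 * n) - M.low c w i := by
    have : 0 ≤ (1 - ε) * (M.low c w (i + n) - M.low c w i) :=
      mul_nonneg (by linarith) (by linarith)
    linarith
  obtain ⟨t, ht0, htd⟩ : ∃ t : ℝ, 0 < t ∧
      t * (M.low c w (i + 2 * n) - M.low c w i) = 2 * n * -Real.log ‖M.ν‖ :=
    ⟨2 * n * -Real.log ‖M.ν‖ / (M.low c w (i + 2 * n) - M.low c w i), by positivity,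
      div_mul_cancel₀ _ hd.ne'⟩
  have hlog : 0 < Real.log (8 * n + 4) := Real.log_pos (by linarith)
  have hL0 : 0 < L := lt_of_lt_of_le (by positivity) hL
  have hsingle := M.single_visit hw ha hmi hL0 hLa hΛ hheight hret
  have b2 : 2 * n * -Real.log ‖M.ν‖ ≤ t * (B * a) := by
    rw [← htd]; exact mul_le_mul_of_nonneg_left (by linarith) ht0.le
  have hgap : ∀ l ≤ 2 * n, (((2 * n : ℕ) : ℝ) + 1) *
      Real.exp (-(t * (L * a - M.low c w (i + l)))) ≤ 1 / 4 := fun l hl =>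
    gap_arith hn hσ ht0 ha hL ((M.low_mono c hw (by omega)).trans hlow) b2
  have hR := norm_nonneg M.R
  have hr := M.norm_ν_pos
  have hE0 : ‖M.ν‖⁻¹ ^ (2 * n) * Real.exp (-(t * M.low c w (i + 2 * n))) =
      ‖M.ν‖⁻¹ ^ 0 * Real.exp (-(t * M.low c w (i + 0))) := by
    rw [M.inv_pow_eq, pow_zero, one_mul, ← Real.exp_add, add_zero]
    congr 1
    push_cast
    linarith
  have htilt := tilt (fun l => ‖M.ν‖⁻¹ ^ l * Real.exp (-(t * M.low c w (i + l)))) n hn (‖M.R‖ + 1)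
    (by positivity) (fun l => by positivity) hE0
    fun e he he0 heK m1 m2 hm1 hm2 j hj =>
      M.V_ineq hw ht0 hsingle hgap e he he0 heK m1 m2 hm1 hm2 j hj
  rw [M.inv_pow_eq, pow_zero, one_mul, ← Real.exp_add, add_zero] at htilt
  have h5 := Real.log_le_log (by positivity) htilt
  rw [Real.log_mul (by positivity) (by positivity), Real.log_mul (by positivity) (by positivity),
    Real.log_exp, Real.log_exp, Real.log_pow] at h5
  exact decay_arith hn0 hσ hε0 hε1 hε hnk ht0 htd hcon h5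

/-- No window in which orbits are separated can see a lowest point of an iterated image. -/
theorem window : ∃ (m n' : ℕ) (a0 Λ : ℝ), M.j0 ≤ m ∧ 0 < a0 ∧ ∀ c w a : ℝ, 0 < w → 0 < a →
    a ≤ a0 → (∃ ζ : ℂ, 0 < ζ.im ∧ M.ψ^[m] ζ = c + (a * w : ℝ) * I) →
    (∀ ζ : ℂ, 0 < ζ.im → |(M.ψ^[m] ζ).re - c| ≤ w → a * w / 4 ≤ (M.ψ^[m] ζ).im) →
    (∀ ζ : ℂ, 0 < ζ.im → |ζ.re - c| ≤ w → ζ.im ≤ w → ∀ i, 1 ≤ i → i ≤ n' →
      (8 * n' : ℝ) ≤ hh ζ (M.ψ^[i] ζ) ∧
      (|(M.ψ^[i] ζ).re - c| ≤ w → (M.ψ^[i] ζ).im ≤ w → Λ * ζ.im ≤ (M.ψ^[i] ζ).im)) → False := by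
  have hσ := M.sigma_pos
  have hR := norm_nonneg M.R
  have hr := M.norm_ν_pos
  have hκ : 0 < Real.log (1 + 1 / (5 * (‖M.R‖ + 1))) :=
    Real.log_pos (by have : 0 < 1 / (5 * (‖M.R‖ + 1)) := by positivity
                     linarith)
  obtain ⟨ε, hε0, hε1, hε⟩ : ∃ ε : ℝ, 0 < ε ∧ ε ≤ 1 / 2 ∧
      ε * -Real.log ‖M.ν‖ ≤ Real.log (1 + 1 / (5 * (‖M.R‖ + 1))) / 2 := by
    refine ⟨min (1 / 2) (Real.log (1 + 1 / (5 * (‖M.R‖ + 1))) / 2 / -Real.log ‖M.ν‖),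
      lt_min (by norm_num) (by positivity), min_le_left _ _, ?_⟩
    rw [← le_div_iff₀ hσ]
    exact min_le_right _ _
  obtain ⟨n, hn, hnk⟩ : ∃ n : ℕ, 1 ≤ n ∧ Real.log (5 * (‖M.R‖ + 1) + 1) <
      n * (Real.log (1 + 1 / (5 * (‖M.R‖ + 1))) / 2) := by
    obtain ⟨n, hn⟩ := exists_nat_gt (Real.log (5 * (‖M.R‖ + 1) + 1) /
      (Real.log (1 + 1 / (5 * (‖M.R‖ + 1))) / 2))
    rw [div_lt_iff₀ (by positivity)] at hn
    refine ⟨n + 1, by omega, hn.trans ?_⟩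
    push_cast
    linarith
  obtain ⟨m, hm0, hm⟩ : ∃ m : ℕ, M.j0 ≤ m ∧ ∀ j, m ≤ j →
      4 * (‖M.R‖ + 1) * ‖M.ν‖ ^ (j + 1) ≤ Real.exp (-1) := by
    have ht : Tendsto (fun j : ℕ => 4 * (‖M.R‖ + 1) * ‖M.ν‖ ^ (j + 1)) atTop
        (𝓝 (4 * (‖M.R‖ + 1) * 0)) :=
      ((tendsto_pow_atTop_nhds_zero_of_lt_one hr.le M.ν_lt).comp
        (tendsto_add_atTop_nat 1)).const_mul _
    obtain ⟨m, hm⟩ := eventually_atTop.1 (ht.eventually
      (ge_mem_nhds (by simpa using Real.exp_pos (-1) : 4 * (‖M.R‖ + 1) * 0 < Real.exp (-1))))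
    exact ⟨max m M.j0, le_max_right _ _, fun j hj => hm j ((le_max_left _ _).trans hj)⟩
  have hn0 : (0 : ℝ) < n := by exact_mod_cast hn
  obtain ⟨C1, hC1, hC1'⟩ : ∃ C1 : ℝ, C1 = 2 * (1 + n * -Real.log ‖M.ν‖ +
      Real.log (4 * (‖M.R‖ + 1))) ∧ 2 ≤ C1 := by
    refine ⟨_, rfl, ?_⟩
    have : 0 < Real.log (4 * (‖M.R‖ + 1)) := Real.log_pos (by linarith)
    have : 0 < n * -Real.log ‖M.ν‖ := by positivity
    linarith
  obtain ⟨C', hC', hC'1⟩ : ∃ C' : ℝ, C' = 1 + C1 / ε ∧ 1 ≤ C' :=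
    ⟨_, rfl, by have : 0 < C1 / ε := by positivity
                linarith⟩
  obtain ⟨L, hL, hL1⟩ : ∃ L : ℝ, C' * C1 * (1 + Real.log (8 * n + 4) /
      (2 * n * -Real.log ‖M.ν‖)) ≤ L ∧ 2 * C' ≤ L := by
    refine ⟨_, le_rfl, ?_⟩
    have hlog : 0 < Real.log (8 * n + 4) := Real.log_pos (by linarith)
    have : 0 < Real.log (8 * n + 4) / (2 * n * -Real.log ‖M.ν‖) := by positivity
    have h2 : 2 * C' ≤ C' * C1 := by nlinarith
    nlinarith
  have hL0 : 0 < L := by linarith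
  obtain ⟨N, hN⟩ := M.hullFin m (96 * C') (1 / 10) (by norm_num)
  refine ⟨m, m + (N + 2) * n, 1 / (4 * L), 8 * L + 1, hm0, by positivity,
    fun c w a hw ha ha0 hζ1 hheight hgood => ?_⟩
  have hLa : L * a ≤ 1 / 4 := by
    rw [le_div_iff₀ (by positivity)] at ha0
    linarith
  have hC'a : 2 * C' * a ≤ 1 / 4 := le_trans (by gcongr) hLa
  have hgrow : ∀ (j : ℕ) (B : ℝ), m ≤ j → j + n ≤ m + (N + 2) * n → 1 ≤ B → B ≤ C' →
      M.low c w j ≤ B * a → M.low c w (j + n) ≤ B * C1 * a := by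
    intro j B hj hjn hB hBC hlow
    rw [hC1]
    refine M.low_growth hw ha hB (le_trans (by gcongr) hC'a) hn (hm j hj) hlow
      fun ζ h h1 h2 i hi hi' => le_trans ?_ (hgood ζ h h1 h2 i hi (hi'.trans hjn)).1
    have : ((j + n : ℕ) : ℝ) ≤ ((m + (N + 2) * n : ℕ) : ℝ) := by exact_mod_cast hjn
    linarith
  have hm1 : M.low c w m ≤ 1 * a := by
    obtain ⟨ζ, hζ, he⟩ := hζ1
    refine (M.low_le c hw m hζ).trans ?_
    rw [he]
    refine (UU_center c hw (by positivity)).trans_eq ?_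
    field_simp
  have hbound : ∀ k : ℕ, a + C1 * a * (1 - (1 - ε) ^ k) / ε ≤ C' * a := by
    intro k
    have hp : 0 ≤ (1 - ε) ^ k := pow_nonneg (by linarith) _
    have h1 : C1 * a * (1 - (1 - ε) ^ k) ≤ C1 * a :=
      mul_le_of_le_one_right (by positivity) (by linarith)
    rw [hC', add_mul, one_mul, div_mul_eq_mul_div]
    exact add_le_add le_rfl (div_le_div_of_nonneg_right h1 hε0.le)
  have hind : ∀ k ≤ N, M.low c w (m + k * n + n) - M.low c w (m + k * n) ≤ (1 - ε) ^ k * (C1 * a) ∧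
      M.low c w (m + k * n + n) ≤ a + C1 * a * (1 - (1 - ε) ^ (k + 1)) / ε := by
    intro k
    induction k with
    | zero =>
      intro _
      have h1 := hgrow m 1 le_rfl (by nlinarith) le_rfl hC'1 hm1
      have h2 := M.low_nonneg c hw m
      simp only [zero_mul, add_zero, pow_zero, zero_add, pow_one, sub_sub_cancel, one_mul] at h1 ⊢
      rw [mul_div_assoc, div_self hε0.ne']
      constructor <;> linarith
    | succ k ih =>
      intro hk
      obtain ⟨ih1, ih2⟩ := ih (by omega)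
      have h1 : M.low c w (m + k * n + n) ≤ C' * a := ih2.trans (hbound _)
      have hle : (k + 2) * n ≤ (N + 2) * n := Nat.mul_le_mul_right n (by omega)
      have h2 := hgrow (m + k * n + n) C' (by omega) (by nlinarith) hC'1 le_rfl h1
      have h3 := M.low_decay (i := m + k * n) (Λ := 8 * L + 1) hw ha
        (by positivity : 0 < C' * C1) hn (Nat.le_add_right _ _) hε0.le hε1 hε hnk hL hLa
        (by linarith) (by rwa [show m + k * n + 2 * n = m + k * n + n + n by omega]) hheight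
        fun ζ h h1 h2 l hl hl' => (hgood ζ h h1 h2 l hl (by nlinarith)).2
      rw [show m + (k + 1) * n = m + k * n + n by ring]
      rw [show m + k * n + 2 * n = m + k * n + n + n by omega] at h3
      have h4 : M.low c w (m + k * n + n + n) - M.low c w (m + k * n + n) ≤
          (1 - ε) ^ (k + 1) * (C1 * a) := by
        refine h3.trans ?_
        rw [pow_succ', mul_assoc]
        exact mul_le_mul_of_nonneg_left ih1 (by linarith)
      refine ⟨h4, ?_⟩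
      have : a + C1 * a * (1 - (1 - ε) ^ (k + 1 + 1)) / ε =
          a + C1 * a * (1 - (1 - ε) ^ (k + 1)) / ε + (1 - ε) ^ (k + 1) * (C1 * a) := by
        rw [pow_succ (1 - ε) (k + 1)]; field_simp; ring
      linarith
  have hfin : M.low c w (m + N * n + n) ≤ C' * a := (hind N le_rfl).2.trans (hbound _)
  obtain ⟨x, hx, hU⟩ := M.exists_lt_low c w (m + N * n + n) (x := 2 * C' * a) (by nlinarith)
  have hNn : N ≤ N * n := Nat.le_mul_of_pos_right _ hn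
  have e1 : M.ψ^[m + N * n + n] x = M.ψ^[N] (M.ψ^[m + N * n + n - N] x) := by
    rw [← Function.iterate_add_apply]; congr 1; omega
  have e2 : M.ψ^[m + N * n + n] x = M.ψ^[m] (M.ψ^[N * n + n] x) := by
    rw [← Function.iterate_add_apply, add_assoc]
  have hy0 := M.iter_pos (m + N * n + n) hx
  obtain ⟨h1, h2⟩ := UU_small c hw hy0 hC'a hU.le
  have h3 := hheight _ (M.iter_pos (N * n + n) hx) (by rw [← e2]; linarith)
  rw [← e2] at h3
  generalize M.ψ^[m + N * n + n] x = y at e1 hy0 h1 h2 h3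
  have haw : 0 < a * w := by positivity
  have hz0 : 0 < ((y.re : ℂ) + (a * w / 24 : ℝ) * I).im := by simp; positivity
  obtain ⟨g, hg⟩ := M.exists_test y.re (w := w / 3) (by positivity) (8 / a)
  have hg1 : ‖g‖ ≤ 1 := M.norm_le _ _ fun ζ h => by
    rw [hg ζ h, Real.exp_le_one_iff, neg_nonpos]
    exact mul_nonneg (by positivity) (UU_pos _ (by positivity) h).le
  have h4 := hN _ _ (M.iter_pos (m + N * n + n - N) hx) hz0 (by
    rw [← e1, hh_le_iff hz0 hy0, normSq_eq]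
    simp only [sub_re, add_re, ofReal_re, mul_re, I_re, mul_zero, ofReal_im, I_im, mul_one,
      sub_self, add_zero, sub_im, add_im, mul_im, zero_add]
    nlinarith) g hg1
  have h5 : ‖(M.T ^ m) g‖ ≤ Real.exp (-2) := by
    refine M.norm_pow_le m g fun ζ h => ?_
    have hζ := M.iter_pos m h
    rw [hg _ hζ]
    apply Real.exp_le_exp.2
    have : a / 4 ≤ UU y.re (w / 3) (M.ψ^[m] ζ) := by
      by_contra hcon
      push Not at hcon
      obtain ⟨b1, b2⟩ := UU_small y.re (by positivity : 0 < w / 3) hζ (a := a / 4)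
        (by nlinarith) hcon.le
      have b3 := hheight ζ h (by
        have := abs_sub_le (M.ψ^[m] ζ).re y.re c
        linarith)
      linarith
    have h6 : 8 / a * (a / 4) ≤ 8 / a * UU y.re (w / 3) (M.ψ^[m] ζ) := by gcongr
    have h7 : 8 / a * (a / 4) = 2 := by field_simp; ring
    linarith
  have h6 : Real.exp (-1) ≤ ‖M.E ((y.re : ℂ) + (a * w / 24 : ℝ) * I) g‖ := by
    rw [hg _ hz0]
    apply Real.exp_le_exp.2
    have b1 := UU_center y.re (w := w / 3) (y := a * w / 24) (by positivity) (by positivity)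
    have h6 : 8 / a * UU y.re (w / 3) ((y.re : ℂ) + (a * w / 24 : ℝ) * I) ≤
        8 / a * (a * w / 24 / (w / 3)) := by gcongr
    have h7 : 8 / a * (a * w / 24 / (w / 3)) = 1 := by field_simp; ring
    linarith
  linarith [exp_gap]

end HModel

end

end Pool.Agent.MP_ff3f8e_an.H65
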