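import Pool.Agent.MP_ff3f8e_an.H65.StepsB

open Metric Set Filter Topology Complex ComplexConjugate

namespace Pool.Agent.MP_ff3f8e_an.H65

noncomputable section

lemma same_sign {p p' : ℂ} {x : ℝ} (hx : 0 < x) (h1 : x ≤ ‖p‖ ^ 2) (h2 : p.im ^ 2 ≤ x / 4)
    (h3 : ‖p' - p‖ ^ 2 ≤ ‖p‖ ^ 2 / 4) : 0 < p.re * p'.re := by
  rw [normSq_eq] at h1 h3
  rw [normSq_eq, sub_re] at h3
  nlinarith [sq_nonneg (p' - p).im, sq_nonneg p'.re]

namespace HModel

variable {A : Type} [NormedCommRing A] [NormedAlgebra ℂ A] (M : HModel A)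

/-- Points near deep iterated images are never separated from their own orbit. -/
theorem no_good : ∃ (D : ℝ) (n' : ℕ), ∀ ρ : ℝ, ∃ N : ℕ, ∀ ζ z : ℂ, 0 < ζ.im → 0 < z.im →
    hh z (M.ψ^[N] ζ) ≤ ρ → ∃ i, 1 ≤ i ∧ i ≤ n' ∧ hh z (M.ψ^[i] z) < D := by
  obtain ⟨m, n', a0, Λ, hm, ha0, hwin⟩ := M.window
  obtain ⟨K, hK8, hKa⟩ : ∃ K : ℝ, 8 ≤ K ∧ 40 ≤ a0 * K := by
    refine ⟨8 + 40 / a0, by have : 0 < 40 / a0 := by positivity
                            linarith, ?_⟩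
    rw [mul_add, mul_div_cancel₀ _ ha0.ne']; linarith
  obtain ⟨L, hL1, hL2, hL3⟩ : ∃ L : ℝ, 1 ≤ L ∧ 16 * (n' : ℝ) ≤ L ∧ Λ ≤ L :=
    ⟨max 1 (max (16 * n') Λ), le_max_left _ _, (le_max_left _ _).trans (le_max_right _ _),
      (le_max_right _ _).trans (le_max_right _ _)⟩
  refine ⟨(8 * K ^ 2 * L) ^ 2, n', fun ρ => ?_⟩
  obtain ⟨N, hN⟩ := M.hullFin m ρ (1 / 10) (by norm_num)
  refine ⟨N, fun ζ z hζ hz hρ => ?_⟩
  by_contra hcon
  push Not at hcon
  have hKz : 0 < K * z.im := by positivity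
  -- a first point of the image in the box
  obtain ⟨ζ0, hζ0, hU0⟩ : ∃ ζ0 : ℂ, 0 < ζ0.im ∧ UU z.re (K * z.im) (M.ψ^[m] ζ0) ≤ 2 / K := by
    by_contra h
    push Not at h
    obtain ⟨g, hg⟩ := M.exists_test z.re hKz K
    have hg1 : ‖g‖ ≤ 1 := M.norm_le _ _ fun ζ h => by
      rw [hg ζ h, Real.exp_le_one_iff, neg_nonpos]
      exact mul_nonneg (by positivity) (UU_pos _ hKz h).le
    have h4 := hN ζ z hζ hz hρ g hg1
    have h5 : ‖(M.T ^ m) g‖ ≤ Real.exp (-2) := by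
      refine M.norm_pow_le m g fun ζ hζ => ?_
      rw [hg _ (M.iter_pos m hζ)]
      apply Real.exp_le_exp.2
      have := h ζ hζ
      rw [div_lt_iff₀ (by positivity)] at this
      linarith
    have h6 : Real.exp (-1) ≤ ‖M.E z g‖ := by
      rw [hg _ hz]
      apply Real.exp_le_exp.2
      have b1 := UU_center z.re hKz hz
      rw [re_add_im, le_div_iff₀ hKz] at b1
      have : K * UU z.re (K * z.im) z * z.im ≤ 1 * z.im := by linarith
      have := le_of_mul_le_mul_right this hz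
      linarith
    linarith [exp_gap]
  set Φ : ℂ → ℝ := fun ζ => (K * z.im - |(M.ψ^[m] ζ).re - z.re|) / (M.ψ^[m] ζ).im with hΦ
  have hΦ0 : K / 10 ≤ Φ ζ0 := by
    obtain ⟨a1, a2⟩ := UU_small z.re hKz (M.iter_pos m hζ0) (a := 2 / K)
      (by rw [div_le_iff₀ (by positivity)]; linarith) hU0
    have a3 : 2 * (2 / K) * (K * z.im) = 4 * z.im := by field_simp; ring
    simp only [hΦ]
    rw [le_div_iff₀ (M.iter_pos m hζ0)]
    nlinarith
  obtain ⟨c0, hc0, hc0'⟩ := M.j0_spec (‖z‖ + 2 * (K * z.im))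
  have hbdd : ∀ ζ : ℂ, 0 < ζ.im → Φ ζ ≤ max 1 (K * z.im / c0) := by
    intro ζ h
    have hy := M.iter_pos m h
    by_cases h1 : Φ ζ ≤ 1
    · exact h1.trans (le_max_left _ _)
    refine le_trans ?_ (le_max_right _ _)
    push Not at h1
    simp only [hΦ] at h1 ⊢
    rw [lt_div_iff₀ hy] at h1
    have e : M.ψ^[m] ζ = M.ψ^[M.j0] (M.ψ^[m - M.j0] ζ) := by
      rw [← Function.iterate_add_apply]; congr 1; omega
    have h2 := hc0' _ (M.iter_pos (m - M.j0) h) (by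
      rw [← e]
      refine (Complex.norm_le_abs_re_add_abs_im _).trans ?_
      have b1 : |(M.ψ^[m] ζ).re| ≤ |(M.ψ^[m] ζ).re - z.re| + |z.re| := by
        simpa using abs_add_le ((M.ψ^[m] ζ).re - z.re) z.re
      have b2 := abs_re_le_norm z
      have b3 := abs_nonneg ((M.ψ^[m] ζ).re - z.re)
      rw [abs_of_pos hy]
      linarith)
    rw [← e] at h2
    have b3 := abs_nonneg ((M.ψ^[m] ζ).re - z.re)
    calc _ ≤ K * z.im / (M.ψ^[m] ζ).im := by gcongr; linarith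
      _ ≤ _ := by gcongr
  have hB : BddAbove (range fun ζ : {ζ : ℂ // 0 < ζ.im} => Φ ζ) :=
    ⟨_, by rintro _ ⟨ζ, rfl⟩; exact hbdd ζ ζ.2⟩
  set S := ⨆ ζ : {ζ : ℂ // 0 < ζ.im}, Φ ζ with hS
  have hSle : ∀ ζ : ℂ, 0 < ζ.im → Φ ζ ≤ S := fun ζ h =>
    le_ciSup hB (⟨ζ, h⟩ : {ζ : ℂ // 0 < ζ.im})
  have hS0 : K / 10 ≤ S := hΦ0.trans (hSle ζ0 hζ0)
  obtain ⟨⟨ζ1, hζ1⟩, h1⟩ := exists_lt_of_lt_ciSup (f := fun ζ : {ζ : ℂ // 0 < ζ.im} => Φ ζ)
    (show S / 2 < S by linarith)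
  have hy1 := M.iter_pos m hζ1
  simp only [hΦ] at h1 hSle
  rw [lt_div_iff₀ hy1] at h1
  set y1 := M.ψ^[m] ζ1 with hy1'
  set w := (K * z.im - |y1.re - z.re|) / 2 with hw
  have hSy : 0 < S / 2 * y1.im := by have : 0 < S := by linarith
                                     positivity
  have hw0 : 0 < w := by linarith
  have habs := abs_nonneg (y1.re - z.re)
  have hbox : ∀ v : ℂ, |v.re - y1.re| ≤ w → w ≤ K * z.im - |v.re - z.re| := by
    intro v hv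
    have := abs_sub_le v.re y1.re z.re
    linarith
  refine hwin y1.re w (y1.im / w) hw0 (by positivity) ?_ ⟨ζ1, hζ1, ?_⟩ (fun v hv hvw => ?_)
    fun v hv h2 h3 i hi hi' => ?_
  · rw [div_le_iff₀ hw0]
    have : K / 20 * y1.im ≤ S / 2 * y1.im := mul_le_mul_of_nonneg_right (by linarith) hy1.le
    have h2 : 40 * y1.im ≤ a0 * K * y1.im := by gcongr
    nlinarith
  · rw [div_mul_cancel₀ _ hw0.ne', re_add_im]
  · have a1 := hSle v hv
    have hyv := M.iter_pos m hv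
    rw [div_le_iff₀ hyv] at a1
    have a2 := hbox _ hvw
    rw [div_mul_cancel₀ _ hw0.ne']
    have hS' : 0 < S := by linarith
    have : S * (y1.im / 4) ≤ S * (M.ψ^[m] v).im := by linarith
    exact le_of_mul_le_mul_left this hS'
  · have := good_box (M.iter_diff i) (fun ζ h => M.iter_im_lt hi h) hz (by linarith) hL1
      (hcon i hi hi') hv (by linarith [hbox v h2]) (by linarith)
    refine ⟨by linarith [this.1], fun h4 h5 => le_trans (by gcongr) (this.2 ?_ (by linarith))⟩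
    linarith [hbox _ h4]

/-- Long steps cannot cancel. -/
lemma lemmaS {δ : ℝ} (hδ : 0 < δ) (hδ1 : δ ≤ 1) {y : ℂ} (hy : 0 < y.im) {i : ℕ} (hi : 1 ≤ i)
    (hstep : ∀ j < i, δ ≤ hh (M.ψ^[j] y) (M.ψ (M.ψ^[j] y))) : δ / 12 ≤ hh y (M.ψ^[i] y) := by
  by_contra hcon
  push Not at hcon
  have hyi := M.iter_pos i hy
  have hY : (M.ψ^[i] y).im ≤ 3 * y.im := by
    have := im_le_of_hh hyi hy
    rw [hh_comm] at this
    nlinarith
  have hx : 0 < δ * y.im ^ 2 := by positivity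
  have hd : ‖y - M.ψ^[i] y‖ ^ 2 ≤ δ * y.im ^ 2 / 4 := by
    rw [← hh_mul hy hyi]
    calc _ ≤ δ / 12 * (y.im * (3 * y.im)) := by gcongr
      _ = _ := by ring
  rw [normSq_eq, sub_re, sub_im] at hd
  set u : ℂ → ℂ := fun ζ => M.ψ ζ - ζ with hu
  have hu0 : ∀ ζ : ℂ, 0 < ζ.im → 0 < (u ζ).im := fun ζ h => by
    simpa [hu] using M.ψ_im ζ h
  have him : ∀ j < i, (u (M.ψ^[j] y)).im ≤ (M.ψ^[i] y).im - y.im := by
    intro j hj
    have a1 := M.iter_im_le j hy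
    have a2 := M.iter_im_le (i - (j + 1)) (M.iter_pos (j + 1) hy)
    rw [← Function.iterate_add_apply, show i - (j + 1) + (j + 1) = i by omega,
      Function.iterate_succ_apply'] at a2
    simp only [hu, sub_im]
    linarith
  have hD : ((M.ψ^[i] y).im - y.im) ^ 2 ≤ δ * y.im ^ 2 / 4 := by
    nlinarith [sq_nonneg (y.re - (M.ψ^[i] y).re)]
  have him2 : ∀ j < i, (u (M.ψ^[j] y)).im ^ 2 ≤ δ * y.im ^ 2 / 4 := fun j hj =>
    le_trans (by have := hu0 _ (M.iter_pos j hy); gcongr; exact him j hj) hD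
  have hn : ∀ j < i, δ * y.im ^ 2 ≤ ‖u (M.ψ^[j] y)‖ ^ 2 := by
    intro j hj
    have a0 := M.iter_pos j hy
    have a1 := (le_hh_iff a0 (M.ψ_pos a0)).1 (hstep j hj)
    have a2 := M.iter_im_le j hy
    have a3 := (M.ψ_im _ a0).le
    rw [norm_sub_rev] at a1
    refine le_trans ?_ a1
    rw [sq]
    gcongr
    linarith
  have hsign : ∀ j, j + 1 < i → 0 < (u (M.ψ^[j] y)).re * (u (M.ψ^[j + 1] y)).re := by
    intro j hj
    refine same_sign hx (hn j (by omega)) (him2 j (by omega)) ?_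
    have a0 := M.iter_pos j hy
    have a1 := M.iter_pos (j + 1) hy
    have a2 := schwarz_pick (f := u) (M.ψ_diff.sub differentiableOn_id) hu0 a1 a0
    have a3 := hh_mul a1 a0
    have a4 := M.iter_im_le j hy
    have a5 := M.iter_im_le (j + 1) hy
    have a6 : hh (M.ψ^[j + 1] y) (M.ψ^[j] y) * y.im ^ 2 ≤ ‖u (M.ψ^[j] y)‖ ^ 2 := by
      have : ‖u (M.ψ^[j] y)‖ = ‖M.ψ^[j + 1] y - M.ψ^[j] y‖ := by
        rw [Function.iterate_succ_apply']
      rw [this, ← a3, sq]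
      have := hh_nonneg a1 a0
      gcongr
    have a7 : (u (M.ψ^[j + 1] y)).im * (u (M.ψ^[j] y)).im ≤ y.im ^ 2 / 4 := by
      have b1 := him (j + 1) hj
      have b2 := him j (by omega)
      have b3 := hu0 _ a0
      have b4 := hu0 _ a1
      calc _ ≤ ((M.ψ^[i] y).im - y.im) * ((M.ψ^[i] y).im - y.im) := by gcongr; linarith
        _ ≤ _ := by nlinarith
    rw [← hh_mul (hu0 _ a1) (hu0 _ a0)]
    have b5 := hh_nonneg a1 a0
    have b3 := hu0 _ a0
    have b4 := hu0 _ a1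
    calc _ ≤ hh (M.ψ^[j + 1] y) (M.ψ^[j] y) * (y.im ^ 2 / 4) := by gcongr
      _ ≤ _ := by linarith
  have hre : 3 / 4 * (δ * y.im ^ 2) ≤ (u y).re ^ 2 := by
    have a1 := hn 0 hi
    have a2 := him2 0 hi
    rw [normSq_eq] at a1
    simp only [Function.iterate_zero, id] at a1 a2
    linarith
  have hall : ∀ j < i, 0 < (u y).re * (u (M.ψ^[j] y)).re := by
    intro j
    induction j with
    | zero => intro _; simp only [Function.iterate_zero, id]; nlinarith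
    | succ j ih =>
      intro hj
      have a1 := ih (by omega)
      have a2 := hsign j hj
      by_contra h
      push Not at h
      have a3 : 0 < (u y).re * (u (M.ψ^[j] y)).re *
        ((u (M.ψ^[j] y)).re * (u (M.ψ^[j + 1] y)).re) := mul_pos a1 a2
      nlinarith [mul_nonneg (sq_nonneg (u (M.ψ^[j] y)).re) (neg_nonneg.2 h)]
  have hsum : ∀ j, j + 1 ≤ i → (u y).re ^ 2 ≤ (u y).re * ((M.ψ^[j + 1] y).re - y.re) := by
    intro j
    induction j with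
    | zero => intro _; simp [hu, sq]
    | succ j ih =>
      intro hj
      have a1 := ih (by omega)
      have a2 := hall (j + 1) (by omega)
      rw [Function.iterate_succ_apply' M.ψ (j + 1)]
      simp only [hu, sub_re] at a1 a2 ⊢
      nlinarith
  obtain ⟨k, rfl⟩ : ∃ k, i = k + 1 := ⟨i - 1, by omega⟩
  have a1 := hsum k le_rfl
  nlinarith [sq_nonneg (y.im - (M.ψ^[k + 1] y).im),
    sq_nonneg ((u y).re - ((M.ψ^[k + 1] y).re - y.re))]

/-- The steps are uniformly small on deep iterated images. -/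
theorem small_steps (δ : ℝ) (hδ : 0 < δ) :
    ∃ N : ℕ, ∀ ζ : ℂ, 0 < ζ.im → hh (M.ψ^[N] ζ) (M.ψ (M.ψ^[N] ζ)) < δ := by
  by_contra hcon
  push Not at hcon
  obtain ⟨D, n', hD⟩ := M.no_good
  obtain ⟨δ1, hδ1, hδ2, hδ3⟩ : ∃ δ1 : ℝ, 0 < δ1 ∧ δ1 ≤ 1 ∧ δ1 ≤ δ :=
    ⟨min 1 δ, lt_min one_pos hδ, min_le_left _ _, min_le_right _ _⟩
  set c : ℝ := (δ1 / 60) ^ n' / 2 ^ n' with hc
  have hc0 : 0 < c := by positivity
  obtain ⟨ρ, hρ0, hρ1, hρD⟩ : ∃ ρ : ℝ, 0 < ρ ∧ ρ < 1 ∧ |D| * (1 - ρ ^ 2) ≤ 4 * c ^ 2 := by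
    have hD0 := abs_nonneg D
    have h1 : 0 < c ^ 2 / (|D| + 1) := by positivity
    refine ⟨max (1 / 2) (1 - c ^ 2 / (|D| + 1)), lt_max_of_lt_left (by norm_num),
      max_lt (by norm_num) (by linarith), ?_⟩
    set ρ := max (1 / 2) (1 - c ^ 2 / (|D| + 1))
    have h2 : 1 - ρ ≤ c ^ 2 / (|D| + 1) := by
      have : 1 - c ^ 2 / (|D| + 1) ≤ ρ := le_max_right _ _
      linarith
    have h3 : ρ < 1 := max_lt (by norm_num) (by linarith)
    have h4 : 1 - ρ ^ 2 ≤ 2 * (c ^ 2 / (|D| + 1)) := by nlinarith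
    have h5 : |D| * (c ^ 2 / (|D| + 1)) ≤ c ^ 2 := by
      rw [← mul_div_assoc, div_le_iff₀ (by positivity)]; nlinarith
    nlinarith
  have hρ2 : 0 < 1 - ρ ^ 2 := by nlinarith
  obtain ⟨N, hN⟩ := hD (4 / (1 - ρ ^ 2))
  obtain ⟨ζ, hζ, hstep⟩ := hcon (n' + N)
  rw [Function.iterate_add_apply] at hstep
  set y := M.ψ^[N] ζ with hy
  have hy0 : 0 < y.im := M.iter_pos N hζ
  have hsteps : ∀ j ≤ n', δ1 ≤ hh (M.ψ^[j] y) (M.ψ (M.ψ^[j] y)) := by
    intro j hj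
    have a0 := M.iter_pos j hy0
    have := M.hh_iter_le (n' - j) a0 (M.ψ_pos a0)
    rw [← Function.iterate_succ_apply, Function.iterate_succ_apply',
      ← Function.iterate_add_apply, show n' - j + j = n' by omega] at this
    linarith
  have hA : ∀ w ∈ ball (0 : ℂ) 1, 0 < (am y w).im := fun w hw => am_im_pos hy0 (by simpa using hw)
  set Pr : ℂ → ℂ := fun w => ∏ i ∈ Finset.Icc 1 n', (w - bl y (M.ψ^[i] (am y w))) with hPr
  have hPd : DifferentiableOn ℂ Pr (ball 0 1) := by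
    refine DifferentiableOn.fun_finsetProd fun i _ => differentiableOn_id.sub ?_
    exact (differentiableOn_bl hy0).comp ((M.iter_diff i).comp (differentiableOn_am y) hA)
      fun w hw => M.iter_pos i (hA w hw)
  have hsub : closure (ball (0 : ℂ) ρ) ⊆ ball 0 1 :=
    closure_ball_subset_closedBall.trans (closedBall_subset_ball hρ1)
  obtain ⟨w, hw, hmax⟩ := Complex.exists_mem_frontier_isMaxOn_norm isBounded_ball
    ⟨0, mem_ball_self hρ0⟩ (hPd.diffContOnCl_ball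
      ((closedBall_subset_ball hρ1)))
  rw [frontier_ball _ hρ0.ne', mem_sphere_zero_iff_norm] at hw
  have hw1 : ‖w‖ < 1 := by rwa [hw]
  have h0 : ‖Pr 0‖ ≤ ‖Pr w‖ := hmax (subset_closure (mem_ball_self hρ0))
  have h1 : (δ1 / 60) ^ n' ≤ ‖Pr 0‖ := by
    simp only [hPr, am_zero, zero_sub, norm_prod, norm_neg]
    calc (δ1 / 60) ^ n' = ∏ _i ∈ Finset.Icc 1 n', (δ1 / 60) := by
          rw [Finset.prod_const, Nat.card_Icc, Nat.add_sub_cancel]
      _ ≤ _ := Finset.prod_le_prod (fun _ _ => by positivity) fun i hi => ?_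
    rw [Finset.mem_Icc] at hi
    have a0 := M.iter_pos i hy0
    have a1 := M.lemmaS hδ1 hδ2 hy0 hi.1 fun j hj => hsteps j (by omega)
    have a2 := one_sub_norm_bl_sq hy0 a0
    have a3 := norm_bl_lt hy0 a0
    rw [hh_comm] at a1
    have a4 : 4 / (hh (M.ψ^[i] y) y + 4) ≤ 1 - δ1 / 60 := by
      rw [div_le_iff₀ (by linarith)]; nlinarith
    nlinarith [norm_nonneg (bl y (M.ψ^[i] y))]
  set z := am y w with hz
  have hz0 : 0 < z.im := am_im_pos hy0 hw1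
  have hbz : bl y z = w := bl_am hy0 hw1
  obtain ⟨i, hi, hi', hlt⟩ := hN ζ z hζ hz0 (by
    have a1 := one_sub_norm_bl_sq hy0 hz0
    have a2 := hh_nonneg hz0 hy0
    rw [hbz, hw, eq_div_iff (by positivity)] at a1
    rw [le_div_iff₀ hρ2]
    nlinarith)
  have hzi := M.iter_pos i hz0
  have h2 : ‖Pr w‖ ≤ ‖w - bl y (M.ψ^[i] z)‖ * 2 ^ n' := by
    simp only [hPr]
    rw [← Finset.mul_prod_erase _ _ (Finset.mem_Icc.2 ⟨hi, hi'⟩), norm_mul, norm_prod]
    gcongr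
    calc _ ≤ ∏ _l ∈ (Finset.Icc 1 n').erase i, (2 : ℝ) :=
          Finset.prod_le_prod (fun _ _ => norm_nonneg _) fun l _ => by
            have := norm_bl_lt hy0 (M.iter_pos l hz0)
            linarith [norm_sub_le w (bl y (M.ψ^[l] z))]
      _ ≤ 2 ^ n' := by
          rw [Finset.prod_const]
          exact pow_le_pow_right₀ one_le_two ((Finset.card_erase_le).trans (by simp))
  have h3 : c ≤ ‖w - bl y (M.ψ^[i] z)‖ := by
    rw [hc, div_le_iff₀ (by positivity)]; linarith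
  have h4 := hh_eq_bl hy0 hz0 hzi
  rw [hbz, hw] at h4
  have h5 : 4 * c ^ 2 ≤ hh z (M.ψ^[i] z) * (1 - ρ ^ 2) := by
    have a1 : c ^ 2 ≤ ‖w - bl y (M.ψ^[i] z)‖ ^ 2 := by gcongr
    have a2 := hh_nonneg hz0 hzi
    have a3 : hh z (M.ψ^[i] z) * ((1 - ρ ^ 2) * (1 - ‖bl y (M.ψ^[i] z)‖ ^ 2)) ≤
        hh z (M.ψ^[i] z) * ((1 - ρ ^ 2) * 1) := by
      gcongr
      nlinarith [norm_nonneg (bl y (M.ψ^[i] z))]
    linarith
  have h6 : hh z (M.ψ^[i] z) * (1 - ρ ^ 2) < |D| * (1 - ρ ^ 2) :=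
    mul_lt_mul_of_pos_right (hlt.trans_le (le_abs_self D)) hρ2
  linarith

end HModel

end

end Pool.Agent.MP_ff3f8e_an.H65
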