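import Pool.Agent.MP_ff3f8e_an.H65.Tools
import Pool.Agent.MP_ff3f8e_an.H65.HullB

open Metric Set Filter Topology Complex ComplexConjugate BoundedContinuousFunction

namespace Pool.Agent.MP_ff3f8e_an.H65

noncomputable section

lemma lip_disc {F : ℂ → ℂ} {c z : ℂ} {s B : ℝ} (hd : DifferentiableOn ℂ F (ball c s))
    (hb : ∀ w ∈ ball c s, ‖F w‖ ≤ B) (hz : z ∈ ball c s) : ‖F z - F c‖ ≤ 2 * B / s * ‖z - c‖ := by
  have hc : c ∈ ball c s := mem_ball_self (nonempty_ball.1 ⟨z, hz⟩)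
  have := Complex.dist_le_div_mul_dist_of_mapsTo_ball (R₂ := 2 * B) hd (fun w hw => by
    rw [mem_closedBall, dist_eq_norm]
    linarith [norm_sub_le (F w) (F c), hb w hw, hb c hc]) hz
  rwa [dist_eq_norm, dist_eq_norm] at this

lemma dslope_disc {F : ℂ → ℂ} {c z : ℂ} {s B : ℝ} (hd : DifferentiableOn ℂ F (ball c s))
    (hb : ∀ w ∈ ball c s, ‖F w‖ ≤ B) (hz : z ∈ ball c s) : ‖dslope F c z‖ ≤ 2 * B / s := by
  have hc : c ∈ ball c s := mem_ball_self (nonempty_ball.1 ⟨z, hz⟩)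
  exact Complex.norm_dslope_le_div_of_mapsTo_ball (R₂ := 2 * B) hd (fun w hw => by
    rw [mem_closedBall, dist_eq_norm]
    linarith [norm_sub_le (F w) (F c), hb w hw, hb c hc]) hz

lemma quad_disc {F : ℂ → ℂ} {c z : ℂ} {s B : ℝ} (hd : DifferentiableOn ℂ F (ball c s))
    (hb : ∀ w ∈ ball c s, ‖F w‖ ≤ B) (hz : z ∈ ball c s) :
    ‖F z - F c - (z - c) * deriv F c‖ ≤ 2 * (2 * B / s) / s * ‖z - c‖ ^ 2 := by
  have hs : 0 < s := nonempty_ball.1 ⟨z, hz⟩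
  have h1 := lip_disc ((Complex.differentiableOn_dslope (ball_mem_nhds c hs)).2 hd)
    (fun w hw => dslope_disc hd hb hw) hz
  have h2 := sub_smul_dslope F c z
  rw [smul_eq_mul] at h2
  rw [← h2, ← dslope_same, ← mul_sub, norm_mul, sq, ← mul_assoc, mul_comm ‖z - c‖]
  gcongr

/-- A fixed free ultrafilter on the natural numbers. -/
def uf : Ultrafilter ℕ := hyperfilter ℕ

lemma uf_le : (uf : Filter ℕ) ≤ atTop := by
  rw [← Nat.cofinite_eq_atTop]; exact hyperfilter_le_cofinite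

lemma tendsto_uf {E : Type} [NormedAddCommGroup E] [ProperSpace E] {u : ℕ → E} {B : ℝ}
    (h : ∀ n, ‖u n‖ ≤ B) : Tendsto u uf (𝓝 (limUnder uf u)) := by
  obtain ⟨a, -, ha⟩ := (isCompact_closedBall (0 : E) B).ultrafilter_le_nhds (uf.map u) (by
    rw [le_principal_iff, Ultrafilter.coe_map, mem_map]
    exact Eventually.of_forall fun n => by simpa using h n)
  exact tendsto_nhds_limUnder ⟨a, ha⟩

lemma differentiableOn_ulim {F : ℕ → ℂ → ℂ} {B : ℝ}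
    (hd : ∀ n, DifferentiableOn ℂ (F n) (ball 0 1)) (hb : ∀ n w, ‖F n w‖ ≤ B) :
    DifferentiableOn ℂ (fun w => limUnder uf fun n => F n w) (ball 0 1) := by
  intro c hc
  obtain ⟨s, hs, hsub⟩ := Metric.isOpen_iff.1 isOpen_ball c hc
  have hder : ∀ n, ‖deriv (F n) c‖ ≤ 2 * B / s := fun n => by
    rw [← dslope_same]
    exact dslope_disc ((hd n).mono hsub) (fun w _ => hb n w) (mem_ball_self hs)
  have hq : ∀ z ∈ ball c s, ‖(limUnder uf fun n => F n z) - (limUnder uf fun n => F n c) -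
      (z - c) * limUnder uf fun n => deriv (F n) c‖ ≤ 2 * (2 * B / s) / s * ‖z - c‖ ^ 2 := by
    intro z hz
    refine le_of_tendsto' ((((tendsto_uf fun n => hb n z).sub (tendsto_uf fun n => hb n c)).sub
      ((tendsto_uf hder).const_mul (z - c))).norm) fun n => ?_
    exact quad_disc ((hd n).mono hsub) (fun w _ => hb n w) hz
  refine (HasDerivAt.differentiableAt
    (f' := limUnder uf fun n => deriv (F n) c) ?_).differentiableWithinAt
  rw [hasDerivAt_iff_isLittleO]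
  refine Asymptotics.IsBigO.trans_isLittleO (g := fun z => ‖z - c‖ ^ 2) ?_
    (Asymptotics.isLittleO_pow_sub_sub c one_lt_two)
  refine Asymptotics.IsBigO.of_bound (2 * (2 * B / s) / s) ?_
  filter_upwards [ball_mem_nhds c hs] with z hz
  simpa using hq z hz

namespace HModel

variable {A : Type} [NormedCommRing A] [NormedAlgebra ℂ A] (M : HModel A)

lemma ψ_pos {ζ : ℂ} (h : 0 < ζ.im) : 0 < (M.ψ ζ).im := h.trans (M.ψ_im ζ h)

lemma iter_pos (n : ℕ) {ζ : ℂ} (h : 0 < ζ.im) : 0 < (M.ψ^[n] ζ).im := by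
  induction n with
  | zero => exact h
  | succ n ih => rw [Function.iterate_succ_apply']; exact M.ψ_pos ih

lemma iter_im_le (n : ℕ) {ζ : ℂ} (h : 0 < ζ.im) : ζ.im ≤ (M.ψ^[n] ζ).im := by
  induction n with
  | zero => exact le_rfl
  | succ n ih =>
    rw [Function.iterate_succ_apply']; exact ih.trans (M.ψ_im _ (M.iter_pos n h)).le

lemma iter_im_lt {n : ℕ} (hn : 1 ≤ n) {ζ : ℂ} (h : 0 < ζ.im) : ζ.im < (M.ψ^[n] ζ).im := by
  obtain ⟨k, rfl⟩ : ∃ k, n = k + 1 := ⟨n - 1, by omega⟩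
  rw [Function.iterate_succ_apply']
  exact (M.iter_im_le k h).trans_lt (M.ψ_im _ (M.iter_pos k h))

lemma iter_diff (n : ℕ) : DifferentiableOn ℂ M.ψ^[n] {ζ | 0 < ζ.im} := by
  induction n with
  | zero => exact differentiableOn_id
  | succ n ih => rw [Function.iterate_succ']; exact M.ψ_diff.comp ih fun ζ h => M.iter_pos n h

lemma E_pow (n : ℕ) (f : A) {ζ : ℂ} (h : 0 < ζ.im) :
    M.E ζ ((M.T ^ n) f) = M.E (M.ψ^[n] ζ) f := by
  induction n generalizing f with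
  | zero => simp
  | succ n ih =>
    rw [pow_succ, mul_apply_eq_comp, ih, M.E_T _ _ (M.iter_pos n h), Function.iterate_succ_apply']

lemma ext {f g : A} (h : ∀ ζ : ℂ, 0 < ζ.im → M.E ζ f = M.E ζ g) : f = g := by
  have : ‖f - g‖ ≤ 0 := M.norm_le _ _ fun ζ hζ => by simp [h ζ hζ]
  exact sub_eq_zero.1 (norm_le_zero_iff.1 this)

lemma T_mul (f g : A) : M.T (f * g) = M.T f * M.T g :=
  M.ext fun ζ h => by rw [map_mul (M.E ζ), M.E_T _ _ h, M.E_T _ _ h, M.E_T _ _ h, map_mul]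

lemma norm_T_le (f : A) : ‖M.T f‖ ≤ ‖f‖ :=
  M.norm_le _ _ fun ζ h => by rw [M.E_T _ _ h]; exact M.E_le _ _

lemma norm_pow_le (n : ℕ) (f : A) {c : ℝ} (h : ∀ ζ : ℂ, 0 < ζ.im → ‖M.E (M.ψ^[n] ζ) f‖ ≤ c) :
    ‖(M.T ^ n) f‖ ≤ c :=
  M.norm_le _ _ fun ζ hζ => by rw [M.E_pow n f hζ]; exact h ζ hζ

omit [NormedAlgebra ℂ A] in
lemma tendsto_norm_uf (h : ℕ →ᵇ A) :
    Tendsto (fun n => ‖h n‖) uf (𝓝 (limUnder uf fun n => ‖h n‖)) :=
  tendsto_uf (B := ‖h‖) fun n => by simpa using h.norm_coe_le_norm n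

/-- The ultralimit seminorm. -/
def uq : Seminorm ℂ (ℕ →ᵇ A) :=
  Seminorm.of (fun h => limUnder uf fun n => ‖h n‖)
    (fun g h => le_of_tendsto_of_tendsto' (tendsto_norm_uf (g + h))
      ((tendsto_norm_uf g).add (tendsto_norm_uf h)) fun n => norm_add_le _ _)
    (fun c h => tendsto_nhds_unique (tendsto_norm_uf (c • h)) (by
      simpa only [BoundedContinuousFunction.smul_apply, norm_smul] using
        (tendsto_norm_uf h).const_mul ‖c‖))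

lemma tendsto_uq (h : ℕ →ᵇ A) : Tendsto (fun n => ‖h n‖) uf (𝓝 (uq h)) := tendsto_norm_uf h

/-- The hull data on bounded sequences. -/
def ultraData : HullData (ℕ →ᵇ A) where
  q := uq
  T := (M.T.compLeftContinuousBounded ℕ).toLinearMap
  R := (M.R.compLeftContinuousBounded ℕ).toLinearMap
  ν := M.ν
  ν_lt := M.ν_lt
  M := ‖M.R‖
  TR h := by ext n; exact M.TR (h n)
  RT h := by ext n; exact M.RT (h n)
  T_le h := le_of_tendsto_of_tendsto' (tendsto_uq _) (tendsto_uq h) fun n => M.norm_T_le (h n)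
  R_le h := le_of_tendsto_of_tendsto' (tendsto_uq _) ((tendsto_uq h).const_mul _)
    fun n => M.R.le_opNorm (h n)
  T_mul g h := by ext n; exact M.T_mul (g n) (h n)
  q_mul g h := le_of_tendsto_of_tendsto' (tendsto_uq _) ((tendsto_uq g).mul (tendsto_uq h))
    fun n => norm_mul_le (g n) (h n)

lemma ultra_pow (j : ℕ) (h : ℕ →ᵇ A) (n : ℕ) : (M.ultraData.T ^ j) h n = (M.T ^ j) (h n) := by
  induction j with
  | zero => rfl
  | succ j ih =>
    rw [pow_succ', pow_succ', Module.End.mul_apply, mul_apply_eq_comp, ← ih]; rfl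

lemma tendsto_E (x : ℕ → ℂ) (h : ℕ →ᵇ A) :
    Tendsto (fun n => M.E (x n) (h n)) uf (𝓝 (limUnder uf fun n => M.E (x n) (h n))) :=
  tendsto_uf (B := ‖h‖) fun n => (M.E_le _ _).trans (h.norm_coe_le_norm n)

/-- Ultralimit of evaluations along a sequence of points. -/
def uev (x : ℕ → ℂ) : (ℕ →ᵇ A) →ₐ[ℂ] ℂ where
  toFun h := limUnder uf fun n => M.E (x n) (h n)
  map_one' := tendsto_nhds_unique (M.tendsto_E x 1) (by simp)
  map_mul' g h := tendsto_nhds_unique (M.tendsto_E x (g * h)) (by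
    simpa using (M.tendsto_E x g).mul (M.tendsto_E x h))
  map_zero' := tendsto_nhds_unique (M.tendsto_E x 0) (by simp)
  map_add' g h := tendsto_nhds_unique (M.tendsto_E x (g + h)) (by
    simpa using (M.tendsto_E x g).add (M.tendsto_E x h))
  commutes' c := tendsto_nhds_unique (M.tendsto_E x (algebraMap ℂ _ c)) (by simp)

lemma tendsto_uev (x : ℕ → ℂ) (h : ℕ →ᵇ A) :
    Tendsto (fun n => M.E (x n) (h n)) uf (𝓝 (M.uev x h)) := M.tendsto_E x h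

lemma diff_am {y : ℂ} (hy : 0 < y.im) (f : A) :
    DifferentiableOn ℂ (fun w => M.E (am y w) f) (ball 0 1) :=
  (M.E_diff f).comp (differentiableOn_am y) fun w hw => am_im_pos hy (by simpa using hw)

lemma tendsto_uev_moving {y : ℕ → ℂ} (hy : ∀ n, 0 < (y n).im) {w : ℕ → ℂ} {w0 : ℂ}
    (hw0 : ‖w0‖ < 1) (hw : Tendsto w uf (𝓝 w0)) (h : ℕ →ᵇ A) :
    Tendsto (fun n => M.E (am (y n) (w n)) (h n)) uf (𝓝 (M.uev (fun n => am (y n) w0) h)) := by
  have hsub : ball w0 (1 - ‖w0‖) ⊆ ball 0 1 := by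
    intro v hv
    rw [mem_ball, dist_eq_norm] at hv
    rw [mem_ball_zero_iff]
    have : ‖v‖ ≤ ‖v - w0‖ + ‖w0‖ := by simpa using norm_add_le (v - w0) w0
    linarith
  refine (M.tendsto_uev (fun n => am (y n) w0) h).congr_dist ?_
  have t0 : Tendsto (fun n => 2 * ‖h‖ / (1 - ‖w0‖) * ‖w n - w0‖) uf
      (𝓝 (2 * ‖h‖ / (1 - ‖w0‖) * 0)) :=
    (tendsto_iff_norm_sub_tendsto_zero.1 hw).const_mul _
  rw [mul_zero] at t0
  refine squeeze_zero' (Eventually.of_forall fun _ => dist_nonneg) ?_ t0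
  filter_upwards [hw.eventually (ball_mem_nhds w0 (by linarith : 0 < 1 - ‖w0‖))] with n hn
  rw [dist_comm, dist_eq_norm]
  exact lip_disc ((M.diff_am (hy n) (h n)).mono hsub)
    (fun v _ => (M.E_le _ _).trans (h.norm_coe_le_norm n)) hn

lemma exists_far (n : ℕ) {ζ : ℂ} (hζ : 0 < ζ.im) :
    ∃ ζ' : ℂ, 0 < ζ'.im ∧ 1 / 2 ≤ ‖bl (M.ψ^[n] ζ) (M.ψ^[n] ζ')‖ := by
  set y := M.ψ^[n] ζ with hy
  have hy0 : 0 < y.im := M.iter_pos n hζ
  obtain ⟨j, hj⟩ := M.escape (3 * ‖y‖)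
  refine ⟨M.ψ^[j] ζ, M.iter_pos j hζ, ?_⟩
  rw [← Function.iterate_add_apply, add_comm, Function.iterate_add_apply, ← hy]
  set x := M.ψ^[j] y
  have hx : 3 * ‖y‖ < ‖x‖ := hj y hy0
  have hx0 : 0 < x.im := M.iter_pos j hy0
  have h1 : ‖x‖ ≤ ‖x - y‖ + ‖y‖ := by simpa using norm_add_le (x - y) y
  have h2 : ‖x - conj y‖ ≤ ‖x‖ + ‖y‖ := by simpa using norm_sub_le x (conj y)
  rw [bl, norm_div, le_div_iff₀ (norm_pos_iff.2 (sub_conj_ne hx0 hy0))]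
  linarith

lemma ultra_circle {ζ : ℕ → ℂ} (hζ : ∀ n, 0 < (ζ n).im) {c : ℂ} (hc : ‖c‖ < 1 / 4) {t : ℝ}
    (ht : ‖c‖ ≤ t) (ht' : t ≤ 1 / 4) : ∃ w, ‖w - c‖ = t ∧
      ∀ h, ‖M.uev (fun n => am (M.ψ^[n] (ζ n)) w) h‖ ≤ M.ultraData.p h := by
  have hy0 : ∀ n, 0 < (M.ψ^[n] (ζ n)).im := fun n => M.iter_pos n (hζ n)
  have hex : ∀ n, ∃ ζ' : ℂ, 0 < ζ'.im ∧ ‖bl (M.ψ^[n] (ζ n)) (M.ψ^[n] ζ') - c‖ = t := by
    intro n
    obtain ⟨ζ', hζ', hfar⟩ := M.exists_far n (hζ n)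
    have hc0 : ContinuousOn (fun v => bl (M.ψ^[n] (ζ n)) (M.ψ^[n] v)) {ζ | 0 < ζ.im} :=
      ContinuousOn.comp (g := bl (M.ψ^[n] (ζ n))) (differentiableOn_bl (hy0 n)).continuousOn
        (M.iter_diff n).continuousOn fun v hv => M.iter_pos n hv
    have hcont : ContinuousOn (fun v => ‖bl (M.ψ^[n] (ζ n)) (M.ψ^[n] v) - c‖) {ζ | 0 < ζ.im} :=
      (hc0.sub continuousOn_const).norm
    have h1 : ‖bl (M.ψ^[n] (ζ n)) (M.ψ^[n] ζ')‖ ≤
        ‖bl (M.ψ^[n] (ζ n)) (M.ψ^[n] ζ') - c‖ + ‖c‖ := by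
      simpa using norm_add_le (bl (M.ψ^[n] (ζ n)) (M.ψ^[n] ζ') - c) c
    have h2 : ‖bl (M.ψ^[n] (ζ n)) (M.ψ^[n] (ζ n)) - c‖ ≤ t := by
      rw [bl_self, zero_sub, norm_neg]; exact ht
    have h3 : t ≤ ‖bl (M.ψ^[n] (ζ n)) (M.ψ^[n] ζ') - c‖ := by linarith
    exact convex_H.isPreconnected.intermediate_value (hζ n) hζ' hcont ⟨h2, h3⟩
  choose v hv hvt using hex
  obtain ⟨w, hw⟩ : ∃ w : ℕ → ℂ, ∀ n, w n = bl (M.ψ^[n] (ζ n)) (M.ψ^[n] (v n)) := ⟨_, fun _ => rfl⟩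
  have hwb : ∀ n, ‖w n‖ ≤ 1 / 2 := fun n => by
    have : ‖w n‖ ≤ ‖w n - c‖ + ‖c‖ := by simpa using norm_add_le (w n - c) c
    have := hvt n
    rw [← hw] at this
    linarith
  have hwt := tendsto_uf hwb
  have hw0 : ‖limUnder uf w‖ ≤ 1 / 2 := le_of_tendsto' hwt.norm hwb
  have hc1 : ‖limUnder uf w - c‖ = t :=
    tendsto_nhds_unique (hwt.sub_const c).norm
      (tendsto_const_nhds.congr fun n => by rw [hw, hvt])
  generalize limUnder uf w = w0 at hwt hw0 hc1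
  refine ⟨w0, hc1, fun h => ?_⟩
  apply M.ultraData.le_p
  intro j
  have t1 := (M.tendsto_uev_moving hy0 (hw0.trans_lt (by norm_num)) hwt h).norm
  have t2 := tendsto_uq ((M.ultraData.T ^ j) h)
  show _ ≤ uq ((M.ultraData.T ^ j) h)
  refine le_of_tendsto_of_tendsto t1 t2 ?_
  filter_upwards [uf_le (eventually_ge_atTop j)] with n hn
  obtain ⟨k, rfl⟩ := Nat.exists_eq_add_of_le hn
  rw [hw, am_bl (hy0 _) (M.iter_pos _ (hv _)), M.ultra_pow, Function.iterate_add_apply,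
    ← M.E_pow j _ (M.iter_pos k (hv _))]
  exact M.E_le _ _

lemma ultra_all {ζ : ℕ → ℂ} (hζ : ∀ n, 0 < (ζ n).im) : ∀ w ∈ ball (0 : ℂ) 1,
    ∀ h, ‖M.uev (fun n => am (M.ψ^[n] (ζ n)) w) h‖ ≤ M.ultraData.p h := by
  have hy0 : ∀ n, 0 < (M.ψ^[n] (ζ n)).im := fun n => M.iter_pos n (hζ n)
  refine M.ultraData.propagate (fun w => M.uev fun n => am (M.ψ^[n] (ζ n)) w) (fun h => ?_)
    (fun w _ h => ?_) (w0 := 0) (by simp) (δ := 1 / 4) (by norm_num) fun c hc t ht ht' => ?_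
  · exact differentiableOn_ulim (F := fun n w => M.E (am (M.ψ^[n] (ζ n)) w) (h n)) (B := ‖h‖)
      (fun n => M.diff_am (hy0 n) (h n)) fun n w => (M.E_le _ _).trans (h.norm_coe_le_norm n)
  · exact le_of_tendsto_of_tendsto' (M.tendsto_uev _ h).norm (tendsto_uq h) fun n => M.E_le _ _
  · rw [sub_zero] at hc ht
    exact M.ultra_circle hζ hc ht ht'

/-- Finite form of the hull lemma. -/
theorem hullFin (m : ℕ) (ρ ε : ℝ) (hε : 0 < ε) : ∃ N : ℕ, ∀ ζ z : ℂ, 0 < ζ.im → 0 < z.im →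
    hh z (M.ψ^[N] ζ) ≤ ρ → ∀ g : A, ‖g‖ ≤ 1 → ‖M.E z g‖ ≤ ‖(M.T ^ m) g‖ + ε := by
  by_contra hcon
  push Not at hcon
  choose ζ z hζ hz hρ g hg hlt using hcon
  have hy0 : ∀ n, 0 < (M.ψ^[n] (ζ n)).im := fun n => M.iter_pos n (hζ n)
  obtain ⟨w, hw⟩ : ∃ w : ℕ → ℂ, ∀ n, w n = bl (M.ψ^[n] (ζ n)) (z n) := ⟨_, fun _ => rfl⟩
  have hwb : ∀ n, ‖w n‖ ≤ 1 := fun n => by rw [hw]; exact (norm_bl_lt (hy0 n) (hz n)).le
  have hwt := tendsto_uf hwb
  have hρ0 : 0 ≤ ρ := (hh_nonneg (hz 0) (hy0 0)).trans (hρ 0)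
  have hw0 : ‖limUnder uf w‖ < 1 := by
    have h1 : ‖limUnder uf w‖ ^ 2 ≤ 1 - 4 / (ρ + 4) := by
      refine le_of_tendsto' (hwt.norm.pow 2) fun n => ?_
      have a := one_sub_norm_bl_sq (hy0 n) (hz n)
      have b : 4 / (ρ + 4) ≤ 4 / (hh (z n) (M.ψ^[n] (ζ n)) + 4) := by
        have := hh_nonneg (hz n) (hy0 n)
        gcongr
        exact hρ n
      rw [hw]
      linarith
    have h2 : 0 < 4 / (ρ + 4) := by positivity
    nlinarith [norm_nonneg (limUnder uf w)]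
  obtain ⟨G, hG⟩ : ∃ G : ℕ →ᵇ A, ∀ n, G n = g n :=
    ⟨ofNormedAddCommGroupDiscrete g 1 hg, fun _ => rfl⟩
  have h1 : _ ≤ uq ((M.ultraData.T ^ m) G) :=
    (M.ultra_all hζ _ (by simpa using hw0) G).trans (M.ultraData.p_le G m)
  have t1 := (M.tendsto_uev_moving hy0 hw0 hwt G).norm
  have t2 := (tendsto_uq ((M.ultraData.T ^ m) G)).add_const ε
  have h2 := le_of_tendsto_of_tendsto' t2 t1 fun n => by
    rw [hw, am_bl (hy0 _) (hz _), M.ultra_pow, hG]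
    exact (hlt n).le
  linarith

end HModel

end

end Pool.Agent.MP_ff3f8e_an.H65
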